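import Mathlib

/-! Asymptotic lemmas used in the tasks Y. -/

namespace Pool.Agent.H622R2.Exp.YAux

open Filter

/-- the largest argument with value at most `l` -/
theorem exists_between' {g : ℕ → ℕ} (hg : Monotone g) (hunb : ∀ l, ∃ n, l < g n) {n₀ l : ℕ}
    (h : g n₀ ≤ l) : ∃ n, n₀ ≤ n ∧ g n ≤ l ∧ l < g (n + 1) := by
  classical
  set m := Nat.find (hunb l) with hm
  have h1 : l < g m := Nat.find_spec (hunb l)
  have h2 : n₀ < m := by
    by_contra hcon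
    push Not at hcon
    exact absurd (lt_of_lt_of_le h1 (hg hcon)) (by omega)
  obtain ⟨n, hn⟩ : ∃ n, m = n + 1 := ⟨m - 1, by omega⟩
  refine ⟨n, by omega, ?_, hn ▸ h1⟩
  have h3 := Nat.find_min (hunb l) (show n < m by omega)
  exact not_lt.mp h3

theorem logb_two_le {N : ℕ} : Real.logb 2 N ≤ (Nat.log 2 N : ℝ) + 1 := by
  rcases Nat.eq_zero_or_pos N with h | h
  · subst h; simp
  · have h1 : N < 2 ^ (Nat.log 2 N + 1) := Nat.lt_pow_succ_log_self (by norm_num) N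
    have h2 : (N : ℝ) ≤ 2 ^ (Nat.log 2 N + 1) := by exact_mod_cast h1.le
    have h3 := Real.logb_le_logb_of_le (b := 2) (by norm_num) (by exact_mod_cast h) h2
    rw [Real.logb_pow, Real.logb_self_eq_one (by norm_num)] at h3
    push_cast at h3
    linarith

theorem tendsto_sq : Tendsto (fun n : ℕ => (2 : ℝ) ^ ((n : ℝ) / 2)) atTop atTop := by
  have h1 : Tendsto (fun n : ℕ => (n : ℝ) / 2) atTop atTop :=
    tendsto_natCast_atTop_atTop.atTop_div_const (by norm_num)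
  have h2 : Tendsto (fun x : ℝ => (2 : ℝ) ^ x) atTop atTop :=
    tendsto_rpow_atTop_of_base_gt_one 2 (by norm_num)
  exact h2.comp h1

theorem pow_bound (n : ℕ) (hn : 3 ≤ n) : (11 / 12 : ℝ) ^ 2 ^ n ≤ 2 ^ (-((2 : ℝ) ^ n / 8)) := by
  obtain ⟨m, rfl⟩ : ∃ m, n = m + 3 := ⟨n - 3, by omega⟩
  have h1 : (2 : ℕ) ^ (m + 3) = 8 * 2 ^ m := by ring
  have h2 : ((2 : ℝ) ^ (m + 3)) / 8 = ((2 ^ m : ℕ) : ℝ) := by push_cast; ring
  rw [h1, pow_mul, h2, Real.rpow_neg (by norm_num), Real.rpow_natCast, ← inv_pow]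
  apply pow_le_pow_left₀ (by positivity)
  norm_num

/-- the error of deterministic algorithms beats a gauge of size `2 ^ (n / 2) + n + 1` -/
theorem ev_det (δ : ℝ) (hδ : 0 < δ) : ∀ᶠ n : ℕ in atTop,
    3 * (11 / 12 : ℝ) ^ 2 ^ n * 2 ^ ((2 : ℝ) ^ ((n : ℝ) / 2) + ((n : ℝ) + 1)) ≤ δ := by
  have hK : ∀ᶠ n : ℕ in atTop, 24 + 8 * (2 + |Real.logb 2 δ|) ≤ (2 : ℝ) ^ ((n : ℝ) / 2) :=
    tendsto_sq.eventually_ge_atTop _
  filter_upwards [hK, eventually_ge_atTop 3] with n hn hn3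
  set x : ℝ := (2 : ℝ) ^ ((n : ℝ) / 2) with hx
  have hx2 : x * x = (2 : ℝ) ^ n := by
    rw [hx, ← Real.rpow_add (by norm_num), add_halves, Real.rpow_natCast]
  have habs : 0 ≤ |Real.logb 2 δ| := abs_nonneg _
  have hx1 : 24 ≤ x := by linarith
  have hnx : (n : ℝ) + 1 ≤ 2 * x := by
    have h1 : 1 + (n : ℝ) / 2 * 1 ≤ (1 + 1 : ℝ) ^ ((n : ℝ) / 2) ∨ (n : ℝ) / 2 < 1 := by
      by_cases h : 1 ≤ (n : ℝ) / 2
      · left
        have := one_add_mul_self_le_rpow_one_add (s := 1) (by norm_num) h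
        linarith
      · right; linarith
    rcases h1 with h1 | h1
    · have : (1 + 1 : ℝ) ^ ((n : ℝ) / 2) = x := by rw [hx]; norm_num
      rw [this] at h1
      linarith
    · linarith
  have h3 : (3 : ℝ) ≤ 2 ^ (2 : ℝ) := by norm_num
  have hδ2 : δ = 2 ^ Real.logb 2 δ := (Real.rpow_logb (by norm_num) (by norm_num) hδ).symm
  have hlow : -|Real.logb 2 δ| ≤ Real.logb 2 δ := neg_abs_le _
  calc 3 * (11 / 12 : ℝ) ^ 2 ^ n * 2 ^ (x + ((n : ℝ) + 1))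
      ≤ 2 ^ (2 : ℝ) * 2 ^ (-((2 : ℝ) ^ n / 8)) * 2 ^ (x + ((n : ℝ) + 1)) := by
        gcongr
        exact pow_bound n hn3
    _ = 2 ^ ((2 : ℝ) + -((2 : ℝ) ^ n / 8) + (x + ((n : ℝ) + 1))) := by
        rw [Real.rpow_add (by norm_num) _ (x + ((n : ℝ) + 1)),
          Real.rpow_add (by norm_num) (2 : ℝ) (-((2 : ℝ) ^ n / 8))]
    _ ≤ 2 ^ Real.logb 2 δ := by
        apply Real.rpow_le_rpow_of_exponent_le (by norm_num)
        rw [← hx2]
        nlinarith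
    _ = δ := hδ2.symm

/-- version for gauges of size `2 ^ (n / 2)` -/
theorem ev_det' (δ : ℝ) (hδ : 0 < δ) : ∀ᶠ n : ℕ in atTop, ∀ y : ℝ, y ≤ (2 : ℝ) ^ ((n : ℝ) / 2) →
    3 * (11 / 12 : ℝ) ^ 2 ^ n * 2 ^ y ≤ δ := by
  filter_upwards [ev_det δ hδ] with n hn y hy
  refine le_trans ?_ hn
  gcongr
  · norm_num
  · have : (0 : ℝ) ≤ n := by positivity
    linarith

/-- the error of nondeterministic algorithms beats a gauge of size `n / 16 + 1` -/
theorem ev_non (δ : ℝ) (hδ : 0 < δ) : ∀ᶠ n : ℕ in atTop, ∀ y : ℝ, y ≤ (n : ℝ) / 16 + 1 →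
    3 / 2 ^ (n / 8) * (2 : ℝ) ^ y ≤ δ := by
  have h1 : Tendsto (fun n : ℕ => (n : ℝ) / 16) atTop atTop :=
    tendsto_natCast_atTop_atTop.atTop_div_const (by norm_num)
  filter_upwards [h1.eventually_ge_atTop (4 - Real.logb 2 δ)] with n hn y hy
  have h2 : (n : ℝ) / 8 - 1 ≤ ((n / 8 : ℕ) : ℝ) := by
    have : n < 8 * (n / 8) + 8 := by omega
    have h : (n : ℝ) < 8 * ((n / 8 : ℕ) : ℝ) + 8 := by exact_mod_cast this
    linarith
  have h3 : (3 : ℝ) ≤ 2 ^ (2 : ℝ) := by norm_num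
  have hδ2 : δ = 2 ^ Real.logb 2 δ := (Real.rpow_logb (by norm_num) (by norm_num) hδ).symm
  calc 3 / 2 ^ (n / 8) * (2 : ℝ) ^ y ≤ 2 ^ (2 : ℝ) / 2 ^ (((n / 8 : ℕ) : ℝ)) * (2 : ℝ) ^ y := by
        rw [Real.rpow_natCast]; gcongr
    _ = 2 ^ ((2 : ℝ) - ((n / 8 : ℕ) : ℝ) + y) := by
        rw [Real.rpow_add (by norm_num), Real.rpow_sub (by norm_num)]
    _ ≤ 2 ^ Real.logb 2 δ := by
        apply Real.rpow_le_rpow_of_exponent_le (by norm_num)
        linarith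
    _ = δ := hδ2.symm

/-- every polynomial is bounded by a power of `n + 2` -/
theorem poly_bound (q : Polynomial ℕ) : ∃ D : ℕ, 1 ≤ D ∧ ∀ n : ℕ, q.eval n ≤ (n + 2) ^ D := by
  induction q using Polynomial.induction_on' with
  | add p q hp hq =>
    obtain ⟨D, hD, h1⟩ := hp
    obtain ⟨D', hD', h2⟩ := hq
    refine ⟨D + D' + 1, by omega, fun n => ?_⟩
    rw [Polynomial.eval_add]
    have a1 : (n + 2) ^ D ≤ (n + 2) ^ (D + D') := Nat.pow_le_pow_right (by omega) (by omega)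
    have a2 : (n + 2) ^ D' ≤ (n + 2) ^ (D + D') := Nat.pow_le_pow_right (by omega) (by omega)
    calc p.eval n + q.eval n ≤ (n + 2) ^ (D + D') + (n + 2) ^ (D + D') :=
          add_le_add ((h1 n).trans a1) ((h2 n).trans a2)
      _ = 2 * (n + 2) ^ (D + D') := by ring
      _ ≤ (n + 2) * (n + 2) ^ (D + D') := Nat.mul_le_mul_right _ (by omega)
      _ = (n + 2) ^ (D + D' + 1) := by ring
  | monomial k a =>
    refine ⟨a + k + 1, by omega, fun n => ?_⟩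
    rw [Polynomial.eval_monomial]
    have h1 : a ≤ (n + 2) ^ a := (Nat.lt_pow_self (by omega)).le
    have h2 : n ^ k ≤ (n + 2) ^ k := Nat.pow_le_pow_left (by omega) k
    calc a * n ^ k ≤ (n + 2) ^ a * (n + 2) ^ k := Nat.mul_le_mul h1 h2
      _ = (n + 2) ^ (a + k) := by rw [pow_add]
      _ ≤ (n + 2) ^ (a + k + 1) := Nat.pow_le_pow_right (by omega) (by omega)

theorem eval_lin (c n : ℕ) : (Polynomial.C c * (Polynomial.X + 1)).eval n = c * (n + 1) := by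
  simp

/-- the choice of the input length for linear exponents -/
theorem choose_lin (c n₀ : ℕ) (hc : 1 ≤ c) {N : ℕ} (hN : 2 ^ 2 ^ (c * (n₀ + 1)) ≤ N) :
    ∃ n, n₀ ≤ n ∧ 2 ^ 2 ^ (c * (n + 1)) ≤ N ∧ 1 ≤ Real.logb 2 N ∧
      Real.logb 2 N ≤ 2 ^ ((c : ℝ) * ((n : ℝ) + 2)) := by
  have hNpos : N ≠ 0 := by
    have : 0 < 2 ^ 2 ^ (c * (n₀ + 1)) := by positivity
    omega
  have hL : 2 ^ (c * (n₀ + 1)) ≤ Nat.log 2 N := Nat.le_log_of_pow_le (by norm_num) hN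
  have hmono : Monotone (fun n : ℕ => 2 ^ (c * (n + 1))) := by
    intro a b hab
    exact Nat.pow_le_pow_right (by norm_num) (Nat.mul_le_mul_left c (by omega))
  have hunb : ∀ l, ∃ n, l < (fun n : ℕ => 2 ^ (c * (n + 1))) n := by
    intro l
    refine ⟨l, ?_⟩
    calc l < 2 ^ l := Nat.lt_two_pow_self
      _ ≤ 2 ^ (c * (l + 1)) := Nat.pow_le_pow_right (by norm_num) (by nlinarith)
  obtain ⟨n, hn, h1, h2⟩ := exists_between' hmono hunb hL
  refine ⟨n, hn, ?_, ?_, ?_⟩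
  · exact (Nat.pow_le_pow_right (by norm_num) h1).trans (Nat.pow_log_le_self 2 hNpos)
  · have h3 : (2:ℝ) ≤ N := by
      have : 2 ^ 1 ≤ 2 ^ 2 ^ (c * (n₀ + 1)) :=
        Nat.pow_le_pow_right (by norm_num) (Nat.one_le_two_pow)
      exact_mod_cast (this.trans hN)
    rw [Real.le_logb_iff_rpow_le (by norm_num) (by linarith)]
    simpa using h3
  · have h3 : Nat.log 2 N + 1 ≤ 2 ^ (c * (n + 2)) := h2
    have h4 : ((Nat.log 2 N : ℕ) : ℝ) + 1 ≤ 2 ^ (c * (n + 2)) := by exact_mod_cast h3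
    have h5 : (2 : ℝ) ^ ((c : ℝ) * ((n : ℝ) + 2)) = 2 ^ (c * (n + 2)) := by
      rw [← Real.rpow_natCast]; push_cast; rfl
    rw [h5]
    exact logb_two_le.trans h4

/-- the choice of the input length for polynomial exponents: `g` is a bound for the exponent -/
theorem choose_pol {g : ℕ → ℕ} (hg : Monotone g) (hunb : ∀ l, ∃ n, l < g n) (n₀ : ℕ)
    {N : ℕ} (hN : 2 ^ 2 ^ (g n₀) ≤ N) (h4 : 4 ≤ N) :
    ∃ n, n₀ ≤ n ∧ 2 ^ 2 ^ (g n) ≤ N ∧ 1 ≤ Real.logb 2 (Real.logb 2 N) ∧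
      Real.logb 2 (Real.logb 2 N) ≤ (g (n + 1) : ℝ) := by
  have hNpos : N ≠ 0 := by omega
  have hL : 2 ^ g n₀ ≤ Nat.log 2 N := Nat.le_log_of_pow_le (by norm_num) hN
  have hLpos : Nat.log 2 N ≠ 0 := by
    have : 0 < 2 ^ g n₀ := by positivity
    omega
  have hl : g n₀ ≤ Nat.log 2 (Nat.log 2 N) := Nat.le_log_of_pow_le (by norm_num) hL
  obtain ⟨n, hn, h1, h2⟩ := exists_between' hg hunb hl
  have hlog2 : (2:ℝ) ≤ Real.logb 2 N := by
    have : (4:ℝ) ≤ N := by exact_mod_cast h4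
    rw [Real.le_logb_iff_rpow_le (by norm_num) (by linarith)]
    norm_num
    exact_mod_cast h4
  refine ⟨n, hn, ?_, ?_, ?_⟩
  · have a1 : 2 ^ g n ≤ Nat.log 2 N :=
      (Nat.pow_le_pow_right (by norm_num) h1).trans (Nat.pow_log_le_self 2 hLpos)
    exact (Nat.pow_le_pow_right (by norm_num) a1).trans (Nat.pow_log_le_self 2 hNpos)
  · rw [Real.le_logb_iff_rpow_le (by norm_num) (by linarith)]
    simpa using hlog2
  · have a2 : Nat.log 2 N < 2 ^ (Nat.log 2 (Nat.log 2 N) + 1) :=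
      Nat.lt_pow_succ_log_self (by norm_num) _
    have a3 : ((Nat.log 2 N : ℕ) : ℝ) + 1 ≤ 2 ^ (Nat.log 2 (Nat.log 2 N) + 1) := by
      exact_mod_cast a2
    have a4 : Real.logb 2 N ≤ 2 ^ (Nat.log 2 (Nat.log 2 N) + 1) := logb_two_le.trans a3
    have a5 := Real.logb_le_logb_of_le (b := 2) (by norm_num) (by linarith) a4
    rw [Real.logb_pow, Real.logb_self_eq_one (by norm_num)] at a5
    have a6 : ((Nat.log 2 (Nat.log 2 N) + 1 : ℕ) : ℝ) ≤ g (n + 1) := by exact_mod_cast h2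
    linarith

end Pool.Agent.H622R2.Exp.YAux
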