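import Pool.Agent.H622R2.Exp.Defs
import Pool.Agent.H620R2.Gauge2.Base
import Pool.Agent.H620R2.Gauge.M

/-!
# The objects of the proof
-/

namespace Pool.Agent.H622R2.Exp

open Pool.Agent.NPC Pool.Agent.H620R2.Gauge Finset H568R2

/-- closure properties of the set of exponents -/
structure Good (E : Set (Polynomial ℕ)) : Prop where
  lin : ∀ c : ℕ, Polynomial.C c * (Polynomial.X + 1) ∈ E
  add : ∀ q ∈ E, ∀ r ∈ E, q + r ∈ E
  comp : ∀ q ∈ E, ∀ b : Polynomial ℕ, ∃ r ∈ E, ∀ n : ℕ, b.eval (n + 2 ^ q.eval n) ≤ 2 ^ r.eval n

/-- `x` with a padding of length `2 ^ q(|x|)` -/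
noncomputable def padq (q : Polynomial ℕ) (x : List Bool) : List Bool :=
  pairBits x (List.replicate (2 ^ q.eval x.length) true)

/-- the exponent of the padding in the test languages -/
noncomputable def q4 : Polynomial ℕ := Polynomial.C 4 * (Polynomial.X + 1)

/-- the length of `padq q4 x` for `|x| = n` -/
def mm (n : ℕ) : ℕ := 2 * n + 1 + 2 ^ (4 * (n + 1))

/-- the test language for nondeterministic time -/
def hit2 (A : Oracle) : Set (List Bool) := {x | padq q4 x ∈ hitLang A}

/-- the test language for space -/
def par2 (A : Oracle) : Set (List Bool) := {x | padq q4 x ∈ parLang A}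

/-- the sparse test language -/
def hitS (A : Oracle) : Set (List Bool) :=
  {x | (∃ i j : ℕ, x = List.replicate i true ++ List.replicate j false) ∧ padq q4 x ∈ hitLang A}

/-- The code string for the question whether algorithm number `e` accepts `x`. -/
noncomputable def codeE (r : Polynomial ℕ) (e : ℕ) (x : List Bool) : List Bool :=
  List.replicate e true ++ false :: (List.replicate (2 ^ r.eval x.length) true ++ false :: x)

/-- The code string for digit number `i` of the census number of the language number `e` at the
scale `k`. -/
noncomputable def codeC (r : Polynomial ℕ) (sc : ℕ → ℕ) (e k i : ℕ) : List Bool :=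
  List.replicate e true ++ false :: (List.replicate k true ++ false ::
    (List.replicate i true ++ false :: List.replicate (2 ^ r.eval (sc k)) true))

/-- the number of the strings of length at most `n` in `L` -/
noncomputable def cens (L : Set (List Bool)) (n : ℕ) : ℕ :=
  Set.ncard {x : List Bool | x ∈ L ∧ x.length ≤ n}

section

variable {I : Type*} [DecidableEq I]

/-- put the bits in `P` -/
def pl (P : Finset I) (a : I → Bool) : I → Bool := fun i => if i ∈ P then true else a i

/-- the indicator that all bits in `P` are true -/
noncomputable def ones1 (P : Finset I) (a : I → Bool) : ℝ := if ∀ i ∈ P, a i = true then 1 else 0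

/-- the union of the chosen windows of the blocks in `S` -/
def PS {τ C : Type*} (W : τ → C → Finset I) (S : Finset τ) (η : τ → C) : Finset I :=
  S.biUnion fun t => W t (η t)

/-- the functions `V k` say for every block whether no window is all true -/
def Corr {κ J : Type*} (W : κ → J → Finset I) (V : κ → (I → Bool) → Bool) (a : I → Bool) : Prop :=
  ∀ k, (V k a = true ↔ ¬ HitF (W k) a)

end

/-- what a certificate for the complement contains: certificates for members of the language (entry
number `i` is for the string `str i`), and a padding -/
abbrev Dat : Type := List (Option (List Bool)) × List Bool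

/-- the code strings for the first `b` digits of a census number, made from the padding -/
def cqs (e k b : ℕ) (pd : List Bool) : List (List Bool) :=
  (List.range b).map fun i => List.replicate e true ++ false :: (List.replicate k true ++ false ::
    (List.replicate i true ++ false :: pd))

open Classical in
/-- the verifier for the complement -/
noncomputable def Ver (A : Oracle) (V : List Bool → List Bool) (q r : Polynomial ℕ) (e : ℕ)
    (sc β κ : ℕ → ℕ) (z : List Bool) : List Bool :=
  match unbits Dat (unpair z).1 with
  | none => []
  | some d =>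
    if d.2 = List.replicate (2 ^ r.eval (sc (κ (unpair z).2.length))) true ∧
      (∀ (i : ℕ) (w : List Bool), d.1[i]? = some (some w) →
        (str i).length ≤ sc (κ (unpair z).2.length) ∧ w.length ≤ 2 ^ q.eval (str i).length ∧
        V (pairBits w (str i)) = [true]) ∧
      (d.1[idx (unpair z).2]?).join = none ∧
      valB ((cqs e (κ (unpair z).2.length) (β (κ (unpair z).2.length)) d.2).map A) =
        (d.1.filter Option.isSome).length
    then [true] else []

/-- for all exponents in `E` the gauge is infinitely often so small that errors `err` suffice -/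
def Asy (E : Set (Polynomial ℕ)) (f : ℕ → ℝ) (err : ℕ → ℝ) : Prop :=
  ∀ q ∈ E, ∀ δ : ℝ, 0 < δ → ∀ n₀ : ℕ, ∃ n N : ℕ, n₀ ≤ n ∧ 2 ^ 2 ^ q.eval n ≤ N ∧
    err n * 2 ^ f N ≤ δ

/-- The event: the algorithm decides the test language for the inputs of length `n`. -/
def EvD (M : Alg) (q : Polynomial ℕ) (n N : ℕ) (a : Fin N → Bool) : Prop :=
  ∀ i < 2 ^ n, (M.run (orc N a) (bitsOf n i) (2 ^ q.eval n) [] = some [true] ↔
    ∃ j < 2 ^ mm n, ∀ l < mm n, orc N a (wit (padq q4 (bitsOf n i)) j l) = true)

/-- The event: the verifier accepts, among the inputs `x k` of length `n`, those which are not in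
the test language. -/
def EvC {κ : Type*} (M : Alg) (q : Polynomial ℕ) (n N : ℕ) (x : κ → List Bool)
    (a : Fin N → Bool) : Prop :=
  ∀ k : κ, ((∃ w : List Bool, w.length ≤ 2 ^ q.eval n ∧
      M.out (orc N a) (pairBits w (x k)) = some [true]) ↔
    ¬ ∃ j < 2 ^ mm n, ∀ l < mm n, orc N a (wit (padq q4 (x k)) j l) = true)

open Classical in
/-- The event: `k` alternations decide the parity test language for the inputs of length `n`. -/
def EvP (M : Alg) (q : Polynomial ℕ) (k n N : ℕ) (a : Fin N → Bool) : Prop :=
  ∀ i < 2 ^ n, (Quant (2 ^ q.eval n) (fun y => if M.out (orc N a) y = some [true] then [true]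
      else []) k true (bitsOf n i) ↔
    Odd ((Finset.range (2 ^ mm n)).filter
      (fun j => orc N a (padq q4 (bitsOf n i) ++ bitsOf (mm n) j) = true)).card)

end Pool.Agent.H622R2.Exp
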