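import Pool.Agent.H622R2.Exp.Base
import Pool.Agent.H620R2.Gauge.Upper

set_option autoImplicit false

/-!
# Task A6: reading one code bit in deterministic exponential time (helper187)
-/

namespace Pool.Agent.H622R2.Exp

open Pool.Agent.NPC Pool.Agent.H620R2.Gauge Finset H568R2

namespace A6

theorem poly_two_pow {α : Type} [TEnc α] {n : α → ℕ} (hn : UPoly n) :
    NPC.Poly (fun a => 2 ^ n a) := by
  have h1 : NPC.Poly (fun a => List.replicate (n a) false) :=
    (NPC.Poly.map (F := fun _ _ => false) hn (NPC.Poly.const false)).congr fun x => by simp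
  refine (NPC.Poly.valBits (NPC.Poly.append h1 (NPC.Poly.const [true]))).congr fun a => ?_
  rw [valB_replicate_false]
  simp

/-- the next action -/
noncomputable def act (r : Polynomial ℕ) (e : ℕ) (p : List Bool × List Bool) : List Bool :=
  if p.2.length < 2 ^ r.eval p.1.length then [false] else
    if p.2.length = 2 ^ r.eval p.1.length then
      false :: (List.replicate e true ++ false :: (p.2.map (fun _ => true) ++ false :: p.1))
    else [true, p.2.reverse.head?.getD false]

theorem poly_act (r : Polynomial ℕ) (e : ℕ) : NPC.Poly (fun y => act r e (unpair y)) := by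
  have hx : NPC.Poly (fun y => (unpair y).1) := NPC.Poly.fst poly_unpair
  have ha : NPC.Poly (fun y => (unpair y).2) := NPC.Poly.snd poly_unpair
  have hR : NPC.Poly (fun y : List Bool => 2 ^ r.eval (unpair y).1.length) :=
    poly_two_pow ((UPoly.length hx).eval r)
  have hm : NPC.Poly (fun y : List Bool => (unpair y).2.map (fun _ => true)) :=
    NPC.Poly.map (F := fun _ _ => true) ha (NPC.Poly.const true)
  unfold act
  refine NPC.Poly.ite (NPC.Poly.decide_lt (NPC.Poly.length ha) hR) (NPC.Poly.const _)
    (NPC.Poly.ite (NPC.Poly.decide_eq (NPC.Poly.length ha) hR) ?_ ?_)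
  · exact NPC.Poly.cons (NPC.Poly.const _) (NPC.Poly.append (NPC.Poly.const _)
      (NPC.Poly.cons (NPC.Poly.const _) (NPC.Poly.append hm (NPC.Poly.cons (NPC.Poly.const _) hx))))
  · exact NPC.Poly.cons (NPC.Poly.const _) (NPC.Poly.cons
      (NPC.Poly.head?_getD (NPC.Poly.reverse ha) false) (NPC.Poly.const _))

/-- the algorithm -/
noncomputable def alg (r : Polynomial ℕ) (e : ℕ) : Alg where
  D := fun y => act r e (unpair y)
  poly := polyTime_of_poly_list (poly_act r e)
  p := 0

theorem alg_D (r : Polynomial ℕ) (e : ℕ) (x a : List Bool) :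
    (alg r e).D (pairBits x a) = act r e (x, a) := by
  change act r e (unpair (pairBits x a)) = _
  rw [unpair_pairBits]

theorem run_alg (r : Polynomial ℕ) (e : ℕ) (A : Oracle) (x : List Bool) : ∀ (n : ℕ)
    (a : List Bool), n + a.length = 2 ^ r.eval x.length →
    (alg r e).run A x (n + 2) a = some [A (codeE r e x)] := by
  intro n
  induction n with
  | zero =>
    intro a ha
    rw [Nat.zero_add] at ha
    have h1 : (alg r e).D (pairBits x a) = false :: codeE r e x := by
      rw [alg_D]
      unfold act
      rw [if_neg (by simp only; omega), if_pos (by simp only; omega)]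
      unfold codeE
      simp only
      rw [List.map_const', ha]
    have h2 : (alg r e).D (pairBits x (a ++ [A (codeE r e x)])) =
        true :: [A (codeE r e x)] := by
      rw [alg_D]
      unfold act
      rw [if_neg (by simp only [List.length_append, List.length_singleton]; omega),
        if_neg (by simp only [List.length_append, List.length_singleton]; omega)]
      simp
    simp only [Nat.zero_add, Alg.run, h1, h2]
  | succ n ih =>
    intro a ha
    have h1 : (alg r e).D (pairBits x a) = false :: [] := by
      rw [alg_D]
      unfold act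
      rw [if_pos (by simp only; omega)]
    have h2 := ih (a ++ [A []]) (by rw [List.length_append, List.length_singleton]; omega)
    have h3 : n + 1 + 2 = (n + 2) + 1 := by ring
    rw [h3, Alg.run]
    simp only [h1]
    exact h2

end A6

theorem inTime_code {E : Set (Polynomial ℕ)} (hE : Good E) (A : Oracle) {r : Polynomial ℕ}
    (hr : r ∈ E) (e : ℕ) : InTime E A {x | A (codeE r e x) = true} := by
  refine ⟨A6.alg r e, r + Polynomial.C 2 * (Polynomial.X + 1), hE.add _ hr _ (hE.lin 2),
    fun x => ⟨[A (codeE r e x)], ?_, ?_⟩⟩
  · refine Alg.run_mono _ A x _ (2 ^ r.eval x.length + 2) _ [] ?_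
      (A6.run_alg r e A x _ [] (by simp))
    have h1 : (r + Polynomial.C 2 * (Polynomial.X + 1)).eval x.length =
        r.eval x.length + 2 * (x.length + 1) := by simp
    have h2 : 2 ^ (r.eval x.length + 2) ≤ 2 ^ (r.eval x.length + 2 * (x.length + 1)) :=
      Nat.pow_le_pow_right (by norm_num) (by omega)
    have h3 : 1 ≤ 2 ^ r.eval x.length := Nat.one_le_two_pow
    rw [h1]
    rw [pow_add] at h2
    omega
  · simp

end Pool.Agent.H622R2.Exp
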