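import Pool.Agent.H622R2.Exp.Base
import Pool.Agent.H620R2.Gauge.A1
import Pool.Agent.H620R2.Gauge.C

/-!
# Task A1: oracle algorithms ask few short questions
-/

namespace Pool.Agent.H622R2.Exp

open Pool.Agent.NPC Pool.Agent.H620R2.Gauge

namespace A1

theorem polyTime_length {D : List Bool → List Bool} (hD : PolyTime D) :
    ∃ b : Polynomial ℕ, ∀ x a : List Bool, (D (pairBits x a)).length ≤ b.eval (x.length + a.length) := by
  obtain ⟨q, hq⟩ := (Pool.Agent.H622R2.poly_of_polyTime hD).sz_le
  refine ⟨q.comp (Polynomial.C 4 * (Polynomial.C 2 * Polynomial.X + Polynomial.C 1) +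
    Polynomial.C 1), fun x a => ?_⟩
  have h1 := length_lt_sz (D (pairBits x a))
  refine h1.le.trans ((hq _).trans ?_)
  rw [Polynomial.eval_comp]
  apply eval_mono
  have h2 := sz_listBool_le (pairBits x a)
  rw [length_pairBits] at h2
  simp only [Polynomial.eval_add, Polynomial.eval_mul, Polynomial.eval_C, Polynomial.eval_X]
  omega

end A1

theorem run_local (M : Alg) : ∃ b : Polynomial ℕ, ∀ (A : Oracle) (x : List Bool) (n : ℕ),
    ∃ Q : Finset (List Bool), Q.card ≤ n ∧ (∀ q ∈ Q, q.length ≤ b.eval (x.length + n)) ∧
      ∀ A' : Oracle, (∀ q ∈ Q, A' q = A q) → M.run A' x n [] = M.run A x n [] := by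
  classical
  obtain ⟨b, hb⟩ := A1.polyTime_length M.poly
  refine ⟨b, fun A x N => ?_⟩
  have key : ∀ (n : ℕ) (a : List Bool), a.length + n ≤ N →
      ∃ Q : Finset (List Bool), Q.card ≤ n ∧ (∀ q ∈ Q, q.length ≤ b.eval (x.length + N)) ∧
        ∀ A' : Oracle, (∀ q ∈ Q, A' q = A q) → M.run A' x n a = M.run A x n a := by
    intro n
    induction n with
    | zero =>
      intro a _
      exact ⟨∅, by simp, by simp, fun A' _ => rfl⟩
    | succ n ih =>
      intro a ha
      have hD := hb x a
      have hmono : b.eval (x.length + a.length) ≤ b.eval (x.length + N) :=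
        eval_mono b (by omega)
      rcases hq : M.D (pairBits x a) with _ | ⟨c, q⟩
      · exact ⟨∅, by simp, by simp, fun A' _ => by simp only [Alg.run, hq]⟩
      · cases c with
        | true => exact ⟨∅, by simp, by simp, fun A' _ => by simp only [Alg.run, hq]⟩
        | false =>
          obtain ⟨Q, h1, h2, h3⟩ := ih (a ++ [A q]) (by
            rw [List.length_append, List.length_singleton]; omega)
          refine ⟨insert q Q, (Finset.card_insert_le _ _).trans (by omega), ?_, ?_⟩
          · intro r hr
            rcases Finset.mem_insert.1 hr with rfl | hr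
            · rw [hq, List.length_cons] at hD
              omega
            · exact h2 r hr
          · intro A' hA'
            simp only [Alg.run, hq]
            rw [hA' q (Finset.mem_insert_self _ _)]
            exact h3 A' fun r hr => hA' r (Finset.mem_insert_of_mem hr)
  exact key N [] (by simp)

/-- the next action of a space bounded algorithm has polynomially bounded length -/
theorem act_length2 (M : SAlg) : ∃ b : Polynomial ℕ, ∀ x a : List Bool,
    (M.act (pairBits x a)).length ≤ b.eval (x.length + a.length) :=
  A1.polyTime_length M.act_poly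

end Pool.Agent.H622R2.Exp
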