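import Pool.Agent.H622R2.Exp.Base
import Pool.Agent.H620R2.Gauge.Upper
import Pool.Agent.NPC.Num

/-!
# Task A2: deterministic, nondeterministic and alternating time
-/

namespace Pool.Agent.H622R2.Exp

open Pool.Agent.NPC Pool.Agent.H620R2.Gauge

namespace A2

/-- simulate the algorithm with question function `D` for at most `|w|` rounds -/
def simD (D : List Bool → List Bool) (y : List Bool) : List Bool :=
  if (unpair y).2.length < (unpair (unpair y).1).1.length then
    D (pairBits (unpair (unpair y).1).2 (unpair y).2) else [true]

theorem poly_simD {D : List Bool → List Bool} (hD : PolyTime D) : PolyTime (simD D) := by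
  have hD' := poly_of_polyTime hD
  have h1 : NPC.Poly (fun y : List Bool => (unpair y).1) := NPC.Poly.fst poly_unpair
  have h2 : NPC.Poly (fun y : List Bool => (unpair y).2) := NPC.Poly.snd poly_unpair
  have h3 : NPC.Poly (fun y : List Bool => unpair (unpair y).1) := poly_unpair.comp h1
  refine polyTime_of_poly_list ?_
  exact NPC.Poly.ite (p := fun y : List Bool =>
    (unpair y).2.length < (unpair (unpair y).1).1.length)
    (NPC.Poly.decide_lt (NPC.Poly.length h2) (NPC.Poly.length (NPC.Poly.fst h3)))
    (hD'.comp (poly_pairBits (NPC.Poly.snd h3) h2)) (NPC.Poly.const _)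

theorem simD_pair (D : List Bool → List Bool) (w x a : List Bool) :
    simD D (pairBits (pairBits w x) a) = if a.length < w.length then D (pairBits x a)
      else [true] := by
  unfold simD
  rw [unpair_pairBits]
  change (if a.length < (unpair (pairBits w x)).1.length then
    D (pairBits (unpair (pairBits w x)).2 a) else [true]) = _
  rw [unpair_pairBits]

theorem exists_bound : ∃ p : Polynomial ℕ, ∀ z : List Bool,
    (unpair z).1.length + 1 ≤ p.eval z.length := by
  have h1 : NPC.Poly (fun z : List Bool => (unpair z).1) := NPC.Poly.fst poly_unpair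
  obtain ⟨q, hq⟩ := h1.sz_le
  refine ⟨q.comp (Polynomial.C 4 * Polynomial.X + Polynomial.C 1), fun z => ?_⟩
  have h2 := length_lt_sz (unpair z).1
  have h3 := hq z
  rw [Polynomial.eval_comp]
  refine Nat.succ_le_of_lt (lt_of_lt_of_le h2 (h3.trans (eval_mono _ ?_)))
  have h5 := sz_listBool_le z
  simpa using h5

end A2

open A2 in
/-- deterministic time is contained in nondeterministic time -/
theorem InTime.isNTime {E : Set (Polynomial ℕ)} {A : Oracle} {L : Set (List Bool)}
    (h : InTime E A L) : InNTime E A L := by
  obtain ⟨M, q, hq, hM⟩ := h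
  obtain ⟨p, hp⟩ := exists_bound
  let N : Alg := ⟨simD M.D, poly_simD M.poly, p⟩
  -- one step of `N`
  have hND : ∀ z a, N.D (pairBits z a) = if a.length < (unpair z).1.length then
      M.D (pairBits (unpair z).2 a) else [true] := by
    intro z a
    change simD M.D (pairBits z a) = _
    unfold simD
    rw [unpair_pairBits]
  have hstop : ∀ z, ∀ n (a : List Bool), a.length + n = (unpair z).1.length →
      (∀ v, M.run A (unpair z).2 n a = some v → N.run A z (n + 1) a = some v) ∧
      (M.run A (unpair z).2 n a = none → N.run A z (n + 1) a = some []) := by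
    intro z n
    induction n with
    | zero =>
      intro a ha
      refine ⟨fun v h => by simp [Alg.run] at h, fun _ => ?_⟩
      have h1 : N.D (pairBits z a) = [true] := by
        rw [hND, if_neg (by omega)]
      simp only [Alg.run, h1]
    | succ n ih =>
      intro a ha
      have h1 : N.D (pairBits z a) = M.D (pairBits (unpair z).2 a) := by
        rw [hND, if_pos (by omega)]
      rcases hq : M.D (pairBits (unpair z).2 a) with _ | ⟨c, r⟩
      · rw [hq] at h1
        refine ⟨fun v h => ?_, fun h => ?_⟩
        · rw [Alg.run, hq] at h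
          rw [Alg.run, h1]
          exact h
        · rw [Alg.run, hq] at h
          simp at h
      · rw [hq] at h1
        cases c with
        | true =>
          refine ⟨fun v h => ?_, fun h => ?_⟩
          · rw [Alg.run, hq] at h
            rw [Alg.run, h1]
            exact h
          · rw [Alg.run, hq] at h
            simp at h
        | false =>
          obtain ⟨i1, i2⟩ := ih (a ++ [A r]) (by
            rw [List.length_append, List.length_singleton]; omega)
          refine ⟨fun v h => ?_, fun h => ?_⟩
          · rw [Alg.run, hq] at h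
            rw [Alg.run, h1]
            exact i1 v h
          · rw [Alg.run, hq] at h
            rw [Alg.run, h1]
            exact i2 h
  have hout : ∀ z, ∃ v, N.out A z = some v := by
    intro z
    obtain ⟨i1, i2⟩ := hstop z (unpair z).1.length [] (by simp)
    rcases hr : M.run A (unpair z).2 (unpair z).1.length [] with _ | v
    · exact ⟨_, Alg.run_mono N A z _ _ _ _ (hp z) (i2 hr)⟩
    · exact ⟨_, Alg.run_mono N A z _ _ _ _ (hp z) (i1 v hr)⟩
  choose V hV using hout
  refine ⟨V, ⟨N, hV⟩, q, hq, fun x => ?_⟩
  obtain ⟨z0, hz0, hz0'⟩ := hM x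
  rw [hz0']
  constructor
  · intro h
    subst h
    refine ⟨List.replicate (2 ^ q.eval x.length) true, by simp, ?_⟩
    obtain ⟨i1, _⟩ := hstop (pairBits (List.replicate (2 ^ q.eval x.length) true) x)
      (2 ^ q.eval x.length) [] (by rw [unpair_pairBits]; simp)
    have h1 := i1 [true] (by rw [unpair_pairBits]; exact hz0)
    have hb := hp (pairBits (List.replicate (2 ^ q.eval x.length) true) x)
    rw [unpair_pairBits, List.length_replicate] at hb
    have h2 := Alg.run_mono N A _ _ _ _ _ hb h1
    have h3 := hV (pairBits (List.replicate (2 ^ q.eval x.length) true) x)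
    unfold Alg.out at h3
    have h4 : N.p = p := rfl
    rw [h4, h2] at h3
    exact (Option.some.inj h3).symm
  · rintro ⟨w, hw, hVw⟩
    obtain ⟨i1, i2⟩ := hstop (pairBits w x) w.length [] (by rw [unpair_pairBits]; simp)
    rw [unpair_pairBits] at i1 i2
    have h3 := hV (pairBits w x)
    rw [hVw] at h3
    have hb := hp (pairBits w x)
    rw [unpair_pairBits] at hb
    rcases hr : M.run A x w.length [] with _ | v
    · have h4 := Alg.run_mono N A _ _ _ _ _ hb (i2 hr)
      unfold Alg.out at h3
      have h5 : N.p = p := rfl
      rw [h5, h4] at h3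
      simp at h3
    · have h4 := Alg.run_mono N A _ _ _ _ _ hb (i1 v hr)
      unfold Alg.out at h3
      have h5 : N.p = p := rfl
      rw [h5, h4] at h3
      have h6 : v = [true] := Option.some.inj h3
      have h7 := Alg.run_mono M A _ _ _ _ _ hw hr
      rw [hz0] at h7
      rw [Option.some.inj h7, h6]

theorem InNTime.isAlt {E : Set (Polynomial ℕ)} {A : Oracle} {L : Set (List Bool)}
    (h : InNTime E A L) : InAlt E A L := by
  obtain ⟨V, hV, q, hq, hL⟩ := h
  exact ⟨V, hV, q, hq, 1, fun x => hL x⟩

end Pool.Agent.H622R2.Exp
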