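import Pool.Agent.H622R2.Exp.Base
import Pool.Agent.H620R2.GaugeR.Seq

/-!
# Task A3: `NP` with padded input is in nondeterministic exponential time
-/

namespace Pool.Agent.H622R2.Exp

open Pool.Agent.NPC Pool.Agent.H620R2.Gauge Finset H568R2

namespace A3

/-- the certificate inside the certificate -/
def ww (z : List Bool) : List Bool := (unpair (unpair z).1).1

/-- the padding inside the certificate -/
def tt (z : List Bool) : List Bool := (unpair (unpair z).1).2

/-- the input -/
def xx (z : List Bool) : List Bool := (unpair z).2

/-- the test: the padding is correct and the certificate is short -/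
def tst (p q : Polynomial ℕ) (z : List Bool) : Prop :=
  ((tt z).all (fun b => b) = true ∧ (tt z).length = 2 ^ q.eval (xx z).length) ∧
    (ww z).length ≤ p.eval (pairBits (xx z) (tt z)).length

instance (p q : Polynomial ℕ) : DecidablePred (tst p q) := fun z => by
  unfold tst; infer_instance

/-- the input of the verifier -/
def gg (z : List Bool) : List Bool := pairBits (ww z) (pairBits (xx z) (tt z))

theorem poly_ww : Poly ww := Poly.fst (poly_unpair.comp (Poly.fst poly_unpair))

theorem poly_tt : Poly tt := Poly.snd (poly_unpair.comp (Poly.fst poly_unpair))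

theorem poly_xx : Poly xx := Poly.snd poly_unpair

theorem poly_gg : Poly gg := H622R2.poly_pairBits poly_ww (H622R2.poly_pairBits poly_xx poly_tt)

theorem poly_tst (p q : Polynomial ℕ) : Poly (fun z => decide (tst p q z)) := by
  have h1 : Poly (fun z => decide ((tt z).all (fun b => b) = true)) :=
    Poly.decide_bool (Poly.all (p := fun _ b => b) poly_tt (Poly.snd Poly.id))
  have h2 : UPoly (fun z => q.eval (xx z).length) := (UPoly.length poly_xx).eval q
  have h3 : Poly (fun z => List.replicate (q.eval (xx z).length) false) :=
    (NPC.Poly.map (F := fun _ _ => false) h2 (NPC.Poly.const false)).congr fun a => by simp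
  have h4 : Poly (fun z => 2 ^ q.eval (xx z).length) :=
    (Poly.valBits (Poly.append h3 (NPC.Poly.const [true]))).congr fun a => by
      rw [valB_replicate_false]
      simp
  have h5 : Poly (fun z => decide ((tt z).length = 2 ^ q.eval (xx z).length)) :=
    Poly.decide_eq (Poly.length poly_tt) h4
  have h6 : Poly (fun z => decide ((ww z).length ≤ p.eval (pairBits (xx z) (tt z)).length)) :=
    Poly.decide_le (Poly.length poly_ww)
      ((UPoly.length (H622R2.poly_pairBits poly_xx poly_tt)).eval p).toPoly
  exact (Poly.decide_and (Poly.decide_and h1 h5) h6).congr fun z => by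
    unfold tst
    rfl

theorem tst_iff (p q : Polynomial ℕ) (z : List Bool) : tst p q z ↔
    tt z = List.replicate (2 ^ q.eval (xx z).length) true ∧
    (ww z).length ≤ p.eval (pairBits (xx z) (tt z)).length := by
  unfold tst
  rw [List.eq_replicate_iff, List.all_eq_true, and_comm (a := (tt z).length = _)]

end A3

open A3 in
theorem IsNP.pad {E : Set (Polynomial ℕ)} (hE : Good E) {A : Oracle} {L : Set (List Bool)}
    (h : IsNP A L) {q : Polynomial ℕ} (hq : q ∈ E) : InNTime E A {x | padq q x ∈ L} := by
  obtain ⟨V, p, hV, hVL⟩ := h
  obtain ⟨r, hr, hrb⟩ := hE.comp q hq (Polynomial.C 2 * p.comp (Polynomial.C 2 * Polynomial.X +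
    Polynomial.C 1) + Polynomial.X + Polynomial.C 1)
  have hF : IsFP A (fun z => V (gg z)) := IsFP.comp hV (IsFP.of_poly poly_gg)
  have hG : IsFP A (fun z => z) := IsFP.of_poly Poly.id
  have hS := IsFP.seq (φ := fun p => p.1)
    (ψ := fun u : List Bool × List Bool × List Bool => if tst p q u.1 then u.2.1 else [])
    hF hG (Poly.fst Poly.id)
    (Poly.ite ((poly_tst p q).comp (Poly.fst Poly.id)) (Poly.fst (Poly.snd Poly.id))
      (NPC.Poly.const []))
  refine ⟨_, hS, r, hr, fun x => ?_⟩
  rw [Set.mem_ofPred_eq, hVL]
  constructor
  · rintro ⟨w, hw, hVw⟩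
    refine ⟨pairBits w (List.replicate (2 ^ q.eval x.length) true), ?_, ?_⟩
    · have h1 := hrb x.length
      simp only [Polynomial.eval_add, Polynomial.eval_mul, Polynomial.eval_comp,
        Polynomial.eval_C, Polynomial.eval_X] at h1
      have h2 := eval_mono p (show (padq q x).length ≤
        2 * (x.length + 2 ^ q.eval x.length) + 1 by
          unfold padq
          rw [Pool.Agent.H620R2.Gauge.A2.length_pairBits, List.length_replicate]
          generalize 2 ^ q.eval x.length = Q
          omega)
      rw [Pool.Agent.H620R2.Gauge.A2.length_pairBits, List.length_replicate]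
      generalize 2 ^ q.eval x.length = Q at *
      generalize 2 ^ r.eval x.length = R at *
      omega
    · have e1 : ww (pairBits (pairBits w (List.replicate (2 ^ q.eval x.length) true)) x) = w := by
        unfold ww; rw [unpair_pairBits, unpair_pairBits]
      have e2 : tt (pairBits (pairBits w (List.replicate (2 ^ q.eval x.length) true)) x) =
          List.replicate (2 ^ q.eval x.length) true := by
        unfold tt; rw [unpair_pairBits, unpair_pairBits]
      have e3 : xx (pairBits (pairBits w (List.replicate (2 ^ q.eval x.length) true)) x) = x := by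
        unfold xx; rw [unpair_pairBits]
      have e4 : tst p q (pairBits (pairBits w (List.replicate (2 ^ q.eval x.length) true)) x) := by
        rw [tst_iff, e1, e2, e3]
        exact ⟨rfl, hw⟩
      simp only
      rw [if_pos e4]
      unfold gg
      rw [e1, e2, e3]
      exact hVw
  · rintro ⟨W, _, hW⟩
    simp only at hW
    by_cases h1 : tst p q (pairBits W x)
    · rw [if_pos h1] at hW
      rw [tst_iff] at h1
      have e3 : xx (pairBits W x) = x := by
        unfold xx; rw [unpair_pairBits]
      rw [e3] at h1
      refine ⟨ww (pairBits W x), ?_, ?_⟩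
      · have := h1.2
        rw [h1.1] at this
        exact this
      · unfold gg at hW
        rw [e3, h1.1] at hW
        exact hW
    · rw [if_neg h1] at hW
      exact absurd hW (by simp)

end Pool.Agent.H622R2.Exp
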