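import Pool.Agent.H622R2.Exp.Base
import Pool.Agent.H620R2.Gauge2.Trans
import Pool.Agent.H671R2.PolyAuto

/-!
# Polynomial space with padded input is in exponential space
-/

namespace Pool.Agent.H622R2.Exp

open Pool.Agent.NPC Pool.Agent.H620R2.Gauge

namespace A4

/-- the input part -/
def inp (z : List Bool) : List Bool := (unpair z).1

/-- the memory part -/
def mem (z : List Bool) : List Bool := (unpair z).2

/-- the next action -/
def act' (M : SAlg) (z : List Bool) : List Bool :=
  if (mem z).all id = true then [false]
  else M.act (pairBits (pairBits (inp z) (unpair (mem z)).1) (unpair (mem z)).2)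

/-- the next memory -/
noncomputable def next' (M : SAlg) (q : Polynomial ℕ) (z : List Bool) : List Bool :=
  if (mem z).tail.all id = true then
    (if (mem z).tail.length < 2 ^ q.eval (inp z).length then true :: (mem z).tail
      else pairBits (mem z).tail [])
  else pairBits (unpair (mem z).tail).1
    (M.next (pairBits (pairBits (inp z) (unpair (mem z).tail).1)
      ((mem z).head?.getD false :: (unpair (mem z).tail).2)))

theorem poly_inp : Poly inp := Poly.fst poly_unpair

theorem poly_mem : Poly mem := Poly.snd poly_unpair

theorem valB_replicate (m : ℕ) : valB (List.replicate m false ++ [true]) = 2 ^ m := by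
  have h : valB (List.replicate m false) = 0 := by
    induction m with
    | zero => rfl
    | succ m ih => rw [List.replicate_succ, valB_cons, ih]; simp
  rw [valB_append, h, List.length_replicate]
  simp

theorem poly_two_pow {α : Type} [TEnc α] {n : α → ℕ} (hn : UPoly n) :
    Poly (fun a => 2 ^ n a) := by
  have h1 : Poly (fun a => List.replicate (n a) false) := by
    have h2 : Poly (fun a => (List.replicate (n a) ()).map (fun _ => false)) :=
      NPC.Poly.map (F := fun _ _ => false) hn (NPC.Poly.const false)
    exact h2.congr fun a => by simp
  have h3 : Poly (fun a => valB (List.replicate (n a) false ++ [true])) :=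
    Poly.valBits (Poly.append h1 (NPC.Poly.const [true]))
  exact h3.congr fun a => valB_replicate (n a)

theorem poly_allid {α : Type} [TEnc α] {l : α → List Bool} (hl : Poly l) :
    Poly (fun a => (l a).all id) :=
  (Poly.all (p := fun _ b => b) hl (Poly.snd Poly.id)).congr fun _ => rfl

theorem poly_act' (M : SAlg) : Poly (act' M) := by
  unfold act'
  refine Poly.ite (Poly.decide_bool (poly_allid poly_mem)) (NPC.Poly.const [false]) ?_
  have h1 : Poly (fun z => unpair (mem z)) := poly_unpair.comp poly_mem
  exact (poly_of_polyTime M.act_poly).comp
    (poly_pairBits (poly_pairBits poly_inp (Poly.fst h1)) (Poly.snd h1))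

theorem poly_next' (M : SAlg) (q : Polynomial ℕ) : Poly (next' M q) := by
  unfold next'
  have ht : Poly (fun z => (mem z).tail) := Poly.tail poly_mem
  have hh : Poly (fun z => (mem z).head?.getD false) :=
    Poly.optGetD (Poly.head? poly_mem) (NPC.Poly.const false)
  have h1 : Poly (fun z => unpair (mem z).tail) := poly_unpair.comp ht
  have h2 : Poly (fun z => 2 ^ q.eval (inp z).length) :=
    poly_two_pow (UPoly.eval (UPoly.length poly_inp) q)
  refine Poly.ite (Poly.decide_bool (poly_allid ht)) ?_ ?_
  · refine Poly.ite (Poly.decide_lt (Poly.length ht) h2) (Poly.cons (NPC.Poly.const true) ht) ?_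
    exact poly_pairBits ht (NPC.Poly.const [])
  · refine poly_pairBits (Poly.fst h1) ?_
    exact (poly_of_polyTime M.next_poly).comp
      (poly_pairBits (poly_pairBits poly_inp (Poly.fst h1)) (Poly.cons hh (Poly.snd h1)))

/-- the new algorithm -/
noncomputable def M' (M : SAlg) (q : Polynomial ℕ) : SAlg :=
  ⟨act' M, polyTime_of_poly_list (poly_act' M), next' M q, polyTime_of_poly_list (poly_next' M q)⟩

theorem not_all_pairBits (t s : List Bool) : (pairBits t s).all id = false := by
  unfold pairBits
  rw [List.all_append]
  simp

theorem all_replicate (k : ℕ) : (List.replicate k true).all id = true := by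
  simp

theorem act_one (M : SAlg) (q : Polynomial ℕ) (x : List Bool) (k : ℕ) :
    (M' M q).act (pairBits x (List.replicate k true)) = [false] := by
  show act' M _ = _
  unfold act' inp mem
  rw [unpair_pairBits]
  simp

theorem act_two (M : SAlg) (q : Polynomial ℕ) (x t s : List Bool) :
    (M' M q).act (pairBits x (pairBits t s)) = M.act (pairBits (pairBits x t) s) := by
  show act' M _ = _
  unfold act' inp mem
  rw [unpair_pairBits, not_all_pairBits, unpair_pairBits]
  simp

theorem next_one_lt (M : SAlg) (q : Polynomial ℕ) (x : List Bool) (b : Bool) (k : ℕ)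
    (hk : k < 2 ^ q.eval x.length) :
    (M' M q).next (pairBits x (b :: List.replicate k true)) = List.replicate (k + 1) true := by
  show next' M q _ = _
  unfold next' inp mem
  rw [unpair_pairBits]
  simp only [List.tail_cons, all_replicate, if_true, List.length_replicate, hk]
  rfl

theorem next_one_ge (M : SAlg) (q : Polynomial ℕ) (x : List Bool) (b : Bool) :
    (M' M q).next (pairBits x (b :: List.replicate (2 ^ q.eval x.length) true)) =
      pairBits (List.replicate (2 ^ q.eval x.length) true) [] := by
  show next' M q _ = _
  unfold next' inp mem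
  rw [unpair_pairBits]
  simp only [List.tail_cons, all_replicate, if_true, List.length_replicate, lt_irrefl, if_false]

theorem next_two (M : SAlg) (q : Polynomial ℕ) (x t s : List Bool) (b : Bool) :
    (M' M q).next (pairBits x (b :: pairBits t s)) =
      pairBits t (M.next (pairBits (pairBits x t) (b :: s))) := by
  show next' M q _ = _
  unfold next' inp mem
  rw [unpair_pairBits]
  simp only [List.tail_cons, not_all_pairBits, unpair_pairBits, List.head?_cons, Option.getD_some]
  simp

theorem reach_iff (M : SAlg) (q : Polynomial ℕ) (A : Oracle) (x s' : List Bool) :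
    (M' M q).Reach A x s' ↔ (∃ k ≤ 2 ^ q.eval x.length, s' = List.replicate k true) ∨
      ∃ s, M.Reach A (padq q x) s ∧
        s' = pairBits (List.replicate (2 ^ q.eval x.length) true) s := by
  constructor
  · intro h
    induction h with
    | start => exact Or.inl ⟨0, Nat.zero_le _, rfl⟩
    | @step s' u _ hact ih =>
      rcases ih with ⟨k, hk, rfl⟩ | ⟨s, hs, rfl⟩
      · rcases Nat.lt_or_ge k (2 ^ q.eval x.length) with hlt | hge
        · left
          exact ⟨k + 1, hlt, next_one_lt M q x _ k hlt⟩
        · right
          have hk' : k = 2 ^ q.eval x.length := le_antisymm hk hge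
          subst hk'
          exact ⟨[], SAlg.Reach.start, next_one_ge M q x _⟩
      · right
        rw [act_two] at hact
        refine ⟨_, SAlg.Reach.step hs hact, ?_⟩
        rw [next_two]
        rfl
  · have h1 : ∀ k ≤ 2 ^ q.eval x.length, (M' M q).Reach A x (List.replicate k true) := by
      intro k
      induction k with
      | zero => intro _; exact SAlg.Reach.start
      | succ k ih =>
        intro hk
        have h2 := SAlg.Reach.step (ih (by omega)) (act_one M q x k)
        rwa [next_one_lt M q x _ k (by omega)] at h2
    rintro (⟨k, hk, rfl⟩ | ⟨s, hs, rfl⟩)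
    · exact h1 k hk
    · induction hs with
      | start =>
        have h2 := SAlg.Reach.step (h1 _ le_rfl) (act_one M q x _)
        rwa [next_one_ge M q x] at h2
      | @step s u _ hact ih =>
        have h3 : (M' M q).act (pairBits x (pairBits (List.replicate (2 ^ q.eval x.length) true) s))
            = false :: u := by
          rw [act_two]
          exact hact
        have h4 := SAlg.Reach.step ih h3
        rw [next_two] at h4
        exact h4

end A4

open A4 in
theorem IsPSPACE.pad {E : Set (Polynomial ℕ)} (hE : Good E) {A : Oracle} {L : Set (List Bool)}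
    (h : IsPSPACE A L) {q : Polynomial ℕ} (hq : q ∈ E) : InSpace E A {x | padq q x ∈ L} := by
  obtain ⟨M, p, hM⟩ := h
  obtain ⟨r, hr, hb⟩ := hE.comp q hq
    (Polynomial.C 2 * Polynomial.X + Polynomial.C 1 +
      p.comp (Polynomial.C 2 * Polynomial.X + Polynomial.C 1))
  refine ⟨M' M q, r, hr, fun x => ⟨?_, ?_⟩⟩
  · intro s' hs'
    have hb' := hb x.length
    have hpos : 0 < 2 ^ q.eval x.length := by positivity
    simp only [Polynomial.eval_add, Polynomial.eval_mul, Polynomial.eval_C, Polynomial.eval_X,
      Polynomial.eval_comp] at hb'
    rcases (reach_iff M q A x s').1 hs' with ⟨k, hk, rfl⟩ | ⟨s, hs, rfl⟩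
    · rw [List.length_replicate]
      omega
    · have h1 := (hM (padq q x)).1 s hs
      have h2 : (padq q x).length ≤ 2 * (x.length + 2 ^ q.eval x.length) + 1 := by
        unfold padq
        rw [length_pairBits, List.length_replicate]
        omega
      have h3 := eval_mono p h2
      rw [length_pairBits, List.length_replicate]
      omega
  · obtain ⟨s, z, hs, ha, hz⟩ := (hM (padq q x)).2
    refine ⟨pairBits (List.replicate (2 ^ q.eval x.length) true) s, z,
      (reach_iff M q A x _).2 (Or.inr ⟨s, hs, rfl⟩), ?_, hz⟩
    rw [act_two]
    exact ha

end Pool.Agent.H622R2.Exp
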