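import Pool.Agent.H622R2.Exp.Base
import Pool.Agent.H622R2.Exp.A4
import Pool.Agent.H620R2.Gauge2.Trans
import Pool.Agent.H620R2.GaugeR.Seq

/-!
# Nondeterministic exponential time is in exponential space (helper409)
-/

namespace Pool.Agent.H622R2.Exp

open Pool.Agent.NPC Pool.Agent.H620R2.Gauge Pool.Agent.H622R2

namespace A5

/-- the language with the padding as bound for the certificate -/
def L1 (V : List Bool → List Bool) : Set (List Bool) :=
  {y | ∃ w : List Bool, w.length ≤ (unpair y).2.length ∧ V (pairBits w (unpair y).1) = [true]}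

/-- the verifier -/
def V1 (V : List Bool → List Bool) (z : List Bool) : List Bool :=
  if (unpair z).1.length ≤ (unpair (unpair z).2).2.length then
    V (pairBits (unpair z).1 (unpair (unpair z).2).1) else []

theorem v1_fp {A : Oracle} {V : List Bool → List Bool} (hV : IsFP A V) : IsFP A (V1 V) := by
  have h1 : Poly (fun p : List Bool × List Bool => unpair p.1) :=
    Poly.comp (g := unpair) (f := fun p : List Bool × List Bool => p.1) poly_unpair
      (Poly.fst Poly.id)
  have h2 : Poly (fun p : List Bool × List Bool => unpair (unpair p.1).2) :=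
    Poly.comp (g := unpair) (f := fun p : List Bool × List Bool => (unpair p.1).2) poly_unpair
      (Poly.snd h1)
  have h3 : Poly (fun p : List Bool × List Bool =>
      pairBits (unpair p.1).1 (unpair (unpair p.1).2).1) :=
    poly_pairBits (Poly.fst h1) (Poly.fst h2)
  have h4 : Poly (fun p : List Bool × List Bool × List Bool => unpair p.1) :=
    Poly.comp (g := unpair) (f := fun p : List Bool × List Bool × List Bool => p.1) poly_unpair
      (Poly.fst Poly.id)
  have h5 : Poly (fun p : List Bool × List Bool × List Bool => unpair (unpair p.1).2) :=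
    Poly.comp (g := unpair) (f := fun p : List Bool × List Bool × List Bool => (unpair p.1).2)
      poly_unpair (Poly.snd h4)
  have h6 : Poly (fun p : List Bool × List Bool × List Bool =>
      if (unpair p.1).1.length ≤ (unpair (unpair p.1).2).2.length then p.2.2 else []) :=
    Poly.ite (Poly.decide_le (Poly.length (Poly.fst h4)) (Poly.length (Poly.snd h5)))
      (Poly.snd (Poly.snd Poly.id)) (NPC.Poly.const [])
  exact IsFP.seq (F := fun x => x) (G := V)
    (φ := fun p => pairBits (unpair p.1).1 (unpair (unpair p.1).2).1)
    (ψ := fun p => if (unpair p.1).1.length ≤ (unpair (unpair p.1).2).2.length then p.2.2 else [])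
    (IsFP.of_poly (A := A) (F := fun x => x) Poly.id) hV h3 h6

theorem l1_np {A : Oracle} {V : List Bool → List Bool} (hV : IsFP A V) : IsNP A (L1 V) := by
  obtain ⟨q, hq⟩ := (Poly.snd poly_unpair : Poly (fun y : List Bool => (unpair y).2)).sz_le
  refine ⟨V1 V, q.comp (Polynomial.C 4 * Polynomial.X + Polynomial.C 1), v1_fp hV, fun y => ?_⟩
  have h1 : (unpair y).2.length ≤
      (q.comp (Polynomial.C 4 * Polynomial.X + Polynomial.C 1)).eval y.length := by
    have h3 := length_lt_sz (unpair y).2
    have h4 := hq y
    rw [Polynomial.eval_comp]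
    refine h3.le.trans (h4.trans (eval_mono _ ?_))
    have h5 := sz_listBool_le y
    simpa using h5
  constructor
  · rintro ⟨w, h2, h3⟩
    refine ⟨w, h2.trans h1, ?_⟩
    simp only [V1, unpair_pairBits]
    rw [if_pos h2, h3]
  · rintro ⟨w, -, h3⟩
    simp only [V1, unpair_pairBits] at h3
    split_ifs at h3 with h4
    exact ⟨w, h4, h3⟩

end A5

theorem InNTime.isSpace {E : Set (Polynomial ℕ)} (hE : Good E) {A : Oracle}
    {L : Set (List Bool)} (h : InNTime E A L) : InSpace E A L := by
  obtain ⟨V, hV, q, hq, hL⟩ := h
  have h1 := IsPSPACE.pad hE (A5.l1_np hV).isPSPACE hq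
  have h2 : {x | padq q x ∈ A5.L1 V} = L := by
    ext x
    rw [hL x]
    simp only [Set.mem_ofPred_eq, padq, A5.L1, unpair_pairBits, List.length_replicate]
  rwa [h2] at h1

end Pool.Agent.H622R2.Exp
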