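import Pool.Agent.H622R2.Exp.Base
import Pool.Agent.H622R2.Exp.A3
import Pool.Agent.H622R2.Exp.A4
import Pool.Agent.H620R2.Gauge2.V7
import Pool.Agent.H620R2.Gauge.P

/-!
# The test languages are in the nondeterministic and the space classes
-/

namespace Pool.Agent.H622R2.Exp

open Pool.Agent.NPC Pool.Agent.H620R2.Gauge Finset H568R2

namespace B

/-- the test whether a string is of the form `1^i 0^j` -/
def srt (x : List Bool) : Bool := decide (x = x.filter (fun b => b) ++ x.filter (fun b => !b))

theorem srt_iff (x : List Bool) :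
    srt x = true ↔ ∃ i j : ℕ, x = List.replicate i true ++ List.replicate j false := by
  unfold srt
  rw [decide_eq_true_eq]
  constructor
  · intro h
    refine ⟨(x.filter (fun b => b)).length, (x.filter (fun b => !b)).length, ?_⟩
    have h1 : x.filter (fun b => b) = List.replicate (x.filter (fun b => b)).length true := by
      refine List.eq_replicate_of_mem fun b hb => ?_
      exact (List.mem_filter.mp hb).2
    have h2 : x.filter (fun b => !b) = List.replicate (x.filter (fun b => !b)).length false := by
      refine List.eq_replicate_of_mem fun b hb => ?_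
      simpa using (List.mem_filter.mp hb).2
    rw [← h1, ← h2]
    exact h
  · rintro ⟨i, j, rfl⟩
    simp

theorem poly_srt {α : Type} [TEnc α] {f : α → List Bool} (hf : Poly f) :
    Poly (fun a => srt (f a)) := by
  unfold srt
  refine Poly.decide_eq hf (Poly.append (Poly.filter (p := fun (_ : α) (b : Bool) => b) hf
    (Poly.snd Poly.id)) (Poly.filter (p := fun (_ : α) (b : Bool) => !b) hf
    (Poly.not (Poly.snd Poly.id))))

/-- the verdict -/
def H (y : List Bool × List Bool) : List Bool :=
  if srt (unpair (unpair y.1).2).1 = true then V7.H y else []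

theorem poly_H : Poly H := by
  have h1 : Poly (fun y : List Bool × List Bool => (unpair (unpair y.1).2).1) :=
    Poly.fst (poly_unpair.comp (Poly.snd (poly_unpair.comp (Poly.fst Poly.id))))
  unfold H
  exact Poly.ite (Poly.decide_bool (poly_srt h1)) V7.poly_H (NPC.Poly.const [])

/-- the sorted part of the hit language -/
def hitL (A : Oracle) : Set (List Bool) :=
  {y | (∃ i j : ℕ, (unpair y).1 = List.replicate i true ++ List.replicate j false) ∧
    y ∈ hitLang A}

theorem hitL_np (A : Oracle) : IsNP A (hitL A) := by
  refine ⟨fun y => H (y, (V7.Q y).map A), Polynomial.X, IsFP.tt V7.poly_Q poly_H, fun x => ?_⟩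
  have key : ∀ w : List Bool, H (pairBits w x, (V7.Q (pairBits w x)).map A) = [true] ↔
      ((∃ i j : ℕ, (unpair x).1 = List.replicate i true ++ List.replicate j false) ∧
      w.length = x.length ∧ ∀ i < x.length, A (x ++ w ++ List.replicate i true) = true) := by
    intro w
    unfold H
    simp only [unpair_pairBits]
    by_cases hs : srt (unpair x).1 = true
    · rw [if_pos hs]
      have hs' := (srt_iff _).mp hs
      unfold V7.H V7.Q
      simp only [unpair_pairBits, List.cons.injEq, and_true, Bool.and_eq_true, decide_eq_true_eq,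
        List.all_eq_true, List.mem_map, List.mem_range]
      constructor
      · rintro ⟨h1, h2⟩
        refine ⟨hs', h1, fun i hi => ?_⟩
        apply h2
        refine ⟨_, ⟨i, hi, rfl⟩, ?_⟩
        rw [min_eq_left hi.le]
      · rintro ⟨-, h1, h2⟩
        refine ⟨h1, ?_⟩
        rintro b ⟨_, ⟨i, hi, rfl⟩, rfl⟩
        rw [min_eq_left hi.le]
        exact h2 i hi
    · rw [if_neg hs]
      constructor
      · intro h
        exact absurd h (by simp)
      · rintro ⟨h, -⟩
        exact absurd ((srt_iff _).mpr h) hs
  constructor
  · rintro ⟨hx, j, hj, h⟩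
    refine ⟨bitsOf x.length j, ?_, ?_⟩
    · rw [length_bitsOf, Polynomial.eval_X]
    · rw [key]
      exact ⟨hx, length_bitsOf _ _, h⟩
  · rintro ⟨w, _, hw⟩
    rw [key] at hw
    obtain ⟨j, hj, h⟩ := exists_bitsOf w
    rw [hw.2.1] at hj h
    refine ⟨hw.1, j, hj, fun i hi => ?_⟩
    unfold wit
    rw [h]
    exact hw.2.2 i hi

theorem q4_mem {E : Set (Polynomial ℕ)} (hE : Good E) : q4 ∈ E := hE.lin 4

end B

theorem hit2_ntime {E : Set (Polynomial ℕ)} (hE : Good E) (A : Oracle) :
    InNTime E A (hit2 A) := IsNP.pad hE (hitLang_np A) (B.q4_mem hE)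

theorem par2_space {E : Set (Polynomial ℕ)} (hE : Good E) (A : Oracle) :
    InSpace E A (par2 A) := IsPSPACE.pad hE (parLang_pspace A) (B.q4_mem hE)

theorem hitS_ntime {E : Set (Polynomial ℕ)} (hE : Good E) (A : Oracle) :
    InNTime E A (hitS A) := by
  have h := IsNP.pad hE (B.hitL_np A) (B.q4_mem hE)
  have he : hitS A = {x | padq q4 x ∈ B.hitL A} := by
    ext x
    simp only [hitS, B.hitL, Set.mem_setOf_eq]
    unfold padq
    rw [unpair_pairBits]
  rw [he]
  exact h

theorem hitS_sparse (A : Oracle) : Sparse (hitS A) := by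
  classical
  refine ⟨Polynomial.X + 1, fun n => ?_⟩
  have hsub : {x : List Bool | x ∈ hitS A ∧ x.length = n} ⊆
      ((Finset.range (n + 1)).image (fun i => List.replicate i true ++
        List.replicate (n - i) false) : Finset (List Bool)) := by
    rintro x ⟨⟨⟨i, j, hx⟩, -⟩, hn⟩
    rw [hx, List.length_append, List.length_replicate, List.length_replicate] at hn
    rw [Finset.coe_image]
    refine ⟨i, ?_, ?_⟩
    · simp only [Finset.coe_range, Set.mem_Iio]; omega
    · simp only
      rw [hx, show n - i = j by omega]
  calc Set.ncard {x : List Bool | x ∈ hitS A ∧ x.length = n}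
      ≤ Set.ncard (((Finset.range (n + 1)).image (fun i => List.replicate i true ++
        List.replicate (n - i) false) : Finset (List Bool)) : Set (List Bool)) :=
        Set.ncard_le_ncard hsub (Finset.finite_toSet _)
    _ = _ := Set.ncard_coe_finset _
    _ ≤ (Finset.range (n + 1)).card := Finset.card_image_le
    _ = (Polynomial.X + 1 : Polynomial ℕ).eval n := by simp

end Pool.Agent.H622R2.Exp
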