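import Pool.Agent.H622R2.Exp.Base

/-!
# Task C1: the fixed point of a coding
-/

namespace Pool.Agent.H622R2.Exp

open Pool.Agent.NPC Pool.Agent.H620R2.Gauge

namespace C1

open Classical in
/-- the oracle -/
noncomputable def Phi {ι : Type} (c : ι → List Bool) (V : ι → Oracle → Prop) (B : Oracle)
    (y : List Bool) : Bool :=
  if h : ∃ p : ι, y = c p then
    decide (V h.choose (fun z => if _hz : z.length < y.length then Phi c V B z else false))
  else B y
termination_by y.length

theorem Phi_not {ι : Type} (c : ι → List Bool) (V : ι → Oracle → Prop) (B : Oracle)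
    (y : List Bool) (h : ∀ p, y ≠ c p) : Phi c V B y = B y := by
  rw [Phi, dif_neg]
  rintro ⟨p, hp⟩
  exact h _ hp

open Classical in
theorem Phi_code {ι : Type} (c : ι → List Bool) (hc : Function.Injective c)
    (V : ι → Oracle → Prop) (B : Oracle)
    (hV : ∀ p A A', (∀ z : List Bool, z.length < (c p).length → A z = A' z) → (V p A ↔ V p A'))
    (p : ι) : Phi c V B (c p) = true ↔ V p (Phi c V B) := by
  have h : ∃ p' : ι, c p = c p' := ⟨p, rfl⟩
  rw [Phi, dif_pos h, decide_eq_true_iff]
  have h1 : p = h.choose := hc h.choose_spec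
  rw [← h1]
  apply hV
  intro z hz
  rw [dif_pos hz]

end C1

theorem exists_fix {ι : Type} (c : ι → List Bool) (hc : Function.Injective c)
    (V : ι → Oracle → Prop)
    (hV : ∀ p A A', (∀ z : List Bool, z.length < (c p).length → A z = A' z) → (V p A ↔ V p A')) :
    ∃ Φ : Oracle → Oracle, (∀ B y, (∀ p, y ≠ c p) → Φ B y = B y) ∧
      ∀ B p, (Φ B (c p) = true ↔ V p (Φ B)) :=
  ⟨C1.Phi c V, fun B y h => C1.Phi_not c V B y h, fun B p => C1.Phi_code c hc V B hV p⟩

end Pool.Agent.H622R2.Exp
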