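import Pool.Agent.H622R2.Exp.Base
import Pool.Agent.H620R2.Gauge.C

/-!
# Coding exponential space
-/

namespace Pool.Agent.H622R2.Exp

open Pool.Agent.NPC Pool.Agent.H620R2.Gauge Finset H568R2

namespace C2

/-- the next action has polynomially bounded length -/
theorem act_len (M : SAlg) : ∃ b : Polynomial ℕ, ∀ x a : List Bool,
    (M.act (pairBits x a)).length ≤ b.eval (x.length + a.length) := by
  obtain ⟨q, hq⟩ := (poly_of_polyTime M.act_poly).sz_le
  refine ⟨q.comp (Polynomial.C 4 * (Polynomial.C 3 * Polynomial.X + Polynomial.C 1) +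
    Polynomial.C 1), fun x a => ?_⟩
  have h1 := length_lt_sz (M.act (pairBits x a))
  refine h1.le.trans ((hq _).trans ?_)
  rw [Polynomial.eval_comp]
  apply eval_mono
  have h2 := sz_listBool_le (pairBits x a)
  rw [length_pairBits] at h2
  simp only [Polynomial.eval_add, Polynomial.eval_mul, Polynomial.eval_C, Polynomial.eval_X]
  omega

open Classical in
/-- the oracle -/
noncomputable def Phi {ι : Type} (c : ι → List Bool) (V : ι → Oracle → Prop) (B : Oracle)
    (y : List Bool) : Bool :=
  if h : ∃ p : ι, y = c p then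
    decide (V h.choose (fun z => if _hz : z.length < y.length then Phi c V B z else false))
  else B y
termination_by y.length

theorem Phi_not {ι : Type} (c : ι → List Bool) (V : ι → Oracle → Prop) (B : Oracle)
    (y : List Bool) (h : ∀ p, y ≠ c p) : Phi c V B y = B y := by
  rw [Phi, dif_neg]
  rintro ⟨p, hp⟩
  exact h _ hp

open Classical in
theorem Phi_code {ι : Type} (c : ι → List Bool) (hc : Function.Injective c) (V : ι → Oracle → Prop)
    (hV : ∀ p A A', (∀ z : List Bool, z.length < (c p).length → A z = A' z) → (V p A ↔ V p A'))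
    (B : Oracle) (p : ι) : Phi c V B (c p) = true ↔ V p (Phi c V B) := by
  have h : ∃ p' : ι, c p = c p' := ⟨p, rfl⟩
  rw [Phi, dif_pos h, decide_eq_true_iff]
  have h1 : h.choose = p := (hc h.choose_spec).symm
  rw [h1]
  apply hV
  intro z hz
  rw [dif_pos hz]

theorem exists_enumE (E : Set (Polynomial ℕ)) (hE : Good E) :
    ∃ g : ℕ → SAlg × {q : Polynomial ℕ // q ∈ E}, Function.Surjective g := by
  have h1 := CC.poly_countable
  have h2 := CC.salg_countable
  have : Nonempty {q : Polynomial ℕ // q ∈ E} := ⟨⟨_, hE.lin 0⟩⟩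
  exact exists_surjective_nat _

theorem codeE_inj (r : ℕ → Polynomial ℕ) {e e' : ℕ} {x x' : List Bool}
    (h : codeE (r e) e x = codeE (r e') e' x') : e = e' ∧ x = x' := by
  obtain ⟨h1, h2⟩ := CC.rep_inj _ _ _ _ h
  obtain ⟨h3, h4⟩ := CC.rep_inj _ _ _ _ h2
  exact ⟨h1, h4⟩

theorem lt_length_codeE (r : Polynomial ℕ) (e : ℕ) (x : List Bool) :
    2 ^ r.eval x.length < (codeE r e x).length := by
  unfold codeE
  simp only [List.length_append, List.length_replicate, List.length_cons]
  omega

end C2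

open CC in
theorem exists_codingE {E : Set (Polynomial ℕ)} (hE : Good E) (g : ℕ → Polynomial ℕ)
    (hg : ∀ e, g e ∈ E) :
    ∃ r : ℕ → Polynomial ℕ, (∀ e, r e ∈ E) ∧ (∀ e n, (g e).eval n ≤ (r e).eval n) ∧
      ∀ P : ℕ → ℕ → Prop, ∃ Φ : Oracle → Oracle,
        (∀ B y, (∀ e (x : List Bool), P e x.length → y ≠ codeE (r e) e x) → Φ B y = B y) ∧
        ∀ B L, InSpace E (Φ B) L → ∃ e, ∀ x : List Bool, P e x.length →
          (x ∈ L ↔ Φ B (codeE (r e) e x) = true) := by
  obtain ⟨N, hN⟩ := C2.exists_enumE E hE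
  choose b hb using fun e : ℕ => C2.act_len (N e).1
  choose r' hr' hr2 using fun e : ℕ => hE.comp (N e).2.1 (N e).2.2 (b e)
  set r : ℕ → Polynomial ℕ := fun e => r' e + g e with hr
  have hre : ∀ e n, (r e).eval n = (r' e).eval n + (g e).eval n := by
    intro e n
    rw [hr]
    simp only [Polynomial.eval_add]
  refine ⟨r, fun e => hE.add _ (hr' e) _ (hg e), fun e n => by rw [hre]; omega, fun P => ?_⟩
  set c : {p : ℕ × List Bool // P p.1 p.2.length} → List Bool :=
    fun p => codeE (r p.1.1) p.1.1 p.1.2 with hc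
  have hcinj : Function.Injective c := by
    rintro ⟨⟨e, x⟩, h1⟩ ⟨⟨e', x'⟩, h2⟩ h
    obtain ⟨rfl, rfl⟩ := C2.codeE_inj r h
    rfl
  set V : {p : ℕ × List Bool // P p.1 p.2.length} → Oracle → Prop := fun p A =>
    Acc (N p.1.1).1 (cut (2 ^ (r p.1.1).eval p.1.2.length) A) p.1.2 with hV
  have hloc : ∀ p A A', (∀ z : List Bool, z.length < (c p).length → A z = A' z) →
      (V p A ↔ V p A') := by
    intro p A A' h
    have hcut : cut (2 ^ (r p.1.1).eval p.1.2.length) A =
        cut (2 ^ (r p.1.1).eval p.1.2.length) A' := by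
      funext z
      unfold cut
      split_ifs with hz
      · apply h
        have h1 := C2.lt_length_codeE (r p.1.1) p.1.1 p.1.2
        exact lt_of_le_of_lt hz h1
      · rfl
    simp only [hV, hcut]
  refine ⟨C2.Phi c V, ?_, ?_⟩
  · intro B y h
    apply C2.Phi_not
    intro p hp
    exact h p.1.1 p.1.2 p.2 hp
  · rintro B L ⟨M, q, hq, hM⟩
    obtain ⟨e, he⟩ := hN (M, ⟨q, hq⟩)
    refine ⟨e, fun x hx => ?_⟩
    have hfix := C2.Phi_code c hcinj V hloc B ⟨(e, x), hx⟩
    change x ∈ L ↔ C2.Phi c V B (c ⟨(e, x), hx⟩) = true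
    rw [hfix]
    change x ∈ L ↔ Acc (N e).1 (cut (2 ^ (r e).eval x.length) (C2.Phi c V B)) x
    have hbe := hb e
    have hr2e := hr2 e
    rw [he] at hbe hr2e ⊢
    obtain ⟨hM1, s, z, hs, hz, hL⟩ := hM x
    have hcong : ∀ s, M.Reach (cut (2 ^ (r e).eval x.length) (C2.Phi c V B)) x s ↔
        M.Reach (C2.Phi c V B) x s := by
      refine reach_congr (fun s => s.length ≤ 2 ^ q.eval x.length) hM1 ?_
      intro s q' h1 h2
      have h3 := hbe x s
      rw [h2, List.length_cons] at h3
      have h4 : (b e).eval (x.length + s.length) ≤ (b e).eval (x.length + 2 ^ q.eval x.length) :=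
        eval_mono _ (by omega)
      have h5 := hr2e x.length
      have h6 : 2 ^ (r' e).eval x.length ≤ 2 ^ (r e).eval x.length := by
        apply Nat.pow_le_pow_right (by norm_num)
        rw [hre]; omega
      unfold cut
      rw [if_pos]
      have h7 : (b e).eval (x.length + 2 ^ q.eval x.length) ≤ 2 ^ (r e).eval x.length :=
        le_trans h5 h6
      omega
    constructor
    · intro hxL
      refine ⟨s, (hcong s).2 hs, ?_⟩
      rw [hz, hL.1 hxL]
    · rintro ⟨t, ht, ht2⟩
      have hst := reach_unique hs ((hcong t).1 ht) ⟨_, hz⟩ ⟨_, ht2⟩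
      rw [hst, ht2] at hz
      simp only [List.cons.injEq, true_and] at hz
      exact hL.2 hz.symm

end Pool.Agent.H622R2.Exp
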