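import Pool.Agent.H622R2.Exp.Base
import Pool.Agent.H622R2.Exp.C1
import Pool.Agent.H620R2.Gauge.C
import Pool.Agent.H620R2.Gauge.A1

/-!
# Coding census numbers
-/

namespace Pool.Agent.H622R2.Exp

open Pool.Agent.NPC Pool.Agent.H620R2.Gauge Finset H568R2

namespace C3

/-- the language accepted by the verifier `M` with certificates of length at most `2 ^ q` -/
def NL (M : Alg) (q : Polynomial ℕ) (A : Oracle) : Set (List Bool) :=
  {x | ∃ w : List Bool, w.length ≤ 2 ^ q.eval x.length ∧ M.out A (pairBits w x) = some [true]}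

theorem length_codeC (r : Polynomial ℕ) (sc : ℕ → ℕ) (e k i : ℕ) :
    (codeC r sc e k i).length = e + k + i + 3 + 2 ^ r.eval (sc k) := by
  unfold codeC
  simp only [List.length_append, List.length_replicate, List.length_cons]
  omega

theorem codeC_inj (r : ℕ → Polynomial ℕ) (sc : ℕ → ℕ) {e e' k k' i i' : ℕ}
    (h : codeC (r e) sc e k i = codeC (r e') sc e' k' i') : e = e' ∧ k = k' ∧ i = i' := by
  obtain ⟨h1, h2⟩ := CC.rep_inj _ _ _ _ h
  obtain ⟨h3, h4⟩ := CC.rep_inj _ _ _ _ h2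
  obtain ⟨h5, h6⟩ := CC.rep_inj _ _ _ _ h4
  exact ⟨h1, h3, h5⟩

theorem out_congr (M : Alg) : ∃ b : Polynomial ℕ, ∀ (A A' : Oracle) (x : List Bool),
    (∀ z : List Bool, z.length ≤ b.eval x.length → A z = A' z) → M.out A x = M.out A' x := by
  obtain ⟨b, hb⟩ := Alg.out_local M
  refine ⟨b, fun A A' x h => ?_⟩
  obtain ⟨Q, -, h2, h3⟩ := hb A' x
  exact h3 A fun q hq => h q (h2 q hq)

/-- the members of length at most `s` depend only on a finite part of the oracle -/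
theorem NL_congr {E : Set (Polynomial ℕ)} (hE : Good E) (M : Alg) {q : Polynomial ℕ}
    (hq : q ∈ E) : ∃ r ∈ E, ∀ (A A' : Oracle) (s : ℕ),
      (∀ z : List Bool, z.length ≤ 2 ^ r.eval s → A z = A' z) →
      cens (NL M q A) s = cens (NL M q A') s := by
  obtain ⟨b, hb⟩ := out_congr M
  obtain ⟨r, hr, hr2⟩ := hE.comp q hq (b.comp (Polynomial.C 2 * Polynomial.X + Polynomial.C 1))
  refine ⟨r, hr, fun A A' s h => ?_⟩
  have key : ∀ x : List Bool, x.length ≤ s → ∀ w : List Bool, w.length ≤ 2 ^ q.eval x.length →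
      M.out A (pairBits w x) = M.out A' (pairBits w x) := by
    intro x hx w hw
    apply hb
    intro z hz
    apply h
    refine hz.trans (le_trans ?_ (hr2 s))
    rw [Polynomial.eval_comp]
    apply eval_mono
    rw [length_pairBits]
    have h1 : 2 ^ q.eval x.length ≤ 2 ^ q.eval s :=
      Nat.pow_le_pow_right (by norm_num) (eval_mono _ hx)
    simp only [Polynomial.eval_add, Polynomial.eval_mul, Polynomial.eval_C, Polynomial.eval_X]
    omega
  unfold cens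
  congr 1
  ext x
  constructor
  · rintro ⟨⟨w, hw, h1⟩, h2⟩
    exact ⟨⟨w, hw, by rw [← key x h2 w hw]; exact h1⟩, h2⟩
  · rintro ⟨⟨w, hw, h1⟩, h2⟩
    exact ⟨⟨w, hw, by rw [key x h2 w hw]; exact h1⟩, h2⟩

end C3

open C3 in
theorem exists_codingC {E : Set (Polynomial ℕ)} (hE : Good E) (sc : ℕ → ℕ) (β : ℕ → ℕ → ℕ)
    (g : ℕ → ℕ → Polynomial ℕ) (hg : ∀ d e, g d e ∈ E) :
    ∃ (d : ℕ → ℕ) (r : ℕ → Polynomial ℕ) (Φ : Oracle → Oracle), (∀ e, r e ∈ E) ∧
      (∀ e n, (g (d e) e).eval n ≤ (r e).eval n) ∧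
      (∀ B y, (∀ e k i, i < β (d e) k → y ≠ codeC (r e) sc e k i) → Φ B y = B y) ∧
      ∀ B L d', InNTime E (Φ B) L → ∃ (e : ℕ) (V : List Bool → List Bool) (q : Polynomial ℕ),
        d e = d' ∧ IsFP (Φ B) V ∧ q ∈ E ∧
        (∀ x : List Bool, (x ∈ L ↔
          ∃ w : List Bool, w.length ≤ 2 ^ q.eval x.length ∧ V (pairBits w x) = [true])) ∧
        ∀ k, ∀ i < β (d e) k,
          (Φ B (codeC (r e) sc e k i) = true ↔ (cens L (sc k)).testBit i = true) := by
  have hne : Nonempty {q // q ∈ E} := ⟨⟨_, hE.lin 0⟩⟩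
  have hca : Nonempty Alg := ⟨⟨_, CC.const_polyTime [], 0⟩⟩
  have hcp := CC.poly_countable
  have hc1 : Countable {q // q ∈ E} := inferInstance
  have hc2 : Countable Alg := Alg.countable
  obtain ⟨t, ht⟩ := exists_surjective_nat (Alg × {q // q ∈ E} × ℕ)
  choose r' hr' hcens using fun e : ℕ => NL_congr hE (t e).1 (t e).2.1.2
  set d : ℕ → ℕ := fun e => (t e).2.2 with hd
  set r : ℕ → Polynomial ℕ := fun e => r' e + g (d e) e with hr
  have hre : ∀ e n, (r e).eval n = (r' e).eval n + (g (d e) e).eval n := by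
    intro e n
    rw [hr]
    exact Polynomial.eval_add
  obtain ⟨Φ, hΦ1, hΦ2⟩ := exists_fix
    (ι := {p : ℕ × ℕ × ℕ // p.2.2 < β (d p.1) p.2.1})
    (fun p => codeC (r p.1.1) sc p.1.1 p.1.2.1 p.1.2.2)
    (by
      rintro ⟨⟨e, k, i⟩, h⟩ ⟨⟨e', k', i'⟩, h'⟩ hh
      obtain ⟨h1, h2, h3⟩ := codeC_inj r sc hh
      subst h1 h2 h3
      rfl)
    (fun p A => (cens (NL (t p.1.1).1 (t p.1.1).2.1.1 A) (sc p.1.2.1)).testBit p.1.2.2 = true)
    (by
      rintro ⟨⟨e, k, i⟩, h⟩ A A' hA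
      dsimp only at hA ⊢
      rw [hcens e A A' (sc k)]
      intro z hz
      apply hA
      rw [length_codeC]
      have h1 : 2 ^ (r' e).eval (sc k) ≤ 2 ^ (r e).eval (sc k) :=
        Nat.pow_le_pow_right (by norm_num) (by rw [hre]; omega)
      omega)
  refine ⟨d, r, Φ, fun e => hE.add _ (hr' e) _ (hg _ _), fun e n => by rw [hre]; omega, ?_, ?_⟩
  · intro B y h
    apply hΦ1
    rintro ⟨⟨e, k, i⟩, h'⟩
    exact h e k i h'
  · rintro B L d' ⟨V, ⟨M, hM⟩, q, hq, hL⟩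
    obtain ⟨e, he⟩ := ht (M, ⟨q, hq⟩, d')
    have hde : d e = d' := by rw [hd]; simp only [he]
    refine ⟨e, V, q, hde, ⟨M, hM⟩, hq, hL, fun k i hi => ?_⟩
    have h1 := hΦ2 B ⟨(e, k, i), hi⟩
    dsimp only at h1
    rw [h1, he]
    have h2 : NL M q (Φ B) = L := by
      ext x
      rw [hL x]
      unfold NL
      simp only [Set.mem_ofPred_eq, hM, Option.some.injEq]
    rw [h2]

end Pool.Agent.H622R2.Exp
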