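import Pool.Agent.H620R2.Gauge2.Defs

/-!
# Exponential time and space relative to an oracle

(Continues `Pool.Agent.H620R2.Gauge.Defs` and `Pool.Agent.H620R2.Gauge2.Defs`.)

All bounds are of the form `2 ^ q(n)`, where `n` is the length of the input and the exponent `q` is
a polynomial in `n`. `Lin` is the set of the linear exponents `c (n + 1)` and `Pol` the set of all
polynomials, so `InTime Lin A` is the class `E` relative to `A`, `InTime Pol A` is `EXP`,
`InNTime Lin A` is `NE`, `InNTime Pol A` is `NEXP`, `InSpace Lin A` is `ESPACE`, `InSpace Pol A` is
`EXPSPACE`.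
-/

namespace Pool.Agent.H622R2.Exp

open Pool.Agent.NPC Pool.Agent.H620R2.Gauge

/-- The linear exponents `c (n + 1)`. -/
def Lin : Set (Polynomial ℕ) := {q | ∃ c : ℕ, q = Polynomial.C c * (Polynomial.X + 1)}

/-- All polynomial exponents. -/
def Pol : Set (Polynomial ℕ) := Set.univ

/-- Deterministic exponential time relative to `A`: some oracle algorithm decides the language `L`
within `2 ^ q(|x|)` rounds on every input `x`, where `q` is in the set `E` of exponents. (In every
round the work and the length of the question are polynomially bounded in the length of the input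
and the number of the former rounds. The bound `M.p` of the algorithm is not used.) -/
def InTime (E : Set (Polynomial ℕ)) (A : Oracle) (L : Set (List Bool)) : Prop :=
  ∃ M : Alg, ∃ q ∈ E, ∀ x : List Bool, ∃ z : List Bool,
    M.run A x (2 ^ q.eval x.length) [] = some z ∧ (x ∈ L ↔ z = [true])

/-- Nondeterministic exponential time relative to `A`: `x` is in `L` if and only if there is a
certificate `w` of length at most `2 ^ q(|x|)` which a verifier accepts; the verifier works in
polynomial time relative to `A` (in the length of `⟨w, x⟩`), and `q` is in `E`. -/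
def InNTime (E : Set (Polynomial ℕ)) (A : Oracle) (L : Set (List Bool)) : Prop :=
  ∃ V : List Bool → List Bool, IsFP A V ∧ ∃ q ∈ E, ∀ x : List Bool,
    (x ∈ L ↔ ∃ w : List Bool, w.length ≤ 2 ^ q.eval x.length ∧ V (pairBits w x) = [true])

/-- The exponential hierarchy relative to `A`: a constant number of alternating quantifiers over
the strings of length at most `2 ^ q(|x|)`, where `q` is in `E`, in front of a property decidable
in polynomial time relative to `A`. -/
def InAlt (E : Set (Polynomial ℕ)) (A : Oracle) (L : Set (List Bool)) : Prop :=
  ∃ V : List Bool → List Bool, IsFP A V ∧ ∃ q ∈ E, ∃ k : ℕ, ∀ x : List Bool,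
    (x ∈ L ↔ Quant (2 ^ q.eval x.length) V k true x)

/-- Exponential space relative to `A`: some algorithm working on a memory decides `L`, with a
memory of length at most `2 ^ q(|x|)`, where `q` is in `E`. There is no bound for the number of
rounds; the length of the questions is polynomially bounded in the length of the input and of the
memory. -/
def InSpace (E : Set (Polynomial ℕ)) (A : Oracle) (L : Set (List Bool)) : Prop :=
  ∃ M : SAlg, ∃ q ∈ E, ∀ x : List Bool,
    (∀ s, M.Reach A x s → s.length ≤ 2 ^ q.eval x.length) ∧
    ∃ s z, M.Reach A x s ∧ M.act (pairBits x s) = true :: z ∧ (x ∈ L ↔ z = [true])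

/-- The language `L` agrees with some language in the class `C` on all inputs of length `n`, for
infinitely many `n`. -/
def IO (C : Set (List Bool) → Prop) (L : Set (List Bool)) : Prop :=
  ∃ L' : Set (List Bool), C L' ∧
    ∃ᶠ n : ℕ in Filter.atTop, ∀ x : List Bool, x.length = n → (x ∈ L ↔ x ∈ L')

/-- The number of the strings of length `n` in `L` is bounded by a polynomial in `n`. -/
def Sparse (L : Set (List Bool)) : Prop :=
  ∃ p : Polynomial ℕ, ∀ n : ℕ, Set.ncard {x : List Bool | x ∈ L ∧ x.length = n} ≤ p.eval n

end Pool.Agent.H622R2.Exp
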