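import Pool.Agent.H622R2.Exp.Base
import Pool.Agent.H620R2.Gauge2.EventN

/-! Common tools for the tasks E1, E2, E3. -/

namespace Pool.Agent.H622R2.Exp.E0

open Pool.Agent.NPC Pool.Agent.H620R2.Gauge Finset H568R2

/-! ### simply exponential functions -/

/-- bounded by `2 ^ T(n)` for some polynomial `T` -/
def TB (f : ℕ → ℕ) : Prop := ∃ T : Polynomial ℕ, ∀ n, f n ≤ 2 ^ T.eval n

theorem TB.const (c : ℕ) : TB (fun _ => c) :=
  ⟨Polynomial.C c, fun n => by simpa using (Nat.lt_two_pow_self (n := c)).le⟩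

theorem TB.id : TB (fun n => n) :=
  ⟨Polynomial.X, fun n => by simpa using (Nat.lt_two_pow_self (n := n)).le⟩

theorem TB.pow2 (q : Polynomial ℕ) : TB (fun n => 2 ^ q.eval n) := ⟨q, fun _ => le_rfl⟩

theorem TB.mul {f g : ℕ → ℕ} (hf : TB f) (hg : TB g) : TB (fun n => f n * g n) := by
  obtain ⟨S, hS⟩ := hf
  obtain ⟨T, hT⟩ := hg
  refine ⟨S + T, fun n => ?_⟩
  rw [Polynomial.eval_add, pow_add]
  exact Nat.mul_le_mul (hS n) (hT n)

theorem TB.add {f g : ℕ → ℕ} (hf : TB f) (hg : TB g) : TB (fun n => f n + g n) := by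
  obtain ⟨S, hS⟩ := hf
  obtain ⟨T, hT⟩ := hg
  refine ⟨S + T + 1, fun n => ?_⟩
  rw [Polynomial.eval_add, Polynomial.eval_add, Polynomial.eval_one, pow_succ, pow_add]
  have h1 := hS n
  have h2 := hT n
  have h3 : 1 ≤ 2 ^ S.eval n := Nat.one_le_two_pow
  have h4 : 1 ≤ 2 ^ T.eval n := Nat.one_le_two_pow
  show f n + g n ≤ _
  nlinarith

theorem TB.pow {f : ℕ → ℕ} (hf : TB f) (k : ℕ) : TB (fun n => f n ^ k) := by
  induction k with
  | zero => simpa using TB.const 1
  | succ k ih => simpa [pow_succ] using ih.mul hf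

theorem TB.eval {f : ℕ → ℕ} (hf : TB f) (b : Polynomial ℕ) : TB (fun n => b.eval (f n)) := by
  induction b using Polynomial.induction_on' with
  | add p q hp hq => simpa using hp.add hq
  | monomial k a => simpa using (TB.const a).mul (hf.pow k)

theorem TB.mono {f g : ℕ → ℕ} (hg : TB g) (h : ∀ n, f n ≤ g n) : TB f := by
  obtain ⟨T, hT⟩ := hg
  exact ⟨T, fun n => (h n).trans (hT n)⟩

theorem poly_le (q : Polynomial ℕ) : ∀ c : ℕ, ∀ᶠ n : ℕ in Filter.atTop, c * q.eval n ≤ 2 ^ n := by
  induction q using Polynomial.induction_on' with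
  | add p q hp hq =>
    intro c
    filter_upwards [hp (2 * c), hq (2 * c)] with n h1 h2
    rw [Polynomial.eval_add]
    have e1 : 2 * c * p.eval n = 2 * (c * p.eval n) := by ring
    have e2 : 2 * c * q.eval n = 2 * (c * q.eval n) := by ring
    have e3 : c * (p.eval n + q.eval n) = c * p.eval n + c * q.eval n := by ring
    omega
  | monomial k a =>
    intro c
    have h := tendsto_pow_const_div_const_pow_of_one_lt k (r := (2 : ℝ)) (by norm_num)
    have h2 : ∀ᶠ n : ℕ in Filter.atTop, (n : ℝ) ^ k / 2 ^ n < 1 / (c * a + 1) :=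
      h.eventually_lt_const (by positivity)
    filter_upwards [h2] with n hn
    rw [Polynomial.eval_monomial]
    rw [div_lt_div_iff₀ (by positivity) (by positivity), one_mul] at hn
    have h3 : (c : ℝ) * (a * (n : ℝ) ^ k) ≤ 2 ^ n := by
      have h4 : (0 : ℝ) ≤ (n : ℝ) ^ k := by positivity
      nlinarith
    exact_mod_cast h3

theorem TB.le {f : ℕ → ℕ} (hf : TB f) : ∀ᶠ n : ℕ in Filter.atTop, f n ≤ 2 ^ 2 ^ n := by
  obtain ⟨T, hT⟩ := hf
  filter_upwards [poly_le T 1] with n hn
  rw [one_mul] at hn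
  exact (hT n).trans (Nat.pow_le_pow_right (by norm_num) hn)

/-! ### the padding -/

theorem length_padq4 (x : List Bool) : (padq q4 x).length = mm x.length := by
  unfold padq q4 mm
  rw [length_pairBits, List.length_replicate]
  simp

theorem padq_inj {q : Polynomial ℕ} : Function.Injective (padq q) := by
  intro x y h
  unfold padq at h
  have h1 := congrArg unpair h
  rw [unpair_pairBits, unpair_pairBits] at h1
  exact (Prod.mk.inj h1).1

theorem mm_ge (n : ℕ) : n + 2 ^ (n + 3) + 1 ≤ mm n := by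
  unfold mm
  have : 2 ^ (n + 3) ≤ 2 ^ (4 * (n + 1)) := Nat.pow_le_pow_right (by norm_num) (by omega)
  omega

theorem one_le_mm (n : ℕ) : 1 ≤ mm n := by
  have h1 := mm_ge n
  have h2 : 1 ≤ 2 ^ (n + 3) := Nat.one_le_two_pow
  omega

/-! ### the windows -/

theorem hitF_iff {N : ℕ} {x : List Bool} (hN : 2 ^ (3 * x.length + 1) ≤ N + 1)
    (a : Fin N → Bool) :
    HitF (fun j : Fin (2 ^ x.length) => witF N x j.val) a ↔
      ∃ j < 2 ^ x.length, ∀ l < x.length, orc N a (wit x j l) = true := by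
  unfold HitF
  constructor
  · rintro ⟨j, hj⟩
    refine ⟨j.val, j.2, fun i hi => ?_⟩
    have hlt : idx (wit x j.val i) < N := by
      have h1 := idx_lt (wit x j.val i)
      rw [length_wit] at h1
      have h2 : 2 ^ (2 * x.length + i + 1) ≤ 2 ^ (3 * x.length + 1) :=
        Nat.pow_le_pow_right (by norm_num) (by omega)
      omega
    have h3 := hj ⟨idx (wit x j.val i), hlt⟩ (by
      show _ ∈ witF N x j.val
      rw [witF, Finset.mem_filter]
      exact ⟨Finset.mem_univ _, i, hi, str_idx _⟩)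
    unfold orc
    rw [dif_pos hlt]
    exact h3
  · rintro ⟨j, hj, h⟩
    refine ⟨⟨j, hj⟩, fun e he => ?_⟩
    change e ∈ witF N x j at he
    rw [witF, Finset.mem_filter] at he
    obtain ⟨_, i, hi, hei⟩ := he
    have h3 := h i hi
    rw [← hei] at h3
    unfold orc at h3
    have h4 : idx (str e.val) = e.val := idx_str _
    rw [dif_pos (by rw [h4]; exact e.2)] at h3
    rw [← h3]
    congr 1
    exact Fin.ext h4.symm

theorem windows_disj {N n : ℕ} {x x' : List Bool} (hx : x.length = n) (hx' : x'.length = n)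
    {j j' : ℕ} (hj : j < 2 ^ mm n) (hj' : j' < 2 ^ mm n) (hne : (x, j) ≠ (x', j')) :
    Disjoint (witF N (padq q4 x) j) (witF N (padq q4 x') j') := by
  apply witF_disj
  · rw [length_padq4, length_padq4, hx, hx']
  · rw [length_padq4, hx]; exact hj
  · rw [length_padq4, hx]; exact hj'
  · intro he
    apply hne
    rw [Prod.mk.injEq] at he ⊢
    exact ⟨padq_inj he.1, he.2⟩

end Pool.Agent.H622R2.Exp.E0
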