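import Pool.Agent.H622R2.Exp.Base
import Pool.Agent.H620R2.Gauge2.V4

/-!
# Task P2: the probability of a hit (by helper3)
-/

namespace Pool.Agent.H622R2.Exp

open Pool.Agent.NPC Pool.Agent.H620R2.Gauge Finset H568R2

namespace TP2

theorem half_bound {m : ℕ} : (1 - (1 / 2 : ℝ) ^ m) ^ 2 ^ m ≤ 1 / 2 := by
  have h0 : (0 : ℝ) ≤ 1 - (1 / 2 : ℝ) ^ m := by
    have : ((1 : ℝ) / 2) ^ m ≤ 1 := pow_le_one₀ (by norm_num) (by norm_num)
    linarith
  have h1 : 1 - (1 / 2 : ℝ) ^ m ≤ Real.exp (-((1 / 2 : ℝ) ^ m)) := by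
    have := Real.add_one_le_exp (-((1 / 2 : ℝ) ^ m))
    linarith
  have h2 : (1 - (1 / 2 : ℝ) ^ m) ^ 2 ^ m ≤ Real.exp (-((1 / 2 : ℝ) ^ m)) ^ 2 ^ m :=
    pow_le_pow_left₀ h0 h1 _
  have h3 : Real.exp (-((1 / 2 : ℝ) ^ m)) ^ 2 ^ m = Real.exp (-1) := by
    rw [← Real.exp_nat_mul]
    congr 1
    push_cast
    have : (2 : ℝ) ^ m * (1 / 2) ^ m = 1 := by
      rw [← mul_pow]; norm_num
    linarith
  have h4 : Real.exp (-1) ≤ 1 / 2 := by
    rw [Real.exp_neg, inv_le_comm₀ (Real.exp_pos 1) (by norm_num)]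
    have := Real.add_one_le_exp (1 : ℝ)
    linarith
  rw [h3] at h2
  linarith

end TP2

section

variable {I : Type*} [Fintype I] [DecidableEq I]

open Classical in
theorem prob_hit {J : Type*} [Fintype J] {m : ℕ} (hm : 1 ≤ m) (hJ : Fintype.card J = 2 ^ m)
    (W : J → Finset I) (hW : ∀ j, (W j).card = m) (hd : ∀ j j', j ≠ j' → Disjoint (W j) (W j')) :
    1 / 2 ≤ Ex unif (fun a : I → Bool => if HitF W a then (1 : ℝ) else 0) ∧
      Ex unif (fun a : I → Bool => if HitF W a then (1 : ℝ) else 0) ≤ 3 / 4 := by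
  have h1 : Ex unif (fun a : I → Bool => if ¬ HitF W a then (1 : ℝ) else 0) =
      (1 - (1 / 2) ^ m) ^ 2 ^ m := by
    have h := V4.ex_many W m hW hd (univ : Finset J) (fun _ => 1) (fun _ _ _ _ _ _ => rfl)
    rw [Ex_const V4.unif_sum, Finset.card_univ, hJ, mul_one] at h
    rw [← h]
    congr 1
    funext a
    rw [V4.nohit_prod W a, one_mul]
  have h2 : Ex unif (fun a : I → Bool => if HitF W a then (1 : ℝ) else 0) =
      1 - Ex unif (fun a : I → Bool => if ¬ HitF W a then (1 : ℝ) else 0) := by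
    have h := Ex_add unif (fun a : I → Bool => if HitF W a then (1 : ℝ) else 0)
      (fun a : I → Bool => if ¬ HitF W a then (1 : ℝ) else 0)
    have h' : (fun a : I → Bool => (if HitF W a then (1 : ℝ) else 0) +
        (if ¬ HitF W a then (1 : ℝ) else 0)) = fun _ => 1 := by
      funext a
      by_cases hh : HitF W a
      · simp [hh]
      · simp [hh]
    rw [h', Ex_const V4.unif_sum] at h
    linarith
  rw [h2, h1]
  have h3 := V4.quarter hm
  have h4 := TP2.half_bound (m := m)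
  constructor <;> linarith

end

end Pool.Agent.H622R2.Exp
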