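import Pool.Agent.H622R2.Exp.P1
import Pool.Agent.H622R2.Exp.P2

/-!
# Deterministic algorithms and hidden windows
-/

namespace Pool.Agent.H622R2.Exp

open Pool.Agent.NPC Pool.Agent.H620R2.Gauge Finset H568R2

section

variable {I : Type*} [Fintype I] [DecidableEq I]

namespace P3

open Classical in
/-- the number of windows which are all true -/
noncomputable def cnt {J : Type*} [Fintype J] (W : J → Finset I) (a : I → Bool) : ℕ :=
  (univ.filter fun j => ∀ i ∈ W j, a i = true).card

/-- the weight of a number of windows -/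
noncomputable def wt (n : ℕ) : ℝ := if n = 0 then 1 else if n = 1 then 1 / 2 else 1 / 3

theorem wt_nonneg (n : ℕ) : 0 ≤ wt n := by
  unfold wt; split_ifs <;> norm_num

theorem wt_le_one (n : ℕ) : wt n ≤ 1 := by
  unfold wt; split_ifs <;> norm_num

theorem wt_le_half {n : ℕ} (h : 1 ≤ n) : wt n ≤ 1 / 2 := by
  unfold wt
  split_ifs with h1 h2
  · omega
  · exact le_refl _
  · norm_num

theorem wt_le_third {n : ℕ} (h : 2 ≤ n) : wt n ≤ 1 / 3 := by
  unfold wt
  split_ifs with h1 h2
  · omega
  · omega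
  · exact le_refl _

theorem one_le_wt (n : ℕ) : 1 ≤ wt n * (1 + n) := by
  unfold wt
  split_ifs with h1 h2
  · subst h1; norm_num
  · subst h2; norm_num
  · have : (2 : ℝ) ≤ n := by exact_mod_cast (by omega : 2 ≤ n)
    linarith

theorem sum_ones1 {J : Type*} [Fintype J] (W : J → Finset I) (a : I → Bool) :
    ∑ j, ones1 (W j) a = (cnt W a : ℝ) := by
  classical
  unfold ones1 cnt
  rw [Finset.natCast_card_filter]
  refine Finset.sum_congr rfl fun j _ => ?_
  congr

theorem cnt_mono {J : Type*} [Fintype J] (W : J → Finset I) {a b : I → Bool}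
    (h : ∀ i, a i = true → b i = true) : cnt W a ≤ cnt W b := by
  classical
  unfold cnt
  refine Finset.card_le_card fun j hj => ?_
  rw [mem_filter] at hj ⊢
  exact ⟨hj.1, fun i hi => h i (hj.2 i hi)⟩

theorem cnt_lt {J : Type*} [Fintype J] (W : J → Finset I) {a b : I → Bool}
    (h : ∀ i, a i = true → b i = true) (j : J) (hb : ∀ i ∈ W j, b i = true)
    (ha : ¬ ∀ i ∈ W j, a i = true) : cnt W a < cnt W b := by
  classical
  unfold cnt
  refine Finset.card_lt_card ?_
  rw [Finset.ssubset_iff_of_subset]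
  · refine ⟨j, ?_, ?_⟩
    · rw [mem_filter]; exact ⟨mem_univ _, hb⟩
    · rw [mem_filter]; exact fun h' => ha h'.2
  · intro j hj
    rw [mem_filter] at hj ⊢
    exact ⟨hj.1, fun i hi => h i (hj.2 i hi)⟩

theorem cnt_pos {J : Type*} [Fintype J] (W : J → Finset I) {a : I → Bool} (h : HitF W a) :
    1 ≤ cnt W a := by
  classical
  obtain ⟨j, hj⟩ := h
  unfold cnt
  refine Finset.card_pos.2 ⟨j, ?_⟩
  rw [mem_filter]; exact ⟨mem_univ _, hj⟩

omit [Fintype I] in
theorem pl_mono (P : Finset I) (a : I → Bool) : ∀ i, a i = true → pl P a i = true := by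
  intro i h
  unfold pl
  split_ifs
  · rfl
  · exact h

/-- the probability that a window is all true -/
theorem Ex_ones1 (P : Finset I) : Ex unif (ones1 P) = (1 / 2) ^ P.card := by
  classical
  have h := avg_plant (I := I) (τ := Unit) (C := Unit) (m := P.card) (fun _ _ => P)
    (fun _ _ => rfl) (fun t t' _ _ h => absurd (Subsingleton.elim t t') h) {()} (fun _ => 1)
  simp only [Fintype.card_unit, Nat.cast_one, one_pow, Finset.card_singleton, mul_one,
    Finset.prod_singleton, Finset.univ_unique, Finset.sum_singleton, one_mul] at h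
  rw [Ex_const unif_sum] at h
  have h' : (fun a => ones1 P a) = (ones1 P : (I → Bool) → ℝ) := rfl
  rw [h'] at h
  rw [div_pow, one_pow, eq_div_iff (by positivity), mul_comm]
  exact h.symm

/-- sum over functions of a function of one coordinate -/
theorem sum_pi_one {κ J : Type*} [Fintype κ] [DecidableEq κ] [Fintype J] (k : κ) (f : J → ℝ) :
    ∑ η : κ → J, f (η k) = (Fintype.card J : ℝ) ^ (Fintype.card κ - 1) * ∑ j, f j := by
  classical
  have e : ∀ η : κ → J, f (η k) = ∏ k' : κ, (if k' = k then f (η k') else 1) := by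
    intro η
    rw [Finset.prod_ite_eq' Finset.univ k (fun k' => f (η k'))]
    simp
  rw [Finset.sum_congr rfl fun η _ => e η]
  have h := (Finset.prod_univ_sum (fun _ : κ => (Finset.univ : Finset J))
    (fun (k' : κ) (j : J) => if k' = k then f j else (1 : ℝ)))
  rw [Fintype.piFinset_univ] at h
  rw [← h, ← Finset.mul_prod_erase univ _ (Finset.mem_univ k)]
  simp only [if_true]
  rw [mul_comm]
  congr 1
  rw [Finset.prod_congr rfl (g := fun _ => (Fintype.card J : ℝ))]
  · rw [Finset.prod_const, Finset.card_erase_of_mem (mem_univ _), Finset.card_univ]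
  · intro k' hk'
    simp [if_neg (Finset.ne_of_mem_erase hk')]

variable {κ J : Type*} [Fintype κ] [DecidableEq κ] [Fintype J]

omit [Fintype I] [Fintype κ] [Fintype J] [DecidableEq κ] in
theorem mem_PS (W : κ → J → Finset I) (b : Finset κ) (η : κ → J) (i : I) :
    i ∈ PS W b η ↔ ∃ k ∈ b, i ∈ W k (η k) := by
  unfold PS
  rw [mem_biUnion]

omit [Fintype I] [Fintype κ] [DecidableEq κ] [Fintype J] in
/-- what planting does to the windows of a block -/
theorem window_pl (W : κ → J → Finset I)
    (hd : ∀ k j k' j', (k, j) ≠ (k', j') → Disjoint (W k j) (W k' j'))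
    (b : Finset κ) (η : κ → J) (a : I → Bool) (k : κ) (hk : k ∉ b) (j : J) :
    (∀ i ∈ W k j, pl (PS W b η) a i = true) ↔ ∀ i ∈ W k j, a i = true := by
  have h : ∀ i ∈ W k j, pl (PS W b η) a i = a i := by
    intro i hi
    unfold pl
    rw [if_neg]
    rw [mem_PS]
    rintro ⟨k', hk', hi'⟩
    refine Finset.disjoint_left.1 (hd k j k' (η k') ?_) hi hi'
    intro h
    have := congrArg Prod.fst h
    simp only at this
    subst this
    exact hk hk'
  constructor
  · intro h1 i hi
    rw [← h i hi]; exact h1 i hi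
  · intro h1 i hi
    rw [h i hi]; exact h1 i hi

omit [Fintype I] [Fintype κ] [Fintype J] in
theorem hit_pl (W : κ → J → Finset I)
    (hd : ∀ k j k' j', (k, j) ≠ (k', j') → Disjoint (W k j) (W k' j'))
    (b : Finset κ) (η : κ → J) (a : I → Bool) (k : κ) :
    HitF (W k) (pl (PS W b η) a) ↔ k ∈ b ∨ HitF (W k) a := by
  constructor
  · intro h
    by_cases hk : k ∈ b
    · exact Or.inl hk
    · right
      obtain ⟨j, hj⟩ := h
      exact ⟨j, (window_pl W hd b η a k hk j).1 hj⟩
  · rintro (h | ⟨j, hj⟩)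
    · refine ⟨η k, fun i hi => ?_⟩
      unfold pl
      rw [if_pos]
      rw [mem_PS]
      exact ⟨k, h, hi⟩
    · exact ⟨j, fun i hi => pl_mono _ _ _ (hj i hi)⟩

/-- the good case -/
theorem good_sum (W : κ → J → Finset I)
    (hd : ∀ k j k' j', (k, j) ≠ (k', j') → Disjoint (W k j) (W k' j'))
    (g : κ → (I → Bool) → Bool) (E : (I → Bool) → Prop) [DecidablePred E]
    (hE : ∀ a, E a ↔ ∀ k, (g k a = true ↔ HitF (W k) a))
    (φ : κ → (I → Bool) → ℝ) (hφ1 : ∀ k a, HitF (W k) a → φ k a = 5 / 6)
    (hφ2 : ∀ k a, ¬ HitF (W k) a → φ k a = 1)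
    (η : κ → J) (a : I → Bool) (hq : ∀ b : Finset κ, ∀ k, g k (pl (PS W b η) a) = g k a)
    (hnew : ∀ k, ¬ ∀ i ∈ W k (η k), a i = true) :
    ∑ b ∈ (univ : Finset κ).powerset, (if E (pl (PS W b η) a) then (1 : ℝ) else 0) *
      ∏ k, wt (cnt (W k) (pl (PS W b η) a)) ≤ ∏ k, φ k a := by
  classical
  let u : κ → ℝ := fun k => if HitF (W k) a then 1 / 3 else if g k a = true then 1 else 0
  let v : κ → ℝ := fun k => if HitF (W k) a then 1 / 2 else if g k a = true then 0 else 1
  have huv : ∀ k, φ k a = u k + v k := by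
    intro k
    simp only [u, v]
    by_cases h : HitF (W k) a
    · rw [hφ1 k a h, if_pos h, if_pos h]; norm_num
    · rw [hφ2 k a h, if_neg h, if_neg h]
      split_ifs <;> norm_num
  rw [Finset.prod_congr rfl fun k _ => huv k, Finset.prod_add]
  refine Finset.sum_le_sum fun b _ => ?_
  have hsplit : ∏ k, (if k ∈ b then u k else v k) = (∏ k ∈ b, u k) * ∏ k ∈ univ \ b, v k := by
    rw [Finset.prod_ite]
    congr 1
    · congr 1
      ext k; simp
    · congr 1
      ext k; simp
  rw [← hsplit]
  have hu0 : ∀ k, 0 ≤ u k := by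
    intro k; simp only [u]; split_ifs <;> norm_num
  have hv0 : ∀ k, 0 ≤ v k := by
    intro k; simp only [v]; split_ifs <;> norm_num
  have h0 : ∀ k, 0 ≤ (if k ∈ b then u k else v k) := by
    intro k; split_ifs
    · exact hu0 k
    · exact hv0 k
  by_cases hEb : E (pl (PS W b η) a)
  · rw [if_pos hEb, one_mul]
    refine Finset.prod_le_prod (fun k _ => wt_nonneg _) fun k _ => ?_
    have hk := (hE _).1 hEb k
    rw [hq b k, hit_pl W hd b η a k] at hk
    by_cases hkb : k ∈ b
    · rw [if_pos hkb]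
      by_cases hh : HitF (W k) a
      · simp only [u]
        rw [if_pos hh]
        refine wt_le_third ?_
        have h1 := cnt_pos (W k) hh
        have h2 := cnt_lt (W k) (pl_mono (PS W b η) a) (η k) (fun i hi => by
          unfold pl
          rw [if_pos]
          rw [mem_PS]
          exact ⟨k, hkb, hi⟩) (hnew k)
        omega
      · simp only [u]
        rw [if_neg hh, if_pos (hk.2 (Or.inl hkb))]
        exact wt_le_one _
    · rw [if_neg hkb]
      by_cases hh : HitF (W k) a
      · simp only [v]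
        rw [if_pos hh]
        refine wt_le_half ?_
        have h1 := cnt_pos (W k) hh
        have h2 := cnt_mono (W k) (pl_mono (PS W b η) a)
        omega
      · simp only [v]
        rw [if_neg hh, if_neg]
        · exact wt_le_one _
        · intro h
          rcases hk.1 h with h | h
          · exact hkb h
          · exact hh h
  · rw [if_neg hEb, zero_mul]
    exact Finset.prod_nonneg fun k _ => h0 k

omit [Fintype I] [Fintype κ] [DecidableEq κ] in
theorem hit_mix (W : κ → J → Finset I)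
    (hd : ∀ k j k' j', (k, j) ≠ (k', j') → Disjoint (W k j) (W k' j'))
    (k k' : κ) (h : k ≠ k') (a b : I → Bool) :
    HitF (W k) (mix (univ.biUnion (W k')) b a) ↔ HitF (W k) a := by
  have h1 : ∀ j, ∀ i ∈ W k j, mix (univ.biUnion (W k')) b a i = a i := by
    intro j i hi
    unfold mix
    rw [if_neg]
    rw [mem_biUnion]
    rintro ⟨j', _, hj'⟩
    refine Finset.disjoint_left.1 (hd k j k' j' ?_) hi hj'
    intro h'
    exact h (congrArg Prod.fst h')
  constructor
  · rintro ⟨j, hj⟩
    exact ⟨j, fun i hi => by rw [← h1 j i hi]; exact hj i hi⟩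
  · rintro ⟨j, hj⟩
    exact ⟨j, fun i hi => by rw [h1 j i hi]; exact hj i hi⟩

omit [Fintype I] [Fintype κ] [DecidableEq κ] in
theorem hit_mix_self (W : κ → J → Finset I) (k : κ) (a b : I → Bool) :
    HitF (W k) (mix (univ.biUnion (W k)) b a) ↔ HitF (W k) b := by
  have h1 : ∀ j, ∀ i ∈ W k j, mix (univ.biUnion (W k)) b a i = b i := by
    intro j i hi
    unfold mix
    rw [if_pos]
    rw [mem_biUnion]
    exact ⟨j, mem_univ _, hi⟩
  constructor
  · rintro ⟨j, hj⟩
    exact ⟨j, fun i hi => by rw [← h1 j i hi]; exact hj i hi⟩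
  · rintro ⟨j, hj⟩
    exact ⟨j, fun i hi => by rw [h1 j i hi]; exact hj i hi⟩

omit [DecidableEq κ] in
open Classical in
theorem prod_phi {m : ℕ} (hm : 1 ≤ m) (hJ : Fintype.card J = 2 ^ m) (W : κ → J → Finset I)
    (hW : ∀ k j, (W k j).card = m)
    (hd : ∀ k j k' j', (k, j) ≠ (k', j') → Disjoint (W k j) (W k' j')) :
    Ex unif (fun a : I → Bool => ∏ k : κ, (if HitF (W k) a then (5 / 6 : ℝ) else 1)) ≤
      (11 / 12) ^ Fintype.card κ := by
  have h := prod_block (Finset.univ : Finset κ) (fun k => univ.biUnion (W k))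
    (fun k a => (if HitF (W k) a then (5 / 6 : ℝ) else 1)) (fun _ => 11 / 12)
    (fun k _ a => by split_ifs <;> norm_num)
    (fun k _ k' _ hk a b => by simp only [hit_mix W hd k k' hk])
    (fun k _ a => by
      simp only [hit_mix_self W k]
      have h1 := (prob_hit hm hJ (W k) (hW k) (fun j j' hj => hd k j k j' (by
        intro h'; exact hj (congrArg Prod.snd h')))).1
      have h2 : (fun b : I → Bool => (if HitF (W k) b then (5 / 6 : ℝ) else 1)) =
          fun b => 1 + (-1 / 6) * (if HitF (W k) b then (1 : ℝ) else 0) := by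
        funext b
        split_ifs <;> norm_num
      rw [h2, Ex_add, Ex_const unif_sum, Ex_smul]
      linarith)
  refine h.trans (le_of_eq ?_)
  rw [Finset.prod_const, Finset.card_univ]

omit [Fintype I] [DecidableEq κ] in
/-- few windows meet a small set -/
theorem meet_card (W : κ → J → Finset I)
    (hd : ∀ k j k' j', (k, j) ≠ (k', j') → Disjoint (W k j) (W k' j')) (Q : Finset I) :
    ∑ k, ∑ j, (if Disjoint (W k j) Q then (0 : ℝ) else 1) ≤ Q.card := by
  classical
  have h1 : ∀ k : κ, ∀ j : J, (if Disjoint (W k j) Q then (0 : ℝ) else 1) ≤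
      ((W k j ∩ Q).card : ℝ) := by
    intro k j
    split_ifs with h
    · positivity
    · have : 1 ≤ (W k j ∩ Q).card := by
        rw [Nat.one_le_iff_ne_zero, Ne, Finset.card_eq_zero]
        rwa [← Finset.disjoint_iff_inter_eq_empty]
      exact_mod_cast this
  refine (Finset.sum_le_sum fun k _ => Finset.sum_le_sum fun j _ => h1 k j).trans ?_
  rw [← Finset.sum_product' (s := (univ : Finset κ)) (t := (univ : Finset J))
    (f := fun k j => ((W k j ∩ Q).card : ℝ))]
  rw [← Nat.cast_sum, ← Finset.card_biUnion]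
  · have : ((univ : Finset κ) ×ˢ (univ : Finset J)).biUnion (fun x => W x.1 x.2 ∩ Q) ⊆ Q := by
      intro i hi
      rw [mem_biUnion] at hi
      obtain ⟨x, _, hx⟩ := hi
      exact (mem_inter.1 hx).2
    exact_mod_cast Finset.card_le_card this
  · rintro ⟨k, j⟩ _ ⟨k', j'⟩ _ h
    exact Disjoint.mono inter_subset_left inter_subset_left (hd k j k' j' h)

end P3

open Classical in
theorem det_comb {κ J : Type*} [Fintype κ] [DecidableEq κ] [Fintype J] {m p : ℕ} (hm : 1 ≤ m)
    (hJ : Fintype.card J = 2 ^ m) (W : κ → J → Finset I) (hW : ∀ k j, (W k j).card = m)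
    (hd : ∀ k j k' j', (k, j) ≠ (k', j') → Disjoint (W k j) (W k' j'))
    (g : κ → (I → Bool) → Bool)
    (hg : ∀ k a, ∃ A : Finset I, A.card ≤ p ∧
      ∀ y : I → Bool, (∀ i ∈ A, y i = a i) → g k y = g k a) :
    Ex unif (fun a : I → Bool =>
      if ∀ k, (g k a = true ↔ HitF (W k) a) then (1 : ℝ) else 0) ≤
      (11 / 12) ^ Fintype.card κ +
        2 ^ Fintype.card κ * (Fintype.card κ * (p + 1)) / 2 ^ m := by
  rcases isEmpty_or_nonempty κ with hκ | hκ
  · have h1 : ∀ a : I → Bool, (if ∀ k, (g k a = true ↔ HitF (W k) a) then (1 : ℝ) else 0) = 1 := by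
      intro a
      rw [if_pos]
      intro k
      exact hκ.elim k
    rw [funext h1, Ex_const unif_sum]
    simp
  choose A hA hgA using hg
  set K := Fintype.card κ with hK
  have hK1 : 1 ≤ K := Fintype.card_pos
  let E : (I → Bool) → Prop := fun a => ∀ k, (g k a = true ↔ HitF (W k) a)
  let G : (I → Bool) → ℝ := fun a => (if E a then (1 : ℝ) else 0) * ∏ k, P3.wt (P3.cnt (W k) a)
  have hG0 : ∀ a, 0 ≤ G a := fun a => mul_nonneg (by split_ifs <;> norm_num)
    (Finset.prod_nonneg fun k _ => P3.wt_nonneg _)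
  have hG1 : ∀ a, G a ≤ 1 := by
    intro a
    refine mul_le_one₀ (by split_ifs <;> norm_num) (Finset.prod_nonneg fun k _ => P3.wt_nonneg _) ?_
    exact Finset.prod_le_one (fun k _ => P3.wt_nonneg _) fun k _ => P3.wt_le_one _
  have hJ' : (Fintype.card J : ℝ) = 2 ^ m := by rw [hJ]; push_cast; ring
  -- step 1
  have s1 : Ex unif (fun a : I → Bool => if E a then (1 : ℝ) else 0) ≤
      ∑ b ∈ (univ : Finset κ).powerset,
        Ex unif (fun a => G a * ∏ k ∈ b, ∑ j, ones1 (W k j) a) := by
    rw [← Ex_sum]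
    refine Ex_mono unif_nonneg fun a => ?_
    rw [← Finset.mul_sum, ← Finset.prod_one_add]
    simp only [G]
    rw [mul_assoc, ← Finset.prod_mul_distrib]
    have h1 : (1 : ℝ) ≤ ∏ k, P3.wt (P3.cnt (W k) a) * (1 + ∑ j, ones1 (W k j) a) := by
      have h3 := Finset.prod_le_prod (s := (univ : Finset κ)) (f := fun _ => (1 : ℝ))
        (g := fun k => P3.wt (P3.cnt (W k) a) * (1 + ∑ j, ones1 (W k j) a))
        (fun k _ => zero_le_one) (fun k _ => by
          rw [P3.sum_ones1]
          exact P3.one_le_wt _)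
      rwa [Finset.prod_const_one] at h3
    have h2 : (0 : ℝ) ≤ if E a then (1 : ℝ) else 0 := by split_ifs <;> norm_num
    calc (if E a then (1 : ℝ) else 0) = (if E a then (1 : ℝ) else 0) * 1 := (mul_one _).symm
      _ ≤ _ := mul_le_mul_of_nonneg_left h1 h2
  -- step 2
  have s2 : ∀ b ∈ (univ : Finset κ).powerset,
      Ex unif (fun a => G a * ∏ k ∈ b, ∑ j, ones1 (W k j) a) =
        (1 / 2 ^ (m * K)) * ∑ η : κ → J, Ex unif (fun a => G (pl (PS W b η) a)) := by
    intro b _
    have hbK : b.card ≤ K := Finset.card_le_univ b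
    rw [avg_plant W hW (fun t t' c c' h => hd t c t' c' (by
      intro h'; exact h (congrArg Prod.fst h'))) b G, hJ', ← pow_mul, ← pow_add,
      ← Nat.mul_add, Nat.sub_add_cancel hbK]
    field_simp
  have s3 : Ex unif (fun a : I → Bool => if E a then (1 : ℝ) else 0) ≤
      (1 / 2 ^ (m * K)) * ∑ η : κ → J, Ex unif (fun a =>
        ∑ b ∈ (univ : Finset κ).powerset, G (pl (PS W b η) a)) := by
    refine s1.trans (le_of_eq ?_)
    rw [Finset.sum_congr rfl s2, ← Finset.mul_sum, Finset.sum_comm]
    congr 1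
    refine Finset.sum_congr rfl fun η _ => ?_
    rw [Ex_sum]
  let Q : (I → Bool) → Finset I := fun a => univ.biUnion fun k => A k a
  have hQ : ∀ a, ((Q a).card : ℝ) ≤ K * p := by
    intro a
    have h1 : (Q a).card ≤ ∑ k : κ, (A k a).card := Finset.card_biUnion_le
    have h2 : ∑ k : κ, (A k a).card ≤ ∑ k : κ, p := Finset.sum_le_sum fun k _ => hA k a
    rw [Finset.sum_const, Finset.card_univ, smul_eq_mul] at h2
    exact_mod_cast h1.trans h2
  -- the pointwise bound
  have s4 : ∀ η : κ → J, ∀ a, ∑ b ∈ (univ : Finset κ).powerset, G (pl (PS W b η) a) ≤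
      (∏ k : κ, (if HitF (W k) a then (5 / 6 : ℝ) else 1)) +
        2 ^ K * ((∑ k, ones1 (W k (η k)) a) +
          ∑ k, (if Disjoint (W k (η k)) (Q a) then (0 : ℝ) else 1)) := by
    intro η a
    have hφ0 : (0 : ℝ) ≤ ∏ k : κ, (if HitF (W k) a then (5 / 6 : ℝ) else 1) :=
      Finset.prod_nonneg fun k _ => by split_ifs <;> norm_num
    have ho0 : ∀ k, 0 ≤ ones1 (W k (η k)) a := by
      intro k; unfold ones1; split_ifs <;> norm_num
    have hd0 : ∀ k, (0 : ℝ) ≤ (if Disjoint (W k (η k)) (Q a) then (0 : ℝ) else 1) := by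
      intro k; split_ifs <;> norm_num
    have htriv : ∑ b ∈ (univ : Finset κ).powerset, G (pl (PS W b η) a) ≤ 2 ^ K := by
      refine (Finset.sum_le_sum fun b _ => hG1 _).trans (le_of_eq ?_)
      rw [Finset.sum_const, Finset.card_powerset, Finset.card_univ, ← hK]
      simp
    by_cases hb1 : ∃ k, ∀ i ∈ W k (η k), a i = true
    · obtain ⟨k, hk⟩ := hb1
      have h1 : 1 ≤ ∑ k, ones1 (W k (η k)) a := by
        have h3 : ones1 (W k (η k)) a = 1 := by unfold ones1; rw [if_pos hk]
        rw [← h3]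
        exact Finset.single_le_sum (fun k _ => ho0 k) (mem_univ k)
      have h2 : (0 : ℝ) ≤ ∑ k, (if Disjoint (W k (η k)) (Q a) then (0 : ℝ) else 1) :=
        Finset.sum_nonneg fun k _ => hd0 k
      have h4 : (2 : ℝ) ^ K * 1 ≤ 2 ^ K * ((∑ k, ones1 (W k (η k)) a) +
          ∑ k, (if Disjoint (W k (η k)) (Q a) then (0 : ℝ) else 1)) :=
        mul_le_mul_of_nonneg_left (by linarith) (by positivity)
      linarith
    · by_cases hb2 : ∃ k, ¬ Disjoint (W k (η k)) (Q a)
      · obtain ⟨k, hk⟩ := hb2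
        have h1 : 1 ≤ ∑ k, (if Disjoint (W k (η k)) (Q a) then (0 : ℝ) else 1) := by
          have h3 : (if Disjoint (W k (η k)) (Q a) then (0 : ℝ) else 1) = 1 := by rw [if_neg hk]
          refine (le_of_eq h3.symm).trans ?_
          exact Finset.single_le_sum (f := fun k =>
            (if Disjoint (W k (η k)) (Q a) then (0 : ℝ) else 1)) (fun k _ => hd0 k) (mem_univ k)
        have h2 : (0 : ℝ) ≤ ∑ k, ones1 (W k (η k)) a :=
          Finset.sum_nonneg fun k _ => ho0 k
        have h4 : (2 : ℝ) ^ K * 1 ≤ 2 ^ K * ((∑ k, ones1 (W k (η k)) a) +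
            ∑ k, (if Disjoint (W k (η k)) (Q a) then (0 : ℝ) else 1)) :=
          mul_le_mul_of_nonneg_left (by linarith) (by positivity)
        linarith
      · push Not at hb1 hb2
        have h1 := P3.good_sum W hd g E (fun a => Iff.rfl)
          (fun k a => (if HitF (W k) a then (5 / 6 : ℝ) else 1))
          (fun k a h => if_pos h) (fun k a h => if_neg h) η a
          (by
            intro b k
            refine hgA k a _ fun i hi => ?_
            unfold pl
            rw [if_neg]
            rw [P3.mem_PS]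
            rintro ⟨k', hk', hi'⟩
            refine Finset.disjoint_left.1 (hb2 k') hi' ?_
            simp only [Q, mem_biUnion, mem_univ, true_and]
            exact ⟨k, hi⟩)
          (by
            intro k h
            obtain ⟨i, hi, hi'⟩ := hb1 k
            exact hi' (h i hi))
        have h2 : (0 : ℝ) ≤ 2 ^ K * ((∑ k, ones1 (W k (η k)) a) +
            ∑ k, (if Disjoint (W k (η k)) (Q a) then (0 : ℝ) else 1)) :=
          mul_nonneg (by positivity) (add_nonneg (Finset.sum_nonneg fun k _ => ho0 k)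
            (Finset.sum_nonneg fun k _ => hd0 k))
        linarith
  -- averaging
  have hcard : (Fintype.card (κ → J) : ℝ) = 2 ^ (m * K) := by
    rw [Fintype.card_fun, hJ]
    push_cast
    rw [← pow_mul]
  have s5 : ∑ η : κ → J, Ex unif (fun a =>
        ∑ b ∈ (univ : Finset κ).powerset, G (pl (PS W b η) a)) ≤
      2 ^ (m * K) * (11 / 12) ^ K + 2 ^ K * (2 ^ (m * K) * (K * (1 / 2) ^ m) +
        2 ^ (m * (K - 1)) * (K * p)) := by
    have h1 : ∑ η : κ → J, Ex unif (fun a =>
        ∑ b ∈ (univ : Finset κ).powerset, G (pl (PS W b η) a)) ≤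
        ∑ η : κ → J, (Ex unif (fun a : I → Bool =>
          ∏ k : κ, (if HitF (W k) a then (5 / 6 : ℝ) else 1)) +
          2 ^ K * ((∑ k, Ex unif (ones1 (W k (η k)))) +
          Ex unif (fun a => ∑ k, (if Disjoint (W k (η k)) (Q a) then (0 : ℝ) else 1)))) := by
      refine Finset.sum_le_sum fun η _ => (Ex_mono unif_nonneg (s4 η)).trans (le_of_eq ?_)
      rw [Ex_add, Ex_smul, Ex_add]
      congr 3
      rw [Ex_sum]
    refine h1.trans ?_
    rw [Finset.sum_add_distrib, ← Finset.mul_sum, Finset.sum_add_distrib]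
    have e1 : ∑ η : κ → J, Ex unif (fun a : I → Bool =>
          ∏ k : κ, (if HitF (W k) a then (5 / 6 : ℝ) else 1)) ≤ 2 ^ (m * K) * (11 / 12) ^ K := by
      rw [Finset.sum_const, Finset.card_univ, nsmul_eq_mul, hcard]
      exact mul_le_mul_of_nonneg_left (P3.prod_phi hm hJ W hW hd) (by positivity)
    have e2 : ∑ η : κ → J, ∑ k, Ex unif (ones1 (W k (η k))) = 2 ^ (m * K) * (K * (1 / 2) ^ m) := by
      simp only [P3.Ex_ones1, hW]
      rw [Finset.sum_const, Finset.card_univ, nsmul_eq_mul, hcard, Finset.sum_const,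
        Finset.card_univ, nsmul_eq_mul]
    have e3 : ∑ η : κ → J,
        Ex unif (fun a => ∑ k, (if Disjoint (W k (η k)) (Q a) then (0 : ℝ) else 1)) ≤
        2 ^ (m * (K - 1)) * (K * p) := by
      rw [← Ex_sum]
      have h2 : ∀ a : I → Bool, ∑ η : κ → J,
          ∑ k, (if Disjoint (W k (η k)) (Q a) then (0 : ℝ) else 1) ≤
          2 ^ (m * (K - 1)) * (K * p) := by
        intro a
        rw [Finset.sum_comm]
        have h3 : ∀ k : κ, ∑ η : κ → J, (if Disjoint (W k (η k)) (Q a) then (0 : ℝ) else 1) =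
            2 ^ (m * (K - 1)) * ∑ j, (if Disjoint (W k j) (Q a) then (0 : ℝ) else 1) := by
          intro k
          rw [P3.sum_pi_one k (fun j => (if Disjoint (W k j) (Q a) then (0 : ℝ) else 1)), hJ',
            ← pow_mul]
        rw [Finset.sum_congr rfl fun k _ => h3 k, ← Finset.mul_sum]
        refine mul_le_mul_of_nonneg_left ?_ (by positivity)
        exact (P3.meet_card W hd (Q a)).trans (hQ a)
      refine (Ex_mono unif_nonneg h2).trans (le_of_eq ?_)
      rw [Ex_const unif_sum]
    have := mul_le_mul_of_nonneg_left (add_le_add (le_of_eq e2) e3)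
      (by positivity : (0 : ℝ) ≤ 2 ^ K)
    linarith
  have s6 := s3.trans (mul_le_mul_of_nonneg_left s5 (by positivity))
  refine s6.trans (le_of_eq ?_)
  have h7 : (2 : ℝ) ^ (m * K) = 2 ^ (m * (K - 1)) * 2 ^ m := by
    rw [← pow_add]
    congr 1
    obtain ⟨n, hn⟩ : ∃ n, K = n + 1 := ⟨K - 1, by omega⟩
    rw [hn, Nat.add_sub_cancel, Nat.mul_add, Nat.mul_one]
  rw [h7, one_div_pow]
  field_simp
  ring

end

end Pool.Agent.H622R2.Exp
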