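import Pool.Agent.H622R2.Exp.E0
import Pool.Agent.H622R2.Exp.P3

namespace Pool.Agent.H622R2.Exp

open Pool.Agent.NPC Pool.Agent.H620R2.Gauge Finset H568R2

open Classical in
theorem evD_bound (M : Alg) (q : Polynomial ℕ) : ∃ n₀ : ℕ, ∀ n ≥ n₀, ∀ N : ℕ,
    2 ^ (3 * mm n + 1) ≤ N →
    Ex unif (fun a : Fin N → Bool => if EvD M q n N a then (1 : ℝ) else 0) ≤
      3 * (11 / 12) ^ 2 ^ n := by
  obtain ⟨n₀, hn₀⟩ := Filter.eventually_atTop.1 (E0.poly_le q 1)
  refine ⟨n₀, fun n hn N hN => ?_⟩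
  have hq := hn₀ n hn
  rw [one_mul] at hq
  have hlen : ∀ i, (bitsOf n i).length = n := fun i => length_bitsOf n i
  have hpl : ∀ i, (padq q4 (bitsOf n i)).length = mm n := fun i => by
    rw [E0.length_padq4, hlen]
  have h1 := det_comb (I := Fin N) (κ := Fin (2 ^ n)) (J := Fin (2 ^ mm n)) (m := mm n)
    (p := 2 ^ q.eval n) (E0.one_le_mm n) (by simp)
    (fun k j => witF N (padq q4 (bitsOf n k.val)) j.val) (by
      intro k j
      rw [witF_card (by rw [hpl]; omega), hpl]) (by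
      intro k j k' j' hne
      refine E0.windows_disj (hlen _) (hlen _) j.2 j'.2 ?_
      intro he
      apply hne
      rw [Prod.mk.injEq] at he ⊢
      exact ⟨Fin.ext (bitsOf_inj k.2 k'.2 he.1), Fin.ext he.2⟩)
    (fun k a => decide (M.run (orc N a) (bitsOf n k.val) (2 ^ q.eval n) [] = some [true])) (by
      intro k a
      exact (dtr_run M N (bitsOf n k.val) (2 ^ q.eval n) []).cert _ a rfl)
  have h2 : ∀ a : Fin N → Bool, EvD M q n N a ↔ ∀ k : Fin (2 ^ n),
      (decide (M.run (orc N a) (bitsOf n k.val) (2 ^ q.eval n) [] = some [true]) = true ↔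
        HitF (fun j : Fin (2 ^ mm n) => witF N (padq q4 (bitsOf n k.val)) j.val) a) := by
    intro a
    have h3 : ∀ k : ℕ, HitF (fun j : Fin (2 ^ mm n) => witF N (padq q4 (bitsOf n k)) j.val) a ↔
        ∃ j < 2 ^ mm n, ∀ l < mm n, orc N a (wit (padq q4 (bitsOf n k)) j l) = true := by
      intro k
      have h4 := E0.hitF_iff (N := N) (x := padq q4 (bitsOf n k)) (by rw [hpl]; omega) a
      rw [hpl] at h4
      exact h4
    unfold EvD
    constructor
    · intro h k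
      rw [decide_eq_true_eq, h3]
      exact h k.val k.2
    · intro h k hk
      have := h ⟨k, hk⟩
      rw [decide_eq_true_eq, h3] at this
      exact this
  have h5 : Ex unif (fun a : Fin N → Bool => if EvD M q n N a then (1 : ℝ) else 0) ≤
      (11 / 12) ^ 2 ^ n + 2 ^ 2 ^ n * (2 ^ n * (2 ^ q.eval n + 1)) / 2 ^ mm n := by
    refine le_trans (le_of_eq ?_) (h1.trans (le_of_eq ?_))
    · congr 1
      funext a
      by_cases h : EvD M q n N a
      · rw [if_pos h, if_pos ((h2 a).1 h)]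
      · rw [if_neg h, if_neg (fun h' => h ((h2 a).2 h'))]
    · simp
  refine h5.trans ?_
  have h6 : (2 : ℝ) ^ 2 ^ n * (2 ^ n * (2 ^ q.eval n + 1)) / 2 ^ mm n ≤ 2 * (1 / 2) ^ 2 ^ n := by
    rw [div_le_iff₀ (by positivity)]
    have h7 : (2 : ℝ) ^ q.eval n + 1 ≤ 2 ^ (q.eval n + 1) := by
      have : (1 : ℝ) ≤ 2 ^ q.eval n := one_le_pow₀ (by norm_num)
      rw [pow_succ]; linarith
    have h8 : (2 : ℝ) ^ 2 ^ n * (2 ^ n * (2 ^ q.eval n + 1)) ≤
        2 ^ (2 ^ n + (n + (q.eval n + 1))) := by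
      rw [pow_add, pow_add 2 n]
      gcongr
    have h9 : (2 : ℝ) * (1 / 2) ^ 2 ^ n * 2 ^ mm n = 2 ^ (mm n + 1 - 2 ^ n) := by
      have hmm : 2 ^ n ≤ mm n + 1 := by
        have h1 := E0.mm_ge n
        have h2 : 2 ^ n ≤ 2 ^ (n + 3) := Nat.pow_le_pow_right (by norm_num) (by omega)
        omega
      rw [pow_sub₀ _ (by norm_num) hmm, pow_succ, one_div, inv_pow]
      ring
    rw [h9]
    refine h8.trans (pow_le_pow_right₀ (by norm_num) ?_)
    have h10 := E0.mm_ge n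
    have h11 : 2 ^ (n + 3) = 8 * 2 ^ n := by rw [pow_add]; norm_num; ring
    omega
  have h12 : ((1 : ℝ) / 2) ^ 2 ^ n ≤ (11 / 12) ^ 2 ^ n :=
    pow_le_pow_left₀ (by norm_num) (by norm_num) _
  linarith

end Pool.Agent.H622R2.Exp
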