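import Pool.Agent.H622R2.Exp.Base
import Pool.Agent.H620R2.Gauge2.V1
import Pool.Agent.H622R2.Exp.P2

/-!
# Planted windows: the bound for a pair of plantings
-/

namespace Pool.Agent.H622R2.Exp

open Pool.Agent.NPC Pool.Agent.H620R2.Gauge Finset H568R2 Pool.Agent.H676

section

variable {I : Type*} [Fintype I] [DecidableEq I]

namespace P5

/-- Rerandomising the second component of one coordinate. -/
lemma sum_update {τ J : Type*} [Fintype τ] [DecidableEq τ] [Fintype J] {R : ℕ} (t' : τ)
    (G : (τ → Fin R × J) → ℝ) :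
    ∑ η : τ → Fin R × J, ∑ j : J, G (Function.update η t' ((η t').1, j)) =
      (Fintype.card J : ℝ) * ∑ η : τ → Fin R × J, G η := by
  let e : (τ → Fin R × J) × J ≃ (τ → Fin R × J) × J :=
    { toFun := fun z => (Function.update z.1 t' ((z.1 t').1, z.2), (z.1 t').2)
      invFun := fun z => (Function.update z.1 t' ((z.1 t').1, z.2), (z.1 t').2)
      left_inv := fun z => by simp
      right_inv := fun z => by simp }
  have h1 : ∑ η : τ → Fin R × J, ∑ j : J, G (Function.update η t' ((η t').1, j)) =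
      ∑ z : (τ → Fin R × J) × J, G (e z).1 := by
    rw [Fintype.sum_prod_type]
    rfl
  rw [h1, Equiv.sum_comp e (fun z => G z.1), Fintype.sum_prod_type]
  simp only [Finset.sum_const, Finset.card_univ, nsmul_eq_mul]
  rw [Finset.mul_sum]

/-- If for all other coordinates at most `p` values are good, then few points are good. -/
lemma sum_le {τ J : Type*} [Fintype τ] [DecidableEq τ] [Fintype J] {R p : ℕ} (t' : τ)
    (hJ0 : 0 < Fintype.card J) (G : (τ → Fin R × J) → ℝ)
    (h : ∀ η, ∑ j : J, G (Function.update η t' ((η t').1, j)) ≤ p) :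
    ∑ η : τ → Fin R × J, G η ≤
      (R * Fintype.card J : ℝ) ^ Fintype.card τ * p / Fintype.card J := by
  have hJ' : (0 : ℝ) < Fintype.card J := by exact_mod_cast hJ0
  rw [le_div_iff₀ hJ', mul_comm, ← sum_update t' G]
  refine (Finset.sum_le_sum fun η _ => h η).trans ?_
  rw [Finset.sum_const, Finset.card_univ, nsmul_eq_mul]
  simp

omit [Fintype I] in
/-- the number of windows that meet a small set is small -/
lemma card_meet {J : Type*} [Fintype J] [DecidableEq J] (W : J → Finset I)
    (hd : ∀ j j', j ≠ j' → Disjoint (W j) (W j')) (A : Finset I) :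
    (univ.filter fun j => ¬ Disjoint (W j) A).card ≤ A.card := by
  classical
  calc (univ.filter fun j => ¬ Disjoint (W j) A).card
      = ∑ _j ∈ univ.filter fun j => ¬ Disjoint (W j) A, 1 := by simp
    _ ≤ ∑ j ∈ univ.filter fun j => ¬ Disjoint (W j) A, (W j ∩ A).card := by
        refine Finset.sum_le_sum fun j hj => ?_
        rw [Nat.one_le_iff_ne_zero, Finset.card_ne_zero]
        exact Finset.not_disjoint_iff_nonempty_inter.1 (Finset.mem_filter.1 hj).2
    _ = ((univ.filter fun j => ¬ Disjoint (W j) A).biUnion fun j => W j ∩ A).card := by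
        rw [Finset.card_biUnion]
        intro j _ j' _ hne
        exact (hd j j' hne).mono Finset.inter_subset_left Finset.inter_subset_left
    _ ≤ A.card := Finset.card_le_card (Finset.biUnion_subset.2 fun j _ => Finset.inter_subset_right)

variable {τ J : Type*} [Fintype τ] [DecidableEq τ] [Fintype J] {m p R : ℕ}

omit [Fintype I] [Fintype τ] [DecidableEq τ] [Fintype J] in
/-- planting windows in `S` does not change the blocks outside `S` -/
lemma pl_eq (W : τ × Fin R → J → Finset I)
    (hd : ∀ k j k' j', (k, j) ≠ (k', j') → Disjoint (W k j) (W k' j')) (S : Finset τ)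
    (η : τ → Fin R × J) (a : I → Bool) (t : τ) (ht : t ∉ S) (r : Fin R) (j : J) (i : I)
    (hi : i ∈ W (t, r) j) : pl (PS (fun t c => W (t, c.1) c.2) S η) a i = a i := by
  unfold pl
  rw [if_neg]
  intro h
  obtain ⟨t', ht', h'⟩ := Finset.mem_biUnion.1 h
  refine Finset.disjoint_left.1 (hd (t, r) j (t', (η t').1) (η t').2 ?_) hi h'
  intro he
  have : t = t' := congrArg (fun x : (τ × Fin R) × J => x.1.1) he
  exact ht (this ▸ ht')

omit [Fintype I] [Fintype τ] [Fintype J] in
/-- the case distinction -/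
lemma cases_bound (W : τ × Fin R → J → Finset I)
    (hd : ∀ k j k' j', (k, j) ≠ (k', j') → Disjoint (W k j) (W k' j'))
    (V : τ × Fin R → (I → Bool) → Bool)
    (A : τ × Fin R → (I → Bool) → Finset I)
    (hA : ∀ k x, V k x = true → ∀ y, (∀ i ∈ A k x, y i = x i) → V k y = true)
    (S U : Finset τ) (hSU : Disjoint S U) (η : τ → Fin R × J) (a : I → Bool)
    (h : Corr W V (pl (PS (fun t c => W (t, c.1) c.2) S η) a) ∧
        Corr W V (pl (PS (fun t c => W (t, c.1) c.2) (S ∪ U) η) a)) :
    (∀ t ∈ U, HitF (W (t, (η t).1)) a) ∨ ∃ t ∈ U, ∃ t' ∈ U,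
      V (t, (η t).1) (pl (PS (fun t c => W (t, c.1) c.2) S η) a) = true ∧
      ¬ Disjoint (W (t', (η t').1) (η t').2)
        (A (t, (η t).1) (pl (PS (fun t c => W (t, c.1) c.2) S η) a)) := by
  obtain ⟨h1, h2⟩ := h
  by_contra hcon
  push Not at hcon
  obtain ⟨⟨t, htU, hnot⟩, hdis⟩ := hcon
  have htS : t ∉ S := fun hs => Finset.disjoint_left.1 hSU hs htU
  -- the block is not hit in `a1`
  have hn1 : ¬ HitF (W (t, (η t).1)) (pl (PS (fun t c => W (t, c.1) c.2) S η) a) := by
    rintro ⟨j, hj⟩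
    apply hnot
    refine ⟨j, fun i hi => ?_⟩
    rw [← pl_eq W hd S η a t htS (η t).1 j i hi]
    exact hj i hi
  have hV1 := (h1 (t, (η t).1)).2 hn1
  -- the block is hit in `a2`
  have hh2 : HitF (W (t, (η t).1)) (pl (PS (fun t c => W (t, c.1) c.2) (S ∪ U) η) a) := by
    refine ⟨(η t).2, fun i hi => ?_⟩
    unfold pl
    rw [if_pos]
    exact Finset.mem_biUnion.2 ⟨t, Finset.mem_union_right _ htU, hi⟩
  have hV2 : ¬ V (t, (η t).1) (pl (PS (fun t c => W (t, c.1) c.2) (S ∪ U) η) a) = true := by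
    intro hv
    exact (h2 (t, (η t).1)).1 hv hh2
  apply hV2
  refine hA _ _ hV1 _ fun i hi => ?_
  unfold pl
  by_cases hiS : i ∈ PS (fun t c => W (t, c.1) c.2) S η
  · rw [if_pos hiS, if_pos]
    obtain ⟨t', ht', h'⟩ := Finset.mem_biUnion.1 hiS
    exact Finset.mem_biUnion.2 ⟨t', Finset.mem_union_left _ ht', h'⟩
  · rw [if_neg hiS, if_neg]
    intro hiSU
    obtain ⟨t', ht', h'⟩ := Finset.mem_biUnion.1 hiSU
    rcases Finset.mem_union.1 ht' with h3 | h3
    · exact hiS (Finset.mem_biUnion.2 ⟨t', h3, h'⟩)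
    · exact Finset.disjoint_left.1 (hdis t htU t' h3 hV1) h' hi

lemma ind_le {τ : Type*} (U : Finset τ) (P Q : Prop) (T : τ → τ → Prop) [Decidable P]
    [Decidable Q] [∀ t t', Decidable (T t t')] (h : P → Q ∨ ∃ t ∈ U, ∃ t' ∈ U, T t t') :
    (if P then (1 : ℝ) else 0) ≤ (if Q then (1 : ℝ) else 0) +
      ∑ t ∈ U, ∑ t' ∈ U, (if T t t' then (1 : ℝ) else 0) := by
  have h0 : ∀ t t', (0 : ℝ) ≤ if T t t' then (1 : ℝ) else 0 := fun t t' => by
    split_ifs <;> norm_num
  have h1 : (0 : ℝ) ≤ ∑ t ∈ U, ∑ t' ∈ U, (if T t t' then (1 : ℝ) else 0) :=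
    Finset.sum_nonneg fun t _ => Finset.sum_nonneg fun t' _ => h0 t t'
  have h2 : (0 : ℝ) ≤ if Q then (1 : ℝ) else 0 := by split_ifs <;> norm_num
  by_cases hP : P
  · rw [if_pos hP]
    rcases h hP with hQ | ⟨t, ht, t', ht', hT⟩
    · rw [if_pos hQ]
      linarith
    · have h3 : (1 : ℝ) ≤ ∑ t' ∈ U, (if T t t' then (1 : ℝ) else 0) := by
        refine le_trans ?_ (Finset.single_le_sum (fun t' _ => h0 t t') ht')
        rw [if_pos hT]
      have h4 : ∑ t' ∈ U, (if T t t' then (1 : ℝ) else 0) ≤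
          ∑ t ∈ U, ∑ t' ∈ U, (if T t t' then (1 : ℝ) else 0) :=
        Finset.single_le_sum (f := fun t => ∑ t' ∈ U, (if T t t' then (1 : ℝ) else 0))
          (fun t _ => Finset.sum_nonneg fun t' _ => h0 t t') ht
      linarith
  · rw [if_neg hP]
    linarith

open Classical in
lemma case_one (hm : 1 ≤ m) (hJ : Fintype.card J = 2 ^ m) (W : τ × Fin R → J → Finset I)
    (hW : ∀ k j, (W k j).card = m)
    (hd : ∀ k j k' j', (k, j) ≠ (k', j') → Disjoint (W k j) (W k' j')) (U : Finset τ)
    (η : τ → Fin R × J) :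
    Ex unif (fun a : I → Bool => if ∀ t ∈ U, HitF (W (t, (η t).1)) a then (1 : ℝ) else 0) ≤
      (3 / 4) ^ U.card := by
  have h := prod_block (I := I) U (fun t => univ.biUnion fun j => W (t, (η t).1) j)
    (fun t a => if HitF (W (t, (η t).1)) a then (1 : ℝ) else 0) (fun _ => 3 / 4)
    (fun t _ a => by positivity) ?_ ?_
  · rw [Finset.prod_const] at h
    refine le_trans (le_of_eq ?_) h
    refine congrArg (Ex unif) (funext fun a => ?_)
    by_cases hc : ∀ t ∈ U, HitF (W (t, (η t).1)) a
    · rw [if_pos hc, Finset.prod_congr rfl (fun t ht => if_pos (hc t ht)), Finset.prod_const_one]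
    · rw [if_neg hc]
      push Not at hc
      obtain ⟨t, ht, hn⟩ := hc
      rw [Finset.prod_eq_zero ht (if_neg hn)]
  · intro t _ t' _ hne a b
    have : HitF (W (t, (η t).1)) (mix (univ.biUnion fun j => W (t', (η t').1) j) b a) ↔
        HitF (W (t, (η t).1)) a := by
      unfold HitF
      refine exists_congr fun j => forall₂_congr fun i hi => ?_
      rw [mix, if_neg]
      intro hmem
      obtain ⟨j', _, hj'⟩ := Finset.mem_biUnion.1 hmem
      refine Finset.disjoint_left.1 (hd (t, (η t).1) j (t', (η t').1) j' ?_) hi hj'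
      intro he
      exact hne (congrArg (fun x : (τ × Fin R) × J => x.1.1) he)
    simp only [this]
  · intro t _ a
    have : ∀ b : I → Bool, (HitF (W (t, (η t).1))
        (mix (univ.biUnion fun j => W (t, (η t).1) j) b a) ↔ HitF (W (t, (η t).1)) b) := by
      intro b
      unfold HitF
      refine exists_congr fun j => forall₂_congr fun i hi => ?_
      rw [mix, if_pos]
      exact Finset.mem_biUnion.2 ⟨j, Finset.mem_univ _, hi⟩
    simp only [this]
    exact (prob_hit hm hJ (W (t, (η t).1)) (hW _) (fun j j' hne => hd _ _ _ _ (by simpa using hne))).2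

open Classical in
lemma case_two (hJ0 : 0 < Fintype.card J) (W : τ × Fin R → J → Finset I)
    (hd : ∀ k j k' j', (k, j) ≠ (k', j') → Disjoint (W k j) (W k' j'))
    (V : τ × Fin R → (I → Bool) → Bool)
    (A : τ × Fin R → (I → Bool) → Finset I)
    (hA : ∀ k x, V k x = true → (A k x).card ≤ p)
    (S U : Finset τ) (hSU : Disjoint S U) (t t' : τ) (ht' : t' ∈ U) :
    ∑ η : τ → Fin R × J, Ex unif (fun a : I → Bool =>
      if V (t, (η t).1) (pl (PS (fun t c => W (t, c.1) c.2) S η) a) = true ∧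
      ¬ Disjoint (W (t', (η t').1) (η t').2)
        (A (t, (η t).1) (pl (PS (fun t c => W (t, c.1) c.2) S η) a)) then (1 : ℝ) else 0) ≤
      (R * Fintype.card J : ℝ) ^ Fintype.card τ * p / Fintype.card J := by
  rw [← Ex_sum]
  have ht'S : t' ∉ S := fun hs => Finset.disjoint_left.1 hSU hs ht'
  calc _ ≤ Ex unif (fun _ : I → Bool =>
        (R * Fintype.card J : ℝ) ^ Fintype.card τ * p / Fintype.card J) := ?_
    _ = _ := Ex_const unif_sum _
  refine Ex_mono unif_nonneg fun a => ?_
  refine sum_le t' hJ0 _ fun η => ?_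
  -- the planted assignment does not change
  have hPS : ∀ j : J, PS (fun t (c : Fin R × J) => W (t, c.1) c.2) S
      (Function.update η t' ((η t').1, j)) = PS (fun t c => W (t, c.1) c.2) S η := by
    intro j
    unfold PS
    refine Finset.biUnion_congr rfl fun t'' h'' => ?_
    rw [Function.update_of_ne]
    rintro rfl
    exact ht'S h''
  have hfst : ∀ j : J, (Function.update η t' ((η t').1, j) t).1 = (η t).1 := by
    intro j
    by_cases he : t = t'
    · subst he; simp
    · rw [Function.update_of_ne he]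
  simp only [hPS, hfst, Function.update_self]
  set a1 := pl (PS (fun t c => W (t, c.1) c.2) S η) a with ha1
  by_cases hv : V (t, (η t).1) a1 = true
  · simp only [hv, true_and]
    rw [← Finset.sum_filter, Finset.sum_const, nsmul_eq_mul, mul_one]
    have h1 := card_meet (W (t', (η t').1)) (fun j j' hne => hd _ _ _ _ (by simpa using hne))
      (A (t, (η t).1) a1)
    have h2 := hA _ _ hv
    exact_mod_cast h1.trans h2
  · simp [hv]

end P5

open Classical in
theorem pair_bound {τ J : Type*} [Fintype τ] [DecidableEq τ] [Fintype J] {m p R : ℕ}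
    (hm : 1 ≤ m) (hR : 1 ≤ R) (hJ : Fintype.card J = 2 ^ m) (W : τ × Fin R → J → Finset I)
    (hW : ∀ k j, (W k j).card = m)
    (hd : ∀ k j k' j', (k, j) ≠ (k', j') → Disjoint (W k j) (W k' j'))
    (V : τ × Fin R → (I → Bool) → Bool) (hV : ∀ k, Cert p true (V k)) (S U : Finset τ)
    (hSU : Disjoint S U) :
    (∑ η : τ → Fin R × J, Ex unif (fun a : I → Bool =>
      if Corr W V (pl (PS (fun t c => W (t, c.1) c.2) S η) a) ∧
        Corr W V (pl (PS (fun t c => W (t, c.1) c.2) (S ∪ U) η) a) then (1 : ℝ) else 0)) /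
      (R * 2 ^ m : ℝ) ^ Fintype.card τ ≤ (3 / 4) ^ U.card + U.card ^ 2 * p / 2 ^ m := by
  have hJ0 : 0 < Fintype.card J := by rw [hJ]; positivity
  have hJr : (Fintype.card J : ℝ) = 2 ^ m := by rw [hJ]; norm_cast
  have hRr : (0 : ℝ) < R := by exact_mod_cast hR
  have hpos : (0 : ℝ) < (R * 2 ^ m : ℝ) ^ Fintype.card τ := by positivity
  -- certificates
  have hA0 : ∀ k x, ∃ A : Finset I, V k x = true → (A.card ≤ p ∧
      ∀ y, (∀ i ∈ A, y i = x i) → V k y = true) := by
    intro k x
    by_cases h : V k x = true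
    · obtain ⟨A, h1, h2⟩ := hV k x h
      exact ⟨A, fun _ => ⟨h1, h2⟩⟩
    · exact ⟨∅, fun h' => absurd h' h⟩
  choose A hA using hA0
  rw [div_le_iff₀ hpos]
  calc _ ≤ ∑ η : τ → Fin R × J, (Ex unif (fun a : I → Bool =>
          if ∀ t ∈ U, HitF (W (t, (η t).1)) a then (1 : ℝ) else 0) +
        ∑ t ∈ U, ∑ t' ∈ U, Ex unif (fun a : I → Bool =>
          if V (t, (η t).1) (pl (PS (fun t c => W (t, c.1) c.2) S η) a) = true ∧
          ¬ Disjoint (W (t', (η t').1) (η t').2)
            (A (t, (η t).1) (pl (PS (fun t c => W (t, c.1) c.2) S η) a)) then (1 : ℝ) else 0)) := ?_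
    _ ≤ ∑ η : τ → Fin R × J, (3 / 4 : ℝ) ^ U.card + ∑ t ∈ U, ∑ t' ∈ U,
        (R * Fintype.card J : ℝ) ^ Fintype.card τ * p / Fintype.card J := ?_
    _ = _ := ?_
  · refine Finset.sum_le_sum fun η _ => ?_
    simp only [← Ex_sum]
    rw [← Ex_add]
    refine Ex_mono unif_nonneg fun a => ?_
    exact P5.ind_le U _ _ _ (P5.cases_bound W hd V A (fun k x hk => (hA k x hk).2) S U hSU η a)
  · rw [Finset.sum_add_distrib]
    refine add_le_add (Finset.sum_le_sum fun η _ => P5.case_one hm hJ W hW hd U η) ?_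
    rw [Finset.sum_comm]
    refine Finset.sum_le_sum fun t _ => ?_
    rw [Finset.sum_comm]
    refine Finset.sum_le_sum fun t' ht' => ?_
    exact P5.case_two hJ0 W hd V A (fun k x hk => (hA k x hk).1) S U hSU t t' ht'
  · rw [hJr]
    simp only [Finset.sum_const, nsmul_eq_mul, Finset.card_univ, Fintype.card_fun,
      Fintype.card_prod, Fintype.card_fin, hJ]
    push_cast
    field_simp

end

end Pool.Agent.H622R2.Exp
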