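import Pool.Agent.H622R2.Exp.P4
import Pool.Agent.H622R2.Exp.P5

namespace Pool.Agent.H622R2.Exp

open Pool.Agent.NPC Pool.Agent.H620R2.Gauge Finset H568R2

namespace P6

/-- the number of true indices is at most one plus the number of pairs of true indices -/
lemma count_le {T : ℕ} (P : Fin T → Prop) [DecidablePred P] :
    ((univ.filter P).card : ℕ) ≤
      1 + ((univ : Finset (Fin T × Fin T)).filter
        (fun q => q.1 < q.2 ∧ P q.1 ∧ P q.2)).card := by
  classical
  by_cases hne : (univ.filter P).Nonempty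
  · set i0 := (univ.filter P).min' hne with hi0
    have hi0m : P i0 := (mem_filter.1 (min'_mem _ hne)).2
    have hsub : univ.filter P ⊆ insert i0 (((univ : Finset (Fin T × Fin T)).filter
        (fun q => q.1 < q.2 ∧ P q.1 ∧ P q.2)).image Prod.snd) := by
      intro j hj
      rw [mem_insert]
      by_cases h : j = i0
      · exact Or.inl h
      · right
        rw [mem_image]
        refine ⟨(i0, j), ?_, rfl⟩
        rw [mem_filter]
        refine ⟨mem_univ _, ?_, hi0m, (mem_filter.1 hj).2⟩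
        exact lt_of_le_of_ne (min'_le _ _ hj) (Ne.symm h)
    calc (univ.filter P).card ≤ _ := card_le_card hsub
      _ ≤ _ := card_insert_le _ _
      _ ≤ _ := by
        rw [add_comm]
        exact Nat.add_le_add_left card_image_le 1
  · rw [not_nonempty_iff_eq_empty] at hne
    rw [hne]; simp

lemma count_le_real {T : ℕ} (P : Fin T → Prop) [DecidablePred P] :
    (∑ i : Fin T, if P i then (1 : ℝ) else 0) ≤
      1 + ∑ q ∈ (univ : Finset (Fin T × Fin T)).filter (fun q => q.1 < q.2),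
        if P q.1 ∧ P q.2 then (1 : ℝ) else 0 := by
  have h := count_le P
  rw [← Finset.sum_filter, ← Finset.sum_filter, Finset.filter_filter]
  simp only [Finset.sum_const, nsmul_eq_mul, mul_one]
  exact_mod_cast h

lemma pairs_card (T : ℕ) :
    (2 : ℝ) * (((univ : Finset (Fin T × Fin T)).filter (fun q => q.1 < q.2)).card : ℝ) ≤
      (T : ℝ) ^ 2 := by
  have h1 : ((univ : Finset (Fin T × Fin T)).filter (fun q => q.1 < q.2)).card =
      ((univ : Finset (Fin T × Fin T)).filter (fun q => q.2 < q.1)).card := by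
    refine Finset.card_bij (fun q _ => (q.2, q.1)) ?_ ?_ ?_
    · intro q hq
      simpa using hq
    · intro a _ b _ hab
      simp only [Prod.mk.injEq] at hab
      exact Prod.ext hab.2 hab.1
    · intro b hb
      exact ⟨(b.2, b.1), by simpa using hb, rfl⟩
  have h2 : Disjoint ((univ : Finset (Fin T × Fin T)).filter (fun q => q.1 < q.2))
      ((univ : Finset (Fin T × Fin T)).filter (fun q => q.2 < q.1)) := by
    rw [Finset.disjoint_filter]
    intro q _ h h'
    exact lt_asymm h h'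
  have h3 := Finset.card_union_of_disjoint h2
  have h4 : (((univ : Finset (Fin T × Fin T)).filter (fun q => q.1 < q.2)) ∪
      ((univ : Finset (Fin T × Fin T)).filter (fun q => q.2 < q.1))).card ≤ T ^ 2 := by
    refine (Finset.card_le_univ _).trans ?_
    simp [sq]
  have h5 : 2 * ((univ : Finset (Fin T × Fin T)).filter (fun q => q.1 < q.2)).card ≤ T ^ 2 := by
    omega
  exact_mod_cast h5

lemma pow_bound {n R : ℕ} {x : ℝ} (hR : 0 < R) (hx0 : (n : ℝ) / R ≤ x) (hx : x ≤ 1 / 2) :
    (1 + 1 / (R : ℝ)) ^ n ≤ 1 + 2 * x := by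
  have hR' : (0 : ℝ) < R := by exact_mod_cast hR
  have hxn : 0 ≤ x := le_trans (by positivity) hx0
  have h1 : (1 + 1 / (R : ℝ)) ^ n ≤ Real.exp ((n : ℝ) / R) := by
    have : 1 + 1 / (R : ℝ) ≤ Real.exp (1 / R) := by
      have := Real.add_one_le_exp (1 / (R : ℝ)); linarith
    calc (1 + 1 / (R : ℝ)) ^ n ≤ (Real.exp (1 / R)) ^ n := by gcongr
      _ = Real.exp ((n : ℝ) / R) := by
        rw [← Real.exp_nat_mul]; congr 1; ring
  have h2 : Real.exp ((n : ℝ) / R) ≤ Real.exp x := Real.exp_le_exp.2 hx0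
  have h3 : Real.exp x ≤ 1 + 2 * x := by
    have h4 : 1 - x ≤ Real.exp (-x) := by
      have := Real.add_one_le_exp (-x); linarith
    have h5 : Real.exp x * Real.exp (-x) = 1 := by rw [← Real.exp_add]; simp
    have h6 : Real.exp x * (1 - x) ≤ 1 := by
      calc Real.exp x * (1 - x) ≤ Real.exp x * Real.exp (-x) :=
            mul_le_mul_of_nonneg_left h4 (Real.exp_pos _).le
        _ = 1 := h5
    have h7 : 1 ≤ (1 + 2 * x) * (1 - x) := by nlinarith
    have h8 : Real.exp x * (1 - x) ≤ (1 + 2 * x) * (1 - x) := h6.trans h7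
    exact le_of_mul_le_mul_right h8 (by linarith)
  linarith

end P6

section

variable {I : Type*} [Fintype I] [DecidableEq I]

open Classical in
theorem P6.gen {J : Type*} [Fintype J] {m p s R : ℕ} (hRdef : R = 10 * s * 8 ^ s) (hs : 1 ≤ s)
    (hm : 1 ≤ m) (hJ : Fintype.card J = 2 ^ m)
    (W : (Fin (2 ^ s) × Fin (5 * s)) × Fin R → J → Finset I)
    (hW : ∀ k j, (W k j).card = m)
    (hd : ∀ k j k' j', (k, j) ≠ (k', j') → Disjoint (W k j) (W k' j'))
    (V : (Fin (2 ^ s) × Fin (5 * s)) × Fin R → (I → Bool) → Bool)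
    (hV : ∀ k, Cert p true (V k)) (hp : 25 * s ^ 2 * 16 ^ s * p ≤ 2 ^ m) :
    Ex unif (fun a : I → Bool => if Corr W V a then (1 : ℝ) else 0) ≤ 3 / 2 ^ s := by
  have hR : 1 ≤ R := by
    rw [hRdef]; exact Nat.one_le_iff_ne_zero.2 (by positivity)
  have hR0 : (0 : ℝ) < R := by exact_mod_cast hR
  set T : ℝ := (2 : ℝ) ^ s with hT
  have hT0 : 0 < T := by positivity
  have hT1 : (2 : ℝ) ≤ T := by
    calc (2 : ℝ) = 2 ^ 1 := by norm_num
      _ ≤ 2 ^ s := pow_le_pow_right₀ (by norm_num) hs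
  set W' : (Fin (2 ^ s) × Fin (5 * s)) → Fin R × J → Finset I := fun t c => W (t, c.1) c.2 with hW'
  have hC : Fintype.card (Fin R × J) = R * 2 ^ m := by
    rw [Fintype.card_prod, Fintype.card_fin, hJ]
  have hCr : (Fintype.card (Fin R × J) : ℝ) = (R : ℝ) * 2 ^ m := by
    rw [hC]; push_cast; rfl
  set N : ℝ := ((R : ℝ) * 2 ^ m) ^ Fintype.card (Fin (2 ^ s) × Fin (5 * s)) with hN
  have hN0 : 0 < N := by positivity
  have hd' : ∀ t c t' c', (t, c) ≠ (t', c') → Disjoint (W' t c) (W' t' c') := by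
    intro t c t' c' hne
    apply hd
    intro h
    apply hne
    simp only [Prod.mk.injEq] at h
    exact Prod.ext h.1.1 (Prod.ext h.1.2 h.2)
  set S : Fin (2 ^ s) → Finset (Fin (2 ^ s) × Fin (5 * s)) := fun i => univ.filter (fun u : (Fin (2 ^ s) × Fin (5 * s)) => u.1 < i) with hS
  set F : (I → Bool) → ℝ := fun a => if Corr W V a then (1 : ℝ) else 0 with hF
  set law : Fin (2 ^ s) → ℝ := fun i =>
    (∑ η : (Fin (2 ^ s) × Fin (5 * s)) → Fin R × J, Ex unif (fun a => F (pl (PS W' (S i) η) a))) / N with hlaw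
  have hcardτ : Fintype.card (Fin (2 ^ s) × Fin (5 * s)) = 2 ^ s * (5 * s) := by
    simp
  have hunif : ∀ b : Bool, 0 ≤ unif b := fun b => by unfold unif; norm_num
  have hunif1 : ∑ b : Bool, unif b = 1 := by unfold unif; norm_num
  -- step 1
  have step1 : ∀ i, Ex unif F ≤ law i + 1 / T := by
    intro i
    have h := close_plant hR hC W' (fun t c => hW _ _) hd' (S i) F
      (fun a => by simp only [hF]; split_ifs <;> norm_num)
      (fun a => by simp only [hF]; split_ifs <;> norm_num) (1 / T) (by positivity)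
    rw [hCr] at h
    have hcard : (S i).card ≤ 2 ^ s * (5 * s) := by
      rw [← hcardτ]; exact card_le_univ _
    have hx : ((S i).card : ℝ) / R ≤ 1 / (2 * T ^ 2) := by
      rw [div_le_div_iff₀ hR0 (by positivity)]
      have h1 : ((S i).card : ℝ) ≤ 2 ^ s * (5 * s) := by exact_mod_cast hcard
      have h2 : (R : ℝ) = 10 * s * 8 ^ s := by rw [hRdef]; push_cast; rfl
      have h3 : (8 : ℝ) ^ s = T * T ^ 2 := by
        rw [hT, ← pow_mul, mul_comm s 2, pow_mul, ← mul_pow]; norm_num
      rw [h2, h3]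
      have h4 : (0 : ℝ) ≤ 2 * T ^ 2 := by positivity
      nlinarith [mul_le_mul_of_nonneg_right h1 h4]
    have hx2 : 1 / (2 * T ^ 2) ≤ (1 : ℝ) / 2 := by
      apply one_div_le_one_div_of_le (by norm_num)
      nlinarith
    have hb := P6.pow_bound hR hx hx2
    have h5 : ((1 + 1 / (R : ℝ)) ^ (S i).card - 1) / (2 * (1 / T)) ≤ 1 / (2 * T) := by
      rw [div_le_iff₀ (by positivity)]
      have e : 1 / (2 * T) * (2 * (1 / T)) = 2 * (1 / (2 * T ^ 2)) := by
        field_simp
      rw [e]; linarith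
    have h6 : 1 / T / 2 + 1 / (2 * T) = 1 / T := by field_simp; norm_num
    have h7 : law i = (∑ η : (Fin (2 ^ s) × Fin (5 * s)) → Fin R × J, Ex unif (fun a => F (pl (PS W' (S i) η) a))) /
      (↑R * 2 ^ m) ^ Fintype.card (Fin (2 ^ s) × Fin (5 * s)) := rfl
    rw [h7]
    linarith
  -- step 2
  have hpair : ∀ q ∈ (univ : Finset (Fin (2 ^ s) × Fin (2 ^ s))).filter (fun q => q.1 < q.2),
      (∑ η : (Fin (2 ^ s) × Fin (5 * s)) → Fin R × J, Ex unif (fun a : I → Bool =>
        if Corr W V (pl (PS W' (S q.1) η) a) ∧ Corr W V (pl (PS W' (S q.2) η) a)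
          then (1 : ℝ) else 0)) / N ≤ 2 / T ^ 2 := by
    intro q hq
    have hlt : q.1 < q.2 := (mem_filter.1 hq).2
    set U : Finset (Fin (2 ^ s) × Fin (5 * s)) := univ.filter (fun u : (Fin (2 ^ s) × Fin (5 * s)) => q.1 ≤ u.1 ∧ u.1 < q.2) with hU
    have hSU : Disjoint (S q.1) U := by
      rw [Finset.disjoint_left]
      intro u hu hu'
      rw [hS, mem_filter] at hu
      rw [hU, mem_filter] at hu'
      exact absurd hu.2 (not_lt.2 hu'.2.1)
    have hun : S q.1 ∪ U = S q.2 := by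
      ext u
      simp only [hS, hU, mem_union, mem_filter, mem_univ, true_and]
      constructor
      · rintro (h | h)
        · exact h.trans hlt
        · exact h.2
      · intro h
        rcases lt_or_ge u.1 q.1 with h' | h'
        · exact Or.inl h'
        · exact Or.inr ⟨h', h⟩
    have hb := pair_bound hm hR hJ W hW hd V hV (S q.1) U hSU
    rw [hun] at hb
    have hUlow : 5 * s ≤ U.card := by
      have hinj : (univ : Finset (Fin (5 * s))).card ≤ U.card := by
        refine Finset.card_le_card_of_injOn (fun v => ((q.1, v) : (Fin (2 ^ s) × Fin (5 * s)))) ?_ ?_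
        · intro v _
          simp only [hU, coe_filter, Set.mem_ofPred_eq, mem_univ, true_and]
          exact ⟨le_refl _, hlt⟩
        · intro a _ b _ hab
          simpa using hab
      simpa using hinj
    have hUup : U.card ≤ 2 ^ s * (5 * s) := by
      rw [← hcardτ]; exact card_le_univ _
    have h1 : ((3 : ℝ) / 4) ^ U.card ≤ 1 / T ^ 2 := by
      calc ((3 : ℝ) / 4) ^ U.card ≤ (3 / 4) ^ (5 * s) :=
            pow_le_pow_of_le_one (by norm_num) (by norm_num) hUlow
        _ = ((3 / 4) ^ 5) ^ s := by rw [pow_mul]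
        _ ≤ (1 / 4) ^ s := by
            apply pow_le_pow_left₀ (by norm_num)
            norm_num
        _ = 1 / T ^ 2 := by
            rw [hT, ← pow_mul, mul_comm s 2, pow_mul, one_div_pow]; norm_num
    have h2 : (U.card : ℝ) ^ 2 * p / 2 ^ m ≤ 1 / T ^ 2 := by
      rw [div_le_div_iff₀ (by positivity) (by positivity)]
      have h3 : (U.card : ℝ) ≤ T * (5 * s) := by
        have : (U.card : ℝ) ≤ 2 ^ s * (5 * s) := by exact_mod_cast hUup
        exact this
      have h4 : (25 : ℝ) * s ^ 2 * 16 ^ s * p ≤ 2 ^ m := by exact_mod_cast hp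
      have h5 : (16 : ℝ) ^ s = T ^ 2 * T ^ 2 := by
        rw [hT, ← pow_mul, mul_comm s 2, pow_mul, ← mul_pow]; norm_num
      rw [h5] at h4
      have h6 : (U.card : ℝ) ^ 2 ≤ (T * (5 * s)) ^ 2 := by gcongr
      calc (U.card : ℝ) ^ 2 * p * T ^ 2 ≤ (T * (5 * s)) ^ 2 * p * T ^ 2 := by gcongr
        _ = 25 * s ^ 2 * (T ^ 2 * T ^ 2) * p := by ring
        _ ≤ 1 * 2 ^ m := by rw [one_mul]; exact h4
    calc _ ≤ _ := hb
      _ ≤ 1 / T ^ 2 + 1 / T ^ 2 := add_le_add h1 h2
      _ = 2 / T ^ 2 := by ring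
  have hlawsum : ∑ i, law i ≤ 2 := by
    have e1 : ∑ i, law i = (∑ η : (Fin (2 ^ s) × Fin (5 * s)) → Fin R × J, Ex unif (fun a =>
        ∑ i, F (pl (PS W' (S i) η) a))) / N := by
      rw [hlaw, ← Finset.sum_div, Finset.sum_comm]
      congr 1
      refine Finset.sum_congr rfl fun η _ => ?_
      rw [Ex_sum]
    have e2 : ∀ η : (Fin (2 ^ s) × Fin (5 * s)) → Fin R × J, Ex unif (fun a => ∑ i, F (pl (PS W' (S i) η) a)) ≤
        1 + ∑ q ∈ (univ : Finset (Fin (2 ^ s) × Fin (2 ^ s))).filter (fun q => q.1 < q.2),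
          Ex unif (fun a : I → Bool =>
        if Corr W V (pl (PS W' (S q.1) η) a) ∧ Corr W V (pl (PS W' (S q.2) η) a)
          then (1 : ℝ) else 0) := by
      intro η
      rw [← Ex_sum]
      have h1 : Ex unif (fun _ : I → Bool => (1 : ℝ)) = 1 := Ex_const (I := I) hunif1 1
      have h2 := Ex_mono (I := I) hunif (fun a =>
        P6.count_le_real (fun i => Corr W V (pl (PS W' (S i) η) a)))
      rw [Ex_add, h1] at h2
      exact h2
    rw [e1]
    have hNcard : ((univ : Finset ((Fin (2 ^ s) × Fin (5 * s)) → Fin R × J)).card : ℝ) = N := by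
      rw [Finset.card_univ, Fintype.card_fun, hC, hN]; push_cast; rfl
    calc (∑ η : (Fin (2 ^ s) × Fin (5 * s)) → Fin R × J, Ex unif (fun a => ∑ i, F (pl (PS W' (S i) η) a))) / N
        ≤ (∑ η : (Fin (2 ^ s) × Fin (5 * s)) → Fin R × J, (1 + ∑ q ∈ (univ : Finset (Fin (2 ^ s) × Fin (2 ^ s))).filter
            (fun q => q.1 < q.2), Ex unif (fun a : I → Bool =>
        if Corr W V (pl (PS W' (S q.1) η) a) ∧ Corr W V (pl (PS W' (S q.2) η) a)
          then (1 : ℝ) else 0))) / N := by
          gcongr with η _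
          exact e2 η
      _ = 1 + ∑ q ∈ (univ : Finset (Fin (2 ^ s) × Fin (2 ^ s))).filter
            (fun q => q.1 < q.2), (∑ η : (Fin (2 ^ s) × Fin (5 * s)) → Fin R × J, Ex unif (fun a : I → Bool =>
        if Corr W V (pl (PS W' (S q.1) η) a) ∧ Corr W V (pl (PS W' (S q.2) η) a)
          then (1 : ℝ) else 0)) / N := by
          rw [Finset.sum_add_distrib, Finset.sum_const, nsmul_eq_mul, mul_one, hNcard, add_div,
            div_self hN0.ne', Finset.sum_comm, Finset.sum_div]
      _ ≤ 1 + ∑ q ∈ (univ : Finset (Fin (2 ^ s) × Fin (2 ^ s))).filter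
            (fun q => q.1 < q.2), 2 / T ^ 2 := by
          exact add_le_add_right (Finset.sum_le_sum fun q hq => hpair q hq) 1
      _ ≤ 2 := by
          rw [Finset.sum_const, nsmul_eq_mul]
          have h := P6.pairs_card (2 ^ s)
          have hTT : ((2 ^ s : ℕ) : ℝ) = T := by rw [hT]; push_cast; rfl
          rw [hTT] at h
          have : (((univ : Finset (Fin (2 ^ s) × Fin (2 ^ s))).filter
            (fun q => q.1 < q.2)).card : ℝ) * (2 / T ^ 2) ≤ 1 := by
            rw [mul_div_assoc', div_le_one (by positivity)]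
            linarith
          linarith
  have hsum : ∑ _i : Fin (2 ^ s), Ex unif F ≤ ∑ i : Fin (2 ^ s), (law i + 1 / T) :=
    Finset.sum_le_sum fun i _ => step1 i
  rw [Finset.sum_add_distrib, Finset.sum_const, Finset.sum_const, Finset.card_univ,
    Fintype.card_fin, nsmul_eq_mul, nsmul_eq_mul] at hsum
  have hTT : ((2 ^ s : ℕ) : ℝ) = T := by rw [hT]; push_cast; rfl
  rw [hTT] at hsum
  have h1 : T * (1 / T) = 1 := by field_simp
  rw [h1] at hsum
  rw [le_div_iff₀ hT0, mul_comm]
  have h2 : T * Ex unif F ≤ 3 := by linarith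
  exact h2

open Classical in
theorem non_comb {J : Type*} [Fintype J] {m p s : ℕ} (hs : 1 ≤ s) (hm : 1 ≤ m)
    (hJ : Fintype.card J = 2 ^ m)
    (W : (Fin (2 ^ s) × Fin (5 * s)) × Fin (10 * s * 8 ^ s) → J → Finset I)
    (hW : ∀ k j, (W k j).card = m)
    (hd : ∀ k j k' j', (k, j) ≠ (k', j') → Disjoint (W k j) (W k' j'))
    (V : (Fin (2 ^ s) × Fin (5 * s)) × Fin (10 * s * 8 ^ s) → (I → Bool) → Bool)
    (hV : ∀ k, Cert p true (V k)) (hp : 25 * s ^ 2 * 16 ^ s * p ≤ 2 ^ m) :
    Ex unif (fun a : I → Bool => if Corr W V a then (1 : ℝ) else 0) ≤ 3 / 2 ^ s :=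
  P6.gen rfl hs hm hJ W hW hd V hV hp

end

end Pool.Agent.H622R2.Exp
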