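import Pool.Agent.H622R2.Exp.E0
import Pool.Agent.H622R2.Exp.P6

namespace Pool.Agent.H622R2.Exp

open Pool.Agent.NPC Pool.Agent.H620R2.Gauge Finset H568R2

open Classical in
theorem evC_bound (M : Alg) (q : Polynomial ℕ) : ∃ n₀ : ℕ, ∀ n ≥ n₀, ∀ N s : ℕ, 1 ≤ s →
    50 * s ^ 2 * 16 ^ s ≤ 2 ^ n → 2 ^ (3 * mm n + 1) ≤ N →
    ∀ x : (Fin (2 ^ s) × Fin (5 * s)) × Fin (10 * s * 8 ^ s) → List Bool,
    Function.Injective x → (∀ k, (x k).length = n) →
    Ex unif (fun a : Fin N → Bool => if EvC M q n N x a then (1 : ℝ) else 0) ≤ 3 / 2 ^ s := by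
  have hTB : E0.TB (fun n => M.p.eval (n + (2 * 2 ^ q.eval n + 1))) :=
    (E0.TB.id.add (((E0.TB.const 2).mul (E0.TB.pow2 q)).add (E0.TB.const 1))).eval M.p
  obtain ⟨n₀, hn₀⟩ := Filter.eventually_atTop.1 hTB.le
  refine ⟨n₀, fun n hn N s hs hsn hN x hx hlen => ?_⟩
  have hp := hn₀ n hn
  have hpl : ∀ k, (padq q4 (x k)).length = mm n := fun k => by
    rw [E0.length_padq4, hlen]
  have h1 := non_comb (I := Fin N) (J := Fin (2 ^ mm n)) (m := mm n)
    (p := M.p.eval (n + (2 * 2 ^ q.eval n + 1))) hs (E0.one_le_mm n) (by simp)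
    (fun k j => witF N (padq q4 (x k)) j.val) (by
      intro k j
      rw [witF_card (by rw [hpl]; omega), hpl]) (by
      intro k j k' j' hne
      refine E0.windows_disj (hlen _) (hlen _) j.2 j'.2 ?_
      intro he
      apply hne
      rw [Prod.mk.injEq] at he ⊢
      exact ⟨hx he.1, Fin.ext he.2⟩)
    (fun k => QF (2 ^ q.eval n) (leaf M N) 1 true (x k)) (by
      intro k
      apply cert_QF (ℓ := n + (2 * 2 ^ q.eval n + 1))
      · intro y hy
        exact (dtr_out M N y).mono (eval_mono M.p hy)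
      · rw [hlen]) (by
      have h2 : 25 * s ^ 2 * 16 ^ s ≤ 2 ^ n := by nlinarith [Nat.zero_le (s ^ 2 * 16 ^ s)]
      refine (Nat.mul_le_mul h2 hp).trans ?_
      rw [← pow_add]
      apply Nat.pow_le_pow_right (by norm_num)
      have h10 := E0.mm_ge n
      have h11 : 2 ^ (n + 3) = 8 * 2 ^ n := by rw [pow_add]; norm_num; ring
      omega)
  refine le_trans (le_of_eq ?_) h1
  congr 1
  funext a
  have h2 : EvC M q n N x a ↔ Corr (fun k (j : Fin (2 ^ mm n)) => witF N (padq q4 (x k)) j.val)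
      (fun k => QF (2 ^ q.eval n) (leaf M N) 1 true (x k)) a := by
    unfold EvC Corr
    refine forall_congr' fun k => ?_
    have h4 := E0.hitF_iff (N := N) (x := padq q4 (x k)) (by rw [hpl]; omega) a
    rw [hpl] at h4
    rw [← h4]
    have h5 : QF (2 ^ q.eval n) (leaf M N) 1 true (x k) a = true ↔
        ∃ w : List Bool, w.length ≤ 2 ^ q.eval n ∧
          M.out (orc N a) (pairBits w (x k)) = some [true] := by
      simp only [QF, leaf, decide_eq_true_eq]
    rw [h5]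
  by_cases h : EvC M q n N x a
  · rw [if_pos h, if_pos (h2.1 h)]
  · rw [if_neg h, if_neg (fun h' => h (h2.2 h'))]

end Pool.Agent.H622R2.Exp
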