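import Pool.Agent.H622R2.Exp.E0
import Pool.Agent.H620R2.Gauge.Event

namespace Pool.Agent.H622R2.Exp

open Pool.Agent.NPC Pool.Agent.H620R2.Gauge Finset H568R2 Pool.Agent.H676

open Classical in
theorem E3.quant_iff {N m : ℕ} {M : Alg} (a : Fin N → Bool) :
    ∀ (k : ℕ) (b : Bool) (y : List Bool),
      (Quant m (fun y => if M.out (orc N a) y = some [true] then [true] else []) k b y ↔
        QF m (leaf M N) k b y a = true) := by
  intro k
  induction k with
  | zero =>
    intro b y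
    simp only [Quant, QF, leaf]
    by_cases h : M.out (orc N a) y = some [true]
    · simp [h]
    · simp [h]
  | succ k ih =>
    intro b y
    cases b with
    | true =>
      simp only [Quant, QF, decide_eq_true_eq]
      exact exists_congr fun w => and_congr_right fun hw => ih false _
    | false =>
      simp only [Quant, QF, decide_eq_true_eq]
      exact forall_congr' fun w => forall_congr' fun hw => ih true _

theorem E3.par_iff {N : ℕ} {x : List Bool} (hN : 2 ^ (2 * x.length + 1) ≤ N + 1)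
    (a : Fin N → Bool) : par (blk N x) a = true ↔
      Odd ((Finset.range (2 ^ x.length)).filter
        (fun j => orc N a (x ++ bitsOf x.length j) = true)).card := by
  have h := blk_card_filter N x hN (fun y => orc N a y = true)
  unfold par
  rw [decide_eq_true_eq, ← h]
  have h2 : ∀ i : Fin N, orc N a (str i) = a i := by
    intro i
    have h4 : idx (str i.val) = i.val := idx_str _
    unfold orc
    rw [dif_pos (by rw [h4]; exact i.2)]
    congr 1
    exact Fin.ext h4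
  simp only [h2]

/-- the numbers of the proof -/
noncomputable def E3.L (q : Polynomial ℕ) (k n : ℕ) : ℕ := n + k * (2 * 2 ^ q.eval n + 1)

noncomputable def E3.t (M : Alg) (q : Polynomial ℕ) (k n : ℕ) : ℕ :=
  M.p.eval (E3.L q k n) + (E3.L q k n + 2) + k + 2 ^ n + 1

noncomputable def E3.r (M : Alg) (q : Polynomial ℕ) (k n : ℕ) : ℕ := 2 ^ n * E3.t M q k n

theorem E3.TB_L (q : Polynomial ℕ) (k : ℕ) : E0.TB (E3.L q k) := by
  unfold E3.L
  exact E0.TB.id.add ((E0.TB.const k).mul (((E0.TB.const 2).mul (E0.TB.pow2 q)).add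
    (E0.TB.const 1)))

theorem E3.TB_pow2n : E0.TB (fun n => 2 ^ n) := by
  simpa using E0.TB.pow2 (Polynomial.X : Polynomial ℕ)

theorem E3.TB_t (M : Alg) (q : Polynomial ℕ) (k : ℕ) : E0.TB (E3.t M q k) := by
  unfold E3.t
  exact (((((E3.TB_L q k).eval M.p).add ((E3.TB_L q k).add (E0.TB.const 2))).add
    (E0.TB.const k)).add E3.TB_pow2n).add (E0.TB.const 1)

theorem E3.TB_r (M : Alg) (q : Polynomial ℕ) (k : ℕ) : E0.TB (E3.r M q k) := by
  unfold E3.r
  exact E3.TB_pow2n.mul (E3.TB_t M q k)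

theorem E3.TB_all (M : Alg) (q : Polynomial ℕ) (k : ℕ) :
    E0.TB (fun n => (E3.r M q k n + 1) * ((24 * E3.t M q k n) ^ k *
      (2 ^ n + n + E3.r M q k n + 1))) := by
  exact ((E3.TB_r M q k).add (E0.TB.const 1)).mul ((((E0.TB.const 24).mul (E3.TB_t M q k)).pow
    k).mul (((E3.TB_pow2n.add E0.TB.id).add (E3.TB_r M q k)).add (E0.TB.const 1)))

/-- the second term -/
theorem E3.second {K n r s : ℕ} {x : ℝ} (hx0 : 0 ≤ x) (hx1 : x ≤ 1)
    (h : ((K + n + r + 1 : ℕ) : ℝ) ≤ s * x) :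
    (2 : ℝ) ^ n * ((r + 1) * (1 - x) ^ s) ≤ (1 / 2) ^ K := by
  have h1 : (1 - x) ^ s ≤ Real.exp (-(s * x)) := by
    have h2 : 1 - x ≤ Real.exp (-x) := by
      have := Real.add_one_le_exp (-x); linarith
    calc (1 - x) ^ s ≤ (Real.exp (-x)) ^ s := pow_le_pow_left₀ (by linarith) h2 s
      _ = Real.exp (-(s * x)) := by rw [← Real.exp_nat_mul]; congr 1; ring
  have h3 : Real.exp (-(s * x)) ≤ Real.exp (-((K + n + r + 1 : ℕ) : ℝ)) :=
    Real.exp_le_exp.2 (by linarith)
  have h4 : Real.exp (-((K + n + r + 1 : ℕ) : ℝ)) ≤ (1 / 2) ^ (K + n + r + 1) := by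
    have h5 : Real.exp (-((K + n + r + 1 : ℕ) : ℝ)) = (Real.exp (-1)) ^ (K + n + r + 1) := by
      rw [← Real.exp_nat_mul]; congr 1; ring
    rw [h5]
    apply pow_le_pow_left₀ (Real.exp_pos _).le
    rw [Real.exp_neg, one_div]
    apply inv_anti₀ (by norm_num)
    have := Real.add_one_le_exp (1 : ℝ)
    linarith
  have h6 : (1 - x) ^ s ≤ (1 / 2) ^ (K + n + r + 1) := h1.trans (h3.trans h4)
  have h7 : ((r : ℝ) + 1) ≤ 2 ^ (r + 1) := by
    have : r + 1 ≤ 2 ^ (r + 1) := Nat.lt_two_pow_self.le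
    exact_mod_cast this
  calc (2 : ℝ) ^ n * ((r + 1) * (1 - x) ^ s) ≤
        2 ^ n * (2 ^ (r + 1) * (1 / 2) ^ (K + n + r + 1)) := by
        have h8 : 0 ≤ (1 - x) ^ s := pow_nonneg (by linarith) _
        gcongr
    _ = (1 / 2) ^ K := by
        have e : (2 : ℝ)⁻¹ ^ (K + n + r + 1) = 2⁻¹ ^ K * (2⁻¹ ^ n * 2⁻¹ ^ (r + 1)) := by
          rw [← pow_add, ← pow_add]; congr 1; ring
        rw [one_div, e, inv_pow, inv_pow, inv_pow]
        field_simp

open Classical in
theorem evP_bound (M : Alg) (q : Polynomial ℕ) (k : ℕ) : ∃ n₀ : ℕ, ∀ n ≥ n₀, ∀ N : ℕ,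
    2 ^ (2 * mm n + 1) ≤ N →
    Ex unif (fun a : Fin N → Bool => if EvP M q k n N a then (1 : ℝ) else 0) ≤
      3 * (11 / 12) ^ 2 ^ n := by
  obtain ⟨n₀, hn₀⟩ := Filter.eventually_atTop.1 (E3.TB_all M q k).le
  refine ⟨n₀, fun n hn N hN => ?_⟩
  have hall := hn₀ n hn
  set t := E3.t M q k n with ht
  set r := E3.r M q k n with hr
  set s := 2 ^ mm n / (r + 1) with hs
  have hp2 : 1 ≤ 2 ^ n := Nat.one_le_two_pow
  have ht1 : 1 ≤ t := by rw [ht, E3.t]; omega
  have htR : (1 : ℝ) ≤ (t : ℝ) := by exact_mod_cast ht1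
  set q0 : ℝ := 1 / (24 * t) with hq
  have hq0 : 0 ≤ q0 := by positivity
  have hq1 : q0 ≤ 1 / 3 := by
    rw [hq, div_le_div_iff₀ (by positivity) (by norm_num)]
    linarith
  have hlen : ∀ i, (bitsOf n i).length = n := fun i => length_bitsOf n i
  have hpl : ∀ i, (padq q4 (bitsOf n i)).length = mm n := fun i => by
    rw [E0.length_padq4, hlen]
  have h1 := comb (I := Fin N) ht1 hq0 hq1 (2 ^ q.eval n) (leaf M N) k n (by
      intro y hy
      refine (dtr_out M N y).mono ?_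
      have h2 : M.p.eval y.length ≤ M.p.eval (E3.L q k n) := eval_mono M.p (by
        rw [E3.L]; exact hy)
      rw [ht, E3.t]
      omega) (Finset.range (2 ^ n)) (fun i => blk N (padq q4 (bitsOf n i))) (by
      intro i hi i' hi' hne
      rw [Finset.mem_range] at hi hi'
      apply blk_disj
      · rw [hpl, hpl]
      · intro h
        exact hne (bitsOf_inj hi hi' (E0.padq_inj h))) {()}
      (fun i _ => bitsOf n i) (by
      intro i _ h _
      rw [hlen]) r s (by rw [Finset.card_range, hr, E3.r]) (by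
      intro i _
      rw [blk_card N _ (by rw [hpl]; omega), hpl]
      exact Nat.mul_div_le _ _)
  have h2 : ∀ a : Fin N → Bool, EvP M q k n N a ↔ ∃ h ∈ ({()} : Finset Unit),
      ∀ i ∈ Finset.range (2 ^ n), QF (2 ^ q.eval n) (leaf M N) k true (bitsOf n i) a =
        par (blk N (padq q4 (bitsOf n i))) a := by
    intro a
    have h3 : ∀ i, (Odd ((Finset.range (2 ^ mm n)).filter
      (fun j => orc N a (padq q4 (bitsOf n i) ++ bitsOf (mm n) j) = true)).card ↔
        par (blk N (padq q4 (bitsOf n i))) a = true) := by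
      intro i
      have h4 := E3.par_iff (N := N) (x := padq q4 (bitsOf n i)) (by rw [hpl]; omega) a
      rw [hpl] at h4
      exact h4.symm
    unfold EvP
    constructor
    · intro h
      refine ⟨(), by simp, fun i hi => ?_⟩
      have h5 := h i (Finset.mem_range.1 hi)
      rw [E3.quant_iff, h3] at h5
      exact Bool.eq_iff_iff.2 h5
    · rintro ⟨_, _, h⟩ i hi
      have h5 := h i (Finset.mem_range.2 hi)
      rw [E3.quant_iff, h3, h5]
  have h5 : Ex unif (fun a : Fin N → Bool => if EvP M q k n N a then (1 : ℝ) else 0) ≤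
      k * 2 ^ (n + k * (2 * 2 ^ q.eval n + 1) + 2) * (1 / 2) ^ (t + 1) +
        2 ^ n * ((r + 1) * (1 - q0 ^ k) ^ s) + (1 / 2) ^ 2 ^ n := by
    refine le_trans (le_of_eq ?_) (h1.trans (le_of_eq ?_))
    · congr 1
      funext a
      by_cases h : EvP M q k n N a
      · rw [if_pos h, if_pos ((h2 a).1 h)]
      · rw [if_neg h, if_neg (fun h' => h ((h2 a).2 h'))]
    · have hqt : 12 * (t : ℝ) * q0 = 1 / 2 := by
        rw [hq]; field_simp; norm_num
      rw [hqt, Finset.card_range]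
      simp
  refine h5.trans ?_
  have T1 : (k : ℝ) * 2 ^ (n + k * (2 * 2 ^ q.eval n + 1) + 2) * (1 / 2) ^ (t + 1) ≤
      (1 / 2) ^ 2 ^ n := by
    have hk : (k : ℝ) ≤ 2 ^ k := by
      have : k ≤ 2 ^ k := Nat.lt_two_pow_self.le
      exact_mod_cast this
    have e1 : (k : ℝ) * 2 ^ (n + k * (2 * 2 ^ q.eval n + 1) + 2) ≤
        2 ^ (k + (n + k * (2 * 2 ^ q.eval n + 1) + 2)) := by
      rw [pow_add 2 k]
      gcongr
    have e2 : k + (n + k * (2 * 2 ^ q.eval n + 1) + 2) + 2 ^ n ≤ t + 1 := by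
      rw [ht, E3.t, E3.L]; omega
    calc (k : ℝ) * 2 ^ (n + k * (2 * 2 ^ q.eval n + 1) + 2) * (1 / 2) ^ (t + 1) ≤
        2 ^ (k + (n + k * (2 * 2 ^ q.eval n + 1) + 2)) *
          (1 / 2) ^ (k + (n + k * (2 * 2 ^ q.eval n + 1) + 2) + 2 ^ n) := by
          apply mul_le_mul e1 _ (by positivity) (by positivity)
          exact pow_le_pow_of_le_one (by norm_num) (by norm_num) e2
      _ = (1 / 2) ^ 2 ^ n := by
          rw [pow_add (1 / 2 : ℝ), ← mul_assoc, ← mul_pow]
          norm_num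
  have T2 : (2 : ℝ) ^ n * ((r + 1) * (1 - q0 ^ k) ^ s) ≤ (1 / 2) ^ 2 ^ n := by
    apply E3.second (pow_nonneg hq0 k) (pow_le_one₀ hq0 (by linarith))
    have e1 : (24 * t) ^ k * (2 ^ n + n + r + 1) ≤ s := by
      rw [hs, Nat.le_div_iff_mul_le (by omega), mul_comm]
      refine hall.trans (Nat.pow_le_pow_right (by norm_num) ?_)
      have h10 := E0.mm_ge n
      have h11 : 2 ^ (n + 3) = 8 * 2 ^ n := by rw [pow_add]; norm_num; ring
      omega
    have e2 : ((24 * (t : ℝ)) ^ k * ((2 ^ n + n + r + 1 : ℕ) : ℝ)) ≤ s := by exact_mod_cast e1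
    have e3 : q0 ^ k = 1 / (24 * (t : ℝ)) ^ k := by rw [hq, one_div_pow]
    rw [e3, mul_one_div, le_div_iff₀ (by positivity), mul_comm]
    exact e2
  have h12 : ((1 : ℝ) / 2) ^ 2 ^ n ≤ (11 / 12) ^ 2 ^ n :=
    pow_le_pow_left₀ (by norm_num) (by norm_num) _
  linarith

end Pool.Agent.H622R2.Exp
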