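import Pool.Agent.H622R2.Exp.Base
import Pool.Agent.H622R2.Exp.A1
import Pool.Agent.H620R2.Gauge.A1
import Pool.Agent.H620R2.Gauge.Blk
import Pool.Agent.H620R2.Gauge2.EventN

/-! Task F1 (helper332): from oracles to the event for deterministic algorithms. -/

namespace Pool.Agent.H622R2.Exp

open Pool.Agent.NPC Pool.Agent.H620R2.Gauge Finset H568R2

namespace F1

theorem eval_q4 (n : ℕ) : q4.eval n = 4 * (n + 1) := by
  simp [q4]

theorem length_padq (x : List Bool) : (padq q4 x).length = mm x.length := by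
  unfold padq mm
  rw [length_pairBits, List.length_replicate, eval_q4]

theorem orc_of_len {N L : ℕ} {A : Oracle} (hN : 2 ^ L ≤ N) {y : List Bool}
    (hy : y.length + 1 ≤ L) : orc N (pre N A) y = A y := by
  apply orc_pre
  have h1 := idx_lt y
  have h2 : 2 ^ (y.length + 1) ≤ 2 ^ L := Nat.pow_le_pow_right (by norm_num) hy
  omega

theorem hit_orc {N L n : ℕ} {A : Oracle} (hN : 2 ^ L ≤ N) (hL : 3 * mm n ≤ L) {x : List Bool}
    (hx : x.length = n) : padq q4 x ∈ hitLang A ↔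
      ∃ j < 2 ^ mm n, ∀ l < mm n, orc N (pre N A) (wit (padq q4 x) j l) = true := by
  have hl : (padq q4 x).length = mm n := by rw [length_padq, hx]
  unfold hitLang
  rw [Set.mem_ofPred_eq, hl]
  refine exists_congr fun j => and_congr_right fun _ => forall_congr' fun l =>
    imp_congr_right fun hl' => ?_
  rw [orc_of_len hN]
  rw [length_wit, hl]
  omega

/-- the exponent -/
theorem exists_exponent {E : Set (Polynomial ℕ)} (hE : Good E) (b : Polynomial ℕ)
    {q : Polynomial ℕ} (hq : q ∈ E) :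
    ∃ r ∈ E, ∀ n, 3 * mm n + 1 + (b.eval (n + 2 ^ q.eval n) + 1) ≤ 2 ^ r.eval n := by
  obtain ⟨r, hr, h⟩ := hE.comp (q + q4) (hE.add q hq q4 (hE.lin 4))
    (Polynomial.C 3 * (Polynomial.C 2 * Polynomial.X + 1) + Polynomial.C 3 * Polynomial.X + 1 + b
      + 1)
  refine ⟨r, hr, fun n => le_trans ?_ (h n)⟩
  simp only [Polynomial.eval_add, Polynomial.eval_mul, Polynomial.eval_C, Polynomial.eval_X,
    Polynomial.eval_one, eval_q4]
  have h1 : b.eval (n + 2 ^ q.eval n) ≤ b.eval (n + 2 ^ (q.eval n + 4 * (n + 1))) := by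
    apply eval_mono
    have : 2 ^ q.eval n ≤ 2 ^ (q.eval n + 4 * (n + 1)) :=
      Nat.pow_le_pow_right (by norm_num) (by omega)
    omega
  have h2 : 2 ^ (4 * (n + 1)) ≤ 2 ^ (q.eval n + 4 * (n + 1)) :=
    Nat.pow_le_pow_right (by norm_num) (by omega)
  unfold mm
  generalize (2 ^ (q.eval n + 4 * (n + 1)) : ℕ) = D at *
  generalize (2 ^ (4 * (n + 1)) : ℕ) = D' at *
  omega

end F1

theorem evD_of {E : Set (Polynomial ℕ)} (hE : Good E) (M : Alg) {q : Polynomial ℕ} (hq : q ∈ E) :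
    ∃ r ∈ E, (∀ n, 3 * mm n + 1 ≤ 2 ^ r.eval n) ∧ ∀ A : Oracle,
      (∀ x : List Bool, ∃ z : List Bool, M.run A x (2 ^ q.eval x.length) [] = some z ∧
        (x ∈ hit2 A ↔ z = [true])) →
      ∀ n N : ℕ, 2 ^ 2 ^ r.eval n ≤ N → EvD M q n N (pre N A) := by
  obtain ⟨b, hb⟩ := run_local M
  obtain ⟨r, hr, h⟩ := F1.exists_exponent hE b hq
  refine ⟨r, hr, fun n => by have := h n; omega, fun A hA n N hN i hi => ?_⟩
  have hn := h n
  obtain ⟨z, hz, hzA⟩ := hA (bitsOf n i)
  have hlen := length_bitsOf n i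
  have h1 := F1.hit_orc (A := A) hN (by omega) hlen
  obtain ⟨Q, _, hQl, hQ⟩ := hb A (bitsOf n i) (2 ^ q.eval n)
  have h2 : M.run (orc N (pre N A)) (bitsOf n i) (2 ^ q.eval n) [] =
      M.run A (bitsOf n i) (2 ^ q.eval n) [] := by
    apply hQ
    intro y hy
    have h3 := hQl y hy
    rw [hlen] at h3
    exact F1.orc_of_len hN (by omega)
  rw [← h1, h2]
  rw [hlen] at hz
  rw [hz, Option.some.injEq, ← hzA]
  rfl

end Pool.Agent.H622R2.Exp
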