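import Pool.Agent.H622R2.Exp.Base
import Pool.Agent.H620R2.Gauge.A1
import Pool.Agent.H620R2.Gauge.Blk
import Pool.Agent.H620R2.Gauge2.EventN

/-!
# Task F2 (helper747): the event for the verifiers
-/

namespace Pool.Agent.H622R2.Exp

open Pool.Agent.NPC Pool.Agent.H620R2.Gauge Finset H568R2

namespace F2

theorem length_padq4 (x : List Bool) : (padq q4 x).length = mm x.length := by
  unfold padq mm q4
  rw [length_pairBits, List.length_replicate]
  simp only [Polynomial.eval_mul, Polynomial.eval_C, Polynomial.eval_add, Polynomial.eval_X,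
    Polynomial.eval_one]

theorem idx_lt_of_length {y : List Bool} {R N : ℕ} (h : y.length + 1 ≤ R) (hN : 2 ^ R ≤ N) :
    idx y < N := by
  have h1 := idx_lt y
  have h2 : 2 ^ (y.length + 1) ≤ 2 ^ R := Nat.pow_le_pow_right (by norm_num) h
  omega

/-- one exponent that is large enough -/
theorem exists_exp {E : Set (Polynomial ℕ)} (hE : Good E) {q : Polynomial ℕ} (hq : q ∈ E)
    (qb : Polynomial ℕ) : ∃ r ∈ E, (∀ n, 3 * mm n + 1 ≤ 2 ^ r.eval n) ∧
      ∀ n l : ℕ, l ≤ 2 * 2 ^ q.eval n + 1 + n → qb.eval l + 1 ≤ 2 ^ r.eval n := by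
  have hq4 : q4 ∈ E := hE.lin 4
  obtain ⟨r, hr, hb⟩ := hE.comp (q + q4) (hE.add q hq q4 hq4)
    (Polynomial.C 9 * Polynomial.X + Polynomial.C 5 +
      qb.comp (Polynomial.C 3 * Polynomial.X + Polynomial.C 1))
  have key : ∀ n, mm n ≤ 3 * (n + 2 ^ (q + q4).eval n) + 1 ∧
      2 * 2 ^ q.eval n + 1 + n ≤ 3 * (n + 2 ^ (q + q4).eval n) + 1 := by
    intro n
    have h4 : q4.eval n = 4 * (n + 1) := by
      unfold q4
      simp only [Polynomial.eval_mul, Polynomial.eval_C, Polynomial.eval_add, Polynomial.eval_X,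
        Polynomial.eval_one]
    have h1 : 2 ^ (4 * (n + 1)) ≤ 2 ^ (q + q4).eval n := by
      apply Nat.pow_le_pow_right (by norm_num)
      rw [Polynomial.eval_add, h4]
      omega
    have h2 : 2 ^ q.eval n ≤ 2 ^ (q + q4).eval n := by
      apply Nat.pow_le_pow_right (by norm_num)
      rw [Polynomial.eval_add]
      omega
    have h3 : 1 ≤ 2 ^ (q + q4).eval n := Nat.one_le_two_pow
    unfold mm
    constructor <;> omega
  refine ⟨r, hr, fun n => ?_, fun n l hl => ?_⟩
  · have h := hb n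
    simp only [Polynomial.eval_add, Polynomial.eval_mul, Polynomial.eval_C, Polynomial.eval_X,
      Polynomial.eval_comp] at h
    have h1 := (key n).1
    simp only [Polynomial.eval_add] at h1
    omega
  · have h := hb n
    simp only [Polynomial.eval_add, Polynomial.eval_mul, Polynomial.eval_C, Polynomial.eval_X,
      Polynomial.eval_comp] at h
    have h1 := (key n).2
    simp only [Polynomial.eval_add] at h1
    have h2 : qb.eval l ≤ qb.eval (3 * (n + 2 ^ (q.eval n + q4.eval n)) + 1) :=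
      eval_mono _ (hl.trans h1)
    omega

end F2

open F2 in
theorem evC_of {E : Set (Polynomial ℕ)} (hE : Good E) (M : Alg) {q : Polynomial ℕ} (hq : q ∈ E) :
    ∃ r ∈ E, (∀ n, 3 * mm n + 1 ≤ 2 ^ r.eval n) ∧ ∀ (A : Oracle) (n : ℕ) {κ : Type}
      (x : κ → List Bool), (∀ k, (x k).length = n) →
      (∀ k, (¬ padq q4 (x k) ∈ hitLang A ↔ ∃ w : List Bool, w.length ≤ 2 ^ q.eval n ∧
        M.out A (pairBits w (x k)) = some [true])) →
      ∀ N : ℕ, 2 ^ 2 ^ r.eval n ≤ N → EvC M q n N x (pre N A) := by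
  obtain ⟨qb, hqb⟩ := M.out_local
  obtain ⟨r, hr, hr1, hr2⟩ := exists_exp hE hq qb
  refine ⟨r, hr, hr1, fun A n κ x hx hA N hN k => ?_⟩
  have hout : ∀ w : List Bool, w.length ≤ 2 ^ q.eval n →
      M.out (orc N (pre N A)) (pairBits w (x k)) = M.out A (pairBits w (x k)) := by
    intro w hw
    obtain ⟨Q, _, hQ1, hQ2⟩ := hqb A (pairBits w (x k))
    refine hQ2 _ fun y hy => orc_pre ?_
    have h1 := hQ1 y hy
    have h2 := hr2 n (pairBits w (x k)).length (by
      rw [length_pairBits, hx k]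
      omega)
    exact idx_lt_of_length (by omega) hN
  have hlen : (padq q4 (x k)).length = mm n := by rw [length_padq4, hx k]
  have hwit : (∃ j < 2 ^ mm n, ∀ l < mm n, orc N (pre N A) (wit (padq q4 (x k)) j l) = true) ↔
      padq q4 (x k) ∈ hitLang A := by
    have h0 : ∀ j l : ℕ, l < mm n → orc N (pre N A) (wit (padq q4 (x k)) j l) =
        A (wit (padq q4 (x k)) j l) := by
      intro j l hl
      apply orc_pre
      have h1 := hr1 n
      refine idx_lt_of_length (R := 2 ^ r.eval n) ?_ hN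
      rw [length_wit, hlen]
      omega
    show _ ↔ ∃ j < 2 ^ (padq q4 (x k)).length, ∀ i < (padq q4 (x k)).length,
      A (wit (padq q4 (x k)) j i) = true
    rw [hlen]
    constructor
    · rintro ⟨j, hj, h⟩
      exact ⟨j, hj, fun l hl => by rw [← h0 j l hl]; exact h l hl⟩
    · rintro ⟨j, hj, h⟩
      exact ⟨j, hj, fun l hl => by rw [h0 j l hl]; exact h l hl⟩
  rw [hwit, hA k]
  constructor
  · rintro ⟨w, hw, h⟩
    exact ⟨w, hw, by rw [← hout w hw]; exact h⟩
  · rintro ⟨w, hw, h⟩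
    exact ⟨w, hw, by rw [hout w hw]; exact h⟩

end Pool.Agent.H622R2.Exp
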