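import Pool.Agent.H622R2.Exp.F2

/-!
# Task F3 (helper18): the event for alternating quantifiers
-/

namespace Pool.Agent.H622R2.Exp

open Pool.Agent.NPC Pool.Agent.H620R2.Gauge Finset H568R2

namespace F3

theorem quant_congr {m L : ℕ} {V V' : List Bool → List Bool}
    (h : ∀ y : List Bool, y.length ≤ L → (V y = [true] ↔ V' y = [true])) :
    ∀ (k : ℕ) (b : Bool) (y : List Bool), y.length + k * (2 * m + 1) ≤ L →
      (Quant m V k b y ↔ Quant m V' k b y) := by
  intro k
  induction k with
  | zero =>
    intro b y hy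
    have h1 := h y (by omega)
    cases b <;> simpa only [Quant] using h1
  | succ k ih =>
    intro b y hy
    have h2 : ∀ w : List Bool, w.length ≤ m →
        (pairBits w y).length + k * (2 * m + 1) ≤ L := by
      intro w hw
      rw [length_pairBits]
      have h3 : (k + 1) * (2 * m + 1) = k * (2 * m + 1) + (2 * m + 1) := by ring
      omega
    cases b with
    | true =>
      simp only [Quant]
      exact exists_congr fun w => and_congr_right fun hw => ih false _ (h2 w hw)
    | false =>
      simp only [Quant]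
      exact forall_congr' fun w => forall_congr' fun hw => ih true _ (h2 w hw)

/-- one exponent that is large enough -/
theorem exists_exp {E : Set (Polynomial ℕ)} (hE : Good E) {q : Polynomial ℕ} (hq : q ∈ E)
    (qb : Polynomial ℕ) (k : ℕ) : ∃ r ∈ E, (∀ n, 2 * mm n + 1 ≤ 2 ^ r.eval n) ∧
      ∀ n l : ℕ, l ≤ n + k * (2 * 2 ^ q.eval n + 1) → qb.eval l + 1 ≤ 2 ^ r.eval n := by
  have hq4 : q4 ∈ E := hE.lin 4
  obtain ⟨r, hr, hb⟩ := hE.comp (q + q4) (hE.add q hq q4 hq4)
    (Polynomial.C 6 * Polynomial.X + Polynomial.C 4 +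
      qb.comp (Polynomial.C (3 * k + 1) * Polynomial.X))
  have key : ∀ n, mm n ≤ 3 * (n + 2 ^ (q + q4).eval n) + 1 ∧
      n + k * (2 * 2 ^ q.eval n + 1) ≤ (3 * k + 1) * (n + 2 ^ (q + q4).eval n) := by
    intro n
    have h4 : q4.eval n = 4 * (n + 1) := by
      unfold q4
      simp only [Polynomial.eval_mul, Polynomial.eval_C, Polynomial.eval_add, Polynomial.eval_X,
        Polynomial.eval_one]
    have h1 : 2 ^ (4 * (n + 1)) ≤ 2 ^ (q + q4).eval n := by
      apply Nat.pow_le_pow_right (by norm_num)
      rw [Polynomial.eval_add, h4]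
      omega
    have h2 : 2 ^ q.eval n ≤ 2 ^ (q + q4).eval n := by
      apply Nat.pow_le_pow_right (by norm_num)
      rw [Polynomial.eval_add]
      omega
    have h3 : 1 ≤ 2 ^ (q + q4).eval n := Nat.one_le_two_pow
    constructor
    · unfold mm
      omega
    · have h5 : k * (2 * 2 ^ q.eval n + 1) ≤ k * (3 * (n + 2 ^ (q + q4).eval n)) :=
        Nat.mul_le_mul_left _ (by omega)
      have h6 : (3 * k + 1) * (n + 2 ^ (q + q4).eval n) =
        k * (3 * (n + 2 ^ (q + q4).eval n)) + (n + 2 ^ (q + q4).eval n) := by ring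
      omega
  refine ⟨r, hr, fun n => ?_, fun n l hl => ?_⟩
  · have h := hb n
    simp only [Polynomial.eval_add, Polynomial.eval_mul, Polynomial.eval_C, Polynomial.eval_X,
      Polynomial.eval_comp] at h
    have h1 := (key n).1
    simp only [Polynomial.eval_add] at h1
    omega
  · have h := hb n
    simp only [Polynomial.eval_add, Polynomial.eval_mul, Polynomial.eval_C, Polynomial.eval_X,
      Polynomial.eval_comp] at h
    have h1 := (key n).2
    simp only [Polynomial.eval_add] at h1
    have h2 : qb.eval l ≤ qb.eval ((3 * k + 1) * (n + 2 ^ (q.eval n + q4.eval n))) :=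
      eval_mono _ (hl.trans h1)
    omega

end F3

open F3 in
theorem evP_of {E : Set (Polynomial ℕ)} (hE : Good E) (M : Alg) {q : Polynomial ℕ} (hq : q ∈ E)
    (k : ℕ) :
    ∃ r ∈ E, (∀ n, 2 * mm n + 1 ≤ 2 ^ r.eval n) ∧ ∀ (A : Oracle) (V : List Bool → List Bool),
      (∀ x, M.out A x = some (V x)) → ∀ n : ℕ,
      (∀ x : List Bool, x.length = n →
        (x ∈ par2 A ↔ Quant (2 ^ q.eval x.length) V k true x)) →
      ∀ N : ℕ, 2 ^ 2 ^ r.eval n ≤ N → EvP M q k n N (pre N A) := by
  obtain ⟨qb, hqb⟩ := M.out_local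
  obtain ⟨r, hr, hr1, hr2⟩ := F3.exists_exp hE hq qb k
  refine ⟨r, hr, hr1, fun A V hV n hA N hN i hi => ?_⟩
  set x := bitsOf n i with hx
  have hxl : x.length = n := by rw [hx, length_bitsOf]
  have hout : ∀ y : List Bool, y.length ≤ n + k * (2 * 2 ^ q.eval n + 1) →
      M.out (orc N (pre N A)) y = some (V y) := by
    intro y hy
    obtain ⟨Q, _, hQ1, hQ2⟩ := hqb A y
    rw [← hV y]
    refine hQ2 _ fun z hz => orc_pre ?_
    have h1 := hQ1 z hz
    have h2 := hr2 n y.length hy
    exact F2.idx_lt_of_length (by omega) hN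
  have hquant := quant_congr (m := 2 ^ q.eval n) (L := n + k * (2 * 2 ^ q.eval n + 1))
    (V := fun y => if M.out (orc N (pre N A)) y = some [true] then [true] else []) (V' := V)
    (fun y hy => by
      simp only [hout y hy, Option.some.injEq]
      by_cases h : V y = [true]
      · simp [h]
      · simp [h]) k true x (by omega)
  rw [hquant]
  have h1 := hA x hxl
  rw [hxl] at h1
  rw [← h1]
  have hlen : (padq q4 x).length = mm n := by rw [F2.length_padq4, hxl]
  show (padq q4 x ∈ parLang A) ↔ _
  show Odd ((Finset.range (2 ^ (padq q4 x).length)).filter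
    (fun j => A (padq q4 x ++ bitsOf (padq q4 x).length j) = true)).card ↔ _
  rw [hlen]
  have hfil : (Finset.range (2 ^ mm n)).filter
      (fun j => A (padq q4 x ++ bitsOf (mm n) j) = true) =
      (Finset.range (2 ^ mm n)).filter
      (fun j => orc N (pre N A) (padq q4 x ++ bitsOf (mm n) j) = true) := by
    apply Finset.filter_congr
    intro j _
    rw [orc_pre]
    have h2 := hr1 n
    refine F2.idx_lt_of_length (R := 2 ^ r.eval n) ?_ hN
    rw [List.length_append, hlen, length_bitsOf]
    omega
  rw [hfil]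

end Pool.Agent.H622R2.Exp
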