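import Pool.Agent.H622R2.Exp.Base

/-! Growth of iterated logarithms -/

namespace Pool.Agent.H622R2.Exp

open Pool.Agent.NPC Pool.Agent.H620R2.Gauge Filter

theorem logb_le_rpow {ε : ℝ} (hε : 0 < ε) : ∀ᶠ y : ℝ in atTop, Real.logb 2 y ≤ y ^ ε := by
  have h3 : (fun x : ℝ => Real.log x) =o[atTop] fun x => x ^ ε := isLittleO_log_rpow_atTop hε
  have h4 := h3.bound (show (0 : ℝ) < Real.log 2 by positivity)
  filter_upwards [h4, eventually_ge_atTop 1] with y hy hy1
  rw [Real.norm_eq_abs, Real.norm_eq_abs, abs_of_nonneg (Real.log_nonneg hy1),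
    abs_of_nonneg (Real.rpow_nonneg (by linarith) _)] at hy
  rw [Real.logb, div_le_iff₀ (by positivity)]
  linarith

theorem log_tendsto : Tendsto (fun N : ℕ => Real.logb 2 N) atTop atTop :=
  (Real.tendsto_logb_atTop (by norm_num)).comp tendsto_natCast_atTop_atTop

theorem loglog_tendsto :
    Tendsto (fun N : ℕ => Real.logb 2 (Real.logb 2 N)) atTop atTop :=
  (Real.tendsto_logb_atTop (by norm_num)).comp log_tendsto

theorem logloglog_tendsto :
    Tendsto (fun N : ℕ => Real.logb 2 (Real.logb 2 (Real.logb 2 N))) atTop atTop :=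
  (Real.tendsto_logb_atTop (by norm_num)).comp loglog_tendsto

theorem loglog_le {ε : ℝ} (hε : 0 < ε) :
    ∀ᶠ N : ℕ in atTop, Real.logb 2 (Real.logb 2 N) ≤ (Real.logb 2 N) ^ ε :=
  log_tendsto.eventually (logb_le_rpow hε)

theorem logloglog_le {ε : ℝ} (hε : 0 < ε) :
    ∀ᶠ N : ℕ in atTop, Real.logb 2 (Real.logb 2 (Real.logb 2 N)) ≤
      (Real.logb 2 (Real.logb 2 N)) ^ ε :=
  loglog_tendsto.eventually (logb_le_rpow hε)

theorem loglog_le_pow {ε : ℝ} (hε : 0 < ε) :
    ∀ᶠ N : ℕ in atTop, Real.logb 2 (Real.logb 2 N) ≤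
      2 ^ (Real.logb 2 (Real.logb 2 N)) ^ ε := by
  filter_upwards [logloglog_le hε, loglog_tendsto.eventually_gt_atTop 0] with N h1 h2
  calc Real.logb 2 (Real.logb 2 N) = 2 ^ Real.logb 2 (Real.logb 2 (Real.logb 2 N)) := by
        rw [Real.rpow_logb (by norm_num) (by norm_num) h2]
    _ ≤ _ := Real.rpow_le_rpow_of_exponent_le (by norm_num) h1

end Pool.Agent.H622R2.Exp
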