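import Pool.Agent.H622R2.Exp.Base
import Pool.Agent.H622R2.Exp.YAux

namespace Pool.Agent.H622R2.Exp

open YAux

namespace G

theorem comp_bound (b : Polynomial ℕ) : ∃ d : ℕ, ∀ n q : ℕ,
    b.eval (n + 2 ^ q) ≤ 2 ^ (d + d * (n + 1 + q)) := by
  obtain ⟨D, -, h⟩ := poly_bound b
  refine ⟨D, fun n q => (h _).trans ?_⟩
  have h1 : n + 1 ≤ 2 ^ n := Nat.lt_two_pow_self
  have h2 : 1 ≤ 2 ^ q := Nat.one_le_two_pow
  have h3 : 1 ≤ 2 ^ n := Nat.one_le_two_pow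
  have h4 : n + 2 ^ q + 1 ≤ 2 ^ (n + 1 + q) := by
    have e : 2 ^ (n + 1 + q) = 2 ^ n * 2 ^ q + 2 ^ n * 2 ^ q := by ring
    have a1 : 2 ^ n ≤ 2 ^ n * 2 ^ q := Nat.le_mul_of_pos_right _ h2
    have a2 : 2 ^ q ≤ 2 ^ n * 2 ^ q := Nat.le_mul_of_pos_left _ h3
    omega
  have h5 : n + 2 ^ q + 2 ≤ 2 ^ (1 + (n + 1 + q)) := by
    have e : 2 ^ (1 + (n + 1 + q)) = 2 * 2 ^ (n + 1 + q) := by ring
    omega
  calc (n + 2 ^ q + 2) ^ D ≤ (2 ^ (1 + (n + 1 + q))) ^ D := Nat.pow_le_pow_left h5 D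
    _ = 2 ^ (D + D * (n + 1 + q)) := by rw [← pow_mul]; congr 1; ring

end G

theorem good_Lin : Good Lin where
  lin := fun c => ⟨c, rfl⟩
  add := by
    rintro q ⟨c, rfl⟩ r ⟨c', rfl⟩
    refine ⟨c + c', ?_⟩
    rw [Polynomial.C_add]
    ring
  comp := by
    rintro q ⟨c, rfl⟩ b
    obtain ⟨d, hd⟩ := G.comp_bound b
    refine ⟨_, ⟨d + d * (1 + c), rfl⟩, fun n => (hd n _).trans ?_⟩
    rw [eval_lin, eval_lin]
    apply Nat.pow_le_pow_right (by norm_num)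
    nlinarith

theorem good_Pol : Good Pol where
  lin := fun _ => Set.mem_univ _
  add := fun _ _ _ _ => Set.mem_univ _
  comp := by
    intro q _ b
    obtain ⟨d, hd⟩ := G.comp_bound b
    refine ⟨Polynomial.C d + Polynomial.C d * (Polynomial.X + 1 + q), Set.mem_univ _, fun n => ?_⟩
    have := hd n (q.eval n)
    simpa using this

end Pool.Agent.H622R2.Exp
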