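import Pool.Agent.H622R2.Exp.Base
import Pool.Agent.H620R2.GaugeR.R8

namespace Pool.Agent.H622R2.Exp

open Pool.Agent.NPC Pool.Agent.H620R2.Gauge Finset H568R2 MeasureTheory Pool.Agent.H676

open Classical in
theorem not_null_ev (f : ℕ → ℝ) (Φ : Oracle → Oracle) (T : Set (List Bool))
    (hΦ : ∀ B, ∀ y ∉ T, Φ B y = B y)
    (hT : ∀ᶠ N : ℕ in Filter.atTop,
      (((Finset.range N).filter (fun i => str i ∈ T)).card : ℝ) ≤ f N)
    (O : Set Oracle) (hO : ∀ B, Φ B ∈ O) : ¬ Null f O := by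
  obtain ⟨N₀, hN₀⟩ := hT.exists_forall_of_atTop
  set cnt : ℕ → ℝ := fun N => (((Finset.range N).filter (fun i => str i ∈ T)).card : ℝ) with hcnt
  set c : ℝ := ∑ N ∈ Finset.range N₀, |cnt N - f N| with hc
  have hc0 : 0 ≤ c := Finset.sum_nonneg (fun _ _ => abs_nonneg _)
  have hT' : ∀ N : ℕ, cnt N ≤ f N + c := by
    intro N
    by_cases h : N < N₀
    · have h1 : |cnt N - f N| ≤ c :=
        Finset.single_le_sum (f := fun N => |cnt N - f N|) (fun _ _ => abs_nonneg _)
          (Finset.mem_range.mpr h)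
      have h2 := le_abs_self (cnt N - f N)
      linarith
    · have := hN₀ N (not_lt.mp h)
      change cnt N ≤ f N at this
      linarith
  refine not_null_of f Set.univ ?_ Φ T hΦ c hT' O (fun B _ => hO B)
  simp

end Pool.Agent.H622R2.Exp
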