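import Pool.Agent.H622R2.Exp.Base
import Pool.Agent.H620R2.Gauge.Q

/-!
# Task Q1: counting the code strings, linear exponents
-/

namespace Pool.Agent.H622R2.Exp

open Pool.Agent.NPC Pool.Agent.H620R2.Gauge Finset H568R2

theorem Q1.length_codeE (r : Polynomial ℕ) (e : ℕ) (x : List Bool) :
    2 ^ r.eval x.length < (codeE r e x).length := by
  simp only [codeE, List.length_append, List.length_cons, List.length_replicate]
  omega

open Classical in
theorem Q1.sparse_nat (r : ℕ → Polynomial ℕ) (N J : ℕ)
    (hJ : ∀ e n, J < n + e + 1 → Nat.log 2 N < 2 ^ (r e).eval n) :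
    ((Finset.range N).filter (fun i => ∃ e x, str i = codeE (r e) e x)).card ≤ 2 ^ (J + 1) := by
  let P : ℕ → Prop := fun i => ∃ e x, str i = codeE (r e) e x
  let w : ℕ → List Bool := fun i =>
    if h : P i then List.replicate h.choose true ++ false :: h.choose_spec.choose else []
  have hw : ∀ i, (h : P i) → w i =
      List.replicate h.choose true ++ false :: h.choose_spec.choose := fun i h => dif_pos h
  have hcode : ∀ i, (h : P i) → str i = codeE (r h.choose) h.choose h.choose_spec.choose :=
    fun i h => h.choose_spec.choose_spec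
  rw [← Finset.card_range (2 ^ (J + 1))]
  apply Finset.card_le_card_of_injOn (fun i => idx (w i))
  · intro i hi
    rw [Finset.mem_coe, Finset.mem_filter, Finset.mem_range] at hi
    have hP : P i := hi.2
    rw [Finset.mem_coe, Finset.mem_range]
    have h1 := hcode i hP
    have h2 := Q1.length_codeE (r hP.choose) hP.choose hP.choose_spec.choose
    rw [← h1, length_str] at h2
    have h4 : Nat.log 2 (i + 1) ≤ Nat.log 2 N := Nat.log_mono_right (by omega)
    have h6 : hP.choose_spec.choose.length + hP.choose + 1 ≤ J := by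
      by_contra hcon
      have := hJ hP.choose hP.choose_spec.choose.length (by omega)
      omega
    have h7 : (w i).length ≤ J := by
      rw [hw i hP]
      simp
      omega
    have h8 := idx_lt (w i)
    have h9 : 2 ^ ((w i).length + 1) ≤ 2 ^ (J + 1) := Nat.pow_le_pow_right (by norm_num) (by omega)
    show idx (w i) < 2 ^ (J + 1)
    omega
  · intro i hi j hj hij
    rw [Finset.mem_coe, Finset.mem_filter] at hi hj
    have hPi : P i := hi.2
    have hPj : P j := hj.2
    have h1 : w i = w j := by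
      have := congrArg str hij
      simpa [str_idx] using this
    rw [hw i hPi, hw j hPj] at h1
    obtain ⟨h2, h3⟩ := marker_inj h1
    apply str_injective
    have h4 : ∀ (e e' : ℕ) (x x' : List Bool), e = e' → x = x' →
        codeE (r e) e x = codeE (r e') e' x' := by
      intro e e' x x' he hx
      rw [he, hx]
    rw [hcode i hPi, hcode j hPj]
    exact h4 _ _ _ _ h2 h3

theorem Q1.natlog_le (N : ℕ) (hN : 1 ≤ N) : (Nat.log 2 N : ℝ) ≤ Real.logb 2 N := by
  have hN' : (1 : ℝ) ≤ N := by exact_mod_cast hN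
  rw [Real.le_logb_iff_rpow_le (by norm_num) (by linarith), Real.rpow_natCast]
  have := Nat.pow_log_le_self 2 (show N ≠ 0 by omega)
  exact_mod_cast this

theorem Q1.tendsto_logb : Filter.Tendsto (fun N : ℕ => Real.logb 2 (N : ℝ)) Filter.atTop
    Filter.atTop :=
  (Real.tendsto_logb_atTop (by norm_num)).comp tendsto_natCast_atTop_atTop

open Classical in
theorem count_Lin {ε : ℝ} (hε : 0 < ε) : ∃ K : ℕ, ∀ r : ℕ → Polynomial ℕ,
    (∀ e n, K * (n + e + 1) ≤ (r e).eval n) →
    ∀ᶠ N : ℕ in Filter.atTop, (((Finset.range N).filter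
      (fun i => ∃ e x, str i = codeE (r e) e x)).card : ℝ) ≤ (Real.logb 2 N) ^ ε := by
  obtain ⟨K, hK⟩ := exists_nat_gt (1 / ε)
  have hK' : 1 < ε * K := by
    rw [div_lt_iff₀ hε] at hK
    linarith [mul_comm (K : ℝ) ε]
  have hK1 : 1 ≤ K := by
    rcases Nat.eq_zero_or_pos K with h | h
    · subst h; simp at hK'; linarith
    · exact h
  have hK0 : (0 : ℝ) < K := by exact_mod_cast hK1
  have hpos : 0 < ε - 1 / K := by
    have : 1 / (K : ℝ) < ε := by
      rw [div_lt_iff₀ hK0]; exact hK'
    linarith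
  refine ⟨K, fun r hr => ?_⟩
  have ht : Filter.Tendsto (fun N : ℕ => (Real.logb 2 N) ^ (ε - 1 / K)) Filter.atTop
      Filter.atTop := (tendsto_rpow_atTop hpos).comp Q1.tendsto_logb
  filter_upwards [ht.eventually_ge_atTop 2, Filter.eventually_ge_atTop 2] with N h2 hN
  set L := Real.logb 2 N with hL
  set m := Nat.log 2 N with hm
  have hm1 : 1 ≤ m := Nat.log_pos (by norm_num) hN
  have hmL : (m : ℝ) ≤ L := Q1.natlog_le N (by omega)
  have hL1 : 1 ≤ L := le_trans (by exact_mod_cast hm1) hmL
  have hL0 : 0 < L := by linarith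
  set J := Nat.log 2 m / K with hJdef
  have hJ : ∀ e n, J < n + e + 1 → m < 2 ^ (r e).eval n := by
    intro e n h
    have h1 : Nat.log 2 m < K * (J + 1) := by
      have := Nat.lt_mul_div_succ (Nat.log 2 m) (show 0 < K by omega)
      simpa [hJdef] using this
    have h3 : K * (J + 1) ≤ (r e).eval n :=
      le_trans (Nat.mul_le_mul_left K (by omega)) (hr e n)
    have h4 : m < 2 ^ (Nat.log 2 m + 1) := Nat.lt_pow_succ_log_self (by norm_num) m
    exact lt_of_lt_of_le h4 (Nat.pow_le_pow_right (by norm_num) (by omega))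
  have h9 := Q1.sparse_nat r N J hJ
  have h10 : (2 : ℝ) ^ J ≤ L ^ (1 / (K : ℝ)) := by
    have h11 : ((2 : ℝ) ^ J) ^ K ≤ L := by
      rw [← pow_mul]
      have h12 : 2 ^ (J * K) ≤ m := by
        have h13 : J * K ≤ Nat.log 2 m := Nat.div_mul_le_self _ _
        exact le_trans (Nat.pow_le_pow_right (by norm_num) h13)
          (Nat.pow_log_le_self 2 (by omega))
      have h14 : ((2 : ℝ)) ^ (J * K) ≤ m := by exact_mod_cast h12
      linarith
    have h15 : (((2 : ℝ) ^ J) ^ K) ^ (1 / (K : ℝ)) ≤ L ^ (1 / (K : ℝ)) :=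
      Real.rpow_le_rpow (by positivity) h11 (by positivity)
    rwa [one_div, Real.pow_rpow_inv_natCast (by positivity) (by omega), ← one_div] at h15
  calc (((Finset.range N).filter (fun i => ∃ e x, str i = codeE (r e) e x)).card : ℝ)
      ≤ ((2 ^ (J + 1) : ℕ) : ℝ) := by exact_mod_cast h9
    _ = (2 : ℝ) ^ J * 2 := by push_cast; rw [pow_succ]
    _ ≤ L ^ (1 / (K : ℝ)) * L ^ (ε - 1 / K) := by
        apply mul_le_mul h10 h2 (by norm_num) (by positivity)
    _ = L ^ ε := by
        rw [← Real.rpow_add hL0]; congr 1; ring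

end Pool.Agent.H622R2.Exp
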