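import Pool.Agent.H622R2.Exp.Base
import Pool.Agent.H622R2.Exp.G
import Pool.Agent.H622R2.Exp.A6
import Pool.Agent.H622R2.Exp.C2
import Pool.Agent.H622R2.Exp.Q1
import Pool.Agent.H622R2.Exp.L

/-! Task K1: the set of oracles with `ESPACE = E` is not null. -/

namespace Pool.Agent.H622R2.Exp

open Pool.Agent.NPC Pool.Agent.H620R2.Gauge Finset H568R2

theorem notNullE {f : ℕ → ℝ} {ε : ℝ} (hε : 0 < ε)
    (hf : ∀ᶠ N : ℕ in Filter.atTop, (Real.logb 2 N) ^ ε < f N) (O : Set Oracle)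
    (hO : ∀ A : Oracle, (∀ L, InSpace Lin A L → InTime Lin A L) → A ∈ O) : ¬ Null f O := by
  obtain ⟨K, hK⟩ := count_Lin hε
  obtain ⟨r, hr, hgr, hP⟩ := exists_codingE good_Lin
    (fun e => Polynomial.C (K * (e + 1)) * (Polynomial.X + 1)) (fun e => ⟨K * (e + 1), rfl⟩)
  obtain ⟨Φ, hΦ1, hΦ2⟩ := hP (fun _ _ => True)
  have hr2 : ∀ e n, K * (n + e + 1) ≤ (r e).eval n := by
    intro e n
    refine le_trans ?_ (hgr e n)
    simp only [Polynomial.eval_mul, Polynomial.eval_C, Polynomial.eval_add, Polynomial.eval_X,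
      Polynomial.eval_one]
    rw [mul_assoc]
    apply Nat.mul_le_mul_left
    nlinarith [Nat.zero_le (e * n)]
  refine not_null_ev f Φ {y | ∃ e x, y = codeE (r e) e x} ?_ ?_ O ?_
  · intro B y hy
    apply hΦ1
    intro e x _ hyx
    exact hy ⟨e, x, hyx⟩
  · filter_upwards [hK r hr2, hf] with N h1 h2
    exact h1.trans h2.le
  · intro B
    apply hO
    intro L hL
    obtain ⟨e, he⟩ := hΦ2 B L hL
    have hLe : L = {x | Φ B (codeE (r e) e x) = true} := by
      ext x
      exact he x trivial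
    rw [hLe]
    exact inTime_code good_Lin (Φ B) (hr e) e

end Pool.Agent.H622R2.Exp
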