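import Pool.Agent.H622R2.Exp.Q1

/-!
# Task Q2: counting the code strings, polynomial exponents
-/

namespace Pool.Agent.H622R2.Exp

open Pool.Agent.NPC Pool.Agent.H620R2.Gauge Finset H568R2

theorem Q2.tendsto_logb2 : Filter.Tendsto (fun N : ℕ => Real.logb 2 (Real.logb 2 (N : ℝ)))
    Filter.atTop Filter.atTop :=
  (Real.tendsto_logb_atTop (by norm_num)).comp Q1.tendsto_logb

theorem Q2.natlog2_le (N : ℕ) (hN : 2 ≤ N) :
    (Nat.log 2 (Nat.log 2 N) : ℝ) ≤ Real.logb 2 (Real.logb 2 N) := by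
  have hm1 : 1 ≤ Nat.log 2 N := Nat.log_pos (by norm_num) hN
  have h1 := Q1.natlog_le (Nat.log 2 N) hm1
  have h2 := Q1.natlog_le N (by omega)
  have h3 : (0 : ℝ) < Nat.log 2 N := by exact_mod_cast hm1
  exact le_trans h1 (Real.logb_le_logb_of_le (by norm_num) h3 h2)

/-- the natural number `J` with `J ≤ l ^ (1 / K)` and `⌊l⌋ < (J + 1) ^ K` -/
theorem Q2.root (K : ℕ) (hK : 1 ≤ K) (l : ℝ) (hl : 0 ≤ l) (l' : ℕ) (hl' : (l' : ℝ) ≤ l) :
    ∃ J : ℕ, (J : ℝ) ≤ l ^ (1 / (K : ℝ)) ∧ l' < (J + 1) ^ K := by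
  refine ⟨Nat.floor (l ^ (1 / (K : ℝ))), Nat.floor_le (Real.rpow_nonneg hl _), ?_⟩
  have h3 : l ^ (1 / (K : ℝ)) < (Nat.floor (l ^ (1 / (K : ℝ))) : ℝ) + 1 := Nat.lt_floor_add_one _
  have h5 : (l ^ (1 / (K : ℝ))) ^ K < ((Nat.floor (l ^ (1 / (K : ℝ))) : ℝ) + 1) ^ K :=
    pow_lt_pow_left₀ h3 (Real.rpow_nonneg hl _) (by omega)
  rw [one_div, Real.rpow_inv_natCast_pow hl (by omega), ← one_div] at h5
  have h8 : (l' : ℝ) < ((Nat.floor (l ^ (1 / (K : ℝ))) : ℝ) + 1) ^ K := lt_of_le_of_lt hl' h5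
  exact_mod_cast h8

open Classical in
theorem count_Pol {ε : ℝ} (hε : 0 < ε) : ∃ K : ℕ, ∀ r : ℕ → Polynomial ℕ,
    (∀ e n, (n + e + 1) ^ K ≤ (r e).eval n) →
    ∀ᶠ N : ℕ in Filter.atTop, (((Finset.range N).filter
      (fun i => ∃ e x, str i = codeE (r e) e x)).card : ℝ) ≤
        2 ^ (Real.logb 2 (Real.logb 2 N)) ^ ε := by
  obtain ⟨K, hK⟩ := exists_nat_gt (1 / ε)
  have hK' : 1 < ε * K := by
    rw [div_lt_iff₀ hε] at hK
    linarith [mul_comm (K : ℝ) ε]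
  have hK1 : 1 ≤ K := by
    rcases Nat.eq_zero_or_pos K with h | h
    · subst h; simp at hK'; linarith
    · exact h
  have hK0 : (0 : ℝ) < K := by exact_mod_cast hK1
  have hpos : 0 < ε - 1 / K := by
    have : 1 / (K : ℝ) < ε := by
      rw [div_lt_iff₀ hK0]; exact hK'
    linarith
  refine ⟨K, fun r hr => ?_⟩
  have ht : Filter.Tendsto (fun N : ℕ => (Real.logb 2 (Real.logb 2 N)) ^ (ε - 1 / K))
      Filter.atTop Filter.atTop := (tendsto_rpow_atTop hpos).comp Q2.tendsto_logb2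
  filter_upwards [ht.eventually_ge_atTop 2, Q2.tendsto_logb2.eventually_ge_atTop 1,
    Filter.eventually_ge_atTop 2] with N h2 hl1 hN
  set l := Real.logb 2 (Real.logb 2 N) with hl
  set m := Nat.log 2 N with hm
  have hl0 : 0 < l := by linarith
  obtain ⟨J, hJle, hJlt⟩ := Q2.root K hK1 l hl0.le (Nat.log 2 m) (Q2.natlog2_le N hN)
  have hJ : ∀ e n, J < n + e + 1 → m < 2 ^ (r e).eval n := by
    intro e n h
    have h3 : (J + 1) ^ K ≤ (r e).eval n :=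
      le_trans (Nat.pow_le_pow_left (by omega) K) (hr e n)
    have h4 : m < 2 ^ (Nat.log 2 m + 1) := Nat.lt_pow_succ_log_self (by norm_num) m
    exact lt_of_lt_of_le h4 (Nat.pow_le_pow_right (by norm_num) (by omega))
  have h9 := Q1.sparse_nat r N J hJ
  have h10 : (J : ℝ) + 1 ≤ l ^ ε := by
    have h11 : 1 ≤ l ^ (1 / (K : ℝ)) := Real.one_le_rpow hl1 (by positivity)
    have h12 : l ^ ε = l ^ (1 / (K : ℝ)) * l ^ (ε - 1 / K) := by
      rw [← Real.rpow_add hl0]; congr 1; ring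
    rw [h12]
    nlinarith
  calc (((Finset.range N).filter (fun i => ∃ e x, str i = codeE (r e) e x)).card : ℝ)
      ≤ ((2 ^ (J + 1) : ℕ) : ℝ) := by exact_mod_cast h9
    _ = (2 : ℝ) ^ ((J : ℝ) + 1) := by
        push_cast
        rw [← Real.rpow_natCast]
        push_cast
        rfl
    _ ≤ 2 ^ l ^ ε := Real.rpow_le_rpow_of_exponent_le (by norm_num) h10

end Pool.Agent.H622R2.Exp
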