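import Pool.Agent.H622R2.Exp.Base
import Pool.Agent.H622R2.Exp.G
import Pool.Agent.H622R2.Exp.A6
import Pool.Agent.H622R2.Exp.C2
import Pool.Agent.H622R2.Exp.Q2
import Pool.Agent.H622R2.Exp.L

/-! Task K6: the set of oracles with `EXPSPACE = EXP` is not null. -/

namespace Pool.Agent.H622R2.Exp

open Pool.Agent.NPC Pool.Agent.H620R2.Gauge Finset H568R2

theorem notNullEXP {f : ℕ → ℝ} {ε : ℝ} (hε : 0 < ε)
    (hf : ∀ᶠ N : ℕ in Filter.atTop, 2 ^ (Real.logb 2 (Real.logb 2 N)) ^ ε < f N)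
    (O : Set Oracle)
    (hO : ∀ A : Oracle, (∀ L, InSpace Pol A L → InTime Pol A L) → A ∈ O) : ¬ Null f O := by
  obtain ⟨K, hK⟩ := count_Pol hε
  obtain ⟨r, hr, hgr, hP⟩ := exists_codingE good_Pol
    (fun e => (Polynomial.X + Polynomial.C (e + 1)) ^ K) (fun e => Set.mem_univ _)
  obtain ⟨Φ, hΦ1, hΦ2⟩ := hP (fun _ _ => True)
  have hr2 : ∀ e n, (n + e + 1) ^ K ≤ (r e).eval n := by
    intro e n
    refine le_trans (le_of_eq ?_) (hgr e n)
    simp only [Polynomial.eval_pow, Polynomial.eval_C, Polynomial.eval_add, Polynomial.eval_X]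
    rw [add_assoc]
  refine not_null_ev f Φ {y | ∃ e x, y = codeE (r e) e x} ?_ ?_ O ?_
  · intro B y hy
    apply hΦ1
    intro e x _ hyx
    exact hy ⟨e, x, hyx⟩
  · filter_upwards [hK r hr2, hf] with N h1 h2
    exact h1.trans h2.le
  · intro B
    apply hO
    intro L hL
    obtain ⟨e, he⟩ := hΦ2 B L hL
    have hLe : L = {x | Φ B (codeE (r e) e x) = true} := by
      ext x
      exact he x trivial
    rw [hLe]
    exact inTime_code good_Pol (Φ B) (hr e) e

end Pool.Agent.H622R2.Exp
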