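import Pool.Agent.H622R2.Exp.F1
import Pool.Agent.H622R2.Exp.E1
import Pool.Agent.H620R2.Gauge2.Null

/-! Task N1 (helper332): the sets of the oracles for deterministic time are null. -/

namespace Pool.Agent.H622R2.Exp

open Pool.Agent.NPC Pool.Agent.H620R2.Gauge Finset H568R2

namespace N1

/-- the oracles for which the parameters are good -/
def XD (E : Set (Polynomial ℕ)) (θ : Alg × E) : Set Oracle :=
  {A | ∀ x : List Bool, ∃ z : List Bool,
    θ.1.run A x (2 ^ (θ.2 : Polynomial ℕ).eval x.length) [] = some z ∧ (x ∈ hit2 A ↔ z = [true])}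

theorem countable_poly : Countable (Polynomial ℕ) := by
  have : Function.Injective (fun p : Polynomial ℕ => (p.toFinsupp.coeff : ℕ →₀ ℕ)) := by
    intro p q h
    ext n
    exact DFunLike.congr_fun h n
  exact this.countable

end N1

theorem nullD {E : Set (Polynomial ℕ)} (hE : Good E) {f : ℕ → ℝ}
    (hf : Asy E f (fun n => 3 * (11 / 12) ^ 2 ^ n)) : Null f {A | InTime E A (hit2 A)} := by
  classical
  have hc : Countable (Polynomial ℕ) := N1.countable_poly
  have hcE : Countable E := inferInstance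
  refine (null_iUnion (f := f) (N1.XD E) fun θ => ?_).mono fun A hA => ?_
  · intro δ hδ
    obtain ⟨r, hr, hr1, hr2⟩ := evD_of hE θ.1 θ.2.2
    obtain ⟨n₀, hn₀⟩ := evD_bound θ.1 θ.2
    obtain ⟨n, N, hn, hN, hb⟩ := hf r hr δ hδ n₀
    have hN1 : 2 ^ (3 * mm n + 1) ≤ N :=
      le_trans (Nat.pow_le_pow_right (by norm_num) (hr1 n)) hN
    refine cover_of_event (EvD θ.1 θ.2 n N) (N1.XD E θ) (fun A hA => hr2 A hA n N hN) f δ ?_
    exact (mul_le_mul_of_nonneg_right (hn₀ n hn N hN1) (by positivity)).trans hb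
  · obtain ⟨M, q, hq, h⟩ := hA
    exact Set.mem_iUnion.2 ⟨(M, ⟨q, hq⟩), h⟩

end Pool.Agent.H622R2.Exp
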