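import Pool.Agent.H622R2.Exp.Base
import Pool.Agent.H622R2.Exp.YAux

namespace Pool.Agent.H622R2.Exp

open Filter YAux

theorem asyE {f : ℕ → ℝ}
    (hf : ∀ ε : ℝ, 0 < ε → ∃ᶠ N : ℕ in Filter.atTop, f N ≤ (Real.logb 2 N) ^ ε) :
    Asy Lin f (fun n => 3 * (11 / 12) ^ 2 ^ n) := by
  rintro q ⟨c, rfl⟩ δ hδ n₀
  obtain ⟨n₁, hn₁⟩ := (ev_det' δ hδ).exists_forall_of_atTop
  set m := max (max n₀ n₁) 2 with hm
  have hcpos : (0:ℝ) < (c:ℝ) + 1 := by positivity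
  obtain ⟨N, hN1, hN2⟩ := ((hf (1 / (4 * ((c:ℝ) + 1))) (by positivity)).and_eventually
    (eventually_ge_atTop (2 ^ 2 ^ ((c + 1) * (m + 1))))).exists
  obtain ⟨n, hn, h1, h2, h3⟩ := choose_lin (c + 1) m (by omega) hN2
  have hn0 : n₀ ≤ n := (le_max_left n₀ n₁).trans ((le_max_left _ _).trans hn)
  have hn1 : n₁ ≤ n := (le_max_right n₀ n₁).trans ((le_max_left _ _).trans hn)
  have hn2 : 2 ≤ n := (le_max_right _ _).trans hn
  refine ⟨n, N, hn0, ?_, ?_⟩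
  · rw [eval_lin]
    refine le_trans (Nat.pow_le_pow_right (by norm_num) (Nat.pow_le_pow_right (by norm_num) ?_)) h1
    exact Nat.mul_le_mul_right _ (by omega)
  · apply hn₁ n hn1
    refine hN1.trans ?_
    have h4 : (Real.logb 2 N) ^ (1 / (4 * ((c:ℝ) + 1))) ≤
        ((2:ℝ) ^ (((c + 1 : ℕ) : ℝ) * ((n : ℝ) + 2))) ^ (1 / (4 * ((c:ℝ) + 1))) :=
      Real.rpow_le_rpow (by linarith) h3 (by positivity)
    refine h4.trans ?_
    rw [← Real.rpow_mul (by norm_num)]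
    apply Real.rpow_le_rpow_of_exponent_le (by norm_num)
    push_cast
    have h5 : ((c:ℝ) + 1) * ((n:ℝ) + 2) * (1 / (4 * ((c:ℝ) + 1))) = ((n:ℝ) + 2) / 4 := by
      field_simp
    rw [h5]
    have : (2:ℝ) ≤ n := by exact_mod_cast hn2
    linarith

end Pool.Agent.H622R2.Exp
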