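import Pool.Agent.H622R2.Exp.Base
import Pool.Agent.H622R2.Exp.YAux

namespace Pool.Agent.H622R2.Exp

open Filter YAux

namespace Y2

theorem mono_pow (D : ℕ) : Monotone (fun n : ℕ => (n + 2) ^ D) := by
  intro a b hab
  exact Nat.pow_le_pow_left (by omega) D

theorem unb_pow {D : ℕ} (hD : 1 ≤ D) (l : ℕ) : ∃ n, l < (fun n : ℕ => (n + 2) ^ D) n := by
  refine ⟨l, ?_⟩
  calc l < (l + 2) ^ 1 := by rw [pow_one]; omega
    _ ≤ (l + 2) ^ D := Nat.pow_le_pow_right (by omega) hD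

/-- the power with exponent `1 / (2 D)` -/
theorem root_le {D n : ℕ} (hD : 1 ≤ D) {x : ℝ} (hx : 0 ≤ x)
    (h : x ≤ (((n + 1 + 2) ^ D : ℕ) : ℝ)) :
    x ^ (1 / (2 * (D:ℝ))) ≤ Real.sqrt ((n:ℝ) + 3) := by
  have h1 : (((n + 1 + 2) ^ D : ℕ) : ℝ) = ((n:ℝ) + 3) ^ (D:ℝ) := by
    push_cast
    rw [Real.rpow_natCast]
    ring
  rw [h1] at h
  have hD0 : (0:ℝ) < D := by exact_mod_cast hD
  refine (Real.rpow_le_rpow hx h (by positivity)).trans ?_
  rw [← Real.rpow_mul (by positivity), Real.sqrt_eq_rpow]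
  apply le_of_eq
  congr 1
  field_simp

end Y2

theorem asyEXP {f : ℕ → ℝ}
    (hf : ∀ ε : ℝ, 0 < ε → ∃ᶠ N : ℕ in Filter.atTop,
      f N ≤ 2 ^ (Real.logb 2 (Real.logb 2 N)) ^ ε) :
    Asy Pol f (fun n => 3 * (11 / 12) ^ 2 ^ n) := by
  intro q _ δ hδ n₀
  obtain ⟨D, hD, hq⟩ := poly_bound q
  obtain ⟨n₁, hn₁⟩ := (ev_det' δ hδ).exists_forall_of_atTop
  set m := max (max n₀ n₁) 6 with hm
  have hD0 : (0:ℝ) < D := by exact_mod_cast hD
  obtain ⟨N, hN1, hN2, hN4⟩ := ((hf (1 / (2 * (D:ℝ))) (by positivity)).and_eventually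
    ((eventually_ge_atTop (2 ^ 2 ^ ((m + 2) ^ D))).and (eventually_ge_atTop 4))).exists
  obtain ⟨n, hn, h1, h2, h3⟩ := choose_pol (Y2.mono_pow D) (Y2.unb_pow hD) m hN2 hN4
  have hn0 : n₀ ≤ n := (le_max_left n₀ n₁).trans ((le_max_left _ _).trans hn)
  have hn1 : n₁ ≤ n := (le_max_right n₀ n₁).trans ((le_max_left _ _).trans hn)
  have hn6 : 6 ≤ n := (le_max_right _ _).trans hn
  refine ⟨n, N, hn0, ?_, ?_⟩
  · exact le_trans (Nat.pow_le_pow_right (by norm_num)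
      (Nat.pow_le_pow_right (by norm_num) (hq n))) h1
  · apply hn₁ n hn1
    refine hN1.trans ?_
    apply Real.rpow_le_rpow_of_exponent_le (by norm_num)
    refine (Y2.root_le hD (by linarith) h3).trans ?_
    have h6 : (6:ℝ) ≤ n := by exact_mod_cast hn6
    rw [Real.sqrt_le_left (by positivity)]
    nlinarith

end Pool.Agent.H622R2.Exp
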