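import Pool.Agent.H620R2.Gauge2.Null
import Pool.Agent.H622R2.Exp.G
import Pool.Agent.H622R2.Exp.A2
import Pool.Agent.H622R2.Exp.A5
import Pool.Agent.H622R2.Exp.B
import Pool.Agent.H622R2.Exp.N1
import Pool.Agent.H622R2.Exp.K1
import Pool.Agent.H622R2.Exp.K6
import Pool.Agent.H622R2.Exp.Y1
import Pool.Agent.H622R2.Exp.Y2

/-! `E` versus `NE`, `EXP` versus `NEXP` -/

namespace Pool.Agent.H622R2.Exp

open Pool.Agent.NPC Pool.Agent.H620R2.Gauge Filter

theorem resE (f : ℕ → ℝ) :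
    (∀ O : Set Oracle,
      (∀ A : Oracle, (∀ L, InSpace Lin A L → InTime Lin A L) → A ∈ O) →
      (∀ A ∈ O, ∀ L, InNTime Lin A L → InTime Lin A L) →
      (Null f O ↔
        ∀ ε : ℝ, 0 < ε → ∃ᶠ N : ℕ in atTop, f N ≤ (Real.logb 2 N) ^ ε)) ∧
    (Null f {A : Oracle | ∀ L, InTime Lin A L ↔ InNTime Lin A L} ↔
      ∀ ε : ℝ, 0 < ε → ∃ᶠ N : ℕ in atTop, f N ≤ (Real.logb 2 N) ^ ε) ∧
    (Null f {A : Oracle | ∀ L, InTime Pol A L ↔ InNTime Pol A L} ↔
      ∀ ε : ℝ, 0 < ε → ∃ᶠ N : ℕ in atTop,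
        f N ≤ 2 ^ (Real.logb 2 (Real.logb 2 N)) ^ ε) := by
  have key : ∀ O : Set Oracle,
      (∀ A : Oracle, (∀ L, InSpace Lin A L → InTime Lin A L) → A ∈ O) →
      (∀ A ∈ O, ∀ L, InNTime Lin A L → InTime Lin A L) →
      (Null f O ↔
        ∀ ε : ℝ, 0 < ε → ∃ᶠ N : ℕ in atTop, f N ≤ (Real.logb 2 N) ^ ε) := by
    intro O h1 h2
    constructor
    · intro hn ε hε
      by_contra hcon
      rw [not_frequently] at hcon
      exact notNullE hε (hcon.mono fun N h => not_le.1 h) O h1 hn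
    · intro hf
      exact (nullD good_Lin (asyE hf)).mono fun A hA => h2 A hA _ (hit2_ntime good_Lin A)
  have key2 : ∀ O : Set Oracle,
      (∀ A : Oracle, (∀ L, InSpace Pol A L → InTime Pol A L) → A ∈ O) →
      (∀ A ∈ O, ∀ L, InNTime Pol A L → InTime Pol A L) →
      (Null f O ↔
        ∀ ε : ℝ, 0 < ε → ∃ᶠ N : ℕ in atTop,
          f N ≤ 2 ^ (Real.logb 2 (Real.logb 2 N)) ^ ε) := by
    intro O h1 h2
    constructor
    · intro hn ε hε
      by_contra hcon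
      rw [not_frequently] at hcon
      exact notNullEXP hε (hcon.mono fun N h => not_le.1 h) O h1 hn
    · intro hf
      exact (nullD good_Pol (asyEXP hf)).mono fun A hA => h2 A hA _ (hit2_ntime good_Pol A)
  refine ⟨key, key _ ?_ ?_, key2 _ ?_ ?_⟩
  · intro A hA L
    exact ⟨fun h => h.isNTime, fun h => hA L (h.isSpace good_Lin)⟩
  · intro A hA L hL
    exact (hA L).2 hL
  · intro A hA L
    exact ⟨fun h => h.isNTime, fun h => hA L (h.isSpace good_Pol)⟩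
  · intro A hA L hL
    exact (hA L).2 hL

end Pool.Agent.H622R2.Exp
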