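import Pool.Agent.H622R2.Exp.Base

/-!
# Task Q7: choose_IO (a set of input lengths, rich enough for infinitely often, with few codes)
-/

namespace Pool.Agent.H622R2.Exp

open Pool.Agent.NPC Pool.Agent.H620R2.Gauge Finset H568R2

namespace Q7

/-- the input length belonging to `N` -/
def len (K N : ℕ) : ℕ := Nat.log 2 (Nat.log 2 N + 1) / K

theorem lt_pow_len {K : ℕ} (hK : 0 < K) (N : ℕ) : Nat.log 2 N + 1 < 2 ^ (K * (len K N + 1)) := by
  apply Nat.lt_pow_of_log_lt (by norm_num)
  unfold len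
  exact Nat.lt_mul_div_succ _ hK

theorem pow_len_le {K : ℕ} (N : ℕ) : 2 ^ (K * len K N) ≤ Nat.log 2 N + 1 := by
  apply Nat.pow_le_of_le_log (by omega)
  unfold len
  exact Nat.mul_div_le _ _

theorem le_len {K t N : ℕ} (hK : 0 < K) (h : 2 ^ 2 ^ (K * t) ≤ N) : t ≤ len K N := by
  unfold len
  rw [Nat.le_div_iff_mul_le hK]
  apply Nat.le_log_of_pow_le (by norm_num)
  have h1 : 2 ^ (K * t) ≤ Nat.log 2 N := Nat.le_log_of_pow_le (by norm_num) h
  rw [mul_comm] at h1
  omega

theorem sum_le (m : ℕ) : ∑ n ∈ Finset.range (m + 1), n * 2 ^ n ≤ 2 * 4 ^ m := by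
  induction m with
  | zero => simp
  | succ m ih =>
    rw [Finset.sum_range_succ]
    have h1 : m + 1 < 2 ^ (m + 1) := Nat.lt_two_pow_self
    have h2 : (m + 1) * 2 ^ (m + 1) ≤ 2 ^ (m + 1) * 2 ^ (m + 1) := Nat.mul_le_mul_right _ h1.le
    have h3 : 2 ^ (m + 1) * 2 ^ (m + 1) = 4 ^ (m + 1) := by
      rw [← mul_pow]
      norm_num
    rw [h3] at h2
    have h4 : 4 ^ (m + 1) = 4 * 4 ^ m := by ring
    omega

theorem four_pow_le {K N : ℕ} (hK : 0 < K) :
    (4:ℝ) ^ len K N ≤ (Real.logb 2 N + 1) ^ ((2:ℝ) / K) := by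
  have h1 : ((2 ^ (K * len K N) : ℕ) : ℝ) ≤ Real.logb 2 N + 1 := by
    have h2 : ((2 ^ (K * len K N) : ℕ) : ℝ) ≤ ((Nat.log 2 N + 1 : ℕ) : ℝ) := by
      exact_mod_cast pow_len_le N
    refine h2.trans ?_
    push_cast
    have h3 := Real.natLog_le_logb N 2
    norm_num at h3
    linarith
  have hK0 : (0:ℝ) < K := by exact_mod_cast hK
  have h4 : (((2 ^ (K * len K N) : ℕ) : ℝ)) ^ ((2:ℝ) / K) = (4:ℝ) ^ len K N := by
    push_cast
    rw [← Real.rpow_natCast, ← Real.rpow_mul (by norm_num), Nat.cast_mul]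
    rw [show (K:ℝ) * (len K N : ℝ) * (2 / K) = ((2 * len K N : ℕ) : ℝ) by
      push_cast; field_simp]
    rw [Real.rpow_natCast, pow_mul]
    norm_num
  rw [← h4]
  exact Real.rpow_le_rpow (by positivity) h1 (by positivity)

theorem asymp {K : ℕ} {ε : ℝ} (hK : 2 / ε < K) (hε : 0 < ε) :
    ∃ N₁ : ℕ, ∀ N : ℕ, N₁ ≤ N →
      2 * (Real.logb 2 N + 1) ^ ((2:ℝ) / K) ≤ (Real.logb 2 N) ^ ε := by
  have hK0 : (0:ℝ) < K := lt_trans (by positivity) hK
  have hd : 0 < ε - 2 / K := by
    rw [div_lt_iff₀ hε] at hK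
    rw [sub_pos, div_lt_iff₀ hK0]
    linarith
  have ht : Filter.Tendsto (fun N : ℕ => Real.logb 2 (N:ℝ)) Filter.atTop Filter.atTop :=
    (Real.tendsto_logb_atTop (by norm_num)).comp tendsto_natCast_atTop_atTop
  have h1 := ((tendsto_rpow_atTop hd).comp ht).eventually_ge_atTop (2 * (2:ℝ) ^ ((2:ℝ) / K))
  have h2 := ht.eventually_ge_atTop 1
  obtain ⟨N₁, hN₁⟩ := Filter.eventually_atTop.1 (h1.and h2)
  refine ⟨N₁, fun N hN => ?_⟩
  obtain ⟨h3, h4⟩ := hN₁ N hN
  simp only [Function.comp] at h3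
  set L := Real.logb 2 (N:ℝ) with hL
  have hL0 : 0 < L := by linarith
  calc 2 * (L + 1) ^ ((2:ℝ) / K) ≤ 2 * (2 * L) ^ ((2:ℝ) / K) := by
        apply mul_le_mul_of_nonneg_left _ (by norm_num)
        exact Real.rpow_le_rpow (by positivity) (by linarith) (by positivity)
    _ = (2 * (2:ℝ) ^ ((2:ℝ) / K)) * L ^ ((2:ℝ) / K) := by
        rw [Real.mul_rpow (by norm_num) hL0.le]; ring
    _ ≤ L ^ (ε - 2 / K) * L ^ ((2:ℝ) / K) := by
        apply mul_le_mul_of_nonneg_right h3 (by positivity)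
    _ = L ^ ε := by
        rw [← Real.rpow_add hL0]; congr 1; ring

theorem length_codeE (r : Polynomial ℕ) (e : ℕ) (x : List Bool) :
    (codeE r e x).length = e + 1 + 2 ^ r.eval x.length + 1 + x.length := by
  unfold codeE
  simp
  ring

end Q7

open Classical in
/-- for sets of input lengths that are rich enough for infinitely often -/
theorem choose_IO {f : ℕ → ℝ} {ε : ℝ} (hε : 0 < ε)
    (hf : ∃ᶠ N : ℕ in Filter.atTop, ∀ N' ≥ N, (Real.logb 2 N) ^ ε < f N') :
    ∃ K : ℕ, ∀ r : ℕ → Polynomial ℕ, (∀ e n, K * (n + e + 1) ≤ (r e).eval n) →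
      ∃ P : ℕ → ℕ → Prop, (∀ e, ∃ᶠ n : ℕ in Filter.atTop, P e n) ∧
        ∀ᶠ N : ℕ in Filter.atTop, (((Finset.range N).filter
          (fun i => ∃ e x, P e x.length ∧ str i = codeE (r e) e x)).card : ℝ) ≤ f N := by
  obtain ⟨K, hK⟩ := exists_nat_gt (2 / ε)
  have hK0 : 0 < K := by
    have : (0:ℝ) < K := lt_trans (by positivity) hK
    exact_mod_cast this
  refine ⟨K, fun r hr => ?_⟩
  obtain ⟨N₁, hN₁⟩ := Q7.asymp hK hε
  set G : ℕ → Prop := fun N => (1 ≤ N ∧ N₁ ≤ N) ∧ ∀ N' ≥ N, (Real.logb 2 N) ^ ε < f N' with hG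
  have hGf : ∀ n₀ : ℕ, ∃ N, n₀ ≤ N ∧ G N := by
    intro n₀
    obtain ⟨N, hN, hN2⟩ := Filter.frequently_atTop.1 hf (max n₀ (max 1 N₁))
    simp only [max_le_iff] at hN
    exact ⟨N, hN.1, ⟨⟨hN.2.1, hN.2.2⟩, hN2⟩⟩
  refine ⟨fun e n => e < n ∧ ∃ N, G N ∧ Q7.len K N = n, ?_, ?_⟩
  · intro e
    rw [Filter.frequently_atTop]
    intro n₀
    obtain ⟨N, hN, hGN⟩ := hGf (2 ^ 2 ^ (K * max n₀ (e + 1)))
    have h1 := Q7.le_len hK0 hN
    refine ⟨Q7.len K N, (le_max_left _ _).trans h1, ?_, N, hGN, rfl⟩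
    have := le_max_right n₀ (e + 1)
    omega
  · obtain ⟨N₀, _, hN₀⟩ := hGf 0
    filter_upwards [Filter.eventually_ge_atTop N₀] with N hN
    have hpos : 0 ≤ f N := by
      have h1 := hN₀.2 N hN
      have h2 : 0 ≤ (Real.logb 2 N₀) ^ ε := by
        apply Real.rpow_nonneg
        apply Real.logb_nonneg (by norm_num)
        exact_mod_cast hN₀.1.1
      linarith
    set T : Finset ℕ := (Finset.range (Nat.log 2 N + 1)).filter
      (fun n => ∃ M, G M ∧ M ≤ N ∧ Q7.len K M = n) with hT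
    set W : Finset (List Bool) := T.biUnion fun n => (Finset.range n).biUnion fun e =>
      (Finset.univ : Finset (Fin n → Bool)).image fun v => codeE (r e) e (List.ofFn v) with hW
    have hsub : ((Finset.range N).filter (fun i => ∃ e x,
        (e < x.length ∧ ∃ M, G M ∧ Q7.len K M = x.length) ∧ str i = codeE (r e) e x)).image str ⊆
        W := by
      intro y hy
      rw [Finset.mem_image] at hy
      obtain ⟨i, hi, rfl⟩ := hy
      rw [Finset.mem_filter, Finset.mem_range] at hi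
      obtain ⟨hiN, e, x, ⟨hex, M, hGM, hM⟩, hstr⟩ := hi
      have hlen : (codeE (r e) e x).length ≤ Nat.log 2 N := by
        rw [← hstr, length_str]
        exact Nat.log_mono_right (by omega)
      rw [Q7.length_codeE] at hlen
      have h1 : 2 ^ (K * (Q7.len K M + 1)) ≤ 2 ^ (r e).eval x.length := by
        apply Nat.pow_le_pow_right (by norm_num)
        refine le_trans ?_ (hr e x.length)
        apply Nat.mul_le_mul_left
        omega
      have h2 := Q7.lt_pow_len hK0 M
      have h3 : M ≤ N := by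
        by_contra hcon
        have h4 : Nat.log 2 N ≤ Nat.log 2 M := Nat.log_mono_right (by omega)
        omega
      rw [hW, Finset.mem_biUnion]
      refine ⟨x.length, ?_, ?_⟩
      · rw [hT, Finset.mem_filter, Finset.mem_range]
        exact ⟨by omega, M, hGM, h3, hM⟩
      · rw [Finset.mem_biUnion]
        refine ⟨e, Finset.mem_range.2 hex, ?_⟩
        rw [Finset.mem_image]
        exact ⟨fun k => x.get k, Finset.mem_univ _, by rw [hstr]; simp⟩
    have hcard : ((Finset.range N).filter (fun i => ∃ e x,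
        (e < x.length ∧ ∃ M, G M ∧ Q7.len K M = x.length) ∧ str i = codeE (r e) e x)).card ≤
        ∑ n ∈ T, n * 2 ^ n := by
      rw [← Finset.card_image_of_injective _ str_injective]
      refine (Finset.card_le_card hsub).trans ?_
      rw [hW]
      refine Finset.card_biUnion_le.trans (Finset.sum_le_sum fun n _ => ?_)
      refine Finset.card_biUnion_le.trans ?_
      calc ∑ e ∈ Finset.range n, ((Finset.univ : Finset (Fin n → Bool)).image
            fun v => codeE (r e) e (List.ofFn v)).card ≤ ∑ e ∈ Finset.range n, 2 ^ n := by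
            apply Finset.sum_le_sum
            intro e _
            refine Finset.card_image_le.trans ?_
            simp
        _ = n * 2 ^ n := by simp
    rcases T.eq_empty_or_nonempty with hTe | hTne
    · rw [hTe, Finset.sum_empty] at hcard
      have h5 : (((Finset.range N).filter (fun i => ∃ e x,
        (e < x.length ∧ ∃ M, G M ∧ Q7.len K M = x.length) ∧ str i = codeE (r e) e x)).card : ℝ) = 0 := by
        exact_mod_cast Nat.le_zero.1 hcard
      rw [h5]
      exact hpos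
    · have hmem := Finset.max'_mem T hTne
      set m := T.max' hTne with hm
      rw [hT, Finset.mem_filter] at hmem
      obtain ⟨_, M, hGM, hMN, hMm⟩ := hmem
      have h6 : ∑ n ∈ T, n * 2 ^ n ≤ 2 * 4 ^ m := by
        refine le_trans ?_ (Q7.sum_le m)
        apply Finset.sum_le_sum_of_subset
        intro n hn
        rw [Finset.mem_range]
        have := Finset.le_max' T n hn
        omega
      have h7 := Q7.four_pow_le (N := M) hK0
      rw [hMm] at h7
      have h8 := hN₁ M hGM.1.2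
      have h9 := hGM.2 N hMN
      have h10 : (((Finset.range N).filter (fun i => ∃ e x,
        (e < x.length ∧ ∃ M, G M ∧ Q7.len K M = x.length) ∧ str i = codeE (r e) e x)).card : ℝ) ≤
          2 * 4 ^ m := by
        exact_mod_cast hcard.trans h6
      linarith

end Pool.Agent.H622R2.Exp
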