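import Pool.Agent.H622R2.Exp.Base
import Pool.Agent.H622R2.Exp.G
import Pool.Agent.H622R2.Exp.A6
import Pool.Agent.H622R2.Exp.C2
import Pool.Agent.H622R2.Exp.Q7
import Pool.Agent.H622R2.Exp.L

/-! Task K3: the set of oracles with `ESPACE` contained in infinitely often `E` is not null. -/

namespace Pool.Agent.H622R2.Exp

open Pool.Agent.NPC Pool.Agent.H620R2.Gauge Finset H568R2

theorem notNullIO {f : ℕ → ℝ} {ε : ℝ} (hε : 0 < ε)
    (hf : ∃ᶠ N : ℕ in Filter.atTop, ∀ N' ≥ N, (Real.logb 2 N) ^ ε < f N') (O : Set Oracle)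
    (hO : ∀ A : Oracle, (∀ L, InSpace Lin A L → IO (InTime Lin A) L) → A ∈ O) :
    ¬ Null f O := by
  obtain ⟨K, hK⟩ := choose_IO hε hf
  obtain ⟨r, hr, hgr, hP⟩ := exists_codingE good_Lin
    (fun e => Polynomial.C (K * (e + 1)) * (Polynomial.X + 1)) (fun e => ⟨K * (e + 1), rfl⟩)
  have hr2 : ∀ e n, K * (n + e + 1) ≤ (r e).eval n := by
    intro e n
    refine le_trans ?_ (hgr e n)
    simp only [Polynomial.eval_mul, Polynomial.eval_C, Polynomial.eval_add, Polynomial.eval_X,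
      Polynomial.eval_one]
    rw [mul_assoc]
    apply Nat.mul_le_mul_left
    nlinarith [Nat.zero_le (e * n)]
  obtain ⟨P, hPe, hPc⟩ := hK r hr2
  obtain ⟨Φ, hΦ1, hΦ2⟩ := hP P
  refine not_null_ev f Φ {y | ∃ e x, P e x.length ∧ y = codeE (r e) e x} ?_ ?_ O ?_
  · intro B y hy
    apply hΦ1
    intro e x hex hyx
    exact hy ⟨e, x, hex, hyx⟩
  · exact hPc
  · intro B
    apply hO
    intro L hL
    obtain ⟨e, he⟩ := hΦ2 B L hL
    refine ⟨{x | Φ B (codeE (r e) e x) = true}, inTime_code good_Lin (Φ B) (hr e) e, ?_⟩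
    refine (hPe e).mono ?_
    rintro n hn x rfl
    exact he x hn

end Pool.Agent.H622R2.Exp
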