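import Pool.Agent.H622R2.Exp.Base
import Pool.Agent.H622R2.Exp.YAux

namespace Pool.Agent.H622R2.Exp

open Filter YAux

/-- the version for infinitely many input lengths -/
theorem asyIO {f : ℕ → ℝ}
    (hf : ∀ ε : ℝ, 0 < ε → ∀ᶠ N : ℕ in Filter.atTop, ∃ N' ≥ N, f N' ≤ (Real.logb 2 N) ^ ε)
    (q : Polynomial ℕ) (hq : q ∈ Lin) (δ : ℝ) (hδ : 0 < δ) (n₀ : ℕ) :
    ∃ (n₁ : ℕ) (N : ℕ → ℕ), n₀ ≤ n₁ ∧ ∀ n ≥ n₁, 2 ^ 2 ^ q.eval n ≤ N n ∧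
      3 * (11 / 12) ^ 2 ^ n * 2 ^ f (N n) ≤ δ / 2 ^ (n + 1) := by
  obtain ⟨c, rfl⟩ := hq
  have hcpos : (0:ℝ) < (c:ℝ) + 1 := by positivity
  obtain ⟨n₂, hn₂⟩ := (ev_det δ hδ).exists_forall_of_atTop
  obtain ⟨N₀, hN₀⟩ := (hf (1 / (4 * ((c:ℝ) + 1))) (by positivity)).exists_forall_of_atTop
  have hM : ∀ n : ℕ, N₀ ≤ n → ∃ N' : ℕ, 2 ^ 2 ^ ((c + 1) * (n + 1)) ≤ N' ∧
      f N' ≤ (2:ℝ) ^ (((n:ℝ) + 1) / 4) := by
    intro n hn
    have h1 : N₀ ≤ 2 ^ 2 ^ ((c + 1) * (n + 1)) := by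
      calc N₀ ≤ n := hn
        _ ≤ (c + 1) * (n + 1) := by nlinarith
        _ ≤ 2 ^ ((c + 1) * (n + 1)) := Nat.lt_two_pow_self.le
        _ ≤ 2 ^ 2 ^ ((c + 1) * (n + 1)) := Nat.lt_two_pow_self.le
    obtain ⟨N', hN', h2⟩ := hN₀ _ h1
    refine ⟨N', hN', h2.trans (le_of_eq ?_)⟩
    have h3 : Real.logb 2 ((2 ^ 2 ^ ((c + 1) * (n + 1)) : ℕ) : ℝ) =
        (2:ℝ) ^ (((c:ℝ) + 1) * ((n:ℝ) + 1)) := by
      push_cast
      rw [Real.logb_pow, Real.logb_self_eq_one (by norm_num), mul_one]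
      push_cast
      rw [← Real.rpow_natCast]
      push_cast
      rfl
    rw [h3, ← Real.rpow_mul (by norm_num)]
    congr 1
    field_simp
  choose! N hN1 hN2 using hM
  refine ⟨max (max n₀ n₂) (max N₀ 1), N, (le_max_left _ _).trans (le_max_left _ _), ?_⟩
  intro n hn
  have hn2 : n₂ ≤ n := (le_max_right n₀ n₂).trans ((le_max_left _ _).trans hn)
  have hnN : N₀ ≤ n := (le_max_left N₀ 1).trans ((le_max_right _ _).trans hn)
  have hn1 : 1 ≤ n := (le_max_right N₀ 1).trans ((le_max_right _ _).trans hn)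
  refine ⟨?_, ?_⟩
  · rw [eval_lin]
    refine le_trans (Nat.pow_le_pow_right (by norm_num) (Nat.pow_le_pow_right (by norm_num) ?_))
      (hN1 n hnN)
    exact Nat.mul_le_mul_right _ (by omega)
  · have h1 := hn₂ n hn2
    rw [le_div_iff₀ (by positivity)]
    refine le_trans (le_of_eq ?_) (le_trans
      (mul_le_mul_of_nonneg_left (Real.rpow_le_rpow_of_exponent_le (by norm_num : (1:ℝ) ≤ 2)
        (show f (N n) + ((n:ℝ) + 1) ≤ (2 : ℝ) ^ ((n : ℝ) / 2) + ((n : ℝ) + 1) from ?_))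
        (by positivity : (0:ℝ) ≤ 3 * (11 / 12 : ℝ) ^ 2 ^ n)) h1)
    · rw [Real.rpow_add (by norm_num)]
      have : (2:ℝ) ^ ((n:ℝ) + 1) = 2 ^ (n + 1) := by
        rw [← Real.rpow_natCast]; push_cast; rfl
      rw [this]; ring
    · have h2 := hN2 n hnN
      have h3 : (2:ℝ) ^ (((n:ℝ) + 1) / 4) ≤ (2:ℝ) ^ ((n:ℝ) / 2) := by
        apply Real.rpow_le_rpow_of_exponent_le (by norm_num)
        have : (1:ℝ) ≤ n := by exact_mod_cast hn1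
        linarith
      linarith

end Pool.Agent.H622R2.Exp
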