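import Pool.Agent.H622R2.Exp.Base
import Pool.Agent.H622R2.Exp.G
import Pool.Agent.H622R2.Exp.Y4
import Pool.Agent.H622R2.Exp.E3
import Pool.Agent.H622R2.Exp.F3
import Pool.Agent.H620R2.Gauge2.Null
import Pool.Agent.H620R2.Gauge.A1

/-! Task N3: infinitely many input lengths. -/

namespace Pool.Agent.H622R2.Exp

open Pool.Agent.NPC Pool.Agent.H620R2.Gauge Finset H568R2

namespace N3

/-- the oracles for which the machine `θ` decides the parity language at infinitely many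
lengths -/
def EasyIO (θ : Alg × {q : Polynomial ℕ // q ∈ Lin} × ℕ) : Set Oracle :=
  {A | ∃ V : List Bool → List Bool, (∀ x, θ.1.out A x = some (V x)) ∧
    ∃ᶠ n : ℕ in Filter.atTop, ∀ x : List Bool, x.length = n →
      (x ∈ par2 A ↔ Quant (2 ^ θ.2.1.1.eval x.length) V θ.2.2 true x)}

end N3

open N3

theorem nullIO {f : ℕ → ℝ}
    (hf : ∀ ε : ℝ, 0 < ε → ∀ᶠ N : ℕ in Filter.atTop, ∃ N' ≥ N, f N' ≤ (Real.logb 2 N) ^ ε) :
    Null f {A | IO (InAlt Lin A) (par2 A)} := by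
  have hcP : Countable (Polynomial ℕ) := by
    have : Function.Injective (fun p : Polynomial ℕ => (p.toFinsupp.coeff : ℕ →₀ ℕ)) := by
      intro p q h
      ext n
      exact DFunLike.congr_fun h n
    exact this.countable
  refine (null_iUnion (f := f) EasyIO fun θ => ?_).mono fun A hA => ?_
  · obtain ⟨r, hr, hr2, hev⟩ := evP_of good_Lin θ.1 θ.2.1.2 θ.2.2
    obtain ⟨n₀, hb⟩ := evP_bound θ.1 θ.2.1.1 θ.2.2
    intro δ hδ
    obtain ⟨n₁, N, hn₀₁, hN⟩ := asyIO hf r hr δ hδ n₀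
    have hcov : ∀ n : ℕ, ∃ S : Set (List Bool), n₁ ≤ n →
        (∀ A ∈ {A : Oracle | EvP θ.1 θ.2.1.1 θ.2.2 n (N n) (pre (N n) A)}, ∃ σ ∈ S,
          Extends A σ) ∧
        ∑' σ : S, ENNReal.ofReal (2 ^ (f σ.1.length - σ.1.length)) ≤
          ENNReal.ofReal (δ / 2 ^ (n + 1)) := by
      intro n
      by_cases hn : n₁ ≤ n
      · classical
        have hN1 := (hN n hn).1
        have hb' := hb n (hn₀₁.trans hn) (N n)
          ((Nat.pow_le_pow_right (by norm_num) (hr2 n)).trans hN1)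
        obtain ⟨S, hS, hs⟩ := cover_of_event (EvP θ.1 θ.2.1.1 θ.2.2 n (N n))
          {A : Oracle | EvP θ.1 θ.2.1.1 θ.2.2 n (N n) (pre (N n) A)} (fun A hA => hA) f
          (δ / 2 ^ (n + 1))
          ((mul_le_mul_of_nonneg_right hb' (by positivity)).trans (hN n hn).2)
        exact ⟨S, fun _ => ⟨hS, hs⟩⟩
      · exact ⟨∅, fun h => absurd h hn⟩
    choose S hS using hcov
    refine ⟨⋃ k : ℕ, S (n₁ + k), ?_, ?_⟩
    · rintro A ⟨V, hV, hfreq⟩
      obtain ⟨n, hn, hE⟩ := Filter.frequently_atTop.1 hfreq n₁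
      have hE' := hev A V hV n hE (N n) (hN n hn).1
      obtain ⟨σ, hσ, hE''⟩ := (hS n hn).1 A hE'
      refine ⟨σ, Set.mem_iUnion.2 ⟨n - n₁, ?_⟩, hE''⟩
      rw [Nat.add_sub_cancel' hn]
      exact hσ
    · refine (ENNReal.tsum_iUnion_le_tsum (fun σ : List Bool =>
        ENNReal.ofReal (2 ^ (f σ.length - σ.length))) (fun k => S (n₁ + k))).trans ?_
      refine (ENNReal.tsum_le_tsum fun k => (hS (n₁ + k) (Nat.le_add_right _ _)).2).trans ?_
      have hterm : ∀ k : ℕ, δ / 2 ^ (n₁ + k + 1) = (δ / 2 ^ (n₁ + 1)) * (1 / 2) ^ k := by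
        intro k
        rw [show n₁ + k + 1 = (n₁ + 1) + k by ring, pow_add, one_div, inv_pow]
        field_simp
      have hsum : Summable (fun k : ℕ => δ / 2 ^ (n₁ + k + 1)) := by
        simp only [hterm]
        exact summable_geometric_two.mul_left _
      rw [← ENNReal.ofReal_tsum_of_nonneg (fun k => by positivity) hsum]
      apply ENNReal.ofReal_le_ofReal
      simp only [hterm]
      rw [tsum_mul_left, tsum_geometric_two]
      have h1 : (1 : ℝ) ≤ 2 ^ n₁ := one_le_pow₀ (by norm_num)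
      have h2 : δ / 2 ^ (n₁ + 1) * 2 = δ / 2 ^ n₁ := by
        rw [pow_succ]; field_simp
      rw [h2]
      exact div_le_self hδ.le h1
  · obtain ⟨L', ⟨V, ⟨M, hM⟩, q, hq, k, hL'⟩, hfreq⟩ := hA
    refine Set.mem_iUnion.2 ⟨(M, ⟨q, hq⟩, k), V, hM, ?_⟩
    exact hfreq.mono fun n hn x hx => (hn x hx).trans (hL' x)

end Pool.Agent.H622R2.Exp
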