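import Pool.Agent.H620R2.Gauge2.Null
import Pool.Agent.H622R2.Exp.G
import Pool.Agent.H622R2.Exp.A2
import Pool.Agent.H622R2.Exp.B
import Pool.Agent.H622R2.Exp.N3
import Pool.Agent.H622R2.Exp.K3

/-! `E` versus `ESPACE` for infinitely many input lengths -/

namespace Pool.Agent.H622R2.Exp

open Pool.Agent.NPC Pool.Agent.H620R2.Gauge Filter

theorem resIO (f : ℕ → ℝ) :
    (∀ O : Set Oracle,
      (∀ A : Oracle, (∀ L, InSpace Lin A L → IO (InTime Lin A) L) → A ∈ O) →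
      (∀ A ∈ O, ∀ L, InSpace Lin A L → IO (InAlt Lin A) L) →
      (Null f O ↔
        ∀ ε : ℝ, 0 < ε → ∀ᶠ N : ℕ in atTop, ∃ N' ≥ N, f N' ≤ (Real.logb 2 N) ^ ε)) ∧
    (Null f {A : Oracle | ∀ L, InSpace Lin A L → IO (InTime Lin A) L} ↔
      ∀ ε : ℝ, 0 < ε → ∀ᶠ N : ℕ in atTop, ∃ N' ≥ N, f N' ≤ (Real.logb 2 N) ^ ε) := by
  have key : ∀ O : Set Oracle,
      (∀ A : Oracle, (∀ L, InSpace Lin A L → IO (InTime Lin A) L) → A ∈ O) →
      (∀ A ∈ O, ∀ L, InSpace Lin A L → IO (InAlt Lin A) L) →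
      (Null f O ↔
        ∀ ε : ℝ, 0 < ε → ∀ᶠ N : ℕ in atTop, ∃ N' ≥ N, f N' ≤ (Real.logb 2 N) ^ ε) := by
    intro O h1 h2
    constructor
    · intro hn ε hε
      by_contra hcon
      rw [not_eventually] at hcon
      refine notNullIO hε (hcon.mono fun N h => ?_) O h1 hn
      push Not at h
      exact h
    · intro hf
      exact (nullIO hf).mono fun A hA => h2 A hA _ (par2_space good_Lin A)
  refine ⟨key, key _ (fun A hA => hA) ?_⟩
  intro A hA L hL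
  obtain ⟨L', h1, h2⟩ := hA L hL
  exact ⟨L', h1.isNTime.isAlt, h2⟩

end Pool.Agent.H622R2.Exp
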