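import Pool.Agent.H622R2.Exp.Base
import Pool.Agent.H620R2.Gauge.S
import Pool.Agent.NPC.Num

/-!
# Task M2: the census verifier is correct
-/

namespace Pool.Agent.H622R2.Exp

open Pool.Agent.NPC Pool.Agent.H620R2.Gauge

namespace M2

theorem valB_testBit : ∀ (b c : ℕ), c < 2 ^ b →
    valB ((List.range b).map fun i => c.testBit i) = c := by
  intro b
  induction b with
  | zero =>
    intro c hc
    simp at hc
    simp [hc]
  | succ b ih =>
    intro c hc
    rw [List.range_succ_eq_map, List.map_cons, List.map_map, valB_cons]
    have h1 : ((fun i => c.testBit i) ∘ Nat.succ) = fun i => (c / 2).testBit i := by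
      funext i
      simp [Nat.testBit_succ]
    rw [h1, ih (c / 2) (by rw [pow_succ] at hc; omega)]
    rw [Nat.testBit_zero]
    by_cases h : c % 2 = 1
    · simp only [h, decide_true, if_true]; omega
    · simp only [h, decide_false, Bool.false_eq_true, if_false]; omega

open Classical in
theorem filter_isSome_card {β : Type} (l : List (Option β)) :
    (l.filter Option.isSome).length =
      ((Finset.range l.length).filter fun i => ∃ w, l[i]? = some (some w)).card := by
  induction l using List.reverseRecOn with
  | nil => simp
  | append_singleton l a ih =>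
    rw [List.filter_append, List.length_append, ih, List.length_append, List.length_singleton,
      Finset.range_add_one, Finset.filter_insert]
    have h1 : (Finset.range l.length).filter (fun i => ∃ w, (l ++ [a])[i]? = some (some w)) =
        (Finset.range l.length).filter (fun i => ∃ w, l[i]? = some (some w)) := by
      refine Finset.filter_congr fun i hi => ?_
      rw [Finset.mem_range] at hi
      rw [List.getElem?_append_left hi]
    rw [h1]
    have h2 : (l ++ [a])[l.length]? = some a := by simp
    rw [h2]
    cases a with
    | none => simp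
    | some w =>
      rw [if_pos ⟨w, rfl⟩, Finset.card_insert_of_notMem (by simp)]
      simp

theorem length_str_le {s i : ℕ} (hi : i + 1 < 2 ^ (s + 1)) : (str i).length ≤ s := by
  rw [length_str]
  have := Nat.log_lt_of_lt_pow (b := 2) (x := s + 1) (y := i + 1) (by omega) hi
  omega

theorem finite_le (L : Set (List Bool)) (s : ℕ) : {y : List Bool | y ∈ L ∧ y.length ≤ s}.Finite :=
  (List.finite_length_le Bool s).subset fun _ h => h.2

open Classical in
theorem cens_eq (L : Set (List Bool)) (s : ℕ) :
    cens L s = ((Finset.range (2 ^ (s + 1) - 1)).filter fun i => str i ∈ L).card := by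
  unfold cens
  have h1 : {y : List Bool | y ∈ L ∧ y.length ≤ s} =
      ↑(((Finset.range (2 ^ (s + 1) - 1)).filter fun i => str i ∈ L).image str) := by
    ext y
    simp only [Set.mem_ofPred_eq, Finset.coe_image, Finset.coe_filter, Finset.mem_range,
      Set.mem_image]
    constructor
    · rintro ⟨hy, hl⟩
      refine ⟨idx y, ⟨?_, by rw [str_idx]; exact hy⟩, str_idx y⟩
      have h2 := idx_lt y
      have h3 : 2 ^ (y.length + 1) ≤ 2 ^ (s + 1) := Nat.pow_le_pow_right (by norm_num) (by omega)
      omega
    · rintro ⟨i, ⟨hi, hL⟩, rfl⟩
      exact ⟨hL, length_str_le (by omega)⟩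
  rw [h1, Set.ncard_coe_finset, Finset.card_image_of_injective _ str_injective]

end M2

open M2 in
theorem ver_correct {A : Oracle} {L : Set (List Bool)} {V : List Bool → List Bool}
    {q : Polynomial ℕ} (hL : ∀ x : List Bool,
      (x ∈ L ↔ ∃ w : List Bool, w.length ≤ 2 ^ q.eval x.length ∧ V (pairBits w x) = [true]))
    (e : ℕ) (r : Polynomial ℕ) (sc β κ : ℕ → ℕ) (x : List Bool)
    (hle : x.length ≤ sc (κ x.length))
    (hcen : cens L (sc (κ x.length)) < 2 ^ β (κ x.length))
    (hA : ∀ i < β (κ x.length), (A (codeC r sc e (κ x.length) i) = true ↔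
      (cens L (sc (κ x.length))).testBit i = true)) :
    (x ∈ Lᶜ → ∃ w : List Bool, w.length ≤ 2 ^ (sc (κ x.length) + 1) *
        (8 * 2 ^ q.eval (sc (κ x.length)) + 8) + 8 * 2 ^ r.eval (sc (κ x.length)) + 8 ∧
      Ver A V q r e sc β κ (pairBits w x) = [true]) ∧
    ∀ w : List Bool, Ver A V q r e sc β κ (pairBits w x) = [true] → x ∈ Lᶜ := by
  classical
  set s := sc (κ x.length) with hs
  set pd : List Bool := List.replicate (2 ^ r.eval s) true with hpd
  -- the census number in the oracle
  have hval : valB ((cqs e (κ x.length) (β (κ x.length)) pd).map A) = cens L s := by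
    rw [← valB_testBit _ _ hcen]
    congr 1
    unfold cqs
    rw [List.map_map]
    refine List.map_congr_left fun i hi => ?_
    rw [List.mem_range] at hi
    have h1 := hA i hi
    change A (codeC r sc e (κ x.length) i) = _
    rw [Bool.eq_iff_iff]
    exact h1
  -- when the verifier accepts
  have hVer : ∀ w, Ver A V q r e sc β κ (pairBits w x) = [true] ↔
      ∃ d : Dat, unbits Dat w = some d ∧ (d.2 = pd ∧
      (∀ (i : ℕ) (w : List Bool), d.1[i]? = some (some w) →
        (str i).length ≤ s ∧ w.length ≤ 2 ^ q.eval (str i).length ∧
        V (pairBits w (str i)) = [true]) ∧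
      (d.1[idx x]?).join = none ∧
      valB ((cqs e (κ x.length) (β (κ x.length)) d.2).map A) =
        (d.1.filter Option.isSome).length) := by
    intro w
    unfold Ver
    rw [unpair_pairBits]
    dsimp only
    rcases unbits Dat w with _ | d
    · simp
    · dsimp only
      split_ifs with h
      · refine ⟨fun _ => ⟨d, rfl, h⟩, fun _ => rfl⟩
      · refine ⟨fun h' => by simp at h', ?_⟩
        rintro ⟨d', h1, h2⟩
        rw [Option.some.injEq] at h1
        subst h1
        exact absurd h2 h
  constructor
  · intro hx
    -- the certificates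
    have hch : ∀ i : ℕ, ∃ o : Option (List Bool), (str i ∈ L → ∃ w, o = some w ∧
        w.length ≤ 2 ^ q.eval (str i).length ∧ V (pairBits w (str i)) = [true]) ∧
        (str i ∉ L → o = none) := by
      intro i
      by_cases h : str i ∈ L
      · obtain ⟨w, h1, h2⟩ := (hL (str i)).1 h
        exact ⟨some w, fun _ => ⟨w, rfl, h1, h2⟩, fun h' => absurd h h'⟩
      · exact ⟨none, fun h' => absurd h' h, fun _ => rfl⟩
    choose o ho1 ho2 using hch
    set n := 2 ^ (s + 1) - 1 with hn
    have hn1 : 1 ≤ 2 ^ (s + 1) := Nat.one_le_two_pow
    have hget : ∀ i, ((List.range n).map o)[i]? = if i < n then some (o i) else none := by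
      intro i
      rw [List.getElem?_map]
      by_cases h : i < n
      · rw [List.getElem?_range h, if_pos h]; rfl
      · rw [if_neg h, List.getElem?_eq_none (by simpa using h)]; rfl
    refine ⟨bits (((List.range n).map o, pd) : Dat), ?_, ?_⟩
    · rw [bits_length, sz_pair]
      have h1 : sz ((List.range n).map o) ≤ ((List.range n).map o).length *
          ((4 * 2 ^ q.eval s + 3) + 1) + 1 := by
        refine sz_le_length_mul _ _ fun a ha => ?_
        rw [List.mem_map] at ha
        obtain ⟨i, hi, rfl⟩ := ha
        rw [List.mem_range] at hi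
        by_cases h : str i ∈ L
        · obtain ⟨w, h1, h2, _⟩ := ho1 i h
          rw [h1, sz_some]
          have h3 := sz_listBool_le w
          have h4 : q.eval (str i).length ≤ q.eval s :=
            eval_mono _ (length_str_le (by omega))
          have h5 : 2 ^ q.eval (str i).length ≤ 2 ^ q.eval s :=
            Nat.pow_le_pow_right (by norm_num) h4
          omega
        · rw [ho2 i h, sz_none]; omega
      have h2 := sz_listBool_le pd
      rw [hpd, List.length_replicate, ← hpd] at h2
      rw [List.length_map, List.length_range] at h1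
      have h3 : n * ((4 * 2 ^ q.eval s + 3) + 1) ≤ 2 ^ (s + 1) * (8 * 2 ^ q.eval s + 8) :=
        Nat.mul_le_mul (by omega) (by omega)
      omega
    · rw [hVer]
      refine ⟨_, unbits_bits _, rfl, ?_, ?_, ?_⟩
      · intro i w hi
        change ((List.range n).map o)[i]? = _ at hi
        rw [hget] at hi
        split_ifs at hi with h
        rw [Option.some.injEq] at hi
        by_cases h' : str i ∈ L
        · obtain ⟨w', h1, h2, h3⟩ := ho1 i h'
          rw [h1, Option.some.injEq] at hi
          subst hi
          exact ⟨length_str_le (by omega), h2, h3⟩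
        · rw [ho2 i h'] at hi
          cases hi
      · change (((List.range n).map o)[idx x]?).join = none
        rw [hget]
        have h1 : o (idx x) = none := ho2 _ (by rw [str_idx]; exact hx)
        rw [h1]
        split_ifs <;> rfl
      · change valB ((cqs e (κ x.length) (β (κ x.length)) pd).map A) =
          (((List.range n).map o).filter Option.isSome).length
        rw [hval, cens_eq, filter_isSome_card, List.length_map, List.length_range]
        congr 1
        refine Finset.filter_congr fun i hi => ?_
        rw [Finset.mem_range] at hi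
        rw [hget, if_pos hi]
        constructor
        · intro h
          obtain ⟨w, h1, _⟩ := ho1 i h
          exact ⟨w, by rw [h1]⟩
        · rintro ⟨w, hw⟩
          by_contra h
          rw [ho2 i h] at hw
          simp at hw
  · intro w hw hx
    obtain ⟨d, _, h1, h2, h3, h4⟩ := (hVer w).1 hw
    rw [h1, hval, filter_isSome_card] at h4
    -- the indices of the certificates
    set I := (Finset.range d.1.length).filter (fun i => ∃ w, d.1[i]? = some (some w)) with hI
    have hsub : (I.image str : Set (List Bool)) ⊆ {y | y ∈ L ∧ y.length ≤ s} := by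
      intro y hy
      rw [Finset.coe_image] at hy
      obtain ⟨i, hi, rfl⟩ := hy
      rw [Finset.mem_coe, hI, Finset.mem_filter] at hi
      obtain ⟨_, w', hw'⟩ := hi
      obtain ⟨a1, a2, a3⟩ := h2 i w' hw'
      exact ⟨(hL _).2 ⟨w', a2, a3⟩, a1⟩
    have heq : (I.image str : Set (List Bool)) = {y | y ∈ L ∧ y.length ≤ s} := by
      refine Set.eq_of_subset_of_ncard_le hsub ?_ (finite_le L s)
      have h5 : Set.ncard {y : List Bool | y ∈ L ∧ y.length ≤ s} = cens L s := rfl
      rw [h5, Set.ncard_coe_finset, Finset.card_image_of_injective _ str_injective, ← h4]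
    have hmem : x ∈ (I.image str : Set (List Bool)) := by
      rw [heq]
      exact ⟨hx, hle⟩
    rw [Finset.coe_image] at hmem
    obtain ⟨i, hi, hix⟩ := hmem
    rw [Finset.mem_coe, hI, Finset.mem_filter] at hi
    obtain ⟨_, w', hw'⟩ := hi
    rw [← hix, idx_str, hw'] at h3
    simp at h3

end Pool.Agent.H622R2.Exp
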