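import Pool.Agent.H622R2.Exp.M1
import Pool.Agent.H622R2.Exp.M2

/-! The complement of a language in nondeterministic exponential time, from census numbers. -/

namespace Pool.Agent.H622R2.Exp

open Pool.Agent.NPC Pool.Agent.H620R2.Gauge Finset H568R2

theorem compl_of_census {E : Set (Polynomial ℕ)} {A : Oracle} {L : Set (List Bool)}
    {V : List Bool → List Bool} (hV : IsFP A V) {q : Polynomial ℕ}
    (hL : ∀ x : List Bool,
      (x ∈ L ↔ ∃ w : List Bool, w.length ≤ 2 ^ q.eval x.length ∧ V (pairBits w x) = [true]))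
    (e : ℕ) (r r' : Polynomial ℕ) (hr' : r' ∈ E) (sc β κ : ℕ → ℕ)
    (hκ : UPoly (fun x : List Bool => κ x.length))
    (hsc : UPoly (fun x : List Bool => sc (κ x.length)))
    (hβ : UPoly (fun x : List Bool => β (κ x.length)))
    (hle : ∀ n, n ≤ sc (κ n))
    (hlen : ∀ n, 2 ^ (sc (κ n) + 1) * (8 * 2 ^ q.eval (sc (κ n)) + 8) +
      8 * 2 ^ r.eval (sc (κ n)) + 8 ≤ 2 ^ r'.eval n)
    (hcen : ∀ n, cens L (sc (κ n)) < 2 ^ β (κ n))
    (hA : ∀ k, ∀ i < β k, (A (codeC r sc e k i) = true ↔ (cens L (sc k)).testBit i = true)) :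
    InNTime E A Lᶜ := by
  refine ⟨Ver A V q r e sc β κ, ver_isFP hV q r e sc β κ hκ hsc hβ, r', hr', fun x => ?_⟩
  obtain ⟨h1, h2⟩ := ver_correct hL e r sc β κ x (hle _) (hcen _) (fun i hi => hA _ i hi)
  constructor
  · intro hx
    obtain ⟨w, hw, hv⟩ := h1 hx
    exact ⟨w, hw.trans (hlen _), hv⟩
  · rintro ⟨w, _, hv⟩
    exact h2 w hv

end Pool.Agent.H622R2.Exp
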