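import Pool.Agent.H622R2.Exp.Base
import Pool.Agent.H620R2.Gauge.S

/-!
# Task Q3: counting the census codes
-/

namespace Pool.Agent.H622R2.Exp

open Pool.Agent.NPC Pool.Agent.H620R2.Gauge Finset H568R2

theorem Q3.length_codeC (r : Polynomial ℕ) (sc : ℕ → ℕ) (e k j : ℕ) :
    e < (codeC r sc e k j).length ∧ k < (codeC r sc e k j).length ∧
      2 ^ r.eval (sc k) < (codeC r sc e k j).length := by
  simp only [codeC, List.length_append, List.length_cons, List.length_replicate]
  have h0 : 0 < 2 ^ r.eval (sc k) := by positivity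
  omega

open Classical in
theorem countC_le (d : ℕ → ℕ) (r : ℕ → Polynomial ℕ) (sc : ℕ → ℕ) (β : ℕ → ℕ → ℕ) (N : ℕ) :
    ((Finset.range N).filter (fun i => ∃ e k j, j < β (d e) k ∧
      str i = codeC (r e) sc e k j)).card ≤
    ∑ e ∈ Finset.range (Nat.log 2 N + 1), ∑ k ∈ (Finset.range (Nat.log 2 N + 1)).filter
      (fun k => 2 ^ (r e).eval (sc k) ≤ Nat.log 2 N), β (d e) k := by
  have hsub : (Finset.range N).filter (fun i => ∃ e k j, j < β (d e) k ∧
      str i = codeC (r e) sc e k j) ⊆
      (Finset.range (Nat.log 2 N + 1)).biUnion (fun e =>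
        ((Finset.range (Nat.log 2 N + 1)).filter
          (fun k => 2 ^ (r e).eval (sc k) ≤ Nat.log 2 N)).biUnion (fun k =>
            (Finset.range (β (d e) k)).image (fun j => idx (codeC (r e) sc e k j)))) := by
    intro i hi
    rw [Finset.mem_filter, Finset.mem_range] at hi
    obtain ⟨hiN, e, k, j, hj, hs⟩ := hi
    have h1 := Q3.length_codeC (r e) sc e k j
    rw [← hs, length_str] at h1
    have h4 : Nat.log 2 (i + 1) ≤ Nat.log 2 N := Nat.log_mono_right (by omega)
    rw [Finset.mem_biUnion]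
    refine ⟨e, Finset.mem_range.2 (by omega), ?_⟩
    rw [Finset.mem_biUnion]
    refine ⟨k, Finset.mem_filter.2 ⟨Finset.mem_range.2 (by omega), by omega⟩, ?_⟩
    rw [Finset.mem_image]
    exact ⟨j, Finset.mem_range.2 hj, by rw [← hs, idx_str]⟩
  refine (Finset.card_le_card hsub).trans (Finset.card_biUnion_le.trans
    (Finset.sum_le_sum fun e _ => Finset.card_biUnion_le.trans
      (Finset.sum_le_sum fun k _ => Finset.card_image_le.trans (by simp))))

end Pool.Agent.H622R2.Exp
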