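import Pool.Agent.H622R2.Exp.Q2

/-!
# Task Q4: the number of the census digits, linear exponents
-/

namespace Pool.Agent.H622R2.Exp

open Pool.Agent.NPC Pool.Agent.H620R2.Gauge Finset H568R2

theorem Q4.geo_range (k₀ : ℕ) : ∑ k ∈ Finset.range (k₀ + 1), (2 ^ k + 1) ≤ 3 * (2 ^ k₀ + 1) := by
  induction k₀ with
  | zero => simp
  | succ k ih =>
    rw [Finset.sum_range_succ]
    have : 1 ≤ 2 ^ k := Nat.one_le_two_pow
    rw [pow_succ]
    omega

theorem Q4.geo (S : Finset ℕ) (B : ℝ) (hB : 0 ≤ B) (h : ∀ k ∈ S, ((2 : ℝ) ^ k + 1) ≤ B) :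
    ((∑ k ∈ S, (2 ^ k + 1) : ℕ) : ℝ) ≤ 3 * B := by
  rcases S.eq_empty_or_nonempty with hS | hS
  · subst hS
    simpa using hB
  · have h1 : S ⊆ Finset.range (S.max' hS + 1) := by
      intro k hk
      rw [Finset.mem_range]
      have := Finset.le_max' S k hk
      omega
    have h2 : ∑ k ∈ S, (2 ^ k + 1) ≤ 3 * (2 ^ (S.max' hS) + 1) :=
      (Finset.sum_le_sum_of_subset h1).trans (Q4.geo_range _)
    have h3 := h _ (Finset.max'_mem S hS)
    have h4 : ((∑ k ∈ S, (2 ^ k + 1) : ℕ) : ℝ) ≤ 3 * ((2 : ℝ) ^ (S.max' hS) + 1) := by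
      exact_mod_cast h2
    linarith

theorem Q4.geo4 (n : ℕ) : ∑ e ∈ Finset.range n, (1 / 4 : ℝ) ^ e ≤ 4 / 3 := by
  have h : ∑ e ∈ Finset.range n, (1 / 4 : ℝ) ^ e = 4 / 3 * (1 - (1 / 4) ^ n) := by
    induction n with
    | zero => simp
    | succ n ih =>
      rw [Finset.sum_range_succ, ih, pow_succ]
      ring
  rw [h]
  have : (0 : ℝ) ≤ (1 / 4) ^ n := by positivity
  linarith

theorem sumC_Lin {ε : ℝ} (hε : 0 < ε) : ∃ K : ℕ, ∀ r : ℕ → Polynomial ℕ,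
    (∀ e n, K * 4 ^ e * (n + 1) ≤ (r e).eval n) →
    ∀ᶠ N : ℕ in Filter.atTop, ((∑ e ∈ Finset.range (Nat.log 2 N + 1),
      ∑ k ∈ (Finset.range (Nat.log 2 N + 1)).filter
        (fun k => 2 ^ (r e).eval (2 ^ k) ≤ Nat.log 2 N), (2 ^ k + 1) : ℕ) : ℝ) ≤
      ε * Real.logb 2 (Real.logb 2 N) := by
  obtain ⟨K, hK⟩ := exists_nat_gt (4 / ε)
  have hK' : 4 < ε * K := by
    rw [div_lt_iff₀ hε] at hK
    linarith [mul_comm (K : ℝ) ε]
  have hK1 : 1 ≤ K := by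
    rcases Nat.eq_zero_or_pos K with h | h
    · subst h; simp at hK'; linarith
    · exact h
  have hK0 : (0 : ℝ) < K := by exact_mod_cast hK1
  refine ⟨K, fun r hr => ?_⟩
  filter_upwards [Q2.tendsto_logb2.eventually_ge_atTop 1, Filter.eventually_ge_atTop 2]
    with N hl1 hN
  set l := Real.logb 2 (Real.logb 2 N) with hl
  set m := Nat.log 2 N with hm
  have hl0 : 0 < l := by linarith
  have hlm : (Nat.log 2 m : ℝ) ≤ l := Q2.natlog2_le N hN
  have h1 : ∀ e : ℕ, ((∑ k ∈ (Finset.range (m + 1)).filter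
      (fun k => 2 ^ (r e).eval (2 ^ k) ≤ m), (2 ^ k + 1) : ℕ) : ℝ) ≤
      3 * l / K * (1 / 4) ^ e := by
    intro e
    have h4 : (0 : ℝ) < 4 ^ e := by positivity
    have h2 := Q4.geo ((Finset.range (m + 1)).filter
      (fun k => 2 ^ (r e).eval (2 ^ k) ≤ m)) (l / (K * 4 ^ e)) (by positivity) (by
        intro k hk
        rw [Finset.mem_filter] at hk
        have h5 : (r e).eval (2 ^ k) ≤ Nat.log 2 m := Nat.le_log_of_pow_le (by norm_num) hk.2
        have h6 : K * 4 ^ e * (2 ^ k + 1) ≤ Nat.log 2 m := (hr e (2 ^ k)).trans h5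
        have h7 : (K : ℝ) * 4 ^ e * (2 ^ k + 1) ≤ Nat.log 2 m := by exact_mod_cast h6
        rw [le_div_iff₀ (by positivity)]
        linarith)
    have h3 : 3 * (l / (K * 4 ^ e)) = 3 * l / K * (1 / 4) ^ e := by
      rw [one_div, inv_pow]
      field_simp
    rw [h3] at h2
    exact h2
  rw [Nat.cast_sum]
  calc ∑ e ∈ Finset.range (m + 1), ((∑ k ∈ (Finset.range (m + 1)).filter
        (fun k => 2 ^ (r e).eval (2 ^ k) ≤ m), (2 ^ k + 1) : ℕ) : ℝ)
      ≤ ∑ e ∈ Finset.range (m + 1), 3 * l / K * (1 / 4) ^ e :=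
        Finset.sum_le_sum fun e _ => h1 e
    _ = 3 * l / K * ∑ e ∈ Finset.range (m + 1), (1 / 4) ^ e := by rw [Finset.mul_sum]
    _ ≤ 3 * l / K * (4 / 3) := mul_le_mul_of_nonneg_left (Q4.geo4 _) (by positivity)
    _ = 4 * l / K := by ring
    _ ≤ ε * l := by
        rw [div_le_iff₀ hK0]
        nlinarith

end Pool.Agent.H622R2.Exp
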