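import Pool.Agent.H622R2.Exp.F2
import Pool.Agent.H622R2.Exp.E2
import Pool.Agent.H620R2.Gauge2.Null

/-! Task N4 (helper332): the set of the oracles for which the complement of the test language is in
nondeterministic time is null. -/

namespace Pool.Agent.H622R2.Exp

open Pool.Agent.NPC Pool.Agent.H620R2.Gauge Finset H568R2

namespace N4

/-- the oracles for which the parameters are good -/
def XC (E : Set (Polynomial ℕ)) (θ : Alg × E) : Set Oracle :=
  {A | ∀ x : List Bool, (x ∈ (hit2 A)ᶜ ↔ ∃ w : List Bool,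
    w.length ≤ 2 ^ (θ.2 : Polynomial ℕ).eval x.length ∧ θ.1.out A (pairBits w x) = some [true])}

theorem countable_poly : Countable (Polynomial ℕ) := by
  have : Function.Injective (fun p : Polynomial ℕ => (p.toFinsupp.coeff : ℕ →₀ ℕ)) := by
    intro p q h
    ext n
    exact DFunLike.congr_fun h n
  exact this.countable

theorem sq_le {s : ℕ} (hs : 2 ≤ s) : 50 * s ^ 2 ≤ 16 ^ s := by
  induction s, hs using Nat.le_induction with
  | base => norm_num
  | succ s hs ih =>
    have h1 : 16 ^ (s + 1) = 16 * 16 ^ s := by rw [pow_succ]; ring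
    have h2 : 50 * (s + 1) ^ 2 ≤ 16 * (50 * s ^ 2) := by nlinarith
    rw [h1]
    omega

theorem size_le {n : ℕ} (hn : 16 ≤ n) : 50 * (n / 8) ^ 2 * 16 ^ (n / 8) ≤ 2 ^ n := by
  have h1 := sq_le (s := n / 8) (by omega)
  calc 50 * (n / 8) ^ 2 * 16 ^ (n / 8) ≤ 16 ^ (n / 8) * 16 ^ (n / 8) :=
        Nat.mul_le_mul_right _ h1
    _ = 2 ^ (4 * (n / 8) + 4 * (n / 8)) := by
        rw [pow_add, pow_mul]; norm_num
    _ ≤ 2 ^ n := Nat.pow_le_pow_right (by norm_num) (by omega)

end N4

theorem nullC {E : Set (Polynomial ℕ)} (hE : Good E) {f : ℕ → ℝ}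
    (hf : Asy E f (fun n => 3 / 2 ^ (n / 8))) : Null f {A | InNTime E A (hit2 A)ᶜ} := by
  classical
  have hc : Countable (Polynomial ℕ) := N4.countable_poly
  have hcE : Countable E := inferInstance
  refine (null_iUnion (f := f) (N4.XC E) fun θ => ?_).mono fun A hA => ?_
  · intro δ hδ
    obtain ⟨r, hr, hr1, hr2⟩ := evC_of hE θ.1 θ.2.2
    obtain ⟨n₀, hn₀⟩ := evC_bound θ.1 θ.2
    obtain ⟨n, N, hn, hN, hb⟩ := hf r hr δ hδ (max n₀ 16)
    have hn1 : n₀ ≤ n := (le_max_left _ _).trans hn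
    have hn2 : 16 ≤ n := (le_max_right _ _).trans hn
    have hN1 : 2 ^ (3 * mm n + 1) ≤ N :=
      le_trans (Nat.pow_le_pow_right (by norm_num) (hr1 n)) hN
    have hsz := N4.size_le hn2
    set s := n / 8 with hs
    have hcard : Fintype.card ((Fin (2 ^ s) × Fin (5 * s)) × Fin (10 * s * 8 ^ s)) =
        50 * s ^ 2 * 16 ^ s := by
      rw [Fintype.card_prod, Fintype.card_prod, Fintype.card_fin, Fintype.card_fin,
        Fintype.card_fin]
      have h16 : (16 : ℕ) ^ s = 2 ^ s * 8 ^ s := by rw [← mul_pow]; norm_num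
      rw [h16]
      ring
    let e := Fintype.equivFin ((Fin (2 ^ s) × Fin (5 * s)) × Fin (10 * s * 8 ^ s))
    have he : ∀ k, (e k).val < 2 ^ n := fun k =>
      lt_of_lt_of_le (e k).2 (by rw [hcard]; exact hsz)
    let x : (Fin (2 ^ s) × Fin (5 * s)) × Fin (10 * s * 8 ^ s) → List Bool :=
      fun k => bitsOf n (e k).val
    have hxl : ∀ k, (x k).length = n := fun k => length_bitsOf n _
    have hxi : Function.Injective x := by
      intro k k' h
      exact e.injective (Fin.ext (bitsOf_inj (he k) (he k') h))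
    refine cover_of_event (EvC θ.1 θ.2 n N x) (N4.XC E θ) (fun A hA => ?_) f δ ?_
    · refine hr2 A n x hxl (fun k => ?_) N hN
      have h := hA (x k)
      rw [hxl k] at h
      exact h
    · exact (mul_le_mul_of_nonneg_right (hn₀ n hn1 N s (by omega) hsz hN1 x hxi hxl)
        (by positivity)).trans hb
  · obtain ⟨V, ⟨M, hM⟩, q, hq, h⟩ := hA
    refine Set.mem_iUnion.2 ⟨(M, ⟨q, hq⟩), fun x => (h x).trans ?_⟩
    refine exists_congr fun w => and_congr_right fun _ => ?_
    show _ ↔ M.out A (pairBits w x) = some [true]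
    rw [hM, Option.some.injEq]

end Pool.Agent.H622R2.Exp
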