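import Pool.Agent.H622R2.Exp.Base
import Pool.Agent.H622R2.Exp.YAux

namespace Pool.Agent.H622R2.Exp

open Filter YAux

theorem asyNE {f : ℕ → ℝ}
    (hf : ∀ ε : ℝ, 0 < ε → ∃ᶠ N : ℕ in Filter.atTop,
      f N ≤ ε * Real.logb 2 (Real.logb 2 N)) :
    Asy Lin f (fun n => 3 / 2 ^ (n / 8)) := by
  rintro q ⟨c, rfl⟩ δ hδ n₀
  obtain ⟨n₁, hn₁⟩ := (ev_non δ hδ).exists_forall_of_atTop
  set m := max n₀ n₁ with hm
  have hcpos : (0:ℝ) < (c:ℝ) + 1 := by positivity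
  obtain ⟨N, hN1, hN2⟩ := ((hf (1 / (16 * ((c:ℝ) + 1))) (by positivity)).and_eventually
    (eventually_ge_atTop (2 ^ 2 ^ ((c + 1) * (m + 1))))).exists
  obtain ⟨n, hn, h1, h2, h3⟩ := choose_lin (c + 1) m (by omega) hN2
  have hn0 : n₀ ≤ n := (le_max_left n₀ n₁).trans hn
  have hn1 : n₁ ≤ n := (le_max_right n₀ n₁).trans hn
  refine ⟨n, N, hn0, ?_, ?_⟩
  · rw [eval_lin]
    refine le_trans (Nat.pow_le_pow_right (by norm_num) (Nat.pow_le_pow_right (by norm_num) ?_)) h1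
    exact Nat.mul_le_mul_right _ (by omega)
  · apply hn₁ n hn1
    refine hN1.trans ?_
    have h4 : Real.logb 2 (Real.logb 2 N) ≤ ((c + 1 : ℕ) : ℝ) * ((n : ℝ) + 2) := by
      rw [Real.logb_le_iff_le_rpow (by norm_num) (by linarith)]
      exact h3
    have h5 : 1 / (16 * ((c:ℝ) + 1)) * Real.logb 2 (Real.logb 2 N) ≤
        1 / (16 * ((c:ℝ) + 1)) * (((c + 1 : ℕ) : ℝ) * ((n : ℝ) + 2)) := by gcongr
    refine h5.trans ?_
    have h6 : 1 / (16 * ((c:ℝ) + 1)) * (((c + 1 : ℕ) : ℝ) * ((n : ℝ) + 2)) = ((n:ℝ) + 2) / 16 := by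
      push_cast
      field_simp
    rw [h6]
    linarith

end Pool.Agent.H622R2.Exp
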