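import Pool.Agent.H622R2.Exp.Q4

/-!
# Task Q5: the number of the census digits, polynomial exponents
-/

namespace Pool.Agent.H622R2.Exp

open Pool.Agent.NPC Pool.Agent.H620R2.Gauge Finset H568R2

theorem sumC_Pol {ε : ℝ} (hε : 0 < ε) : ∃ K : ℕ, ∀ r : ℕ → Polynomial ℕ,
    (∀ e n, (n + e + 1) ^ K ≤ (r e).eval n) →
    ∀ᶠ N : ℕ in Filter.atTop, ((∑ e ∈ Finset.range (Nat.log 2 N + 1),
      ∑ k ∈ (Finset.range (Nat.log 2 N + 1)).filter
        (fun k => 2 ^ (r e).eval (2 ^ k) ≤ Nat.log 2 N), (2 ^ k + 1) : ℕ) : ℝ) ≤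
      (Real.logb 2 (Real.logb 2 N)) ^ ε := by
  obtain ⟨K, hK⟩ := exists_nat_gt (2 / ε)
  have hK' : 2 < ε * K := by
    rw [div_lt_iff₀ hε] at hK
    linarith [mul_comm (K : ℝ) ε]
  have hK1 : 1 ≤ K := by
    rcases Nat.eq_zero_or_pos K with h | h
    · subst h; simp at hK'; linarith
    · exact h
  have hK0 : (0 : ℝ) < K := by exact_mod_cast hK1
  have hpos : 0 < ε - 2 / K := by
    have : 2 / (K : ℝ) < ε := by
      rw [div_lt_iff₀ hK0]; exact hK'
    linarith
  refine ⟨K, fun r hr => ?_⟩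
  have ht : Filter.Tendsto (fun N : ℕ => (Real.logb 2 (Real.logb 2 N)) ^ (ε - 2 / K))
      Filter.atTop Filter.atTop := (tendsto_rpow_atTop hpos).comp Q2.tendsto_logb2
  filter_upwards [ht.eventually_ge_atTop 3, Q2.tendsto_logb2.eventually_ge_atTop 1,
    Filter.eventually_ge_atTop 2] with N h3 hl1 hN
  set l := Real.logb 2 (Real.logb 2 N) with hl
  set m := Nat.log 2 N with hm
  have hl0 : 0 < l := by linarith
  obtain ⟨J, hJle, hJlt⟩ := Q2.root K hK1 l hl0.le (Nat.log 2 m) (Q2.natlog2_le N hN)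
  have hk : ∀ e k : ℕ, 2 ^ (r e).eval (2 ^ k) ≤ m → 2 ^ k + e + 1 ≤ J := by
    intro e k h
    have h5 : (r e).eval (2 ^ k) ≤ Nat.log 2 m := Nat.le_log_of_pow_le (by norm_num) h
    have h6 : (2 ^ k + e + 1) ^ K < (J + 1) ^ K :=
      lt_of_le_of_lt ((hr e (2 ^ k)).trans h5) hJlt
    have h7 := lt_of_pow_lt_pow_left₀ K (by omega) h6
    omega
  have h1 : ∀ e : ℕ, ((∑ k ∈ (Finset.range (m + 1)).filter
      (fun k => 2 ^ (r e).eval (2 ^ k) ≤ m), (2 ^ k + 1) : ℕ) : ℝ) ≤
      if e < J then 3 * (J : ℝ) else 0 := by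
    intro e
    split_ifs with he
    · apply Q4.geo _ _ (by positivity)
      intro k hk'
      rw [Finset.mem_filter] at hk'
      have h8 := hk e k hk'.2
      have h9 : 2 ^ k + 1 ≤ J := by omega
      exact_mod_cast h9
    · have h8 : (Finset.range (m + 1)).filter (fun k => 2 ^ (r e).eval (2 ^ k) ≤ m) = ∅ := by
        rw [Finset.filter_eq_empty_iff]
        intro k _ hcon
        have := hk e k hcon
        have h0 : 0 < 2 ^ k := by positivity
        omega
      rw [h8]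
      simp
  rw [Nat.cast_sum]
  calc ∑ e ∈ Finset.range (m + 1), ((∑ k ∈ (Finset.range (m + 1)).filter
        (fun k => 2 ^ (r e).eval (2 ^ k) ≤ m), (2 ^ k + 1) : ℕ) : ℝ)
      ≤ ∑ e ∈ Finset.range (m + 1), (if e < J then 3 * (J : ℝ) else 0) :=
        Finset.sum_le_sum fun e _ => h1 e
    _ = ((Finset.range (m + 1)).filter (fun e => e < J)).card * (3 * (J : ℝ)) := by
        rw [← Finset.sum_filter, Finset.sum_const, nsmul_eq_mul]
    _ ≤ J * (3 * (J : ℝ)) := by
        apply mul_le_mul_of_nonneg_right _ (by positivity)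
        have h10 : (Finset.range (m + 1)).filter (fun e => e < J) ⊆ Finset.range J := by
          intro e he
          rw [Finset.mem_filter] at he
          exact Finset.mem_range.2 he.2
        have h11 := Finset.card_le_card h10
        rw [Finset.card_range] at h11
        exact_mod_cast h11
    _ ≤ l ^ (1 / (K : ℝ)) * (3 * l ^ (1 / (K : ℝ))) := by
        have : (0 : ℝ) ≤ J := by positivity
        nlinarith [Real.rpow_nonneg hl0.le (1 / (K : ℝ))]
    _ = l ^ (2 / (K : ℝ)) * 3 := by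
        have : l ^ (2 / (K : ℝ)) = l ^ (1 / (K : ℝ)) * l ^ (1 / (K : ℝ)) := by
          rw [← Real.rpow_add hl0]; congr 1; ring
        rw [this]; ring
    _ ≤ l ^ (2 / (K : ℝ)) * l ^ (ε - 2 / K) :=
        mul_le_mul_of_nonneg_left h3 (Real.rpow_nonneg hl0.le _)
    _ = l ^ ε := by rw [← Real.rpow_add hl0]; congr 1; ring

end Pool.Agent.H622R2.Exp
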