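import Pool.Agent.H622R2.Exp.KAux
import Pool.Agent.H622R2.Exp.G
import Pool.Agent.H622R2.Exp.C3
import Pool.Agent.H622R2.Exp.M3
import Pool.Agent.H622R2.Exp.Q3
import Pool.Agent.H622R2.Exp.Q5
import Pool.Agent.H622R2.Exp.L

/-! Task K4: the set of oracles with `NEXP = coNEXP` is not null. -/

namespace Pool.Agent.H622R2.Exp

open Pool.Agent.NPC Pool.Agent.H620R2.Gauge Finset H568R2

theorem notNullNEXP {f : ℕ → ℝ} {ε : ℝ} (hε : 0 < ε)
    (hf : ∀ᶠ N : ℕ in Filter.atTop, (Real.logb 2 (Real.logb 2 N)) ^ ε < f N) (O : Set Oracle)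
    (hO : ∀ A : Oracle, (∀ L, InNTime Pol A L → InNTime Pol A Lᶜ) → A ∈ O) : ¬ Null f O := by
  classical
  obtain ⟨K, hK⟩ := sumC_Pol hε
  obtain ⟨d, r, Φ, hr, hgr, hΦ1, hΦ2⟩ := exists_codingC good_Pol (fun k => 2 ^ k)
    (fun _ k => 2 ^ k + 1) (fun _ e => (Polynomial.X + Polynomial.C (e + 1)) ^ K)
    (fun _ e => Set.mem_univ _)
  have hr2 : ∀ e n, (n + e + 1) ^ K ≤ (r e).eval n := by
    intro e n
    refine le_trans (le_of_eq ?_) (hgr e n)
    simp only [Polynomial.eval_pow, Polynomial.eval_C, Polynomial.eval_add, Polynomial.eval_X]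
    rw [add_assoc]
  refine not_null_ev f Φ {y | ∃ e k i, i < 2 ^ k + 1 ∧ y = codeC (r e) (fun k => 2 ^ k) e k i}
    ?_ ?_ O ?_
  · intro B y hy
    apply hΦ1
    intro e k i hi hyx
    exact hy ⟨e, k, i, hi, hyx⟩
  · filter_upwards [hK r hr2, hf] with N h1 h2
    have h3 := countC_le d r (fun k => 2 ^ k) (fun _ k => 2 ^ k + 1) N
    exact (Nat.cast_le.2 h3).trans (h1.trans h2.le)
  · intro B
    apply hO
    intro L hL
    obtain ⟨e, V, q, -, hV, -, hL', hA⟩ := hΦ2 B L 0 hL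
    refine compl_of_census hV hL' e (r e)
      ((2 * Polynomial.X + 1) + q.comp (2 * Polynomial.X + 1) +
        (r e).comp (2 * Polynomial.X + 1) + 6) (Set.mem_univ _) (fun k => 2 ^ k)
      (fun k => 2 ^ k + 1) Nat.size KAux.upoly_size KAux.upoly_two_pow_size
      (KAux.upoly_two_pow_size.add (UPoly.const 1)) (fun n => (Nat.lt_size_self n).le) ?_
      (fun n => KAux.cens_lt L _) hA
    intro n
    refine (KAux.len_le q (r e) (KAux.two_pow_size_le n)).trans (le_of_eq ?_)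
    congr 1
    simp [Polynomial.eval_comp]

end Pool.Agent.H622R2.Exp
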