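import Pool.Agent.H622R2.Exp.Y2

namespace Pool.Agent.H622R2.Exp

open Filter YAux

theorem asyNEXP {f : ℕ → ℝ}
    (hf : ∀ ε : ℝ, 0 < ε → ∃ᶠ N : ℕ in Filter.atTop,
      f N ≤ (Real.logb 2 (Real.logb 2 N)) ^ ε) :
    Asy Pol f (fun n => 3 / 2 ^ (n / 8)) := by
  intro q _ δ hδ n₀
  obtain ⟨D, hD, hq⟩ := poly_bound q
  obtain ⟨n₁, hn₁⟩ := (ev_non δ hδ).exists_forall_of_atTop
  set m := max (max n₀ n₁) 300 with hm
  have hD0 : (0:ℝ) < D := by exact_mod_cast hD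
  obtain ⟨N, hN1, hN2, hN4⟩ := ((hf (1 / (2 * (D:ℝ))) (by positivity)).and_eventually
    ((eventually_ge_atTop (2 ^ 2 ^ ((m + 2) ^ D))).and (eventually_ge_atTop 4))).exists
  obtain ⟨n, hn, h1, h2, h3⟩ := choose_pol (Y2.mono_pow D) (Y2.unb_pow hD) m hN2 hN4
  have hn0 : n₀ ≤ n := (le_max_left n₀ n₁).trans ((le_max_left _ _).trans hn)
  have hn1 : n₁ ≤ n := (le_max_right n₀ n₁).trans ((le_max_left _ _).trans hn)
  have hn6 : 300 ≤ n := (le_max_right _ _).trans hn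
  refine ⟨n, N, hn0, ?_, ?_⟩
  · exact le_trans (Nat.pow_le_pow_right (by norm_num)
      (Nat.pow_le_pow_right (by norm_num) (hq n))) h1
  · apply hn₁ n hn1
    refine hN1.trans ((Y2.root_le hD (by linarith) h3).trans ?_)
    have h6 : (300:ℝ) ≤ n := by exact_mod_cast hn6
    have h7 : Real.sqrt ((n:ℝ) + 3) ≤ (n:ℝ) / 16 := by
      rw [Real.sqrt_le_left (by positivity)]
      nlinarith
    linarith

end Pool.Agent.H622R2.Exp
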