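import Pool.Agent.H620R2.GaugeR.R13
import Pool.Agent.H622R2.Exp.FinalE
import Pool.Agent.H622R2.Exp.FinalAux
import Pool.Agent.H622R2.Exp.N4
import Pool.Agent.H622R2.Exp.K4
import Pool.Agent.H622R2.Exp.Y6

/-! `NEXP` versus `coNEXP` -/

namespace Pool.Agent.H622R2.Exp

open Pool.Agent.NPC Pool.Agent.H620R2.Gauge Filter

theorem resNEXP (f : ℕ → ℝ) :
    (Null f {A : Oracle | ∀ L, InNTime Pol A L ↔ InNTime Pol A Lᶜ} ↔
      ∀ ε : ℝ, 0 < ε → ∃ᶠ N : ℕ in atTop, f N ≤ (Real.logb 2 (Real.logb 2 N)) ^ ε) ∧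
    (Null f {A : Oracle | (∀ L, InNTime Pol A L ↔ InNTime Pol A Lᶜ) ∧
        ¬ ∀ L, InTime Pol A L ↔ InNTime Pol A L} ↔
      ∀ ε : ℝ, 0 < ε → ∃ᶠ N : ℕ in atTop, f N ≤ (Real.logb 2 (Real.logb 2 N)) ^ ε) := by
  have key : ∀ f : ℕ → ℝ, (Null f {A : Oracle | ∀ L, InNTime Pol A L ↔ InNTime Pol A Lᶜ} ↔
      ∀ ε : ℝ, 0 < ε → ∃ᶠ N : ℕ in atTop, f N ≤ (Real.logb 2 (Real.logb 2 N)) ^ ε) := by
    intro f
    constructor
    · intro hn ε hε
      by_contra hcon
      rw [not_frequently] at hcon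
      refine notNullNEXP hε (hcon.mono fun N h => not_le.1 h) _ ?_ hn
      intro A hA L
      refine ⟨hA L, fun h => ?_⟩
      have := hA _ h
      rwa [compl_compl] at this
    · intro hf
      exact (nullC good_Pol (asyNEXP hf)).mono fun A hA => (hA _).1 (hit2_ntime good_Pol A)
  refine ⟨key f, ⟨fun hn => ?_, fun hf => ((key f).2 hf).mono fun A hA => hA.1⟩⟩
  by_contra hcon
  push Not at hcon
  obtain ⟨ε, hε, hcon⟩ := hcon
  -- the smaller gauge
  set g : ℕ → ℝ := fun N => min (f N) (Real.logb 2 (Real.logb 2 N)) with hg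
  have hgE : Null g {A : Oracle | ∀ L, InTime Pol A L ↔ InNTime Pol A L} := by
    refine (resE g).2.2.2 fun ε' hε' => ?_
    exact ((loglog_le_pow hε').mono fun N h => (min_le_right _ _).trans h).frequently
  have hgN : Null g {A : Oracle | (∀ L, InNTime Pol A L ↔ InNTime Pol A Lᶜ) ∧
        ¬ ∀ L, InTime Pol A L ↔ InNTime Pol A L} :=
    hn.anti fun N => min_le_left _ _
  have h1 : Null g {A : Oracle | ∀ L, InNTime Pol A L ↔ InNTime Pol A Lᶜ} := by
    refine (null_union hgE hgN).mono fun A hA => ?_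
    by_cases h : ∀ L, InTime Pol A L ↔ InNTime Pol A L
    · exact Or.inl h
    · exact Or.inr ⟨hA, h⟩
  have h2 := (key g).1 h1 (min ε (1 / 2)) (by positivity)
  apply h2
  have h3 : ∀ᶠ N : ℕ in atTop, (Real.logb 2 (Real.logb 2 N)) ^ ε < f N := hcon
  filter_upwards [h3, loglog_tendsto.eventually_gt_atTop 1] with N h4 h5
  rw [not_le, hg]
  apply lt_min
  · exact lt_of_le_of_lt (Real.rpow_le_rpow_of_exponent_le h5.le (min_le_left _ _)) h4
  · have h6 := Real.rpow_lt_rpow_of_exponent_lt h5 (show min ε (1 / 2) < 1 from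
      lt_of_le_of_lt (min_le_right _ _) (by norm_num))
    rwa [Real.rpow_one] at h6

end Pool.Agent.H622R2.Exp
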