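import Pool.Agent.H622R2.Exp.Base
import Pool.Agent.H622R2.Exp.E3
import Pool.Agent.H622R2.Exp.F3
import Pool.Agent.H620R2.Gauge2.Null
import Pool.Agent.H620R2.Gauge.C

/-! The oracles for which the parity test language is in the exponential hierarchy. -/

namespace Pool.Agent.H622R2.Exp

open Pool.Agent.NPC Pool.Agent.H620R2.Gauge Finset H568R2

namespace N2

/-- the oracles for which the parameters are good -/
def EasyP (E : Set (Polynomial ℕ)) (θ : Alg × Polynomial ℕ × ℕ) : Set Oracle :=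
  {A | θ.2.1 ∈ E ∧ ∃ V : List Bool → List Bool, (∀ x, θ.1.out A x = some (V x)) ∧
    ∀ x : List Bool, (x ∈ par2 A ↔ Quant (2 ^ θ.2.1.eval x.length) V θ.2.2 true x)}

end N2

theorem nullP {E : Set (Polynomial ℕ)} (hE : Good E) {f : ℕ → ℝ}
    (hf : Asy E f (fun n => 3 * (11 / 12) ^ 2 ^ n)) : Null f {A | InAlt E A (par2 A)} := by
  classical
  have hcount : Countable (Polynomial ℕ) := CC.poly_countable
  refine (null_iUnion (f := f) (N2.EasyP E) fun θ => ?_).mono fun A hA => ?_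
  · intro δ hδ
    by_cases hq : θ.2.1 ∈ E
    · obtain ⟨r, hr, hr1, hr2⟩ := evP_of hE θ.1 hq θ.2.2
      obtain ⟨n₀, hn₀⟩ := evP_bound θ.1 θ.2.1 θ.2.2
      obtain ⟨n, N, hn, hN, hb⟩ := hf r hr δ hδ n₀
      have hN1 : 2 ^ (2 * mm n + 1) ≤ N :=
        (Nat.pow_le_pow_right (by norm_num) (hr1 n)).trans hN
      refine cover_of_event (EvP θ.1 θ.2.1 θ.2.2 n N) (N2.EasyP E θ) (fun A hA => ?_) f δ ?_
      · obtain ⟨_, V, hV, hx⟩ := hA
        exact hr2 A V hV n (fun x _ => hx x) N hN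
      · exact (mul_le_mul_of_nonneg_right (hn₀ n hn N hN1) (by positivity)).trans hb
    · exact ⟨∅, fun A hA => absurd hA.1 hq, by simp⟩
  · obtain ⟨V, ⟨M, hM⟩, q, hq, k, hx⟩ := hA
    exact Set.mem_iUnion.2 ⟨(M, q, k), hq, V, hM, hx⟩

end Pool.Agent.H622R2.Exp
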