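import Pool.Agent.H620R2.Gauge2.Null
import Pool.Agent.H622R2.Exp.G
import Pool.Agent.H622R2.Exp.A2
import Pool.Agent.H622R2.Exp.A5
import Pool.Agent.H622R2.Exp.B
import Pool.Agent.H622R2.Exp.N2
import Pool.Agent.H622R2.Exp.K1
import Pool.Agent.H622R2.Exp.K6
import Pool.Agent.H622R2.Exp.Y1
import Pool.Agent.H622R2.Exp.Y2

/-! `NE` versus `ESPACE`, `NEXP` versus `EXPSPACE` -/

namespace Pool.Agent.H622R2.Exp

open Pool.Agent.NPC Pool.Agent.H620R2.Gauge Filter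

theorem resNES (f : ℕ → ℝ) :
    (∀ O : Set Oracle,
      (∀ A : Oracle, (∀ L, InSpace Lin A L → InTime Lin A L) → A ∈ O) →
      (∀ A ∈ O, ∀ L, InSpace Lin A L → InAlt Lin A L) →
      (Null f O ↔
        ∀ ε : ℝ, 0 < ε → ∃ᶠ N : ℕ in atTop, f N ≤ (Real.logb 2 N) ^ ε)) ∧
    (Null f {A : Oracle | ∀ L, InNTime Lin A L ↔ InSpace Lin A L} ↔
      ∀ ε : ℝ, 0 < ε → ∃ᶠ N : ℕ in atTop, f N ≤ (Real.logb 2 N) ^ ε) ∧
    (Null f {A : Oracle | ∀ L, InNTime Pol A L ↔ InSpace Pol A L} ↔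
      ∀ ε : ℝ, 0 < ε → ∃ᶠ N : ℕ in atTop,
        f N ≤ 2 ^ (Real.logb 2 (Real.logb 2 N)) ^ ε) := by
  have key : ∀ O : Set Oracle,
      (∀ A : Oracle, (∀ L, InSpace Lin A L → InTime Lin A L) → A ∈ O) →
      (∀ A ∈ O, ∀ L, InSpace Lin A L → InAlt Lin A L) →
      (Null f O ↔
        ∀ ε : ℝ, 0 < ε → ∃ᶠ N : ℕ in atTop, f N ≤ (Real.logb 2 N) ^ ε) := by
    intro O h1 h2
    constructor
    · intro hn ε hε
      by_contra hcon
      rw [not_frequently] at hcon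
      exact notNullE hε (hcon.mono fun N h => not_le.1 h) O h1 hn
    · intro hf
      exact (nullP good_Lin (asyE hf)).mono fun A hA => h2 A hA _ (par2_space good_Lin A)
  have key2 : ∀ O : Set Oracle,
      (∀ A : Oracle, (∀ L, InSpace Pol A L → InTime Pol A L) → A ∈ O) →
      (∀ A ∈ O, ∀ L, InSpace Pol A L → InAlt Pol A L) →
      (Null f O ↔
        ∀ ε : ℝ, 0 < ε → ∃ᶠ N : ℕ in atTop,
          f N ≤ 2 ^ (Real.logb 2 (Real.logb 2 N)) ^ ε) := by
    intro O h1 h2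
    constructor
    · intro hn ε hε
      by_contra hcon
      rw [not_frequently] at hcon
      exact notNullEXP hε (hcon.mono fun N h => not_le.1 h) O h1 hn
    · intro hf
      exact (nullP good_Pol (asyEXP hf)).mono fun A hA => h2 A hA _ (par2_space good_Pol A)
  refine ⟨key, key _ ?_ ?_, key2 _ ?_ ?_⟩
  · intro A hA L
    exact ⟨fun h => h.isSpace good_Lin, fun h => (hA L h).isNTime⟩
  · intro A hA L hL
    exact ((hA L).2 hL).isAlt
  · intro A hA L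
    exact ⟨fun h => h.isSpace good_Pol, fun h => (hA L h).isNTime⟩
  · intro A hA L hL
    exact ((hA L).2 hL).isAlt

end Pool.Agent.H622R2.Exp
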