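import Pool.Agent.H622R2.Exp.Q4

/-!
# Task Q6: the number of the census digits, sparse languages
-/

namespace Pool.Agent.H622R2.Exp

open Pool.Agent.NPC Pool.Agent.H620R2.Gauge Finset H568R2

theorem Q6.natlog3_le (N : ℕ) (hN : 4 ≤ N) :
    (Nat.log 2 (Nat.log 2 (Nat.log 2 N)) : ℝ) ≤ Real.logb 2 (Real.logb 2 (Real.logb 2 N)) := by
  have hm1 : 2 ≤ Nat.log 2 N := Nat.le_log_of_pow_le (by norm_num) (by omega)
  have hm2 : 1 ≤ Nat.log 2 (Nat.log 2 N) := Nat.log_pos (by norm_num) hm1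
  have h1 := Q1.natlog_le (Nat.log 2 (Nat.log 2 N)) hm2
  have h2 := Q2.natlog2_le N (by omega)
  have h3 : (0 : ℝ) < Nat.log 2 (Nat.log 2 N) := by exact_mod_cast hm2
  exact le_trans h1 (Real.logb_le_logb_of_le (by norm_num) h3 h2)

theorem sumC_Sparse {ε : ℝ} (hε : 0 < ε) : ∃ K : ℕ, ∀ (d : ℕ → ℕ) (r : ℕ → Polynomial ℕ),
    (∀ e n, n ^ (K * (d e + 1) * 4 ^ e) ≤ (r e).eval n) →
    ∀ᶠ N : ℕ in Filter.atTop, ((∑ e ∈ Finset.range (Nat.log 2 N + 1),
      ∑ k ∈ (Finset.range (Nat.log 2 N + 1)).filter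
        (fun k => 2 ^ (r e).eval (2 ^ 2 ^ k) ≤ Nat.log 2 N), (d e + 1) * (2 ^ k + 1) : ℕ) : ℝ) ≤
      ε * Real.logb 2 (Real.logb 2 (Real.logb 2 N)) := by
  obtain ⟨K, hK⟩ := exists_nat_gt (8 / ε)
  have hK' : 8 < ε * K := by
    rw [div_lt_iff₀ hε] at hK
    linarith [mul_comm (K : ℝ) ε]
  have hK1 : 1 ≤ K := by
    rcases Nat.eq_zero_or_pos K with h | h
    · subst h; simp at hK'; linarith
    · exact h
  have hK0 : (0 : ℝ) < K := by exact_mod_cast hK1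
  refine ⟨K, fun d r hr => ?_⟩
  have ht : Filter.Tendsto (fun N : ℕ => Real.logb 2 (Real.logb 2 (Real.logb 2 (N : ℝ))))
      Filter.atTop Filter.atTop :=
    (Real.tendsto_logb_atTop (by norm_num)).comp Q2.tendsto_logb2
  filter_upwards [ht.eventually_ge_atTop 1, Filter.eventually_ge_atTop 4]
    with N hu1 hN
  set u := Real.logb 2 (Real.logb 2 (Real.logb 2 N)) with hu
  set m := Nat.log 2 N with hm
  have hu0 : 0 < u := by linarith
  have hum : (Nat.log 2 (Nat.log 2 m) : ℝ) ≤ u := Q6.natlog3_le N hN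
  have h1 : ∀ e : ℕ, ((∑ k ∈ (Finset.range (m + 1)).filter
      (fun k => 2 ^ (r e).eval (2 ^ 2 ^ k) ≤ m), (d e + 1) * (2 ^ k + 1) : ℕ) : ℝ) ≤
      6 * u / K * (1 / 4) ^ e := by
    intro e
    have h4 : (0 : ℝ) < 4 ^ e := by positivity
    have h2 := Q4.geo ((Finset.range (m + 1)).filter
      (fun k => 2 ^ (r e).eval (2 ^ 2 ^ k) ≤ m)) (2 * u / (K * (d e + 1) * 4 ^ e))
      (by positivity) (by
        intro k hk
        rw [Finset.mem_filter] at hk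
        have h5 : (r e).eval (2 ^ 2 ^ k) ≤ Nat.log 2 m := Nat.le_log_of_pow_le (by norm_num) hk.2
        have h6 : (2 ^ 2 ^ k) ^ (K * (d e + 1) * 4 ^ e) ≤ Nat.log 2 m :=
          (hr e (2 ^ 2 ^ k)).trans h5
        rw [← pow_mul] at h6
        have h8 : 2 ^ k * (K * (d e + 1) * 4 ^ e) ≤ Nat.log 2 (Nat.log 2 m) :=
          Nat.le_log_of_pow_le (by norm_num) h6
        have h7 : (2 : ℝ) ^ k * ((K : ℝ) * (d e + 1) * 4 ^ e) ≤ Nat.log 2 (Nat.log 2 m) := by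
          exact_mod_cast h8
        rw [le_div_iff₀ (by positivity)]
        have h9 : (1 : ℝ) ≤ 2 ^ k := one_le_pow₀ (by norm_num)
        have h10 : (0 : ℝ) < (K : ℝ) * (d e + 1) * 4 ^ e := by positivity
        nlinarith)
    have h3 : 6 * u / K * (1 / 4) ^ e = (d e + 1) * (3 * (2 * u / (K * (d e + 1) * 4 ^ e))) := by
      rw [one_div, inv_pow]
      field_simp
      norm_num
    rw [h3, ← Finset.mul_sum]
    push_cast at h2 ⊢
    exact mul_le_mul_of_nonneg_left h2 (by positivity)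
  rw [Nat.cast_sum]
  calc ∑ e ∈ Finset.range (m + 1), ((∑ k ∈ (Finset.range (m + 1)).filter
        (fun k => 2 ^ (r e).eval (2 ^ 2 ^ k) ≤ m), (d e + 1) * (2 ^ k + 1) : ℕ) : ℝ)
      ≤ ∑ e ∈ Finset.range (m + 1), 6 * u / K * (1 / 4) ^ e :=
        Finset.sum_le_sum fun e _ => h1 e
    _ = 6 * u / K * ∑ e ∈ Finset.range (m + 1), (1 / 4) ^ e := by rw [Finset.mul_sum]
    _ ≤ 6 * u / K * (4 / 3) := mul_le_mul_of_nonneg_left (Q4.geo4 _) (by positivity)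
    _ = 8 * u / K := by ring
    _ ≤ ε * u := by
        rw [div_le_iff₀ hK0]
        nlinarith

end Pool.Agent.H622R2.Exp
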