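import Pool.Agent.H622R2.Exp.Base
import Pool.Agent.NPC.Num
import Pool.Agent.H622R2.Exp.G
import Pool.Agent.H622R2.Exp.M3
import Pool.Agent.H622R2.Exp.C3
import Pool.Agent.H622R2.Exp.Q3
import Pool.Agent.H622R2.Exp.Q6
import Pool.Agent.H622R2.Exp.L

/-!
# Task K5: the sparse sets in `NEXP` and their complements (helper850)
-/

namespace Pool.Agent.H622R2.Exp

open Pool.Agent.NPC Pool.Agent.H620R2.Gauge Finset H568R2

namespace K5

theorem poly_two_pow {α : Type} [TEnc α] {m : α → ℕ} (hm : UPoly m) :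
    NPC.Poly (fun a => 2 ^ m a) := by
  have h : NPC.Poly (fun a => valB (List.replicate (m a) false ++ [true])) :=
    NPC.Poly.valBits (NPC.Poly.append ((NPC.Poly.map hm (F := fun _ _ => false)
      (NPC.Poly.const false)).congr fun a => by simp) (NPC.Poly.const [true]))
  refine h.congr fun a => ?_
  rw [valB_append]
  have h0 : ∀ n : ℕ, valB (List.replicate n false) = 0 := by
    intro n
    induction n with
    | zero => rfl
    | succ n ih => simp [List.replicate_succ, ih]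
  rw [h0, List.length_replicate]
  simp [valB]

/-- the scale used for inputs of length `n` -/
def kap (n : ℕ) : ℕ := n.size.size

theorem two_pow_size_le (n : ℕ) : 2 ^ n.size ≤ 2 * n + 1 := by
  rcases Nat.eq_zero_or_pos n.size with h | h
  · rw [h]; omega
  · obtain ⟨m, hm⟩ : ∃ m, n.size = m + 1 := ⟨n.size - 1, by omega⟩
    have h1 : m < n.size := by omega
    rw [Nat.lt_size] at h1
    rw [hm, pow_succ]
    omega

theorem le_sc (n : ℕ) : n ≤ 2 ^ 2 ^ kap n := by
  have h1 : n < 2 ^ n.size := Nat.lt_size_self n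
  have h2 : n.size < 2 ^ n.size.size := Nat.lt_size_self _
  have h3 : 2 ^ n.size ≤ 2 ^ 2 ^ n.size.size := Nat.pow_le_pow_right (by norm_num) h2.le
  unfold kap
  omega

theorem sc_le (n : ℕ) : 2 ^ 2 ^ kap n ≤ 2 * (2 * n + 1) ^ 2 := by
  have h1 : 2 ^ kap n ≤ 2 * n.size + 1 := two_pow_size_le _
  have h2 : 2 ^ 2 ^ kap n ≤ 2 ^ (2 * n.size + 1) := Nat.pow_le_pow_right (by norm_num) h1
  have h3 : 2 ^ (2 * n.size + 1) = 2 * (2 ^ n.size) ^ 2 := by
    rw [pow_succ, mul_comm 2 n.size, pow_mul, mul_comm]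
  have h4 : (2 ^ n.size) ^ 2 ≤ (2 * n + 1) ^ 2 := Nat.pow_le_pow_left (two_pow_size_le n) 2
  omega

theorem upoly_len : UPoly (fun x : List Bool => x.length) := UPoly.length NPC.Poly.id

theorem upoly_size {α : Type} [TEnc α] {m : α → ℕ} (hm : UPoly m) :
    UPoly (fun a => (m a).size) := by
  have h2 : UPoly (fun a => (m a).bits.length) := UPoly.length (NPC.Poly.natBits hm.toPoly)
  refine NPC.Poly.congr h2 fun x => ?_
  simp only [Nat.size_eq_bits_len]

theorem upoly_kap : UPoly (fun x : List Bool => kap x.length) :=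
  upoly_size (upoly_size upoly_len)

theorem upoly_two_kap : UPoly (fun x : List Bool => 2 ^ kap x.length) :=
  UPoly.of_le (poly_two_pow upoly_kap)
    (((UPoly.const 2).mul (upoly_size upoly_len)).add (UPoly.const 1))
    fun _ => two_pow_size_le _

theorem upoly_sc : UPoly (fun x : List Bool => 2 ^ 2 ^ kap x.length) :=
  UPoly.of_le (poly_two_pow upoly_two_kap)
    (upoly_len.eval (Polynomial.C 2 * (Polynomial.C 2 * Polynomial.X + 1) ^ 2))
    fun x => by
      simp only [Polynomial.eval_mul, Polynomial.eval_pow, Polynomial.eval_add, Polynomial.eval_C,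
        Polynomial.eval_X, Polynomial.eval_one]
      exact sc_le _

/-- a polynomial is bounded by a power of `s + 2` -/
theorem eval_lt_pow (p : Polynomial ℕ) : ∃ D : ℕ, ∀ s : ℕ, p.eval s < (s + 2) ^ D := by
  induction p using Polynomial.induction_on' with
  | add p q hp hq =>
    obtain ⟨D, hD⟩ := hp
    obtain ⟨D', hD'⟩ := hq
    refine ⟨max D D' + 1, fun s => ?_⟩
    rw [Polynomial.eval_add, pow_succ]
    have h1 : (s + 2) ^ D ≤ (s + 2) ^ max D D' :=
      Nat.pow_le_pow_right (by omega) (le_max_left _ _)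
    have h2 : (s + 2) ^ D' ≤ (s + 2) ^ max D D' :=
      Nat.pow_le_pow_right (by omega) (le_max_right _ _)
    have h3 := hD s
    have h4 := hD' s
    have h5 : (s + 2) ^ max D D' * 2 ≤ (s + 2) ^ max D D' * (s + 2) :=
      Nat.mul_le_mul_left _ (by omega)
    omega
  | monomial k c =>
    refine ⟨c + k, fun s => ?_⟩
    rw [Polynomial.eval_monomial, pow_add]
    have h1 : c < (s + 2) ^ c := lt_of_lt_of_le Nat.lt_two_pow_self
      (Nat.pow_le_pow_left (by omega) c)
    have h2 : s ^ k ≤ (s + 2) ^ k := Nat.pow_le_pow_left (by omega) k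
    have h3 : 0 < (s + 2) ^ k := by positivity
    calc c * s ^ k ≤ c * (s + 2) ^ k := Nat.mul_le_mul_left _ h2
      _ < (s + 2) ^ c * (s + 2) ^ k := Nat.mul_lt_mul_of_pos_right h1 h3

/-- the census numbers of a sparse set -/
theorem cens_lt {L : Set (List Bool)} (hL : Sparse L) :
    ∃ D : ℕ, ∀ k : ℕ, cens L (2 ^ 2 ^ k) < 2 ^ ((D + 1) * (2 ^ k + 1)) := by
  obtain ⟨p, hp⟩ := hL
  obtain ⟨D, hD⟩ := eval_lt_pow p
  refine ⟨D, fun k => ?_⟩
  set s := 2 ^ 2 ^ k with hs
  have hs2 : 2 ≤ s := by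
    calc 2 = 2 ^ 1 := by norm_num
      _ ≤ 2 ^ 2 ^ k := Nat.pow_le_pow_right (by norm_num) Nat.one_le_two_pow
  have h1 : cens L s ≤ ∑ n ∈ Finset.range (s + 1), Set.ncard {x : List Bool | x ∈ L ∧ x.length = n} := by
    unfold cens
    have h2 : {x : List Bool | x ∈ L ∧ x.length ≤ s} =
        ⋃ n ∈ Finset.range (s + 1), {x : List Bool | x ∈ L ∧ x.length = n} := by
      ext x
      simp only [Set.mem_ofPred_eq, Set.mem_iUnion, Finset.mem_range, exists_prop]
      constructor
      · rintro ⟨hx, hl⟩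
        exact ⟨x.length, by omega, hx, rfl⟩
      · rintro ⟨n, hn, hx, rfl⟩
        exact ⟨hx, by omega⟩
    rw [h2]
    exact Finset.set_ncard_biUnion_le _ _
  have h2 : ∑ n ∈ Finset.range (s + 1), Set.ncard {x : List Bool | x ∈ L ∧ x.length = n} ≤
      (s + 1) * p.eval s := by
    calc _ ≤ ∑ n ∈ Finset.range (s + 1), p.eval s := Finset.sum_le_sum fun n hn =>
          (hp n).trans (NPC.eval_mono p (by rw [Finset.mem_range] at hn; omega))
      _ = (s + 1) * p.eval s := by simp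
  have h3 : (s + 1) * p.eval s < (s + 2) ^ (D + 1) := by
    rw [pow_succ, mul_comm]
    have h4 := hD s
    calc p.eval s * (s + 1) ≤ p.eval s * (s + 2) := Nat.mul_le_mul_left _ (by omega)
      _ < (s + 2) ^ D * (s + 2) := Nat.mul_lt_mul_of_pos_right h4 (by omega)
  have h4 : (s + 2) ^ (D + 1) ≤ 2 ^ ((D + 1) * (2 ^ k + 1)) := by
    rw [mul_comm (D + 1), pow_mul]
    refine Nat.pow_le_pow_left ?_ _
    rw [pow_succ, ← hs]
    omega
  omega

end K5

open K5 in
theorem notNullS {f : ℕ → ℝ} {ε : ℝ} (hε : 0 < ε)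
    (hf : ∀ᶠ N : ℕ in Filter.atTop,
      ε * Real.logb 2 (Real.logb 2 (Real.logb 2 N)) < f N) (O : Set Oracle)
    (hO : ∀ A : Oracle, (∀ L, Sparse L → InNTime Pol A L → InNTime Pol A Lᶜ) → A ∈ O) :
    ¬ Null f O := by
  classical
  obtain ⟨K, hK⟩ := sumC_Sparse hε
  obtain ⟨d, r, Φ, -, hgr, hΦ, hcod⟩ := exists_codingC good_Pol (fun k => 2 ^ 2 ^ k)
    (fun d k => (d + 1) * (2 ^ k + 1)) (fun d e => Polynomial.X ^ (K * (d + 1) * 4 ^ e))
    (fun d e => Set.mem_univ _)
  refine not_null_ev f Φ {y | ∃ e k j, j < (d e + 1) * (2 ^ k + 1) ∧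
    y = codeC (r e) (fun k => 2 ^ 2 ^ k) e k j} ?_ ?_ O ?_
  · intro B y hy
    refine hΦ B y fun e k i hi h => hy ⟨e, k, i, hi, h⟩
  · have h1 := hK d r (fun e n => by
      have := hgr e n
      rwa [Polynomial.eval_pow, Polynomial.eval_X] at this)
    filter_upwards [h1, hf] with N hN hfN
    refine le_trans ?_ (hN.trans hfN.le)
    have h2 := countC_le d r (fun k => 2 ^ 2 ^ k) (fun d k => (d + 1) * (2 ^ k + 1)) N
    exact_mod_cast h2
  · intro B
    refine hO _ fun L hSL hNL => ?_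
    obtain ⟨D, hD⟩ := cens_lt hSL
    obtain ⟨e, V, q, hde, hV, -, hL, hA⟩ := hcod B L D hNL
    set P : Polynomial ℕ := Polynomial.C 2 * (Polynomial.C 2 * Polynomial.X + 1) ^ 2 with hP
    have hPe : ∀ n, 2 ^ 2 ^ kap n ≤ P.eval n := fun n => by
      simp only [hP, Polynomial.eval_mul, Polynomial.eval_pow, Polynomial.eval_add,
        Polynomial.eval_C, Polynomial.eval_X, Polynomial.eval_one]
      exact sc_le n
    refine compl_of_census hV hL e (r e) (P + q.comp P + (r e).comp P + 7) (Set.mem_univ _)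
      (fun k => 2 ^ 2 ^ k) (fun k => (d e + 1) * (2 ^ k + 1)) kap upoly_kap upoly_sc
      ((UPoly.const _).mul (upoly_two_kap.add (UPoly.const 1))) le_sc ?_ ?_ hA
    · intro n
      have h1 := hPe n
      have h2 : q.eval (2 ^ 2 ^ kap n) ≤ q.eval (P.eval n) := NPC.eval_mono q h1
      have h3 : (r e).eval (2 ^ 2 ^ kap n) ≤ (r e).eval (P.eval n) := NPC.eval_mono _ h1
      have h7 : (P + q.comp P + (r e).comp P + 7).eval n =
          P.eval n + q.eval (P.eval n) + (r e).eval (P.eval n) + 7 := by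
        simp [Polynomial.eval_add, Polynomial.eval_comp]
      rw [h7]
      set s := 2 ^ 2 ^ kap n
      set a := P.eval n
      set b := q.eval a
      set c := (r e).eval a
      have e1 : 2 ^ (s + 1) ≤ 2 ^ (a + 1) := Nat.pow_le_pow_right (by norm_num) (by omega)
      have e2 : 2 ^ q.eval s ≤ 2 ^ b := Nat.pow_le_pow_right (by norm_num) h2
      have e3 : 2 ^ (r e).eval s ≤ 2 ^ c := Nat.pow_le_pow_right (by norm_num) h3
      have e4 : 8 * 2 ^ q.eval s + 8 ≤ 2 ^ (b + 4) := by
        have : 1 ≤ 2 ^ b := Nat.one_le_two_pow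
        rw [pow_add]; omega
      have e5 : 2 ^ (s + 1) * (8 * 2 ^ q.eval s + 8) ≤ 2 ^ (a + b + 5) := by
        calc _ ≤ 2 ^ (a + 1) * 2 ^ (b + 4) := Nat.mul_le_mul e1 e4
          _ = 2 ^ (a + b + 5) := by
            rw [← pow_add]
            exact congrArg _ (by omega)
      have e6 : 2 ^ (a + b + 5) ≤ 2 ^ (a + b + c + 5) :=
        Nat.pow_le_pow_right (by norm_num) (by omega)
      have e7 : 2 ^ c ≤ 2 ^ (a + b + c) := Nat.pow_le_pow_right (by norm_num) (by omega)
      have e8 : 1 ≤ 2 ^ (a + b + c) := Nat.one_le_two_pow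
      have e9 : 2 ^ (a + b + c + 5) = 2 ^ (a + b + c) * 32 := by rw [pow_add]; norm_num
      have e10 : 2 ^ (a + b + c + 7) = 2 ^ (a + b + c) * 128 := by rw [pow_add]; norm_num
      omega
    · intro n
      rw [hde]
      exact hD _

end Pool.Agent.H622R2.Exp
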