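import Pool.Agent.H622R2.Exp.Base
import Pool.Agent.H622R2.Exp.G
import Pool.Agent.H622R2.Exp.E2
import Pool.Agent.H622R2.Exp.F2
import Pool.Agent.H620R2.Gauge2.Null
import Pool.Agent.H620R2.Gauge.A1

/-!
# The sparse test language: a null set
-/

namespace Pool.Agent.H622R2.Exp

open Pool.Agent.NPC Pool.Agent.H620R2.Gauge Finset H568R2

namespace N5

/-- the inputs -/
def rp (n j : ℕ) : List Bool := List.replicate j true ++ List.replicate (n - j) false

theorem rp_length {n j : ℕ} (h : j ≤ n) : (rp n j).length = n := by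
  unfold rp
  rw [List.length_append, List.length_replicate, List.length_replicate]
  omega

theorem rp_inj {n j j' : ℕ} (h : rp n j = rp n j') : j = j' := by
  have h1 := congrArg (List.count true) h
  unfold rp at h1
  rw [List.count_append, List.count_append, List.count_replicate_self, List.count_replicate_self,
    List.count_replicate, List.count_replicate] at h1
  simpa using h1

theorem rp_mem (A : Oracle) (n j : ℕ) :
    rp n j ∈ (hitS A)ᶜ ↔ ¬ padq q4 (rp n j) ∈ hitLang A := by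
  rw [Set.mem_compl_iff]
  unfold hitS
  rw [Set.mem_ofPred_eq]
  constructor
  · intro h h'
    exact h ⟨⟨j, n - j, rfl⟩, h'⟩
  · intro h h'
    exact h h'.2

theorem countable_poly : Countable (Polynomial ℕ) := by
  have : Function.Injective (fun p : Polynomial ℕ => (p.toFinsupp.coeff : ℕ →₀ ℕ)) := by
    intro p q h
    ext n
    exact DFunLike.congr_fun h n
  exact this.countable

/-- the oracles for which the parameters are good -/
def EasyS (θ : Alg × Polynomial ℕ) : Set Oracle :=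
  {A | ∀ x : List Bool, (x ∈ (hitS A)ᶜ ↔ ∃ w : List Bool, w.length ≤ 2 ^ θ.2.eval x.length ∧
    θ.1.out A (pairBits w x) = some [true])}

theorem small_pow (s : ℕ) (hs : 2 ≤ s) : 50 * s ^ 2 ≤ 16 ^ s := by
  induction s, hs using Nat.le_induction with
  | base => norm_num
  | succ s hs ih =>
    rw [pow_succ 16 s]
    nlinarith

end N5

open N5 in
theorem nullS {f : ℕ → ℝ}
    (hf : ∀ (q : Polynomial ℕ) (δ : ℝ), 0 < δ → ∀ u₀ : ℕ, ∃ u N : ℕ, u₀ ≤ u ∧
      2 ^ 2 ^ q.eval (2 ^ u) ≤ N ∧ 3 / 2 ^ (u / 8) * 2 ^ f N ≤ δ) :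
    Null f {A | InNTime Pol A (hitS A)ᶜ} := by
  have := countable_poly
  refine (null_iUnion (f := f) EasyS fun θ => ?_).mono fun A hA => ?_
  · intro δ hδ
    obtain ⟨r, _, hr3, hr⟩ := evC_of good_Pol θ.1 (Set.mem_univ θ.2)
    obtain ⟨n₀, hn₀⟩ := evC_bound θ.1 θ.2
    obtain ⟨u, N, hu, hN, hb⟩ := hf r δ hδ (n₀ + 16)
    have hs : 2 ≤ u / 8 := by omega
    have hun : u < 2 ^ u := Nat.lt_two_pow_self
    have hcard : 50 * (u / 8) ^ 2 * 16 ^ (u / 8) ≤ 2 ^ u := by
      calc 50 * (u / 8) ^ 2 * 16 ^ (u / 8) ≤ 16 ^ (u / 8) * 16 ^ (u / 8) :=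
            Nat.mul_le_mul_right _ (small_pow _ hs)
        _ = 2 ^ (8 * (u / 8)) := by
            rw [← pow_add, show (16 : ℕ) = 2 ^ 4 by norm_num, ← pow_mul]
            congr 1
            ring
        _ ≤ 2 ^ u := Nat.pow_le_pow_right (by norm_num) (by omega)
    have hnn : 2 ^ u ≤ 2 ^ 2 ^ u := Nat.pow_le_pow_right (by norm_num) hun.le
    -- the inputs
    have hF : Fintype.card ((Fin (2 ^ (u / 8)) × Fin (5 * (u / 8))) ×
        Fin (10 * (u / 8) * 8 ^ (u / 8))) = 50 * (u / 8) ^ 2 * 16 ^ (u / 8) := by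
      rw [Fintype.card_prod, Fintype.card_prod, Fintype.card_fin, Fintype.card_fin,
        Fintype.card_fin, show (16 : ℕ) = 2 * 8 by norm_num, mul_pow]
      ring
    have hlt : ∀ k : (Fin (2 ^ (u / 8)) × Fin (5 * (u / 8))) × Fin (10 * (u / 8) * 8 ^ (u / 8)),
        (Fintype.equivFin _ k).val < 2 ^ u := fun k =>
      lt_of_lt_of_le (Fintype.equivFin _ k).isLt (hF.le.trans hcard)
    let x : (Fin (2 ^ (u / 8)) × Fin (5 * (u / 8))) × Fin (10 * (u / 8) * 8 ^ (u / 8)) →
        List Bool := fun k => rp (2 ^ u) (Fintype.equivFin _ k).val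
    have hx1 : ∀ k, (x k).length = 2 ^ u := fun k => rp_length (hlt k).le
    have hx2 : Function.Injective x := by
      intro k k' h
      exact (Fintype.equivFin _).injective (Fin.ext (rp_inj h))
    have hN' : 2 ^ (3 * mm (2 ^ u) + 1) ≤ N :=
      le_trans (Nat.pow_le_pow_right (by norm_num) (hr3 (2 ^ u))) hN
    have hev := hn₀ (2 ^ u) (by omega) N (u / 8) (by omega) (hcard.trans hnn) hN' x hx2 hx1
    refine cover_of_event (EvC θ.1 θ.2 (2 ^ u) N x) (EasyS θ) (fun A hA => ?_) f δ ?_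
    · refine hr A (2 ^ u) x hx1 (fun k => ?_) N hN
      rw [← rp_mem A (2 ^ u) _]
      have h1 := hA (x k)
      rw [hx1 k] at h1
      exact h1
    · exact (mul_le_mul_of_nonneg_right hev (by positivity)).trans hb
  · obtain ⟨V, ⟨M, hM⟩, q, _, hq⟩ := hA
    refine Set.mem_iUnion.2 ⟨(M, q), fun x => ?_⟩
    rw [hq x]
    simp only [hM, Option.some.injEq]

end Pool.Agent.H622R2.Exp
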