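import Pool.Agent.H622R2.Exp.YAux

namespace Pool.Agent.H622R2.Exp

open Filter YAux

theorem asyS {f : ℕ → ℝ}
    (hf : ∀ ε : ℝ, 0 < ε → ∃ᶠ N : ℕ in Filter.atTop,
      f N ≤ ε * Real.logb 2 (Real.logb 2 (Real.logb 2 N))) (q : Polynomial ℕ) (δ : ℝ)
    (hδ : 0 < δ) (u₀ : ℕ) : ∃ u N : ℕ, u₀ ≤ u ∧ 2 ^ 2 ^ q.eval (2 ^ u) ≤ N ∧
      3 / 2 ^ (u / 8) * 2 ^ f N ≤ δ := by
  obtain ⟨D, hD, hq⟩ := poly_bound q
  obtain ⟨n₁, hn₁⟩ := (ev_non δ hδ).exists_forall_of_atTop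
  set m := max (max u₀ n₁) 2 with hm
  have hD0 : (0:ℝ) < D := by exact_mod_cast hD
  have hmono : Monotone (fun u : ℕ => (2 ^ u + 2) ^ D) := by
    intro a b hab
    exact Nat.pow_le_pow_left (by have := Nat.pow_le_pow_right (n := 2) (by norm_num) hab; omega) D
  have hunb : ∀ l, ∃ n, l < (fun u : ℕ => (2 ^ u + 2) ^ D) n := by
    intro l
    refine ⟨l, ?_⟩
    calc l < 2 ^ l := Nat.lt_two_pow_self
      _ ≤ (2 ^ l + 2) ^ 1 := by rw [pow_one]; omega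
      _ ≤ (2 ^ l + 2) ^ D := Nat.pow_le_pow_right (by positivity) hD
  obtain ⟨N, hN1, hN2, hN4⟩ := ((hf (1 / (16 * (D:ℝ))) (by positivity)).and_eventually
    ((eventually_ge_atTop (2 ^ 2 ^ ((2 ^ m + 2) ^ D))).and (eventually_ge_atTop 4))).exists
  obtain ⟨u, hu, h1, h2, h3⟩ := choose_pol hmono hunb m hN2 hN4
  have hu0 : u₀ ≤ u := (le_max_left u₀ n₁).trans ((le_max_left _ _).trans hu)
  have hu1 : n₁ ≤ u := (le_max_right u₀ n₁).trans ((le_max_left _ _).trans hu)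
  refine ⟨u, N, hu0, ?_, ?_⟩
  · exact le_trans (Nat.pow_le_pow_right (by norm_num)
      (Nat.pow_le_pow_right (by norm_num) (hq (2 ^ u)))) h1
  · apply hn₁ u hu1
    refine hN1.trans ?_
    have h4 : (((2 ^ (u + 1) + 2) ^ D : ℕ) : ℝ) ≤ (2:ℝ) ^ ((D:ℝ) * ((u:ℝ) + 2)) := by
      have a1 : 2 ^ (u + 1) + 2 ≤ 2 ^ (u + 2) := by
        have : 2 ^ (u + 2) = 2 ^ (u + 1) + 2 ^ (u + 1) := by ring
        have h2u : 2 ≤ 2 ^ (u + 1) := by
          calc 2 = 2 ^ 1 := by norm_num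
            _ ≤ 2 ^ (u + 1) := Nat.pow_le_pow_right (by norm_num) (by omega)
        omega
      have a2 : (2 ^ (u + 1) + 2) ^ D ≤ 2 ^ (D * (u + 2)) := by
        rw [mul_comm, pow_mul]
        exact Nat.pow_le_pow_left a1 D
      have a3 : (2:ℝ) ^ ((D:ℝ) * ((u:ℝ) + 2)) = 2 ^ (D * (u + 2)) := by
        rw [← Real.rpow_natCast]; push_cast; rfl
      rw [a3]
      exact_mod_cast a2
    have h5 : Real.logb 2 (Real.logb 2 (Real.logb 2 N)) ≤ (D:ℝ) * ((u:ℝ) + 2) := by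
      rw [Real.logb_le_iff_le_rpow (by norm_num) (by linarith)]
      exact h3.trans h4
    have h6 : 1 / (16 * (D:ℝ)) * Real.logb 2 (Real.logb 2 (Real.logb 2 N)) ≤
        1 / (16 * (D:ℝ)) * ((D:ℝ) * ((u:ℝ) + 2)) := by gcongr
    refine h6.trans ?_
    have h7 : 1 / (16 * (D:ℝ)) * ((D:ℝ) * ((u:ℝ) + 2)) = ((u:ℝ) + 2) / 16 := by
      field_simp
    rw [h7]
    linarith

end Pool.Agent.H622R2.Exp
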