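import Pool.Agent.H622R2.Exp.FinalNEXP
import Pool.Agent.H622R2.Exp.N5
import Pool.Agent.H622R2.Exp.K5
import Pool.Agent.H622R2.Exp.Y3

/-! Sparse languages in `NEXP` -/

namespace Pool.Agent.H622R2.Exp

open Pool.Agent.NPC Pool.Agent.H620R2.Gauge Filter

theorem resS (f : ℕ → ℝ) :
    (Null f {A : Oracle | ∀ L, Sparse L → InNTime Pol A L → InNTime Pol A Lᶜ} ↔
      ∀ ε : ℝ, 0 < ε → ∃ᶠ N : ℕ in atTop,
        f N ≤ ε * Real.logb 2 (Real.logb 2 (Real.logb 2 N))) ∧
    (Null f {A : Oracle | (∀ L, Sparse L → InNTime Pol A L → InNTime Pol A Lᶜ) ∧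
        ¬ ∀ L, InNTime Pol A L → InNTime Pol A Lᶜ} ↔
      ∀ ε : ℝ, 0 < ε → ∃ᶠ N : ℕ in atTop,
        f N ≤ ε * Real.logb 2 (Real.logb 2 (Real.logb 2 N))) := by
  have key : ∀ f : ℕ → ℝ,
      (Null f {A : Oracle | ∀ L, Sparse L → InNTime Pol A L → InNTime Pol A Lᶜ} ↔
      ∀ ε : ℝ, 0 < ε → ∃ᶠ N : ℕ in atTop,
        f N ≤ ε * Real.logb 2 (Real.logb 2 (Real.logb 2 N))) := by
    intro f
    constructor
    · intro hn ε hε
      by_contra hcon
      rw [not_frequently] at hcon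
      exact notNullS hε (hcon.mono fun N h => not_le.1 h) _ (fun A hA => hA) hn
    · intro hf
      exact (nullS (asyS hf)).mono fun A hA => hA _ (hitS_sparse A) (hitS_ntime good_Pol A)
  refine ⟨key f, ⟨fun hn => ?_, fun hf => ((key f).2 hf).mono fun A hA => hA.1⟩⟩
  by_contra hcon
  push Not at hcon
  obtain ⟨ε, hε, hcon⟩ := hcon
  -- the smaller gauge
  set g : ℕ → ℝ := fun N => min (f N) (Real.logb 2 (Real.logb 2 (Real.logb 2 N))) with hg
  have hgE : Null g {A : Oracle | ∀ L, InNTime Pol A L → InNTime Pol A Lᶜ} := by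
    refine Null.mono ((resNEXP g).1.2 fun ε' hε' => ?_) fun A hA L => ?_
    · exact ((logloglog_le hε').mono fun N h => (min_le_right _ _).trans h).frequently
    · refine ⟨hA L, fun h => ?_⟩
      have := hA _ h
      rwa [compl_compl] at this
  have hgN : Null g {A : Oracle | (∀ L, Sparse L → InNTime Pol A L → InNTime Pol A Lᶜ) ∧
        ¬ ∀ L, InNTime Pol A L → InNTime Pol A Lᶜ} :=
    hn.anti fun N => min_le_left _ _
  have h1 : Null g {A : Oracle | ∀ L, Sparse L → InNTime Pol A L → InNTime Pol A Lᶜ} := by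
    refine (null_union hgE hgN).mono fun A hA => ?_
    by_cases h : ∀ L, InNTime Pol A L → InNTime Pol A Lᶜ
    · exact Or.inl h
    · exact Or.inr ⟨hA, h⟩
  have h2 := (key g).1 h1 (min ε (1 / 2)) (by positivity)
  apply h2
  have h3 : ∀ᶠ N : ℕ in atTop, ε * Real.logb 2 (Real.logb 2 (Real.logb 2 N)) < f N := hcon
  filter_upwards [h3, logloglog_tendsto.eventually_gt_atTop 0] with N h4 h5
  rw [not_le, hg]
  apply lt_min
  · exact lt_of_le_of_lt (mul_le_mul_of_nonneg_right (min_le_left _ _) h5.le) h4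
  · have : min ε (1 / 2) * Real.logb 2 (Real.logb 2 (Real.logb 2 N)) ≤
        1 / 2 * Real.logb 2 (Real.logb 2 (Real.logb 2 N)) :=
      mul_le_mul_of_nonneg_right (min_le_right _ _) h5.le
    linarith

end Pool.Agent.H622R2.Exp
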