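import Pool.Agent.H622R2.Exp.Base
import Pool.Agent.H620R2.Gauge.S
import Pool.Agent.NPC.Num

/-! Auxiliary lemmas for the tasks K2, K4, K5. -/

namespace Pool.Agent.H622R2.Exp

open Pool.Agent.NPC Pool.Agent.H620R2.Gauge Finset H568R2

namespace KAux

/-- two to a power computable in unary is polynomial-time computable -/
theorem poly_two_pow {α : Type} [TEnc α] {n : α → ℕ} (hn : UPoly n) :
    Poly (fun a => 2 ^ n a) := by
  have h1 : Poly (fun a => List.replicate (n a) false) :=
    (NPC.Poly.map hn (F := fun _ _ => false) (NPC.Poly.const false)).congr fun a => by simp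
  have h2 : Poly (fun a => valB (List.replicate (n a) false ++ [true])) :=
    NPC.Poly.valBits (NPC.Poly.append h1 (NPC.Poly.const [true]))
  refine h2.congr fun a => ?_
  rw [valB_append]
  have h3 : ∀ k : ℕ, valB (List.replicate k false) = 0 := by
    intro k
    induction k with
    | zero => rfl
    | succ k ih => simp [List.replicate_succ, ih]
  rw [h3]
  simp [valB]

theorem upoly_size : UPoly (fun x : List Bool => x.length.size) := by
  have h2 : UPoly (fun x : List Bool => x.length.bits.length) :=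
    UPoly.length (Poly.natBits (Poly.length Poly.id))
  refine Poly.congr h2 fun x => ?_
  simp only [Nat.size_eq_bits_len]

theorem two_pow_size_le (n : ℕ) : 2 ^ n.size ≤ 2 * n + 1 := by
  rcases Nat.eq_zero_or_pos n with rfl | hn
  · simp
  · have h1 : n.size - 1 < n.size := by
      have : 0 < n.size := Nat.size_pos.2 hn
      omega
    have h2 : 2 ^ (n.size - 1) ≤ n := Nat.lt_size.1 h1
    have h3 : 2 ^ n.size = 2 * 2 ^ (n.size - 1) := by
      rw [← pow_succ']
      congr 1
      omega
    omega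

theorem upoly_two_pow_size : UPoly (fun x : List Bool => 2 ^ x.length.size) := by
  refine UPoly.of_le (poly_two_pow upoly_size)
    (n := fun x : List Bool => 2 * x.length + 1) ?_ fun x => two_pow_size_le _
  exact ((UPoly.const 2).mul (UPoly.length Poly.id)).add (UPoly.const 1)

theorem cens_lt (L : Set (List Bool)) (s : ℕ) : cens L s < 2 ^ (s + 1) := by
  have h1 : Set.ncard {x : List Bool | x ∈ L ∧ x.length ≤ s} ≤
      Set.ncard ((Finset.range (2 ^ (s + 1) - 1) : Finset ℕ) : Set ℕ) := by
    apply Set.ncard_le_ncard_of_injOn idx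
    · rintro x ⟨-, hx⟩
      rw [Finset.mem_coe, Finset.mem_range]
      have h2 := idx_lt x
      have h3 : 2 ^ (x.length + 1) ≤ 2 ^ (s + 1) := Nat.pow_le_pow_right (by norm_num) (by omega)
      omega
    · intro x _ y _ hxy
      rw [← str_idx x, ← str_idx y, hxy]
  rw [Set.ncard_coe_finset, Finset.card_range] at h1
  have h4 : 0 < 2 ^ (s + 1) := by positivity
  unfold cens
  omega

theorem eval_mono (p : Polynomial ℕ) {a b : ℕ} (h : a ≤ b) : p.eval a ≤ p.eval b := by
  rw [Polynomial.eval_eq_sum, Polynomial.eval_eq_sum]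
  unfold Polynomial.sum
  exact Finset.sum_le_sum fun i _ => Nat.mul_le_mul_left _ (Nat.pow_le_pow_left h i)

theorem len_le (q r : Polynomial ℕ) {s S : ℕ} (h : s ≤ S) :
    2 ^ (s + 1) * (8 * 2 ^ q.eval s + 8) + 8 * 2 ^ r.eval s + 8 ≤
      2 ^ (S + q.eval S + r.eval S + 6) := by
  have h1 := eval_mono q h
  have h2 := eval_mono r h
  have h3 : 2 ^ (s + q.eval s + r.eval s + 6) ≤ 2 ^ (S + q.eval S + r.eval S + 6) :=
    Nat.pow_le_pow_right (by norm_num) (by omega)
  refine le_trans ?_ h3
  set u := q.eval s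
  set v := r.eval s
  have e : 2 ^ (s + u + v + 6) = 64 * (2 ^ s * 2 ^ u * 2 ^ v) := by
    rw [pow_add, pow_add, pow_add]; ring
  rw [e, pow_succ]
  have a1 : 1 ≤ 2 ^ s := Nat.one_le_two_pow
  have a2 : 1 ≤ 2 ^ u := Nat.one_le_two_pow
  have a3 : 1 ≤ 2 ^ v := Nat.one_le_two_pow
  generalize 2 ^ s = x at *
  generalize 2 ^ u = y at *
  generalize 2 ^ v = z at *
  have b1 : x * y ≤ x * y * z := Nat.le_mul_of_pos_right _ a3
  have b2 : x ≤ x * y := Nat.le_mul_of_pos_right _ a2
  have b3 : z ≤ x * y * z := Nat.le_mul_of_pos_left _ (Nat.mul_pos a1 a2)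
  have b4 : 1 ≤ x * y * z := Nat.mul_pos (Nat.mul_pos a1 a2) a3
  nlinarith

end KAux

end Pool.Agent.H622R2.Exp
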