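import Pool.Agent.H622R2.Exp.Base
import Pool.Agent.H620R2.GaugeR.R2
import Pool.Agent.H620R2.Gauge.S
import Pool.Agent.H671R2.PolyAuto

/-!
# Task M1: the census verifier is a polynomial-time oracle algorithm (helper653)
-/

namespace Pool.Agent.H622R2.Exp

open Pool.Agent.NPC Pool.Agent.H620R2.Gauge Finset

namespace M1

variable {α : Type} [TEnc α]

/-- the data in the certificate -/
def dt (z : List Bool) : Dat := (unbits Dat (unpair z).1).getD ([], [])

theorem poly_dt : Poly dt :=
  Poly.optGetD (poly_unbits.comp (Poly.fst poly_unpair)) (NPC.Poly.const _)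

/-- entry `i` -/
def ent (z : List Bool) (i : ℕ) : Option (List Bool) := (dt z).1.getD i none

theorem poly_ent {z : α → List Bool} {i : α → ℕ} (hz : Poly z) (hi : Poly i) :
    Poly (fun a => ent (z a) (i a)) :=
  Poly.getD (Poly.fst (poly_dt.comp hz)) hi (NPC.Poly.const none)

theorem poly_str {i : α → ℕ} (hi : Poly i) : Poly (fun a => str (i a)) :=
  Poly.tail (Poly.reverse (Poly.natBits (Poly.succ hi)))

theorem idx_eq_valB (y : List Bool) : idx y = valB (y.reverse ++ [true]) - 1 := by
  rw [idx_eq, ← bits_sval, valB_bits]

theorem poly_idx {y : α → List Bool} (hy : Poly y) : Poly (fun a => idx (y a)) :=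
  (Poly.sub (Poly.valBits (Poly.append (Poly.reverse hy) (NPC.Poly.const [true])))
    (NPC.Poly.const 1)).congr fun _ => (idx_eq_valB _).symm

theorem poly_rep {n : α → ℕ} (hn : UPoly n) (b : Bool) :
    Poly (fun a => List.replicate (n a) b) :=
  (NPC.Poly.map (F := fun _ _ => b) hn (NPC.Poly.const b)).congr fun a => by
    simp [List.map_replicate]

theorem poly_two_pow {n : α → ℕ} (hn : UPoly n) : Poly (fun a => 2 ^ n a) :=
  (Poly.valBits (Poly.append (poly_rep hn false) (NPC.Poly.const [true]))).congr fun a => by
    rw [valB_replicate_false]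
    simp

theorem upoly_min {n m : α → ℕ} (hn : UPoly n) (hm : Poly m) :
    UPoly (fun a => min (m a) (n a)) :=
  UPoly.of_le (Poly.min hm hn.toPoly) hn fun _ => min_le_right _ _

theorem poly_cqs (e : ℕ) {k b : α → ℕ} {pd : α → List Bool} (hk : UPoly k) (hb : UPoly b)
    (hpd : Poly pd) : Poly (fun a => cqs e (k a) (b a) (pd a)) := by
  have h1 : Poly (fun p : α × ℕ => List.replicate e true ++ false ::
      (List.replicate (k p.1) true ++ false ::
        (List.replicate (min p.2 (b p.1)) true ++ false :: pd p.1))) := by
    refine Poly.append (NPC.Poly.const _) (Poly.cons (NPC.Poly.const _) (Poly.append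
      (poly_rep (hk.comp (Poly.fst Poly.id)) true) (Poly.cons (NPC.Poly.const _) (Poly.append
      (poly_rep (upoly_min (hb.comp (Poly.fst Poly.id)) (Poly.snd Poly.id)) true)
      (Poly.cons (NPC.Poly.const _) (hpd.comp (Poly.fst Poly.id)))))))
  refine (NPC.Poly.map (F := fun a i => List.replicate e true ++ false ::
      (List.replicate (k a) true ++ false ::
        (List.replicate (min i (b a)) true ++ false :: pd a))) hb.range h1).congr fun a => ?_
  unfold cqs
  refine List.map_congr_left fun i hi => ?_
  rw [List.mem_range] at hi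
  rw [min_eq_left hi.le]

/-- the questions to the verifier of the language -/
def wf (p : (ℕ × List Bool) × List Bool) : List Bool :=
  (ent p.1.2 p.1.1).elim [] fun w => pairBits w (str p.1.1)

theorem poly_wf : Poly wf :=
  Poly.optElim (h := fun (p : (ℕ × List Bool) × List Bool) w => pairBits w (str p.1.1))
    (poly_ent (Poly.snd (Poly.fst Poly.id)) (Poly.fst (Poly.fst Poly.id))) (NPC.Poly.const [])
    (poly_pairBits (Poly.snd Poly.id) (poly_str (Poly.fst (Poly.fst (Poly.fst Poly.id)))))

theorem exists_T : ∃ T : Polynomial ℕ, ∀ z, (dt z).1.length ≤ T.eval z.length := by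
  obtain ⟨P, hP⟩ := poly_dt.sz_le
  refine ⟨P.comp (Polynomial.C 4 * Polynomial.X + Polynomial.C 1), fun z => ?_⟩
  have h1 := length_lt_sz (dt z).1
  have h2 : sz (dt z) = sz (dt z).1 + sz (dt z).2 + 1 := by
    obtain ⟨a, b⟩ := dt z
    exact sz_pair _ _
  have h3 := hP z
  have h4 : P.eval (sz z) ≤ (P.comp (Polynomial.C 4 * Polynomial.X + Polynomial.C 1)).eval
      z.length := by
    rw [Polynomial.eval_comp]
    refine eval_mono _ ?_
    simp only [Polynomial.eval_add, Polynomial.eval_mul, Polynomial.eval_C, Polynomial.eval_X]
    exact sz_listBool_le z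
  omega

/-- the test -/
noncomputable def tst (q r : Polynomial ℕ) (sc κ : ℕ → ℕ) (z v a : List Bool) : Bool :=
  ((dt z).2.all id && decide ((dt z).2.length = 2 ^ r.eval (sc (κ (unpair z).2.length)))) &&
  (((List.range (dt z).1.length).all fun i => (ent z i).elim true fun w =>
    (decide ((str i).length ≤ sc (κ (unpair z).2.length)) &&
      decide (w.length ≤ 2 ^ q.eval (str i).length)) && v.getD i false) &&
  (decide (ent z (idx (unpair z).2) = none) &&
    decide (valB a = ((dt z).1.filter Option.isSome).length)))

theorem poly_tst (q r : Polynomial ℕ) {sc κ : ℕ → ℕ}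
    (hsc : UPoly (fun x : List Bool => sc (κ x.length))) {z v a : α → List Bool}
    (hz : Poly z) (hv : Poly v) (ha : Poly a) :
    Poly (fun t => tst q r sc κ (z t) (v t) (a t)) := by
  have hd := poly_dt.comp hz
  have hx : Poly (fun t => (unpair (z t)).2) := Poly.snd (poly_unpair.comp hz)
  have hs : UPoly (fun t => sc (κ (unpair (z t)).2.length)) := hsc.comp hx
  unfold tst
  refine Poly.and (Poly.and (Poly.all (p := fun _ b => b) (Poly.snd hd) (Poly.snd Poly.id))
    (Poly.decide_eq (Poly.length (Poly.snd hd)) (poly_two_pow (hs.eval r)))) (Poly.and ?_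
    (Poly.and (Poly.decide_eq (poly_ent hz (poly_idx hx)) (NPC.Poly.const none))
      (Poly.decide_eq (Poly.valBits ha) (Poly.length (Poly.filter (p := fun _ o => Option.isSome o)
        (Poly.fst hd) ?_)))))
  · refine Poly.all (l := fun t => List.range (dt (z t)).1.length)
      (p := fun t i => (ent (z t) i).elim true fun w =>
        (decide ((str i).length ≤ sc (κ (unpair (z t)).2.length)) &&
          decide (w.length ≤ 2 ^ q.eval (str i).length)) && (v t).getD i false)
      (UPoly.range (UPoly.length (Poly.fst hd))) ?_
    refine Poly.optElim (α := α × ℕ) (o := fun p => ent (z p.1) p.2) (g := fun _ => true)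
      (h := fun p w => (decide ((str p.2).length ≤ sc (κ (unpair (z p.1)).2.length)) &&
          decide (w.length ≤ 2 ^ q.eval (str p.2).length)) && (v p.1).getD p.2 false)
      (poly_ent (hz.comp (Poly.fst Poly.id)) (Poly.snd Poly.id)) (NPC.Poly.const true) ?_
    have h1 : Poly (fun p : (α × ℕ) × List Bool => str p.1.2) :=
      poly_str (Poly.snd (Poly.fst Poly.id))
    refine Poly.and (Poly.and (Poly.decide_le (Poly.length h1)
      ((hs.toPoly).comp (Poly.fst (Poly.fst Poly.id))))
      (Poly.decide_le (Poly.length (Poly.snd Poly.id))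
        (poly_two_pow ((UPoly.length h1).eval q))))
      (Poly.getD (hv.comp (Poly.fst (Poly.fst Poly.id))) (Poly.snd (Poly.fst Poly.id))
        (NPC.Poly.const false))
  · refine (Poly.optElim (α := α × Option (List Bool)) (o := fun p => p.2) (g := fun _ => false)
      (h := fun _ _ => true) (Poly.snd Poly.id) (NPC.Poly.const false)
      (NPC.Poly.const true)).congr fun p => ?_
    rcases p with ⟨_, _ | _⟩ <;> rfl

theorem tst_iff (A : Oracle) (V : List Bool → List Bool) (q r : Polynomial ℕ) (e : ℕ)
    (sc β κ : ℕ → ℕ) (z : List Bool) {T : Polynomial ℕ}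
    (hT : ∀ z, (dt z).1.length ≤ T.eval z.length) {d : Dat}
    (hd : unbits Dat (unpair z).1 = some d) :
    tst q r sc κ z ((List.range (T.eval z.length)).map
        (fun i => decide (V (wf ((i, z), (([] : List (List Bool))).map A)) = [true])))
      ((cqs e (κ (unpair z).2.length) (β (κ (unpair z).2.length)) (dt z).2).map A) = true ↔
    (d.2 = List.replicate (2 ^ r.eval (sc (κ (unpair z).2.length))) true ∧
      (∀ (i : ℕ) (w : List Bool), d.1[i]? = some (some w) →
        (str i).length ≤ sc (κ (unpair z).2.length) ∧ w.length ≤ 2 ^ q.eval (str i).length ∧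
        V (pairBits w (str i)) = [true]) ∧
      (d.1[idx (unpair z).2]?).join = none ∧
      valB ((cqs e (κ (unpair z).2.length) (β (κ (unpair z).2.length)) d.2).map A) =
        (d.1.filter Option.isSome).length) := by
  have hdt : dt z = d := by
    unfold dt
    rw [hd]
    rfl
  have hent : ∀ i w, ent z i = some w ↔ d.1[i]? = some (some w) := by
    intro i w
    unfold ent
    rw [hdt, List.getD_eq_getElem?_getD]
    cases h : d.1[i]? with
    | none => simp
    | some o => simp
  have hent' : ∀ i, ent z i = (d.1[i]?).join := by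
    intro i
    unfold ent
    rw [hdt, List.getD_eq_getElem?_getD]
    cases h : d.1[i]? with
    | none => simp
    | some o => simp
  unfold tst
  rw [Bool.and_eq_true, Bool.and_eq_true, Bool.and_eq_true, Bool.and_eq_true, decide_eq_true_eq,
    decide_eq_true_eq, decide_eq_true_eq, hdt]
  refine and_congr ?_ (and_congr ?_ (and_congr ?_ Iff.rfl))
  · rw [List.eq_replicate_iff, List.all_eq_true]
    constructor
    · rintro ⟨h1, h2⟩
      exact ⟨h2, fun b hb => h1 b hb⟩
    · rintro ⟨h1, h2⟩
      exact ⟨fun b hb => h2 b hb, h1⟩
  · rw [List.all_eq_true]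
    constructor
    · intro h i w hi
      have hil : i < d.1.length := by
        by_contra hcon
        rw [List.getElem?_eq_none (by omega)] at hi
        exact absurd hi (by simp)
      have h1 := h i (List.mem_range.2 hil)
      rw [(hent i w).2 hi] at h1
      simp only [Option.elim, Bool.and_eq_true, decide_eq_true_eq] at h1
      refine ⟨h1.1.1, h1.1.2, ?_⟩
      have hiT : i < T.eval z.length := by
        have := hT z
        rw [hdt] at this
        omega
      have h2 := h1.2
      rw [List.getD_eq_getElem?_getD, List.getElem?_map, List.getElem?_range hiT] at h2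
      simp only [Option.map_some, Option.getD_some, decide_eq_true_eq] at h2
      unfold wf at h2
      simp only [(hent i w).2 hi, Option.elim] at h2
      exact h2
    · intro h i hi
      rw [List.mem_range] at hi
      cases hw : ent z i with
      | none => rfl
      | some w =>
        obtain ⟨h1, h2, h3⟩ := h i w ((hent i w).1 hw)
        simp only [Option.elim, Bool.and_eq_true, decide_eq_true_eq]
        refine ⟨⟨h1, h2⟩, ?_⟩
        have hiT : i < T.eval z.length := by
          have := hT z
          rw [hdt] at this
          omega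
        rw [List.getD_eq_getElem?_getD, List.getElem?_map, List.getElem?_range hiT]
        simp only [Option.map_some, Option.getD_some, decide_eq_true_eq]
        unfold wf
        simp only [hw, Option.elim]
        exact h3
  · rw [hent']

end M1

theorem ver_isFP {A : Oracle} {V : List Bool → List Bool} (hV : IsFP A V) (q r : Polynomial ℕ)
    (e : ℕ) (sc β κ : ℕ → ℕ) (hκ : UPoly (fun x : List Bool => κ x.length))
    (hsc : UPoly (fun x : List Bool => sc (κ x.length)))
    (hβ : UPoly (fun x : List Bool => β (κ x.length))) : IsFP A (Ver A V q r e sc β κ) := by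
  obtain ⟨T, hT⟩ := M1.exists_T
  have hx : Poly (fun z : List Bool => (unpair z).2) := Poly.snd poly_unpair
  have h1 := IsFP.votes hV T (Q := fun _ => []) (NPC.Poly.const []) M1.poly_wf
    (H := fun p => p.2) (Poly.snd Poly.id)
  have h2 : IsFP A (fun z => (cqs e (κ (unpair z).2.length) (β (κ (unpair z).2.length))
      (M1.dt z).2).map A) :=
    IsFP.tt (H := fun p => p.2) (M1.poly_cqs e (hκ.comp hx) (hβ.comp hx) (Poly.snd M1.poly_dt))
      (Poly.snd Poly.id)
  have h0 : IsFP A (fun z : List Bool => z) := IsFP.of_poly Poly.id
  have h3 := IsFP.pair h0 (IsFP.pair h1 h2)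
  have hfin : Poly (fun y : List Bool =>
      if ((unbits Dat (unpair (unpair y).1).1).isSome &&
        M1.tst q r sc κ (unpair y).1 (unpair (unpair y).2).1 (unpair (unpair y).2).2) = true then
        [true] else ([] : List Bool)) := by
    have hz : Poly (fun y : List Bool => (unpair y).1) := Poly.fst poly_unpair
    have hy : Poly (fun y : List Bool => (unpair y).2) := Poly.snd poly_unpair
    refine Poly.ite (Poly.decide_bool (Poly.and ?_ (M1.poly_tst q r hsc hz
      (Poly.fst (poly_unpair.comp hy)) (Poly.snd (poly_unpair.comp hy))))) (NPC.Poly.const _)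
      (NPC.Poly.const _)
    refine (Poly.optElim (o := fun y : List Bool => unbits Dat (unpair (unpair y).1).1)
      (g := fun _ => false) (h := fun _ _ => true)
      (poly_unbits.comp (Poly.fst (poly_unpair.comp hz))) (NPC.Poly.const false)
      (NPC.Poly.const true)).congr fun y => ?_
    cases unbits Dat (unpair (unpair y).1).1 <;> rfl
  have h4 := IsFP.comp (IsFP.of_poly hfin) h3
  refine (congrArg (IsFP A) (funext fun z => ?_)).mp h4
  simp only [unpair_pairBits]
  unfold Ver
  cases hd : unbits Dat (unpair z).1 with
  | none => simp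
  | some d =>
    simp only [Option.isSome_some, Bool.true_and]
    classical exact if_congr (M1.tst_iff A V q r e sc β κ z hT hd) rfl rfl

end Pool.Agent.H622R2.Exp
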