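import Pool.Agent.H622R2.Exp.Base
import Pool.Agent.H620R2.Gauge2.V1

/-!
# The identity for planted windows
-/

namespace Pool.Agent.H622R2.Exp

open Pool.Agent.NPC Pool.Agent.H620R2.Gauge Finset H568R2

section

variable {I : Type*} [Fintype I] [DecidableEq I]

namespace P1

omit [Fintype I] in
theorem ones1_insert_update {P : Finset I} {i : I} (hi : i ∉ P) (a : I → Bool) (c : Bool) :
    ones1 (insert i P) (Function.update a i c) = if c = true then ones1 P a else 0 := by
  unfold ones1
  have h : (∀ j ∈ insert i P, Function.update a i c j = true) ↔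
      (c = true ∧ ∀ j ∈ P, a j = true) := by
    constructor
    · intro h
      refine ⟨by simpa using h i (Finset.mem_insert_self i P), fun j hj => ?_⟩
      have hji : j ≠ i := by
        rintro rfl
        exact hi hj
      have := h j (Finset.mem_insert_of_mem hj)
      rwa [Function.update_of_ne hji] at this
    · rintro ⟨hc, h⟩ j hj
      rcases Finset.mem_insert.1 hj with rfl | hj'
      · simpa using hc
      · have hji : j ≠ i := by
          rintro rfl
          exact hi hj'
        rw [Function.update_of_ne hji]
        exact h j hj'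
  by_cases hc : c = true
  · rw [if_pos hc]
    refine if_congr (h.trans ⟨fun h' => h'.2, fun h' => ⟨hc, h'⟩⟩) rfl rfl
  · rw [if_neg hc, if_neg]
    intro h'
    exact hc (h.1 h').1

omit [Fintype I] in
theorem update_pl {P : Finset I} {i : I} (a : I → Bool) :
    Function.update (pl P a) i true = pl (insert i P) a := by
  funext j
  by_cases hj : j = i
  · subst hj
    simp [pl]
  · simp [pl, hj]

theorem Ex_ones1 (P : Finset I) (F : (I → Bool) → ℝ) :
    Ex unif (fun a => F a * ones1 P a) = (1 / 2) ^ P.card * Ex unif (fun a => F (pl P a)) := by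
  induction P using Finset.induction_on generalizing F with
  | empty =>
    have h : ∀ a : I → Bool, F a * ones1 ∅ a = F (pl ∅ a) := by
      intro a
      have h1 : pl ∅ a = a := by
        funext i
        simp [pl]
      rw [h1]
      simp [ones1]
    rw [funext h]
    simp
  | insert i P hi ih =>
    rw [Ex_resample unif_sum (fun a => F a * ones1 (insert i P) a) i]
    have e : ∀ a : I → Bool, ∑ c, unif c * (F (Function.update a i c) *
        ones1 (insert i P) (Function.update a i c)) =
        (1 / 2) * (F (Function.update a i true) * ones1 P a) := by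
      intro a
      rw [Fintype.sum_bool]
      simp only [ones1_insert_update hi]
      simp [unif]
    rw [funext e, Ex_smul, ih (fun a => F (Function.update a i true))]
    simp only [update_pl]
    rw [Finset.card_insert_of_notMem hi, pow_succ]
    ring

end P1

theorem avg_plant {τ C : Type*} [Fintype τ] [DecidableEq τ] [Fintype C] {m : ℕ}
    (W : τ → C → Finset I) (hW : ∀ t c, (W t c).card = m)
    (hd : ∀ t t' c c', t ≠ t' → Disjoint (W t c) (W t' c')) (S : Finset τ)
    (F : (I → Bool) → ℝ) :
    ∑ η : τ → C, Ex unif (fun a => F (pl (PS W S η) a)) =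
      (Fintype.card C : ℝ) ^ (Fintype.card τ - S.card) * 2 ^ (m * S.card) *
        Ex unif (fun a => F a * ∏ t ∈ S, ∑ c, ones1 (W t c) a) := by
  classical
  have hcard : ∀ η : τ → C, (PS W S η).card = m * S.card := by
    intro η
    unfold PS
    rw [Finset.card_biUnion]
    · simp only [hW, Finset.sum_const, smul_eq_mul]
      ring
    · intro t _ t' _ htt
      exact hd t t' _ _ htt
  have hprod : ∀ (η : τ → C) (a : I → Bool),
      ∏ t ∈ S, ones1 (W t (η t)) a = ones1 (PS W S η) a := by
    intro η a
    have hiff : (∀ i ∈ PS W S η, a i = true) ↔ ∀ t ∈ S, ∀ i ∈ W t (η t), a i = true := by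
      constructor
      · intro h t ht i hi
        exact h i (Finset.mem_biUnion.2 ⟨t, ht, hi⟩)
      · intro h i hi
        obtain ⟨t, ht, hti⟩ := Finset.mem_biUnion.1 hi
        exact h t ht i hti
    by_cases h : ∀ t ∈ S, ∀ i ∈ W t (η t), a i = true
    · have h1 : ones1 (PS W S η) a = 1 := if_pos (hiff.2 h)
      rw [h1]
      exact Finset.prod_eq_one fun t ht => if_pos (h t ht)
    · have h1 : ones1 (PS W S η) a = 0 := if_neg fun h' => h (hiff.1 h')
      rw [h1]
      push Not at h
      obtain ⟨t, ht, i, hi, hai⟩ := h
      exact Finset.prod_eq_zero ht (if_neg fun h' => hai (h' i hi))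
  have hexp : ∀ a : I → Bool, (Fintype.card C : ℝ) ^ (Fintype.card τ - S.card) *
      ∏ t ∈ S, ∑ c, ones1 (W t c) a = ∑ η : τ → C, ones1 (PS W S η) a := by
    intro a
    have h1 : ∑ η : τ → C, ones1 (PS W S η) a =
        ∑ η : τ → C, ∏ t, (if t ∈ S then ones1 (W t (η t)) a else 1) := by
      refine Finset.sum_congr rfl fun η _ => ?_
      rw [← hprod, Finset.prod_ite_mem, Finset.univ_inter]
    rw [h1, ← Fintype.piFinset_univ,
      ← Finset.prod_univ_sum (fun _ : τ => (Finset.univ : Finset C))
        (fun t c => if t ∈ S then ones1 (W t c) a else 1)]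
    have h2 : ∀ t : τ, (∑ c : C, if t ∈ S then ones1 (W t c) a else (1 : ℝ)) =
        if t ∈ S then ∑ c, ones1 (W t c) a else (Fintype.card C : ℝ) := by
      intro t
      by_cases ht : t ∈ S <;> simp [ht]
    rw [Finset.prod_congr rfl fun t _ => h2 t, Finset.prod_ite, Finset.prod_const]
    have h3 : (Finset.univ.filter fun t : τ => t ∈ S) = S := by
      ext t
      simp
    have h4 : (Finset.univ.filter fun t : τ => t ∉ S).card = Fintype.card τ - S.card := by
      have h5 : (Finset.univ.filter fun t : τ => t ∉ S) = Sᶜ := by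
        ext t
        simp
      rw [h5, Finset.card_compl]
    rw [h3, h4, mul_comm]
  have hL : ∀ η : τ → C, Ex unif (fun a => F (pl (PS W S η) a)) =
      2 ^ (m * S.card) * Ex unif (fun a => F a * ones1 (PS W S η) a) := by
    intro η
    rw [P1.Ex_ones1, hcard, ← mul_assoc, ← mul_pow]
    norm_num
  have hfin : (fun a : I → Bool => ∑ k : τ → C, F a * ones1 (PS W S k) a) =
      fun a => (Fintype.card C : ℝ) ^ (Fintype.card τ - S.card) *
        (F a * ∏ t ∈ S, ∑ c, ones1 (W t c) a) := by
    funext a
    rw [← Finset.mul_sum, ← hexp]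
    ring
  rw [Finset.sum_congr rfl fun η _ => hL η, ← Finset.mul_sum, ← Ex_sum, hfin, Ex_smul]
  ring

end

end Pool.Agent.H622R2.Exp
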