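import Pool.Agent.H622R2.Exp.P1

/-!
# Task P4: planting windows changes expectations by little
-/

namespace Pool.Agent.H622R2.Exp

open Pool.Agent.NPC Pool.Agent.H620R2.Gauge Finset H568R2

section

variable {I : Type*} [Fintype I] [DecidableEq I]

namespace P4

omit [Fintype I] in
theorem ones1_mul (P Q : Finset I) (a : I → Bool) :
    ones1 P a * ones1 Q a = ones1 (P ∪ Q) a := by
  unfold ones1
  by_cases h1 : ∀ i ∈ P, a i = true
  · by_cases h2 : ∀ i ∈ Q, a i = true
    · rw [if_pos h1, if_pos h2, if_pos]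
      · ring
      · intro i hi
        rcases Finset.mem_union.1 hi with h | h
        · exact h1 i h
        · exact h2 i h
    · rw [if_neg h2, mul_zero, if_neg]
      intro h
      exact h2 fun i hi => h i (Finset.mem_union_right _ hi)
  · rw [if_neg h1, zero_mul, if_neg]
    intro h
    exact h1 fun i hi => h i (Finset.mem_union_left _ hi)

theorem Ex_ones (P : Finset I) : Ex unif (fun a => ones1 P a) = (1 / 2) ^ P.card := by
  have h := P1.Ex_ones1 P (fun _ => (1 : ℝ))
  rw [Ex_const unif_sum, mul_one] at h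
  rw [← h]
  congr 1
  funext a
  rw [one_mul]

omit [Fintype I] [DecidableEq I] in
theorem ones1_congr {P : Finset I} {a b : I → Bool} (h : ∀ i ∈ P, a i = b i) :
    ones1 P a = ones1 P b := by
  unfold ones1
  have : (∀ i ∈ P, a i = true) ↔ (∀ i ∈ P, b i = true) :=
    ⟨fun h' i hi => (h i hi) ▸ h' i hi, fun h' i hi => (h i hi).symm ▸ h' i hi⟩
  by_cases h1 : ∀ i ∈ P, a i = true
  · rw [if_pos h1, if_pos (this.1 h1)]
  · rw [if_neg h1, if_neg fun h' => h1 (this.2 h')]

end P4

open P4 in
theorem close_plant {τ C : Type*} [Fintype τ] [DecidableEq τ] [Fintype C] {m R : ℕ}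
    (hR : 1 ≤ R) (hC : Fintype.card C = R * 2 ^ m) (W : τ → C → Finset I)
    (hW : ∀ t c, (W t c).card = m)
    (hd : ∀ t c t' c', (t, c) ≠ (t', c') → Disjoint (W t c) (W t' c')) (S : Finset τ)
    (F : (I → Bool) → ℝ) (h0 : ∀ a, 0 ≤ F a) (h1 : ∀ a, F a ≤ 1) (l : ℝ) (hl : 0 < l) :
    Ex unif F ≤ (∑ η : τ → C, Ex unif (fun a => F (pl (PS W S η) a))) /
      (Fintype.card C : ℝ) ^ Fintype.card τ + l / 2 +
        ((1 + 1 / (R : ℝ)) ^ S.card - 1) / (2 * l) := by
  classical
  have hR0 : (0 : ℝ) < R := by exact_mod_cast hR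
  have hC' : (Fintype.card C : ℝ) = R * 2 ^ m := by rw [hC]; push_cast; ring
  have hCpos : (0 : ℝ) < Fintype.card C := by rw [hC']; positivity
  have hSle : S.card ≤ Fintype.card τ := Finset.card_le_univ S
  set Dt : τ → (I → Bool) → ℝ := fun t a => (1 / R) * ∑ c, ones1 (W t c) a with hDt
  set P : (I → Bool) → ℝ := fun a => ∏ t ∈ S, Dt t a with hP
  -- the average over the planted windows
  have key : ∀ G : (I → Bool) → ℝ, (∑ η : τ → C, Ex unif (fun a => G (pl (PS W S η) a))) /
      (Fintype.card C : ℝ) ^ Fintype.card τ = Ex unif (fun a => G a * P a) := by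
    intro G
    rw [avg_plant W hW (fun t t' c c' h => hd t c t' c' fun h' => h (Prod.ext_iff.1 h').1) S G]
    have e1 : ∀ a, G a * ∏ t ∈ S, ∑ c, ones1 (W t c) a = (R : ℝ) ^ S.card * (G a * P a) := by
      intro a
      simp only [hP, hDt]
      rw [Finset.prod_mul_distrib, Finset.prod_const, one_div, inv_pow]
      field_simp
    rw [funext e1, Ex_smul]
    have e2 : (Fintype.card C : ℝ) ^ Fintype.card τ =
        (Fintype.card C : ℝ) ^ (Fintype.card τ - S.card) * (2 ^ (m * S.card) * R ^ S.card) := by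
      rw [pow_mul, ← mul_pow, mul_comm ((2 : ℝ) ^ m), ← hC', ← pow_add]
      congr 1
      omega
    rw [e2]
    have e3 : (0 : ℝ) < (Fintype.card C : ℝ) ^ (Fintype.card τ - S.card) *
        (2 ^ (m * S.card) * R ^ S.card) := by positivity
    rw [div_eq_iff e3.ne']
    ring
  have hP1 : Ex unif P = 1 := by
    have h := key (fun _ => 1)
    simp only [Ex_const unif_sum, Finset.sum_const, Finset.card_univ, Fintype.card_fun,
      nsmul_eq_mul, mul_one, one_mul] at h
    rw [← h]
    push_cast
    exact div_self (by positivity)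
  -- the second moment
  have hP2 : Ex unif (fun a => P a ^ 2) ≤ (1 + 1 / (R : ℝ)) ^ S.card := by
    have h := prod_block S (fun t => Finset.univ.biUnion fun c => W t c)
      (fun t a => Dt t a ^ 2) (fun _ => 1 + 1 / (R : ℝ)) (fun t _ a => sq_nonneg _) ?_ ?_
    · rw [Finset.prod_const] at h
      refine le_of_eq_of_le ?_ h
      congr 1
      funext a
      rw [hP, Finset.prod_pow]
    · intro t _ t' _ htt a b
      simp only [hDt]
      congr 2
      refine Finset.sum_congr rfl fun c _ => ones1_congr fun i hi => ?_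
      unfold mix
      rw [if_neg]
      intro h
      obtain ⟨c', _, hc'⟩ := Finset.mem_biUnion.1 h
      exact Finset.disjoint_left.1 (hd t c t' c' fun h' => htt (Prod.ext_iff.1 h').1) hi hc'
    · intro t _ a
      have e1 : ∀ b, Dt t (mix (Finset.univ.biUnion fun c => W t c) b a) ^ 2 =
          (1 / (R : ℝ)) ^ 2 * ∑ c, ∑ c', ones1 (W t c ∪ W t c') b := by
        intro b
        simp only [hDt]
        have e2 : ∀ c, ones1 (W t c) (mix (Finset.univ.biUnion fun c => W t c) b a) =
            ones1 (W t c) b := by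
          intro c
          refine ones1_congr fun i hi => ?_
          unfold mix
          rw [if_pos (Finset.mem_biUnion.2 ⟨c, Finset.mem_univ c, hi⟩)]
        rw [mul_pow, sq (∑ c, _), Finset.sum_mul_sum]
        congr 1
        refine Finset.sum_congr rfl fun c _ => Finset.sum_congr rfl fun c' _ => ?_
        rw [e2, e2, ones1_mul]
      simp only [e1]
      rw [Ex_smul, Ex_sum]
      have e3 : ∀ c : C, Ex unif (fun b => ∑ c', ones1 (W t c ∪ W t c') b) ≤
          1 / 2 ^ m + (R * 2 ^ m) / 4 ^ m := by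
        intro c
        rw [Ex_sum]
        have e4 : ∀ c' ∈ (Finset.univ : Finset C), Ex unif (fun b => ones1 (W t c ∪ W t c') b) ≤
            (if c' = c then 1 / 2 ^ m else 0) + 1 / 4 ^ m := by
          intro c' _
          rw [Ex_ones]
          by_cases h : c' = c
          · rw [if_pos h, h, Finset.union_self, hW, one_div, inv_pow]
            have : (0 : ℝ) ≤ 1 / 4 ^ m := by positivity
            rw [one_div]
            linarith
          · rw [if_neg h, zero_add, Finset.card_union_of_disjoint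
              (hd t c t c' fun h' => h (Prod.ext_iff.1 h').2.symm), hW, hW]
            rw [← two_mul, pow_mul, show ((1 : ℝ) / 2) ^ 2 = 1 / 4 by norm_num, one_div_pow]
        refine (Finset.sum_le_sum e4).trans (le_of_eq ?_)
        rw [Finset.sum_add_distrib, Finset.sum_ite_eq' Finset.univ c, if_pos (Finset.mem_univ c),
          Finset.sum_const, Finset.card_univ, nsmul_eq_mul, hC']
        ring
      refine (mul_le_mul_of_nonneg_left (Finset.sum_le_sum fun c _ => e3 c)
        (by positivity)).trans (le_of_eq ?_)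
      rw [Finset.sum_const, Finset.card_univ, nsmul_eq_mul, hC']
      have e5 : (4 : ℝ) ^ m = 2 ^ m * 2 ^ m := by
        rw [← mul_pow]; norm_num
      rw [e5]
      have e6 : (0 : ℝ) < 2 ^ m := by positivity
      field_simp
      ring
  -- the end
  rw [key F]
  have e1 : Ex unif F = Ex unif (fun a => F a * P a) + Ex unif (fun a => F a * (1 - P a)) := by
    rw [← Ex_add]
    congr 1
    funext a
    ring
  have e2 : Ex unif (fun a => F a * (1 - P a)) ≤
      Ex unif (fun a => (l / 2 + 1 / (2 * l)) + ((-(1 / l)) * P a + 1 / (2 * l) * P a ^ 2)) := by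
    refine Ex_mono unif_nonneg fun a => ?_
    have a1 : F a * (1 - P a) ≤ |1 - P a| := by
      calc F a * (1 - P a) ≤ |F a * (1 - P a)| := le_abs_self _
        _ = F a * |1 - P a| := by rw [abs_mul, abs_of_nonneg (h0 a)]
        _ ≤ 1 * |1 - P a| := mul_le_mul_of_nonneg_right (h1 a) (abs_nonneg _)
        _ = |1 - P a| := one_mul _
    have a2 : |1 - P a| ≤ l / 2 + (1 - P a) ^ 2 / (2 * l) := by
      rw [← sq_abs (1 - P a)]
      have a3 : l / 2 + |1 - P a| ^ 2 / (2 * l) - |1 - P a| = (l - |1 - P a|) ^ 2 / (2 * l) := by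
        field_simp
        ring
      have a4 : 0 ≤ (l - |1 - P a|) ^ 2 / (2 * l) := by positivity
      linarith
    have a5 : l / 2 + (1 - P a) ^ 2 / (2 * l) =
        (l / 2 + 1 / (2 * l)) + ((-(1 / l)) * P a + 1 / (2 * l) * P a ^ 2) := by
      field_simp
      ring
    linarith
  rw [Ex_add, Ex_const unif_sum, Ex_add, Ex_smul, Ex_smul] at e2
  have e3 : Ex unif (fun a => P a) = 1 := hP1
  rw [e3] at e2
  have e4 : 1 / (2 * l) * Ex unif (fun a => P a ^ 2) ≤
      1 / (2 * l) * (1 + 1 / (R : ℝ)) ^ S.card :=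
    mul_le_mul_of_nonneg_left hP2 (by positivity)
  have e5 : l / 2 + 1 / (2 * l) + (-(1 / l) * 1 + 1 / (2 * l) * (1 + 1 / (R : ℝ)) ^ S.card) =
      l / 2 + ((1 + 1 / (R : ℝ)) ^ S.card - 1) / (2 * l) := by
    field_simp
    ring
  linarith

end

end Pool.Agent.H622R2.Exp
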