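import Pool.Agent.H622R2.Exp.Base
import Pool.Agent.NPC.Num

/-! Stubs. Never import this file in a finished file. -/

namespace Pool.Agent.H622R2.Exp

open Pool.Agent.NPC Pool.Agent.H620R2.Gauge Finset H568R2

/-! ### Task G: file `Exp/G.lean` -/

theorem good_Lin : Good Lin := by sorry

theorem good_Pol : Good Pol := by sorry

/-! ### Task A1: file `Exp/A1.lean` (see H620R2/Gauge/A1.lean) -/

theorem run_local (M : Alg) : ∃ b : Polynomial ℕ, ∀ (A : Oracle) (x : List Bool) (n : ℕ),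
    ∃ Q : Finset (List Bool), Q.card ≤ n ∧ (∀ q ∈ Q, q.length ≤ b.eval (x.length + n)) ∧
      ∀ A' : Oracle, (∀ q ∈ Q, A' q = A q) → M.run A' x n [] = M.run A x n [] := by sorry

/-- the next action of a space bounded algorithm has polynomially bounded length -/
theorem act_length2 (M : SAlg) : ∃ b : Polynomial ℕ, ∀ x a : List Bool,
    (M.act (pairBits x a)).length ≤ b.eval (x.length + a.length) := by sorry

/-! ### Task A2: file `Exp/A2.lean` -/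

/-- deterministic time is contained in nondeterministic time -/
theorem InTime.isNTime {E : Set (Polynomial ℕ)} {A : Oracle} {L : Set (List Bool)}
    (h : InTime E A L) : InNTime E A L := by sorry

theorem InNTime.isAlt {E : Set (Polynomial ℕ)} {A : Oracle} {L : Set (List Bool)}
    (h : InNTime E A L) : InAlt E A L := by sorry

/-! ### Task A3: file `Exp/A3.lean` -/

theorem IsNP.pad {E : Set (Polynomial ℕ)} (hE : Good E) {A : Oracle} {L : Set (List Bool)}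
    (h : IsNP A L) {q : Polynomial ℕ} (hq : q ∈ E) : InNTime E A {x | padq q x ∈ L} := by sorry

/-! ### Task A4: file `Exp/A4.lean` -/

theorem IsPSPACE.pad {E : Set (Polynomial ℕ)} (hE : Good E) {A : Oracle} {L : Set (List Bool)}
    (h : IsPSPACE A L) {q : Polynomial ℕ} (hq : q ∈ E) : InSpace E A {x | padq q x ∈ L} := by sorry

/-! ### Task A5: file `Exp/A5.lean` (may import A4 and Gauge2.Trans) -/

theorem InNTime.isSpace {E : Set (Polynomial ℕ)} (hE : Good E) {A : Oracle}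
    {L : Set (List Bool)} (h : InNTime E A L) : InSpace E A L := by sorry

/-! ### Task A6: file `Exp/A6.lean` -/

theorem inTime_code {E : Set (Polynomial ℕ)} (hE : Good E) (A : Oracle) {r : Polynomial ℕ}
    (hr : r ∈ E) (e : ℕ) : InTime E A {x | A (codeE r e x) = true} := by sorry

/-! ### Task B: file `Exp/B.lean` (may import A3, A4 and Gauge2.V7, Gauge.P) -/

theorem hit2_ntime {E : Set (Polynomial ℕ)} (hE : Good E) (A : Oracle) :
    InNTime E A (hit2 A) := by sorry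

theorem par2_space {E : Set (Polynomial ℕ)} (hE : Good E) (A : Oracle) :
    InSpace E A (par2 A) := by sorry

theorem hitS_ntime {E : Set (Polynomial ℕ)} (hE : Good E) (A : Oracle) :
    InNTime E A (hitS A) := by sorry

theorem hitS_sparse (A : Oracle) : Sparse (hitS A) := by sorry

/-! ### Task M1: file `Exp/M1.lean` (may import GaugeR.R2, GaugeR.Seq, Gauge.S) -/

theorem ver_isFP {A : Oracle} {V : List Bool → List Bool} (hV : IsFP A V) (q r : Polynomial ℕ)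
    (e : ℕ) (sc β κ : ℕ → ℕ) (hκ : UPoly (fun x : List Bool => κ x.length))
    (hsc : UPoly (fun x : List Bool => sc (κ x.length)))
    (hβ : UPoly (fun x : List Bool => β (κ x.length))) : IsFP A (Ver A V q r e sc β κ) := by
  sorry

/-! ### Task M2: file `Exp/M2.lean` (may import Gauge.S) -/

theorem ver_correct {A : Oracle} {L : Set (List Bool)} {V : List Bool → List Bool}
    {q : Polynomial ℕ} (hL : ∀ x : List Bool,
      (x ∈ L ↔ ∃ w : List Bool, w.length ≤ 2 ^ q.eval x.length ∧ V (pairBits w x) = [true]))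
    (e : ℕ) (r : Polynomial ℕ) (sc β κ : ℕ → ℕ) (x : List Bool)
    (hle : x.length ≤ sc (κ x.length))
    (hcen : cens L (sc (κ x.length)) < 2 ^ β (κ x.length))
    (hA : ∀ i < β (κ x.length), (A (codeC r sc e (κ x.length) i) = true ↔
      (cens L (sc (κ x.length))).testBit i = true)) :
    (x ∈ Lᶜ → ∃ w : List Bool, w.length ≤ 2 ^ (sc (κ x.length) + 1) *
        (8 * 2 ^ q.eval (sc (κ x.length)) + 8) + 8 * 2 ^ r.eval (sc (κ x.length)) + 8 ∧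
      Ver A V q r e sc β κ (pairBits w x) = [true]) ∧
    ∀ w : List Bool, Ver A V q r e sc β κ (pairBits w x) = [true] → x ∈ Lᶜ := by sorry

/-! ### Task M3: file `Exp/M3.lean` (may import M1, M2) -/

theorem compl_of_census {E : Set (Polynomial ℕ)} {A : Oracle} {L : Set (List Bool)}
    {V : List Bool → List Bool} (hV : IsFP A V) {q : Polynomial ℕ}
    (hL : ∀ x : List Bool,
      (x ∈ L ↔ ∃ w : List Bool, w.length ≤ 2 ^ q.eval x.length ∧ V (pairBits w x) = [true]))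
    (e : ℕ) (r r' : Polynomial ℕ) (hr' : r' ∈ E) (sc β κ : ℕ → ℕ)
    (hκ : UPoly (fun x : List Bool => κ x.length))
    (hsc : UPoly (fun x : List Bool => sc (κ x.length)))
    (hβ : UPoly (fun x : List Bool => β (κ x.length)))
    (hle : ∀ n, n ≤ sc (κ n))
    (hlen : ∀ n, 2 ^ (sc (κ n) + 1) * (8 * 2 ^ q.eval (sc (κ n)) + 8) +
      8 * 2 ^ r.eval (sc (κ n)) + 8 ≤ 2 ^ r'.eval n)
    (hcen : ∀ n, cens L (sc (κ n)) < 2 ^ β (κ n))
    (hA : ∀ k, ∀ i < β k, (A (codeC r sc e k i) = true ↔ (cens L (sc k)).testBit i = true)) :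
    InNTime E A Lᶜ := by sorry

/-! ### Task C1: file `Exp/C1.lean` (see H620R2/Gauge/C.lean, Phi) -/

theorem exists_fix {ι : Type} (c : ι → List Bool) (hc : Function.Injective c)
    (V : ι → Oracle → Prop)
    (hV : ∀ p A A', (∀ z : List Bool, z.length < (c p).length → A z = A' z) → (V p A ↔ V p A')) :
    ∃ Φ : Oracle → Oracle, (∀ B y, (∀ p, y ≠ c p) → Φ B y = B y) ∧
      ∀ B p, (Φ B (c p) = true ↔ V p (Φ B)) := by sorry

/-! ### Task C2: file `Exp/C2.lean` (may import C1, A1) -/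

theorem exists_codingE {E : Set (Polynomial ℕ)} (hE : Good E) (g : ℕ → Polynomial ℕ)
    (hg : ∀ e, g e ∈ E) :
    ∃ r : ℕ → Polynomial ℕ, (∀ e, r e ∈ E) ∧ (∀ e n, (g e).eval n ≤ (r e).eval n) ∧
      ∀ P : ℕ → ℕ → Prop, ∃ Φ : Oracle → Oracle,
        (∀ B y, (∀ e (x : List Bool), P e x.length → y ≠ codeE (r e) e x) → Φ B y = B y) ∧
        ∀ B L, InSpace E (Φ B) L → ∃ e, ∀ x : List Bool, P e x.length →
          (x ∈ L ↔ Φ B (codeE (r e) e x) = true) := by sorry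

/-! ### Task C3: file `Exp/C3.lean` (may import C1, A1) -/

theorem exists_codingC {E : Set (Polynomial ℕ)} (hE : Good E) (sc : ℕ → ℕ) (β : ℕ → ℕ → ℕ)
    (g : ℕ → ℕ → Polynomial ℕ) (hg : ∀ d e, g d e ∈ E) :
    ∃ (d : ℕ → ℕ) (r : ℕ → Polynomial ℕ) (Φ : Oracle → Oracle), (∀ e, r e ∈ E) ∧
      (∀ e n, (g (d e) e).eval n ≤ (r e).eval n) ∧
      (∀ B y, (∀ e k i, i < β (d e) k → y ≠ codeC (r e) sc e k i) → Φ B y = B y) ∧
      ∀ B L d', InNTime E (Φ B) L → ∃ (e : ℕ) (V : List Bool → List Bool) (q : Polynomial ℕ),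
        d e = d' ∧ IsFP (Φ B) V ∧ q ∈ E ∧
        (∀ x : List Bool, (x ∈ L ↔
          ∃ w : List Bool, w.length ≤ 2 ^ q.eval x.length ∧ V (pairBits w x) = [true])) ∧
        ∀ k, ∀ i < β (d e) k,
          (Φ B (codeC (r e) sc e k i) = true ↔ (cens L (sc k)).testBit i = true) := by sorry

/-! ### Tasks Q: files `Exp/Q1.lean` ... (counting the code strings) -/

open Classical in
theorem count_Lin {ε : ℝ} (hε : 0 < ε) : ∃ K : ℕ, ∀ r : ℕ → Polynomial ℕ,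
    (∀ e n, K * (n + e + 1) ≤ (r e).eval n) →
    ∀ᶠ N : ℕ in Filter.atTop, (((Finset.range N).filter
      (fun i => ∃ e x, str i = codeE (r e) e x)).card : ℝ) ≤ (Real.logb 2 N) ^ ε := by sorry

open Classical in
theorem count_Pol {ε : ℝ} (hε : 0 < ε) : ∃ K : ℕ, ∀ r : ℕ → Polynomial ℕ,
    (∀ e n, (n + e + 1) ^ K ≤ (r e).eval n) →
    ∀ᶠ N : ℕ in Filter.atTop, (((Finset.range N).filter
      (fun i => ∃ e x, str i = codeE (r e) e x)).card : ℝ) ≤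
        2 ^ (Real.logb 2 (Real.logb 2 N)) ^ ε := by sorry

open Classical in
theorem countC_le (d : ℕ → ℕ) (r : ℕ → Polynomial ℕ) (sc : ℕ → ℕ) (β : ℕ → ℕ → ℕ) (N : ℕ) :
    ((Finset.range N).filter (fun i => ∃ e k j, j < β (d e) k ∧
      str i = codeC (r e) sc e k j)).card ≤
    ∑ e ∈ Finset.range (Nat.log 2 N + 1), ∑ k ∈ (Finset.range (Nat.log 2 N + 1)).filter
      (fun k => 2 ^ (r e).eval (sc k) ≤ Nat.log 2 N), β (d e) k := by sorry

open Classical in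
/-- for sets of input lengths that are rich enough for infinitely often -/
theorem choose_IO {f : ℕ → ℝ} {ε : ℝ} (hε : 0 < ε)
    (hf : ∃ᶠ N : ℕ in Filter.atTop, ∀ N' ≥ N, (Real.logb 2 N) ^ ε < f N') :
    ∃ K : ℕ, ∀ r : ℕ → Polynomial ℕ, (∀ e n, K * (n + e + 1) ≤ (r e).eval n) →
      ∃ P : ℕ → ℕ → Prop, (∀ e, ∃ᶠ n : ℕ in Filter.atTop, P e n) ∧
        ∀ᶠ N : ℕ in Filter.atTop, (((Finset.range N).filter
          (fun i => ∃ e x, P e x.length ∧ str i = codeE (r e) e x)).card : ℝ) ≤ f N := by sorry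

theorem sumC_Lin {ε : ℝ} (hε : 0 < ε) : ∃ K : ℕ, ∀ r : ℕ → Polynomial ℕ,
    (∀ e n, K * 4 ^ e * (n + 1) ≤ (r e).eval n) →
    ∀ᶠ N : ℕ in Filter.atTop, ((∑ e ∈ Finset.range (Nat.log 2 N + 1),
      ∑ k ∈ (Finset.range (Nat.log 2 N + 1)).filter
        (fun k => 2 ^ (r e).eval (2 ^ k) ≤ Nat.log 2 N), (2 ^ k + 1) : ℕ) : ℝ) ≤
      ε * Real.logb 2 (Real.logb 2 N) := by sorry

theorem sumC_Pol {ε : ℝ} (hε : 0 < ε) : ∃ K : ℕ, ∀ r : ℕ → Polynomial ℕ,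
    (∀ e n, (n + e + 1) ^ K ≤ (r e).eval n) →
    ∀ᶠ N : ℕ in Filter.atTop, ((∑ e ∈ Finset.range (Nat.log 2 N + 1),
      ∑ k ∈ (Finset.range (Nat.log 2 N + 1)).filter
        (fun k => 2 ^ (r e).eval (2 ^ k) ≤ Nat.log 2 N), (2 ^ k + 1) : ℕ) : ℝ) ≤
      (Real.logb 2 (Real.logb 2 N)) ^ ε := by sorry

theorem sumC_Sparse {ε : ℝ} (hε : 0 < ε) : ∃ K : ℕ, ∀ (d : ℕ → ℕ) (r : ℕ → Polynomial ℕ),
    (∀ e n, n ^ (K * (d e + 1) * 4 ^ e) ≤ (r e).eval n) →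
    ∀ᶠ N : ℕ in Filter.atTop, ((∑ e ∈ Finset.range (Nat.log 2 N + 1),
      ∑ k ∈ (Finset.range (Nat.log 2 N + 1)).filter
        (fun k => 2 ^ (r e).eval (2 ^ 2 ^ k) ≤ Nat.log 2 N), (d e + 1) * (2 ^ k + 1) : ℕ) : ℝ) ≤
      ε * Real.logb 2 (Real.logb 2 (Real.logb 2 N)) := by sorry

/-! ### Tasks Y: files `Exp/Y1.lean` ... (asymptotics of the gauge) -/

theorem asyE {f : ℕ → ℝ}
    (hf : ∀ ε : ℝ, 0 < ε → ∃ᶠ N : ℕ in Filter.atTop, f N ≤ (Real.logb 2 N) ^ ε) :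
    Asy Lin f (fun n => 3 * (11 / 12) ^ 2 ^ n) := by sorry

theorem asyEXP {f : ℕ → ℝ}
    (hf : ∀ ε : ℝ, 0 < ε → ∃ᶠ N : ℕ in Filter.atTop,
      f N ≤ 2 ^ (Real.logb 2 (Real.logb 2 N)) ^ ε) :
    Asy Pol f (fun n => 3 * (11 / 12) ^ 2 ^ n) := by sorry

theorem asyNE {f : ℕ → ℝ}
    (hf : ∀ ε : ℝ, 0 < ε → ∃ᶠ N : ℕ in Filter.atTop,
      f N ≤ ε * Real.logb 2 (Real.logb 2 N)) :
    Asy Lin f (fun n => 3 / 2 ^ (n / 8)) := by sorry

theorem asyNEXP {f : ℕ → ℝ}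
    (hf : ∀ ε : ℝ, 0 < ε → ∃ᶠ N : ℕ in Filter.atTop,
      f N ≤ (Real.logb 2 (Real.logb 2 N)) ^ ε) :
    Asy Pol f (fun n => 3 / 2 ^ (n / 8)) := by sorry

theorem asyS {f : ℕ → ℝ}
    (hf : ∀ ε : ℝ, 0 < ε → ∃ᶠ N : ℕ in Filter.atTop,
      f N ≤ ε * Real.logb 2 (Real.logb 2 (Real.logb 2 N))) (q : Polynomial ℕ) (δ : ℝ)
    (hδ : 0 < δ) (u₀ : ℕ) : ∃ u N : ℕ, u₀ ≤ u ∧ 2 ^ 2 ^ q.eval (2 ^ u) ≤ N ∧
      3 / 2 ^ (u / 8) * 2 ^ f N ≤ δ := by sorry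

/-- the version for infinitely many input lengths -/
theorem asyIO {f : ℕ → ℝ}
    (hf : ∀ ε : ℝ, 0 < ε → ∀ᶠ N : ℕ in Filter.atTop, ∃ N' ≥ N, f N' ≤ (Real.logb 2 N) ^ ε)
    (q : Polynomial ℕ) (hq : q ∈ Lin) (δ : ℝ) (hδ : 0 < δ) (n₀ : ℕ) :
    ∃ (n₁ : ℕ) (N : ℕ → ℕ), n₀ ≤ n₁ ∧ ∀ n ≥ n₁, 2 ^ 2 ^ q.eval n ≤ N n ∧
      3 * (11 / 12) ^ 2 ^ n * 2 ^ f (N n) ≤ δ / 2 ^ (n + 1) := by sorry

/-! ### Task L: file `Exp/L.lean` (sets of oracles that are not null; see GaugeR/R8.lean) -/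

open Classical in
theorem not_null_ev (f : ℕ → ℝ) (Φ : Oracle → Oracle) (T : Set (List Bool))
    (hΦ : ∀ B, ∀ y ∉ T, Φ B y = B y)
    (hT : ∀ᶠ N : ℕ in Filter.atTop,
      (((Finset.range N).filter (fun i => str i ∈ T)).card : ℝ) ≤ f N)
    (O : Set Oracle) (hO : ∀ B, Φ B ∈ O) : ¬ Null f O := by sorry

/-! ### Tasks P: combinatorics of planted windows -/

section

variable {I : Type*} [Fintype I] [DecidableEq I]

theorem avg_plant {τ C : Type*} [Fintype τ] [DecidableEq τ] [Fintype C] {m : ℕ}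
    (W : τ → C → Finset I) (hW : ∀ t c, (W t c).card = m)
    (hd : ∀ t t' c c', t ≠ t' → Disjoint (W t c) (W t' c')) (S : Finset τ)
    (F : (I → Bool) → ℝ) :
    ∑ η : τ → C, Ex unif (fun a => F (pl (PS W S η) a)) =
      (Fintype.card C : ℝ) ^ (Fintype.card τ - S.card) * 2 ^ (m * S.card) *
        Ex unif (fun a => F a * ∏ t ∈ S, ∑ c, ones1 (W t c) a) := by sorry

open Classical in
theorem prob_hit {J : Type*} [Fintype J] {m : ℕ} (hm : 1 ≤ m) (hJ : Fintype.card J = 2 ^ m)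
    (W : J → Finset I) (hW : ∀ j, (W j).card = m) (hd : ∀ j j', j ≠ j' → Disjoint (W j) (W j')) :
    1 / 2 ≤ Ex unif (fun a : I → Bool => if HitF W a then (1 : ℝ) else 0) ∧
      Ex unif (fun a : I → Bool => if HitF W a then (1 : ℝ) else 0) ≤ 3 / 4 := by sorry

open Classical in
theorem det_comb {κ J : Type*} [Fintype κ] [DecidableEq κ] [Fintype J] {m p : ℕ} (hm : 1 ≤ m)
    (hJ : Fintype.card J = 2 ^ m) (W : κ → J → Finset I) (hW : ∀ k j, (W k j).card = m)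
    (hd : ∀ k j k' j', (k, j) ≠ (k', j') → Disjoint (W k j) (W k' j'))
    (g : κ → (I → Bool) → Bool)
    (hg : ∀ k a, ∃ A : Finset I, A.card ≤ p ∧
      ∀ y : I → Bool, (∀ i ∈ A, y i = a i) → g k y = g k a) :
    Ex unif (fun a : I → Bool =>
      if ∀ k, (g k a = true ↔ HitF (W k) a) then (1 : ℝ) else 0) ≤
      (11 / 12) ^ Fintype.card κ +
        2 ^ Fintype.card κ * (Fintype.card κ * (p + 1)) / 2 ^ m := by sorry

theorem close_plant {τ C : Type*} [Fintype τ] [DecidableEq τ] [Fintype C] {m R : ℕ}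
    (hR : 1 ≤ R) (hC : Fintype.card C = R * 2 ^ m) (W : τ → C → Finset I)
    (hW : ∀ t c, (W t c).card = m)
    (hd : ∀ t c t' c', (t, c) ≠ (t', c') → Disjoint (W t c) (W t' c')) (S : Finset τ)
    (F : (I → Bool) → ℝ) (h0 : ∀ a, 0 ≤ F a) (h1 : ∀ a, F a ≤ 1) (l : ℝ) (hl : 0 < l) :
    Ex unif F ≤ (∑ η : τ → C, Ex unif (fun a => F (pl (PS W S η) a))) /
      (Fintype.card C : ℝ) ^ Fintype.card τ + l / 2 +
        ((1 + 1 / (R : ℝ)) ^ S.card - 1) / (2 * l) := by sorry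

open Classical in
theorem pair_bound {τ J : Type*} [Fintype τ] [DecidableEq τ] [Fintype J] {m p R : ℕ}
    (hm : 1 ≤ m) (hR : 1 ≤ R) (hJ : Fintype.card J = 2 ^ m) (W : τ × Fin R → J → Finset I)
    (hW : ∀ k j, (W k j).card = m)
    (hd : ∀ k j k' j', (k, j) ≠ (k', j') → Disjoint (W k j) (W k' j'))
    (V : τ × Fin R → (I → Bool) → Bool) (hV : ∀ k, Cert p true (V k)) (S U : Finset τ)
    (hSU : Disjoint S U) :
    (∑ η : τ → Fin R × J, Ex unif (fun a : I → Bool =>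
      if Corr W V (pl (PS (fun t c => W (t, c.1) c.2) S η) a) ∧
        Corr W V (pl (PS (fun t c => W (t, c.1) c.2) (S ∪ U) η) a) then (1 : ℝ) else 0)) /
      (R * 2 ^ m : ℝ) ^ Fintype.card τ ≤ (3 / 4) ^ U.card + U.card ^ 2 * p / 2 ^ m := by sorry

open Classical in
theorem non_comb {J : Type*} [Fintype J] {m p s : ℕ} (hs : 1 ≤ s) (hm : 1 ≤ m)
    (hJ : Fintype.card J = 2 ^ m)
    (W : (Fin (2 ^ s) × Fin (5 * s)) × Fin (10 * s * 8 ^ s) → J → Finset I)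
    (hW : ∀ k j, (W k j).card = m)
    (hd : ∀ k j k' j', (k, j) ≠ (k', j') → Disjoint (W k j) (W k' j'))
    (V : (Fin (2 ^ s) × Fin (5 * s)) × Fin (10 * s * 8 ^ s) → (I → Bool) → Bool)
    (hV : ∀ k, Cert p true (V k)) (hp : 25 * s ^ 2 * 16 ^ s * p ≤ 2 ^ m) :
    Ex unif (fun a : I → Bool => if Corr W V a then (1 : ℝ) else 0) ≤ 3 / 2 ^ s := by sorry

end

/-! ### Tasks E: the events -/

open Classical in
theorem evD_bound (M : Alg) (q : Polynomial ℕ) : ∃ n₀ : ℕ, ∀ n ≥ n₀, ∀ N : ℕ,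
    2 ^ (3 * mm n + 1) ≤ N →
    Ex unif (fun a : Fin N → Bool => if EvD M q n N a then (1 : ℝ) else 0) ≤
      3 * (11 / 12) ^ 2 ^ n := by sorry

open Classical in
theorem evC_bound (M : Alg) (q : Polynomial ℕ) : ∃ n₀ : ℕ, ∀ n ≥ n₀, ∀ N s : ℕ, 1 ≤ s →
    50 * s ^ 2 * 16 ^ s ≤ 2 ^ n → 2 ^ (3 * mm n + 1) ≤ N →
    ∀ x : (Fin (2 ^ s) × Fin (5 * s)) × Fin (10 * s * 8 ^ s) → List Bool,
    Function.Injective x → (∀ k, (x k).length = n) →
    Ex unif (fun a : Fin N → Bool => if EvC M q n N x a then (1 : ℝ) else 0) ≤ 3 / 2 ^ s := by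
  sorry

open Classical in
theorem evP_bound (M : Alg) (q : Polynomial ℕ) (k : ℕ) : ∃ n₀ : ℕ, ∀ n ≥ n₀, ∀ N : ℕ,
    2 ^ (2 * mm n + 1) ≤ N →
    Ex unif (fun a : Fin N → Bool => if EvP M q k n N a then (1 : ℝ) else 0) ≤
      3 * (11 / 12) ^ 2 ^ n := by sorry

/-! ### Tasks F: from oracles to events -/

theorem evD_of {E : Set (Polynomial ℕ)} (hE : Good E) (M : Alg) {q : Polynomial ℕ} (hq : q ∈ E) :
    ∃ r ∈ E, (∀ n, 3 * mm n + 1 ≤ 2 ^ r.eval n) ∧ ∀ A : Oracle,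
      (∀ x : List Bool, ∃ z : List Bool, M.run A x (2 ^ q.eval x.length) [] = some z ∧
        (x ∈ hit2 A ↔ z = [true])) →
      ∀ n N : ℕ, 2 ^ 2 ^ r.eval n ≤ N → EvD M q n N (pre N A) := by sorry

theorem evC_of {E : Set (Polynomial ℕ)} (hE : Good E) (M : Alg) {q : Polynomial ℕ} (hq : q ∈ E) :
    ∃ r ∈ E, (∀ n, 3 * mm n + 1 ≤ 2 ^ r.eval n) ∧ ∀ (A : Oracle) (n : ℕ) {κ : Type}
      (x : κ → List Bool), (∀ k, (x k).length = n) →
      (∀ k, (¬ padq q4 (x k) ∈ hitLang A ↔ ∃ w : List Bool, w.length ≤ 2 ^ q.eval n ∧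
        M.out A (pairBits w (x k)) = some [true])) →
      ∀ N : ℕ, 2 ^ 2 ^ r.eval n ≤ N → EvC M q n N x (pre N A) := by sorry

theorem evP_of {E : Set (Polynomial ℕ)} (hE : Good E) (M : Alg) {q : Polynomial ℕ} (hq : q ∈ E)
    (k : ℕ) :
    ∃ r ∈ E, (∀ n, 2 * mm n + 1 ≤ 2 ^ r.eval n) ∧ ∀ (A : Oracle) (V : List Bool → List Bool),
      (∀ x, M.out A x = some (V x)) → ∀ n : ℕ,
      (∀ x : List Bool, x.length = n →
        (x ∈ par2 A ↔ Quant (2 ^ q.eval x.length) V k true x)) →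
      ∀ N : ℕ, 2 ^ 2 ^ r.eval n ≤ N → EvP M q k n N (pre N A) := by sorry

/-! ### Tasks N: null sets -/

theorem nullD {E : Set (Polynomial ℕ)} (hE : Good E) {f : ℕ → ℝ}
    (hf : Asy E f (fun n => 3 * (11 / 12) ^ 2 ^ n)) : Null f {A | InTime E A (hit2 A)} := by
  sorry

theorem nullC {E : Set (Polynomial ℕ)} (hE : Good E) {f : ℕ → ℝ}
    (hf : Asy E f (fun n => 3 / 2 ^ (n / 8))) : Null f {A | InNTime E A (hit2 A)ᶜ} := by
  sorry

theorem nullP {E : Set (Polynomial ℕ)} (hE : Good E) {f : ℕ → ℝ}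
    (hf : Asy E f (fun n => 3 * (11 / 12) ^ 2 ^ n)) : Null f {A | InAlt E A (par2 A)} := by
  sorry

theorem nullS {f : ℕ → ℝ}
    (hf : ∀ (q : Polynomial ℕ) (δ : ℝ), 0 < δ → ∀ u₀ : ℕ, ∃ u N : ℕ, u₀ ≤ u ∧
      2 ^ 2 ^ q.eval (2 ^ u) ≤ N ∧ 3 / 2 ^ (u / 8) * 2 ^ f N ≤ δ) :
    Null f {A | InNTime Pol A (hitS A)ᶜ} := by sorry

theorem nullIO {f : ℕ → ℝ}
    (hf : ∀ ε : ℝ, 0 < ε → ∀ᶠ N : ℕ in Filter.atTop, ∃ N' ≥ N, f N' ≤ (Real.logb 2 N) ^ ε) :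
    Null f {A | IO (InAlt Lin A) (par2 A)} := by sorry

/-! ### Tasks K: sets that are not null -/

theorem notNullE {f : ℕ → ℝ} {ε : ℝ} (hε : 0 < ε)
    (hf : ∀ᶠ N : ℕ in Filter.atTop, (Real.logb 2 N) ^ ε < f N) (O : Set Oracle)
    (hO : ∀ A : Oracle, (∀ L, InSpace Lin A L → InTime Lin A L) → A ∈ O) : ¬ Null f O := by
  sorry

theorem notNullEXP {f : ℕ → ℝ} {ε : ℝ} (hε : 0 < ε)
    (hf : ∀ᶠ N : ℕ in Filter.atTop, 2 ^ (Real.logb 2 (Real.logb 2 N)) ^ ε < f N)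
    (O : Set Oracle)
    (hO : ∀ A : Oracle, (∀ L, InSpace Pol A L → InTime Pol A L) → A ∈ O) : ¬ Null f O := by
  sorry

theorem notNullNE {f : ℕ → ℝ} {ε : ℝ} (hε : 0 < ε)
    (hf : ∀ᶠ N : ℕ in Filter.atTop, ε * Real.logb 2 (Real.logb 2 N) < f N) (O : Set Oracle)
    (hO : ∀ A : Oracle, (∀ L, InNTime Lin A L → InNTime Lin A Lᶜ) → A ∈ O) : ¬ Null f O := by
  sorry

theorem notNullNEXP {f : ℕ → ℝ} {ε : ℝ} (hε : 0 < ε)
    (hf : ∀ᶠ N : ℕ in Filter.atTop, (Real.logb 2 (Real.logb 2 N)) ^ ε < f N) (O : Set Oracle)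
    (hO : ∀ A : Oracle, (∀ L, InNTime Pol A L → InNTime Pol A Lᶜ) → A ∈ O) : ¬ Null f O := by
  sorry

theorem notNullS {f : ℕ → ℝ} {ε : ℝ} (hε : 0 < ε)
    (hf : ∀ᶠ N : ℕ in Filter.atTop,
      ε * Real.logb 2 (Real.logb 2 (Real.logb 2 N)) < f N) (O : Set Oracle)
    (hO : ∀ A : Oracle, (∀ L, Sparse L → InNTime Pol A L → InNTime Pol A Lᶜ) → A ∈ O) :
    ¬ Null f O := by sorry

theorem notNullIO {f : ℕ → ℝ} {ε : ℝ} (hε : 0 < ε)
    (hf : ∃ᶠ N : ℕ in Filter.atTop, ∀ N' ≥ N, (Real.logb 2 N) ^ ε < f N') (O : Set Oracle)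
    (hO : ∀ A : Oracle, (∀ L, InSpace Lin A L → IO (InTime Lin A) L) → A ∈ O) :
    ¬ Null f O := by sorry

end Pool.Agent.H622R2.Exp
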